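import Pool.Agent.CycP.Defs

set_option autoImplicit false

/-! A general sufficient condition for (CP). -/

namespace Pool.Agent.CycP

namespace AnSpace

variable {d : ℕ} {Ω : Set (Fin d → ℂ)} {X : Type} [NormedAddCommGroup X] [NormedSpace ℂ X]

lemma fn_ext (A : AnSpace d Ω X) {x y : X} (h : ∀ w ∈ Ω, A.fn x w = A.fn y w) : x = y := by
  have := A.fn_inj (x - y) (fun w hw => by simp [h w hw])
  exact sub_eq_zero.1 this

lemma eval_unique (A : AnSpace d Ω X) {w : Fin d → ℂ} {L L' : X →L[ℂ] ℂ}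
    (h : ∀ P, L (A.poly P) = MvPolynomial.eval w P)
    (h' : ∀ P, L' (A.poly P) = MvPolynomial.eval w P) : L = L' := by
  ext x
  have : (L : X → ℂ) = L' := A.poly_dense.equalizer L.continuous L'.continuous
    (funext fun P => by simp [h P, h' P])
  exact congrFun this x

lemma ext_eq (A : AnSpace d Ω X) {w : Fin d → ℂ} {L : X →L[ℂ] ℂ}
    (h : ∀ P, L (A.poly P) = MvPolynomial.eval w P) (x : X) : A.ext x w = L x := by
  have hw : w ∈ A.maxDomain := ⟨L, h⟩
  unfold ext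
  rw [dif_pos hw]
  rw [A.eval_unique hw.choose_spec h]

/-- evaluation at a point of `Ω` as a bounded functional -/
lemma exists_eval (A : AnSpace d Ω X) {w : Fin d → ℂ} (hw : w ∈ Ω) :
    ∃ L : X →L[ℂ] ℂ, (∀ x, L x = A.fn x w) ∧ ∀ P, L (A.poly P) = MvPolynomial.eval w P := by
  obtain ⟨C, hC⟩ := A.fn_bounded w hw
  refine ⟨LinearMap.mkContinuous ((LinearMap.proj w).comp A.fn) C (fun x => by simpa using hC x),
    fun x => rfl, fun P => A.fn_poly P w hw⟩

lemma subset_maxDomain (A : AnSpace d Ω X) {w : Fin d → ℂ} (hw : w ∈ Ω) : w ∈ A.maxDomain := by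
  obtain ⟨L, -, h⟩ := A.exists_eval hw
  exact ⟨L, h⟩

lemma ext_of_mem (A : AnSpace d Ω X) {w : Fin d → ℂ} (hw : w ∈ Ω) (x : X) :
    A.ext x w = A.fn x w := by
  obtain ⟨L, h, h'⟩ := A.exists_eval hw
  rw [A.ext_eq h' x, h x]

/-- multiplication by a polynomial -/
lemma exists_mul (A : AnSpace d Ω X) (P : MvPolynomial (Fin d) ℂ) :
    ∃ M : X →L[ℂ] X, ∀ x, ∀ w ∈ Ω, A.fn (M x) w = MvPolynomial.eval w P * A.fn x w := by
  induction P using MvPolynomial.induction_on with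
  | C a => exact ⟨a • ContinuousLinearMap.id ℂ X, fun x w hw => by simp⟩
  | add P Q hP hQ =>
    obtain ⟨M, hM⟩ := hP
    obtain ⟨N, hN⟩ := hQ
    exact ⟨M + N, fun x w hw => by simp [hM x w hw, hN x w hw, add_mul]⟩
  | mul_X P j hP =>
    obtain ⟨M, hM⟩ := hP
    exact ⟨(A.shift j).comp M, fun x w hw => by
      simp [A.fn_shift j _ w hw, hM x w hw]; ring⟩

lemma mul_poly (A : AnSpace d Ω X) {P : MvPolynomial (Fin d) ℂ} {M : X →L[ℂ] X}
    (hM : ∀ x, ∀ w ∈ Ω, A.fn (M x) w = MvPolynomial.eval w P * A.fn x w)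
    (Q : MvPolynomial (Fin d) ℂ) : M (A.poly Q) = A.poly (P * Q) := by
  apply A.fn_ext
  intro w hw
  rw [hM _ w hw, A.fn_poly Q w hw, A.fn_poly _ w hw, map_mul]

lemma functional_mul (A : AnSpace d Ω X) {w : Fin d → ℂ} {L : X →L[ℂ] ℂ}
    (h : ∀ P, L (A.poly P) = MvPolynomial.eval w P)
    {P : MvPolynomial (Fin d) ℂ} {M : X →L[ℂ] X}
    (hM : ∀ x, ∀ w ∈ Ω, A.fn (M x) w = MvPolynomial.eval w P * A.fn x w) (x : X) :
    L (M x) = MvPolynomial.eval w P * L x := by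
  have : (fun x => L (M x)) = fun x => MvPolynomial.eval w P * L x := by
    refine A.poly_dense.equalizer (L.continuous.comp M.continuous)
      (continuous_const.mul L.continuous) (funext fun Q => ?_)
    simp [A.mul_poly hM Q, h]
  exact congrFun this x

lemma ext_mul (A : AnSpace d Ω X) {w : Fin d → ℂ} (hw : w ∈ A.maxDomain)
    {P : MvPolynomial (Fin d) ℂ} {x f : X}
    (hx : ∀ v ∈ Ω, A.fn x v = MvPolynomial.eval v P * A.fn f v) :
    A.ext x w = MvPolynomial.eval w P * A.ext f w := by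
  obtain ⟨L, hL⟩ := hw
  obtain ⟨M, hM⟩ := A.exists_mul P
  have : x = M f := A.fn_ext (fun v hv => by rw [hx v hv, hM f v hv])
  rw [A.ext_eq hL, A.ext_eq hL, this, A.functional_mul hL hM]

lemma norm_eval_le (A : AnSpace d Ω X) {w : Fin d → ℂ} (hw : w ∈ A.maxDomain)
    {P : MvPolynomial (Fin d) ℂ} {M : X →L[ℂ] X}
    (hM : ∀ x, ∀ w ∈ Ω, A.fn (M x) w = MvPolynomial.eval w P * A.fn x w) :
    ‖MvPolynomial.eval w P‖ ≤ ‖M‖ := by
  obtain ⟨L, hL⟩ := hw
  have hL0 : 0 < ‖L‖ := by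
    rw [norm_pos_iff]
    intro h0
    have := hL 1
    rw [h0] at this
    simp at this
  have h1 : L.comp M = MvPolynomial.eval w P • L := by
    ext x
    simp [A.functional_mul hL hM x]
  have h2 : ‖MvPolynomial.eval w P‖ * ‖L‖ ≤ ‖L‖ * ‖M‖ := by
    rw [← norm_smul, ← h1]
    exact ContinuousLinearMap.opNorm_comp_le L M
  nlinarith

lemma cyclic_ext_ne_zero (A : AnSpace d Ω X) {f : X} (hf : A.Cyclic f) {w : Fin d → ℂ}
    (hw : w ∈ A.maxDomain) : A.ext f w ≠ 0 := by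
  intro h0
  obtain ⟨L, hL⟩ := hw
  have h1 : A.orbit f ⊆ {x | L x = 0} := by
    rintro x ⟨P, hP⟩
    have := A.ext_mul ⟨L, hL⟩ hP
    rw [A.ext_eq hL] at this
    simp [this, h0]
  have h2 : closure (A.orbit f) ⊆ {x | L x = 0} :=
    closure_minimal h1 (isClosed_eq L.continuous continuous_const)
  rw [hf] at h2
  have := h2 (Set.mem_univ (A.poly 1))
  simp [hL 1] at this

lemma mul_mem_orbit (A : AnSpace d Ω X) {Q : MvPolynomial (Fin d) ℂ} {M : X →L[ℂ] X}
    (hM : ∀ x, ∀ w ∈ Ω, A.fn (M x) w = MvPolynomial.eval w Q * A.fn x w) {g x : X}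
    (hx : x ∈ A.orbit g) : M x ∈ A.orbit g := by
  obtain ⟨P, hP⟩ := hx
  exact ⟨Q * P, fun w hw => by rw [hM x w hw, hP w hw, map_mul, mul_assoc]⟩

lemma mul_mem_closure (A : AnSpace d Ω X) {Q : MvPolynomial (Fin d) ℂ} {M : X →L[ℂ] X}
    (hM : ∀ x, ∀ w ∈ Ω, A.fn (M x) w = MvPolynomial.eval w Q * A.fn x w) {g x : X}
    (hx : x ∈ closure (A.orbit g)) : M x ∈ closure (A.orbit g) := by
  have h1 : M '' closure (A.orbit g) ⊆ closure (M '' A.orbit g) :=
    image_closure_subset_closure_image M.continuous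
  have h2 : closure (M '' A.orbit g) ⊆ closure (A.orbit g) := by
    apply closure_mono
    rintro _ ⟨y, hy, rfl⟩
    exact A.mul_mem_orbit hM hy
  exact h2 (h1 ⟨x, hx, rfl⟩)

lemma cyclic_of_mem_closure (A : AnSpace d Ω X) {g ψ : X} (hψ : A.Cyclic ψ)
    (h : ψ ∈ closure (A.orbit g)) : A.Cyclic g := by
  have h1 : A.orbit ψ ⊆ closure (A.orbit g) := by
    rintro x ⟨Q, hQ⟩
    obtain ⟨M, hM⟩ := A.exists_mul Q
    have : x = M ψ := A.fn_ext (fun v hv => by rw [hQ v hv, hM ψ v hv])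
    rw [this]
    exact A.mul_mem_closure hM h
  have h2 : closure (A.orbit ψ) ⊆ closure (A.orbit g) :=
    closure_minimal h1 isClosed_closure
  rw [hψ] at h2
  exact Set.univ_subset_iff.1 h2

end AnSpace

open AnSpace

/-- If every `h` which is dominated on the maximal domain by a constant times a zero-free `g`
lies in the closed shift-invariant subspace generated by `g`, then (CP) holds. -/
theorem cp_of_domination {d' : ℕ} {Ω' : Set (Fin d' → ℂ)} {Y : Type} [NormedAddCommGroup Y]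
    [NormedSpace ℂ Y] (B : AnSpace d' Ω' Y)
    (hU : ∀ g h : Y, (∀ w ∈ B.maxDomain, B.ext g w ≠ 0) →
      (∃ C : ℝ, ∀ w ∈ B.maxDomain, ‖B.ext h w‖ ≤ C * ‖B.ext g w‖) →
      h ∈ closure (B.orbit g)) : B.CP := by
  intro d Ω X _ _ _ A φ ψ T hψ hT f hf
  have hg0 : ∀ w ∈ B.maxDomain, B.ext (T f) w ≠ 0 := by
    intro w hw
    rw [hT f ⟨w, hw⟩]
    exact mul_ne_zero (B.cyclic_ext_ne_zero hψ hw) (A.cyclic_ext_ne_zero hf (φ ⟨w, hw⟩).2)
  have h1 : ∀ x ∈ A.orbit f, T x ∈ closure (B.orbit (T f)) := by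
    rintro x ⟨P, hP⟩
    obtain ⟨M, hM⟩ := A.exists_mul P
    refine hU _ _ hg0 ⟨‖M‖, fun w hw => ?_⟩
    have h2 := A.ext_mul (φ ⟨w, hw⟩).2 hP
    have h3 := hT x ⟨w, hw⟩
    have h4 := hT f ⟨w, hw⟩
    simp only at h3 h4
    rw [h3, h2, h4]
    have h5 := A.norm_eval_le (φ ⟨w, hw⟩).2 hM
    rw [norm_mul, norm_mul, norm_mul]
    have h6 : 0 ≤ ‖B.ext ψ w‖ * ‖A.ext f (φ ⟨w, hw⟩)‖ := by positivity
    nlinarith
  have h2 : T '' closure (A.orbit f) ⊆ closure (B.orbit (T f)) := by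
    refine (image_closure_subset_closure_image T.continuous).trans ?_
    apply closure_minimal _ isClosed_closure
    rintro _ ⟨x, hx, rfl⟩
    exact h1 x hx
  have h3 : T (A.poly 1) = ψ := by
    apply B.fn_ext
    intro w hw
    have h4 := hT (A.poly 1) ⟨w, B.subset_maxDomain hw⟩
    simp only at h4
    obtain ⟨L, hL⟩ := (φ ⟨w, B.subset_maxDomain hw⟩).2
    rw [A.ext_eq hL, hL 1, B.ext_of_mem hw, B.ext_of_mem hw] at h4
    simpa using h4
  have h4 : ψ ∈ closure (B.orbit (T f)) := by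
    rw [← h3]
    apply h2
    refine ⟨A.poly 1, ?_, rfl⟩
    rw [hf]
    trivial
  exact B.cyclic_of_mem_closure hψ h4

/-- Banach algebras generated by the coordinate functions have (CP). -/
theorem cp_of_algebra {d' : ℕ} {Ω' : Set (Fin d' → ℂ)} {Y : Type} [NormedCommRing Y]
    [NormedAlgebra ℂ Y] [CompleteSpace Y] (B : AnSpace d' Ω' Y)
    (hmul : ∀ x y : Y, ∀ w ∈ Ω', B.fn (x * y) w = B.fn x w * B.fn y w) : B.CP := by
  have hp1 : B.poly 1 = 1 := by
    apply B.fn_ext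
    intro w hw
    have h1 := hmul 1 (B.poly 1) w hw
    rw [one_mul, B.fn_poly 1 w hw] at h1
    rw [B.fn_poly 1 w hw]
    simpa using h1
  have hpm : ∀ P Q, B.poly (P * Q) = B.poly P * B.poly Q := by
    intro P Q
    apply B.fn_ext
    intro w hw
    rw [hmul _ _ w hw, B.fn_poly _ w hw, B.fn_poly _ w hw, B.fn_poly _ w hw, map_mul]
  have hpa : ∀ P Q, B.poly (P + Q) = B.poly P + B.poly Q := by
    intro P Q
    apply B.fn_ext
    intro w hw
    rw [map_add, Pi.add_apply, B.fn_poly _ w hw, B.fn_poly _ w hw, B.fn_poly _ w hw, map_add]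
  have hpc : ∀ a : ℂ, B.poly (MvPolynomial.C a) = a • (1 : Y) := by
    intro a
    apply B.fn_ext
    intro w hw
    rw [map_smul, Pi.smul_apply, ← hp1, B.fn_poly _ w hw, B.fn_poly _ w hw]
    simp
  apply cp_of_domination
  intro g h hg _
  -- `g` is invertible
  have hu : IsUnit g := by
    by_contra hu
    obtain ⟨χ, hχ⟩ := WeakDual.CharacterSpace.exists_apply_eq_zero hu
    let L : Y →L[ℂ] ℂ := ((χ : WeakDual ℂ Y) : Y →L[ℂ] ℂ)
    have hLmul : ∀ x y, L (x * y) = L x * L y := fun x y => map_mul χ x y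
    have hL1 : L 1 = 1 := map_one χ
    have hL : ∀ P, L (B.poly P) =
        MvPolynomial.eval (fun j => L (B.poly (MvPolynomial.X j))) P := by
      intro P
      induction P using MvPolynomial.induction_on with
      | C a => rw [hpc, map_smul, hL1]; simp
      | add P Q hP hQ => rw [hpa, map_add, hP, hQ, map_add]
      | mul_X P j hP => rw [hpm, hLmul, hP, map_mul, MvPolynomial.eval_X]
    have h0 := B.ext_eq hL g
    exact hg _ ⟨L, hL⟩ (h0.trans hχ)
  obtain ⟨u, rfl⟩ := hu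
  have h1 : h * (↑u⁻¹ : Y) * u = h := by rw [mul_assoc]; simp
  rw [← h1]
  have h2 : h * (↑u⁻¹ : Y) ∈ closure (Set.range B.poly) := B.poly_dense _
  have h3 : (fun x : Y => x * u) '' closure (Set.range B.poly) ⊆
      closure ((fun x : Y => x * u) '' Set.range B.poly) :=
    image_closure_subset_closure_image (by fun_prop)
  have h4 : (fun x : Y => x * u) '' Set.range B.poly ⊆ B.orbit u := by
    rintro _ ⟨_, ⟨P, rfl⟩, rfl⟩
    exact ⟨P, fun w hw => by simp only; rw [hmul _ _ w hw, B.fn_poly _ w hw]⟩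
  exact closure_mono h4 (h3 ⟨_, h2, rfl⟩)

end Pool.Agent.CycP
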