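import Mathlib

set_option autoImplicit false

/-! Square summable sequences of square summable sequences; block diagonal operators. -/

namespace Pool.Agent.CycP

open scoped ENNReal
open Polynomial

/-- Square summable sequences. -/
abbrev HH : Type := lp (fun _ : ℕ => ℂ) 2

/-- Square summable sequences of square summable sequences. -/
abbrev YY : Type := lp (fun _ : ℕ => HH) 2

section dom

variable {E F : ℕ → Type} [∀ i, NormedAddCommGroup (E i)] [∀ i, NormedAddCommGroup (F i)]

lemma sum_sq_le (y : lp E 2) (s : Finset ℕ) : ∑ i ∈ s, ‖y i‖ ^ 2 ≤ ‖y‖ ^ 2 := by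
  have h := lp.sum_rpow_le_norm_rpow (p := 2) (by simp) y s
  simpa using h

lemma memlp_of_le {z : ∀ i, F i} {C : ℝ} (h : ∀ s : Finset ℕ, ∑ i ∈ s, ‖z i‖ ^ 2 ≤ C) :
    Memℓp z 2 := by
  apply memℓp_gen' (C := C)
  intro s
  simpa using h s

lemma norm_le_of_sq {z : lp F 2} {C : ℝ} (hC : 0 ≤ C)
    (h : ∀ s : Finset ℕ, ∑ i ∈ s, ‖z i‖ ^ 2 ≤ C ^ 2) : ‖z‖ ≤ C := by
  apply lp.norm_le_of_forall_sum_le (p := 2) (by simp) hC
  intro s
  simpa using h s

lemma sum_sq_dom (y : lp E 2) {z : ∀ i, F i} {C : ℝ}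
    (h : ∀ i, ‖z i‖ ≤ C * ‖y i‖) (s : Finset ℕ) : ∑ i ∈ s, ‖z i‖ ^ 2 ≤ (C * ‖y‖) ^ 2 := by
  calc ∑ i ∈ s, ‖z i‖ ^ 2 ≤ ∑ i ∈ s, C ^ 2 * ‖y i‖ ^ 2 := by
        apply Finset.sum_le_sum
        intro i _
        rw [← mul_pow]
        exact pow_le_pow_left₀ (norm_nonneg _) (h i) 2
    _ = C ^ 2 * ∑ i ∈ s, ‖y i‖ ^ 2 := by rw [Finset.mul_sum]
    _ ≤ C ^ 2 * ‖y‖ ^ 2 := by
        apply mul_le_mul_of_nonneg_left (sum_sq_le y s) (sq_nonneg C)
    _ = (C * ‖y‖) ^ 2 := by ring

lemma memlp_dom (y : lp E 2) {z : ∀ i, F i} {C : ℝ} (h : ∀ i, ‖z i‖ ≤ C * ‖y i‖) :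
    Memℓp z 2 := memlp_of_le (sum_sq_dom y h)

lemma norm_dom (y : lp E 2) {z : lp F 2} {C : ℝ} (hC : 0 ≤ C)
    (h : ∀ i, ‖z i‖ ≤ C * ‖y i‖) : ‖z‖ ≤ C * ‖y‖ :=
  norm_le_of_sq (mul_nonneg hC (norm_nonneg _)) (sum_sq_dom y h)

end dom

/-- the block diagonal operator -/
noncomputable def blk (A : ℕ → HH →L[ℂ] HH) (C : ℝ) (hC : ∀ j, ‖A j‖ ≤ C) : YY →L[ℂ] YY :=
  LinearMap.mkContinuous
    { toFun := fun y => ⟨fun j => A j (y j), memlp_dom y (C := C) (fun j =>
        ((A j).le_opNorm (y j)).trans (mul_le_mul_of_nonneg_right (hC j) (norm_nonneg _)))⟩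
      map_add' := fun x y => by
        ext1
        funext j
        show A j ((x + y) j) = A j (x j) + A j (y j)
        rw [lp.coeFn_add, Pi.add_apply, map_add]
      map_smul' := fun c y => by
        ext1
        funext j
        show A j ((c • y) j) = c • A j (y j)
        rw [lp.coeFn_smul, Pi.smul_apply, map_smul] }
    C (fun y => by
      have h0 : 0 ≤ C := (norm_nonneg _).trans (hC 0)
      exact norm_dom y h0 (fun j =>
        ((A j).le_opNorm (y j)).trans (mul_le_mul_of_nonneg_right (hC j) (norm_nonneg _))))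

@[simp] lemma blk_apply (A : ℕ → HH →L[ℂ] HH) (C : ℝ) (hC : ∀ j, ‖A j‖ ≤ C) (y : YY) (j : ℕ) :
    blk A C hC y j = A j (y j) := rfl

lemma aeval_blk (A : ℕ → HH →L[ℂ] HH) (C : ℝ) (hC : ∀ j, ‖A j‖ ≤ C) (p : ℂ[X]) (y : YY)
    (j : ℕ) : aeval (blk A C hC) p y j = aeval (A j) p (y j) := by
  induction p using Polynomial.induction_on' generalizing y with
  | add p q hp hq => simp [hp, hq]
  | monomial n a =>
    have h : ∀ (n : ℕ) (y : YY), ((blk A C hC) ^ n) y j = ((A j) ^ n) (y j) := by
      intro n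
      induction n with
      | zero => intro y; simp
      | succ n ih =>
        intro y
        rw [pow_succ, pow_succ, ContinuousLinearMap.mul_def, ContinuousLinearMap.mul_def,
          ContinuousLinearMap.comp_apply, ContinuousLinearMap.comp_apply, ih, blk_apply]
    rw [aeval_monomial, aeval_monomial, Algebra.algebraMap_eq_smul_one,
      Algebra.algebraMap_eq_smul_one, smul_mul_assoc, smul_mul_assoc, one_mul, one_mul,
      smul_apply, smul_apply, lp.coeFn_smul,
      Pi.smul_apply, h]

/-- the shift operator -/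
noncomputable def UU : HH →L[ℂ] HH :=
  LinearMap.mkContinuous
    { toFun := fun h => ⟨fun k => if k = 0 then 0 else h (k - 1), by
        apply memlp_of_le (C := ‖h‖ ^ 2)
        intro s
        calc ∑ i ∈ s, ‖(if i = 0 then 0 else h (i - 1) : ℂ)‖ ^ 2
            ≤ ∑ i ∈ s.erase 0, ‖h (i - 1)‖ ^ 2 := by
              rw [← Finset.sum_filter_add_sum_filter_not s (fun i => i = 0)]
              have h1 : ∑ i ∈ s with i = 0, ‖(if i = 0 then 0 else h (i - 1) : ℂ)‖ ^ 2 = 0 := by
                apply Finset.sum_eq_zero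
                intro i hi
                simp [(Finset.mem_filter.1 hi).2]
              rw [h1, zero_add]
              apply le_of_eq
              apply Finset.sum_congr
              · ext i; simp [and_comm]
              · intro i hi
                have : i ≠ 0 := (Finset.mem_erase.1 hi).1
                simp [this]
          _ = ∑ i ∈ (s.erase 0).image (fun i => i - 1), ‖h i‖ ^ 2 := by
              rw [Finset.sum_image]
              intro a ha b hb hab
              have h1 : a ≠ 0 := (Finset.mem_erase.1 ha).1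
              have h2 : b ≠ 0 := (Finset.mem_erase.1 hb).1
              simp only at hab
              omega
          _ ≤ ‖h‖ ^ 2 := sum_sq_le h _⟩
      map_add' := fun x y => by
        ext1
        funext j
        show (if j = 0 then 0 else (x + y) (j - 1)) =
          (if j = 0 then 0 else x (j - 1)) + (if j = 0 then 0 else y (j - 1))
        by_cases hj : j = 0 <;> simp [hj]
      map_smul' := fun c y => by
        ext1
        funext j
        show (if j = 0 then 0 else (c • y) (j - 1)) = c • (if j = 0 then 0 else y (j - 1))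
        by_cases hj : j = 0 <;> simp [hj] }
    1 (fun h => by
      rw [one_mul]
      apply norm_le_of_sq (norm_nonneg _)
      intro s
      calc ∑ i ∈ s, ‖(if i = 0 then 0 else h (i - 1) : ℂ)‖ ^ 2
            ≤ ∑ i ∈ s.erase 0, ‖h (i - 1)‖ ^ 2 := by
              rw [← Finset.sum_filter_add_sum_filter_not s (fun i => i = 0)]
              have h1 : ∑ i ∈ s with i = 0, ‖(if i = 0 then 0 else h (i - 1) : ℂ)‖ ^ 2 = 0 := by
                apply Finset.sum_eq_zero
                intro i hi
                simp [(Finset.mem_filter.1 hi).2]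
              rw [h1, zero_add]
              apply le_of_eq
              apply Finset.sum_congr
              · ext i; simp [and_comm]
              · intro i hi
                have : i ≠ 0 := (Finset.mem_erase.1 hi).1
                simp [this]
          _ = ∑ i ∈ (s.erase 0).image (fun i => i - 1), ‖h i‖ ^ 2 := by
              rw [Finset.sum_image]
              intro a ha b hb hab
              have h1 : a ≠ 0 := (Finset.mem_erase.1 ha).1
              have h2 : b ≠ 0 := (Finset.mem_erase.1 hb).1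
              simp only at hab
              omega
          _ ≤ ‖h‖ ^ 2 := sum_sq_le h _)

@[simp] lemma UU_zero (h : HH) : UU h 0 = 0 := rfl

@[simp] lemma UU_succ (h : HH) (k : ℕ) : UU h (k + 1) = h k := rfl

lemma UU_norm : ‖UU‖ ≤ 1 := LinearMap.mkContinuous_norm_le _ zero_le_one _

/-- the first basis vector -/
noncomputable def e0 : HH := lp.single 2 0 (1 : ℂ)

lemma UU_single (k : ℕ) (a : ℂ) : UU (lp.single 2 k a) = lp.single 2 (k + 1) a := by
  ext1
  funext j
  rcases j with _ | j
  · rw [UU_zero]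
    simp
  · rw [UU_succ]
    by_cases h : j = k
    · subst h; simp
    · simp [h]

lemma UU_pow_e0 (k : ℕ) : (UU ^ k) e0 = lp.single 2 k (1 : ℂ) := by
  induction k with
  | zero => simp [e0]
  | succ k ih => rw [pow_succ', ContinuousLinearMap.mul_def, ContinuousLinearMap.comp_apply, ih, UU_single]

/-! ### point evaluation -/

lemma coord_le (h : HH) (k : ℕ) : ‖h k‖ ≤ ‖h‖ := lp.norm_apply_le_norm (by simp) h k

lemma pv_summable (h : HH) {u : ℂ} (hu : ‖u‖ < 1) : Summable (fun k => h k * u ^ k) := by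
  apply Summable.of_norm
  apply Summable.of_nonneg_of_le (fun _ => norm_nonneg _) (fun k => ?_)
    ((summable_geometric_of_lt_one (norm_nonneg u) hu).mul_left ‖h‖)
  rw [norm_mul, norm_pow]
  exact mul_le_mul_of_nonneg_right (coord_le h k) (by positivity)

/-- the value at `u` of the power series with coefficients `h` -/
noncomputable def pv (h : HH) (u : ℂ) : ℂ := ∑' k, h k * u ^ k

lemma pv_add (h h' : HH) {u : ℂ} (hu : ‖u‖ < 1) : pv (h + h') u = pv h u + pv h' u := by
  unfold pv
  rw [← (pv_summable h hu).tsum_add (pv_summable h' hu)]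
  congr 1
  funext k
  simp [add_mul]

lemma pv_smul (c : ℂ) (h : HH) (u : ℂ) : pv (c • h) u = c * pv h u := by
  unfold pv
  rw [← tsum_mul_left]
  congr 1
  funext k
  simp [mul_assoc]

lemma pv_norm (h : HH) {u : ℂ} (hu : ‖u‖ < 1) : ‖pv h u‖ ≤ (1 - ‖u‖)⁻¹ * ‖h‖ := by
  unfold pv
  have h1 : Summable fun k => ‖h k * u ^ k‖ := (pv_summable h hu).norm
  calc ‖∑' k, h k * u ^ k‖ ≤ ∑' k, ‖h k * u ^ k‖ := norm_tsum_le_tsum_norm h1
    _ ≤ ∑' k, ‖h‖ * ‖u‖ ^ k := by
        apply Summable.tsum_le_tsum _ h1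
          ((summable_geometric_of_lt_one (norm_nonneg u) hu).mul_left ‖h‖)
        intro k
        rw [norm_mul, norm_pow]
        exact mul_le_mul_of_nonneg_right (coord_le h k) (by positivity)
    _ = (1 - ‖u‖)⁻¹ * ‖h‖ := by
        rw [tsum_mul_left, tsum_geometric_of_lt_one (norm_nonneg u) hu, mul_comm]

lemma pv_UU (h : HH) {u : ℂ} (hu : ‖u‖ < 1) : pv (UU h) u = u * pv h u := by
  unfold pv
  rw [(pv_summable (UU h) hu).tsum_eq_zero_add, ← tsum_mul_left]
  simp only [UU_zero, zero_mul, zero_add, UU_succ]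
  congr 1
  funext k
  ring

lemma pv_e0 (u : ℂ) : pv e0 u = 1 := by
  unfold pv e0
  rw [tsum_eq_single 0]
  · simp
  · intro k hk
    simp [hk]

lemma pv_zero (h : HH) : pv h 0 = h 0 := by
  unfold pv
  rw [tsum_eq_single 0]
  · simp
  · intro k hk
    simp [hk]

lemma pv_differentiableOn (h : HH) : DifferentiableOn ℂ (pv h) (Metric.ball 0 1) := by
  intro u hu
  rw [Metric.mem_ball, dist_zero_right] at hu
  obtain ⟨ρ, h1, h2⟩ := exists_between hu
  have h3 : DifferentiableOn ℂ (fun u => ∑' k, h k * u ^ k) (Metric.ball 0 ρ) := by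
    apply Complex.differentiableOn_tsum_of_summable_norm (u := fun k => ‖h‖ * ρ ^ k)
    · exact (summable_geometric_of_lt_one ((norm_nonneg u).trans h1.le) h2).mul_left _
    · intro k
      fun_prop
    · exact Metric.isOpen_ball
    · intro k w hw
      rw [Metric.mem_ball, dist_zero_right] at hw
      rw [norm_mul, norm_pow]
      exact mul_le_mul (coord_le h k) (pow_le_pow_left₀ (norm_nonneg _) hw.le k) (by positivity)
        (norm_nonneg _)
  have h4 : DifferentiableAt ℂ (fun u => ∑' k, h k * u ^ k) u :=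
    h3.differentiableAt (Metric.isOpen_ball.mem_nhds (by simpa using h1))
  exact h4.differentiableWithinAt

lemma pv_analytic (h : HH) : AnalyticOnNhd ℂ (pv h) (Metric.ball 0 1) :=
  (pv_differentiableOn h).analyticOnNhd Metric.isOpen_ball

/-- a power series vanishing in the disc has zero coefficients -/
lemma pv_inj (h : HH) (h0 : ∀ u : ℂ, ‖u‖ < 1 → pv h u = 0) : h = 0 := by
  have h1 : HasFPowerSeriesAt (0 : ℂ → ℂ)
      (fun n => ContinuousMultilinearMap.mkPiRing ℂ (Fin n) (h n)) 0 := by
    refine hasFPowerSeriesAt_iff.2 ?_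
    have : Metric.ball (0 : ℂ) 1 ∈ nhds (0 : ℂ) := Metric.ball_mem_nhds 0 one_pos
    filter_upwards [this] with u hu
    rw [Metric.mem_ball, dist_zero_right] at hu
    have h2 := (pv_summable h hu).hasSum
    have h3 : ∑' k, h k * u ^ k = 0 := h0 u hu
    rw [h3] at h2
    refine h2.congr_fun ?_ |> fun h => by simpa using h
    intro n
    simp [FormalMultilinearSeries.coeff, mul_comm]
  have h2 := h1.eq_zero
  ext1
  funext n
  have h3 := congrFun h2 n
  have h4 : (ContinuousMultilinearMap.mkPiRing ℂ (Fin n) (h n)) (fun _ => 1) = 0 := by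
    rw [h3]; rfl
  simpa using h4

/-! ### the affine shifts -/

/-- multiplication by `z + r u` -/
noncomputable def AA (z : ℂ) (r : ℝ) : HH →L[ℂ] HH := z • 1 + (r : ℂ) • UU

lemma AA_norm (z : ℂ) {r : ℝ} (hr : 0 ≤ r) : ‖AA z r‖ ≤ ‖z‖ + r := by
  unfold AA
  refine (norm_add_le _ _).trans ?_
  rw [norm_smul, norm_smul]
  have h1 : ‖(1 : HH →L[ℂ] HH)‖ ≤ 1 := ContinuousLinearMap.norm_id_le
  have h2 : ‖(r : ℂ)‖ = r := by simp [abs_of_nonneg hr]
  rw [h2]
  have h3 : ‖z‖ * ‖(1 : HH →L[ℂ] HH)‖ ≤ ‖z‖ * 1 :=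
    mul_le_mul_of_nonneg_left h1 (norm_nonneg _)
  have h4 : r * ‖UU‖ ≤ r * 1 := mul_le_mul_of_nonneg_left UU_norm hr
  linarith

lemma pv_AA (z : ℂ) (r : ℝ) (h : HH) {u : ℂ} (hu : ‖u‖ < 1) :
    pv (AA z r h) u = (z + r * u) * pv h u := by
  have : AA z r h = z • h + (r : ℂ) • UU h := rfl
  rw [this, pv_add _ _ hu, pv_smul, pv_smul, pv_UU h hu]
  ring

lemma pv_aeval (z : ℂ) (r : ℝ) (p : ℂ[X]) (h : HH) {u : ℂ} (hu : ‖u‖ < 1) :
    pv (aeval (AA z r) p h) u = p.eval (z + r * u) * pv h u := by
  induction p using Polynomial.induction_on' generalizing h with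
  | add p q hp hq =>
    rw [map_add, add_apply, pv_add _ _ hu, hp, hq, eval_add, add_mul]
  | monomial n a =>
    have h1 : ∀ (n : ℕ) (h : HH), pv ((AA z r ^ n) h) u = (z + r * u) ^ n * pv h u := by
      intro n
      induction n with
      | zero => intro h; simp
      | succ n ih =>
        intro h
        rw [pow_succ, ContinuousLinearMap.mul_def, ContinuousLinearMap.comp_apply, ih, pv_AA z r h hu]
        ring
    rw [aeval_monomial, Algebra.algebraMap_eq_smul_one, smul_mul_assoc, one_mul,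
      smul_apply, pv_smul, h1, eval_monomial]
    ring

/-- the centre value of a polynomial -/
lemma aeval_coord (z : ℂ) (r : ℝ) (p : ℂ[X]) (h : HH) :
    (aeval (AA z r) p h) 0 = p.eval z * h 0 := by
  have h1 := pv_aeval z r p h (u := 0) (by simp)
  rw [pv_zero, pv_zero] at h1
  simpa using h1

end Pool.Agent.CycP
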