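import Pool.Agent.CycP.PickE

set_option autoImplicit false
set_option linter.unusedSectionVars false

/-! Spaces in which homogeneous polynomials of different degrees are orthogonal: every multiple
`h g`, `h` a multiplier, is in the closed shift-invariant subspace generated by `g`. -/

open ComplexConjugate Filter Topology

noncomputable section

namespace Pool.Agent.CycP

namespace AnSpace

variable {d : ℕ} {Ω : Set (Fin d → ℂ)} {Y : Type} [NormedAddCommGroup Y] [InnerProductSpace ℂ Y]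

lemma Graded.comp_orth {B : AnSpace d Ω Y} (hG : B.Graded) (x y : Y) (i j : ℕ) (hij : i ≠ j) :
    inner ℂ (B.comp i x) (B.comp j y) = 0 := by
  obtain ⟨P, hP, hP'⟩ := B.comp_mem i x
  obtain ⟨Q, hQ, hQ'⟩ := B.comp_mem j y
  rw [← hP', ← hQ']
  exact hG i j P Q hP hQ hij

lemma inner_comp_self (B : AnSpace d Ω Y) (l : ℕ) (x : Y) :
    (inner ℂ (B.comp l x) x).re = ‖B.comp l x‖ ^ 2 := by
  have h1 : inner ℂ (B.comp l x) x = inner ℂ (B.comp l x) (B.comp l x) := by
    have h2 := (B.hom l).starProjection_inner_eq_zero x (B.comp l x)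
      ((B.hom l).starProjection_apply_mem x)
    rw [inner_sub_left, sub_eq_zero] at h2
    rw [← inner_conj_symm, h2, inner_conj_symm]
    rfl
  rw [h1, ← RCLike.re_eq_complex_re]
  exact inner_self_eq_norm_sq _

/-- the Fejer weights -/
def wt (n l : ℕ) : ℝ := ((n + 1 - l : ℕ) : ℝ) / (n + 1)

lemma wt_nonneg (n l : ℕ) : 0 ≤ wt n l := by
  unfold wt
  positivity

lemma wt_le (n l : ℕ) : wt n l ≤ 1 := by
  unfold wt
  rw [div_le_one (by positivity)]
  have : ((n + 1 - l : ℕ) : ℝ) ≤ ((n + 1 : ℕ) : ℝ) := by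
    exact_mod_cast Nat.sub_le _ _
  push_cast at this
  linarith

lemma wt_tendsto (l : ℕ) : Tendsto (fun n => wt n l) atTop (𝓝 1) := by
  have h1 : Tendsto (fun n : ℕ => 1 - (l : ℝ) * (1 / ((n : ℝ) + 1))) atTop (𝓝 (1 - l * 0)) :=
    ((tendsto_one_div_add_atTop_nhds_zero_nat (𝕜 := ℝ)).const_mul _).const_sub 1
  rw [mul_zero, sub_zero] at h1
  refine h1.congr' ?_
  filter_upwards [eventually_ge_atTop l] with n hn
  unfold wt
  rw [Nat.cast_sub (by omega)]
  push_cast
  have : (n : ℝ) + 1 ≠ 0 := by positivity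
  field_simp

/-- the Fejer means -/
def fej (B : AnSpace d Ω Y) (n : ℕ) (x : Y) : Y :=
  ∑ l ∈ Finset.range (n + 1), (wt n l : ℂ) • B.comp l x

lemma Graded.norm_fej {B : AnSpace d Ω Y} (hG : B.Graded) (n : ℕ) (x : Y) :
    ‖B.fej n x‖ ≤ ‖x‖ := by
  have h1 : ‖B.fej n x‖ ^ 2 = ∑ l ∈ Finset.range (n + 1), wt n l * wt n l * ‖B.comp l x‖ ^ 2 :=
    norm_sq_sum (fun i j hij => hG.comp_orth x x i j hij) (n + 1) (wt n)
  have h2 : (inner ℂ (B.fej n x) x).re = ∑ l ∈ Finset.range (n + 1), wt n l * ‖B.comp l x‖ ^ 2 := by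
    unfold fej
    rw [sum_inner, Complex.re_sum]
    refine Finset.sum_congr rfl fun l _ => ?_
    rw [inner_smul_left, Complex.conj_ofReal, Complex.re_ofReal_mul, B.inner_comp_self]
  have h3 : ‖B.fej n x‖ ^ 2 ≤ (inner ℂ (B.fej n x) x).re := by
    rw [h1, h2]
    refine Finset.sum_le_sum fun l _ => ?_
    have := wt_nonneg n l
    have := wt_le n l
    have h4 : wt n l * wt n l ≤ wt n l := by nlinarith
    exact mul_le_mul_of_nonneg_right h4 (by positivity)
  have h4 : (inner ℂ (B.fej n x) x).re ≤ ‖B.fej n x‖ * ‖x‖ :=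
    (Complex.re_le_norm _).trans (norm_inner_le_norm _ _)
  by_contra h5
  rw [not_le] at h5
  have h6 : 0 < ‖B.fej n x‖ := (norm_nonneg x).trans_lt h5
  nlinarith

lemma fej_sub (B : AnSpace d Ω Y) (n : ℕ) (x y : Y) :
    B.fej n (x - y) = B.fej n x - B.fej n y := by
  unfold fej
  rw [← Finset.sum_sub_distrib]
  refine Finset.sum_congr rfl fun l _ => ?_
  rw [map_sub, smul_sub]

lemma Graded.fej_tendsto {B : AnSpace d Ω Y} (hG : B.Graded) (x : Y) :
    Tendsto (fun n => B.fej n x) atTop (𝓝 x) := by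
  have h1 : ∀ P, Tendsto (fun n => B.fej n (B.poly P)) atTop (𝓝 (B.poly P)) := by
    intro P
    set J := P.totalDegree + 1 with hJ
    have h2 : Tendsto (fun n => ∑ l ∈ Finset.range J, (wt n l : ℂ) •
        B.poly (MvPolynomial.homogeneousComponent l P)) atTop (𝓝 (∑ l ∈ Finset.range J,
          ((1 : ℝ) : ℂ) • B.poly (MvPolynomial.homogeneousComponent l P))) := by
      refine tendsto_finsetSum _ fun l _ => ?_
      exact ((Complex.continuous_ofReal.tendsto 1).comp (wt_tendsto l)).smul_const _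
    simp only [Complex.ofReal_one, one_smul] at h2
    rw [B.poly_sum_comp P (by omega)] at h2
    refine h2.congr' ?_
    filter_upwards [eventually_ge_atTop P.totalDegree] with n hn
    unfold fej
    simp only [hG.comp_poly]
    apply Finset.sum_subset
    · intro l hl
      rw [Finset.mem_range] at hl ⊢
      omega
    · intro l _ hl
      rw [Finset.mem_range] at hl
      rw [MvPolynomial.homogeneousComponent_eq_zero l P (by omega), ← B.polyL_apply, map_zero,
        smul_zero]
  rw [Metric.tendsto_atTop]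
  intro ε hε
  obtain ⟨_, ⟨P, rfl⟩, hP⟩ := Metric.mem_closure_iff.1 (B.poly_dense x) (ε / 3) (by positivity)
  obtain ⟨m, hm⟩ := Metric.tendsto_atTop.1 (h1 P) (ε / 3) (by positivity)
  refine ⟨m, fun n hn => ?_⟩
  have h3 := hm n hn
  have h4 : dist (B.fej n x) (B.fej n (B.poly P)) < ε / 3 := by
    rw [dist_eq_norm, ← fej_sub]
    refine (hG.norm_fej n _).trans_lt ?_
    rw [← dist_eq_norm]
    exact hP
  have h5 := dist_triangle4 (B.fej n x) (B.fej n (B.poly P)) (B.poly P) x
  rw [dist_comm (B.poly P) x] at h5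
  linarith

/-- the bound for the Fejer means of a multiplier -/
lemma Graded.fejer_bound {B : AnSpace d Ω Y} (hG : B.Graded) {h : (Fin d → ℂ) → ℂ}
    {Mh : Y →L[ℂ] Y} (hMh : ∀ x, ∀ w ∈ Ω, B.fn (Mh x) w = h w * B.fn x w)
    (c : ℕ → MvPolynomial (Fin d) ℂ) (hc : ∀ l, (c l).IsHomogeneous l)
    (hc' : ∀ l, B.poly (c l) = B.comp l (Mh (B.poly 1))) (N : ℕ) {MG : Y →L[ℂ] Y}
    (hMG : ∀ x, ∀ w ∈ Ω, B.fn (MG x) w =
      MvPolynomial.eval w (∑ l ∈ Finset.range N, ((N - l : ℕ) : ℂ) • c l) * B.fn x w) (y : Y) :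
    ‖MG y‖ ≤ N * ‖Mh‖ * ‖y‖ := by
  set H : Y := Mh (B.poly 1) with hH
  set G : MvPolynomial (Fin d) ℂ := ∑ l ∈ Finset.range N, ((N - l : ℕ) : ℂ) • c l with hGdef
  -- homogeneous entries
  have h1 : ∀ (j l : ℕ) (P R : MvPolynomial (Fin d) ℂ), P.IsHomogeneous j → R.IsHomogeneous l →
      inner ℂ (B.poly P) (Mh (B.poly R)) =
        if l ≤ j then inner ℂ (B.poly P) (B.poly (R * c (j - l))) else 0 := by
    intro j l P R hP hR
    obtain ⟨MR, hMR⟩ := B.exists_mul R
    have e1 : Mh (B.poly R) = MR H := by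
      apply B.fn_ext
      intro w hw
      rw [hMh _ w hw, hMR _ w hw, hH, hMh _ w hw, B.fn_poly _ w hw, B.fn_poly _ w hw, map_one]
      ring
    rw [e1, hG.inner_mul hP hR hMR, ← hc', B.mul_poly hMR]
  have h2 : ∀ (j l : ℕ) (P R : MvPolynomial (Fin d) ℂ), P.IsHomogeneous j → R.IsHomogeneous l →
      inner ℂ (B.poly P) (MG (B.poly R)) =
        if l ≤ j then ((N - (j - l) : ℕ) : ℂ) * inner ℂ (B.poly P) (B.poly (R * c (j - l)))
          else 0 := by
    intro j l P R hP hR
    have e1 : MG (B.poly R) = ∑ i ∈ Finset.range N, ((N - i : ℕ) : ℂ) • B.poly (R * c i) := by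
      rw [B.mul_poly hMG]
      simp only [← B.polyL_apply]
      rw [hGdef, Finset.sum_mul, map_sum]
      refine Finset.sum_congr rfl fun i _ => ?_
      rw [← map_smul, smul_mul_assoc, mul_comm R]
    rw [e1, inner_sum]
    have e2 : ∀ i, i + l ≠ j → inner ℂ (B.poly P) (((N - i : ℕ) : ℂ) • B.poly (R * c i)) = 0 := by
      intro i hi
      rw [inner_smul_right, hG j (l + i) P _ hP (hR.mul (hc i)) (by omega), mul_zero]
    split_ifs with hlj
    · by_cases hN : j - l < N
      · rw [Finset.sum_eq_single (j - l), inner_smul_right]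
        · intro i _ hi
          exact e2 i (by omega)
        · intro hi
          exact absurd (Finset.mem_range.2 hN) hi
      · rw [Finset.sum_eq_zero, show N - (j - l) = 0 by omega]
        · simp
        · intro i hi
          rw [Finset.mem_range] at hi
          exact e2 i (by omega)
    · exact Finset.sum_eq_zero fun i _ => e2 i (by omega)
  -- polynomials
  have h3 : ∀ P R : MvPolynomial (Fin d) ℂ, ‖inner ℂ (B.poly P) (MG (B.poly R))‖ ≤
      N * ‖Mh‖ * ‖B.poly P‖ * ‖B.poly R‖ := by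
    intro P R
    set J := max P.totalDegree R.totalDegree + 1 with hJ
    have e1 := B.poly_sum_comp P (J := J) (by omega)
    have e2 := B.poly_sum_comp R (J := J) (by omega)
    have ho : ∀ (Q : MvPolynomial (Fin d) ℂ) (i j : ℕ), i ≠ j →
        inner ℂ (B.poly (MvPolynomial.homogeneousComponent i Q))
          (B.poly (MvPolynomial.homogeneousComponent j Q)) = 0 := fun Q i j hij =>
      hG i j _ _ (MvPolynomial.homogeneousComponent_isHomogeneous i Q)
        (MvPolynomial.homogeneousComponent_isHomogeneous j Q) hij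
    have e3 := window_ineq (ho P) (ho R) N J Mh
      (fun j l => inner ℂ (B.poly (MvPolynomial.homogeneousComponent j P))
        (MG (B.poly (MvPolynomial.homogeneousComponent l R)))) (fun j hj l hl => by
          have f1 := h1 j l _ _ (MvPolynomial.homogeneousComponent_isHomogeneous j P)
            (MvPolynomial.homogeneousComponent_isHomogeneous l R)
          have f2 := h2 j l _ _ (MvPolynomial.homogeneousComponent_isHomogeneous j P)
            (MvPolynomial.homogeneousComponent_isHomogeneous l R)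
          rw [f1, f2]
          split_ifs with hlj
          · rw [sum_chi_mul hj hlj]
            push_cast
            ring
          · rw [mul_zero])
    rw [e1, e2] at e3
    refine le_trans (le_of_eq ?_) e3
    conv_lhs => rw [← e1, ← e2]
    rw [map_sum, sum_inner]
    congr 1
    refine Finset.sum_congr rfl fun j _ => ?_
    rw [inner_sum]
  -- all elements
  have h4 : ∀ (R : MvPolynomial (Fin d) ℂ) (x : Y), ‖inner ℂ x (MG (B.poly R))‖ ≤
      N * ‖Mh‖ * ‖x‖ * ‖B.poly R‖ := by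
    intro R x
    have hcl : IsClosed {x : Y | ‖inner ℂ x (MG (B.poly R))‖ ≤ N * ‖Mh‖ * ‖x‖ * ‖B.poly R‖} :=
      isClosed_le (by fun_prop) (by fun_prop)
    have h5 : Set.range B.poly ⊆
        {x : Y | ‖inner ℂ x (MG (B.poly R))‖ ≤ N * ‖Mh‖ * ‖x‖ * ‖B.poly R‖} := by
      rintro _ ⟨P, rfl⟩
      exact h3 P R
    exact closure_minimal h5 hcl (B.poly_dense x)
  have h5 : ∀ R : MvPolynomial (Fin d) ℂ, ‖MG (B.poly R)‖ ≤ N * ‖Mh‖ * ‖B.poly R‖ := by
    intro R
    have e1 := h4 R (MG (B.poly R))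
    rw [inner_self_eq_norm_sq_to_K] at e1
    have e2 : ‖(((‖MG (B.poly R)‖ : ℝ) : ℂ)) ^ 2‖ = ‖MG (B.poly R)‖ ^ 2 := by
      rw [norm_pow, Complex.norm_real, norm_norm]
    change ‖(((‖MG (B.poly R)‖ : ℝ) : ℂ)) ^ 2‖ ≤ _ at e1
    rw [e2] at e1
    by_contra e3
    rw [not_le] at e3
    have e4 : 0 < ‖MG (B.poly R)‖ := lt_of_le_of_lt (by positivity) e3
    nlinarith
  have hcl : IsClosed {y : Y | ‖MG y‖ ≤ N * ‖Mh‖ * ‖y‖} := isClosed_le (by fun_prop) (by fun_prop)
  have h6 : Set.range B.poly ⊆ {y : Y | ‖MG y‖ ≤ N * ‖Mh‖ * ‖y‖} := by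
    rintro _ ⟨P, rfl⟩
    exact h5 P
  exact closure_minimal h6 hcl (B.poly_dense y)

/-- multiplication by a multiplier is a bounded operator (closed graph theorem) -/
lemma IsMultiplier.exists_clm [CompleteSpace Y] {A : AnSpace d Ω Y} {h : (Fin d → ℂ) → ℂ}
    (hm : A.IsMultiplier h) :
    ∃ M : Y →L[ℂ] Y, ∀ x, ∀ w ∈ Ω, A.fn (M x) w = h w * A.fn x w := by
  choose M hM using hm
  let Ml : Y →ₗ[ℂ] Y :=
    { toFun := M
      map_add' := fun x y => by
        apply A.fn_ext
        intro w hw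
        rw [hM _ w hw, map_add, map_add, Pi.add_apply, Pi.add_apply, hM _ w hw, hM _ w hw]
        ring
      map_smul' := fun c x => by
        apply A.fn_ext
        intro w hw
        rw [hM _ w hw, RingHom.id_apply, map_smul, map_smul, Pi.smul_apply, Pi.smul_apply,
          hM _ w hw]
        simp
        ring }
  have hMl : ∀ x, ∀ w ∈ Ω, A.fn (Ml x) w = h w * A.fn x w := hM
  have hcont : Continuous Ml := by
    apply Ml.continuous_of_seq_closed_graph
    intro u x y hu hMu
    apply A.fn_ext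
    intro w hw
    obtain ⟨L, hL, -⟩ := A.exists_eval hw
    have h1 : Tendsto (fun n => L (Ml (u n))) atTop (𝓝 (L y)) :=
      (L.continuous.tendsto y).comp hMu
    have h2 : Tendsto (fun n => h w * L (u n)) atTop (𝓝 (h w * L x)) :=
      ((L.continuous.tendsto x).comp hu).const_mul (h w)
    have h3 : (fun n => L (Ml (u n))) = fun n => h w * L (u n) := by
      funext n
      rw [hL, hL, hMl _ w hw]
    rw [h3] at h1
    have h4 := tendsto_nhds_unique h1 h2
    rw [hMl _ w hw, ← hL, ← hL, h4]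
  exact ⟨⟨Ml, hcont⟩, hMl⟩

/-- reproducing vectors -/
lemma exists_kernel [CompleteSpace Y] (B : AnSpace d Ω Y) :
    ∃ k : Ω → Y, (∀ (w : Ω) (f : Y), inner ℂ (k w) f = B.fn f w) ∧
      ∀ f : Y, (∀ w : Ω, inner ℂ (k w) f = 0) → f = 0 := by
  choose L hL _ using fun w : Ω => B.exists_eval w.2
  have h1 : ∀ (w : Ω) (f : Y), inner ℂ ((InnerProductSpace.toDual ℂ Y).symm (L w)) f = B.fn f w := by
    intro w f
    rw [← InnerProductSpace.toDual_apply_apply, LinearIsometryEquiv.apply_symm_apply]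
    exact hL w f
  refine ⟨fun w => (InnerProductSpace.toDual ℂ Y).symm (L w), h1, fun f hf => ?_⟩
  apply B.fn_inj
  intro w hw
  have := hf ⟨w, hw⟩
  rw [h1] at this
  exact this

/-- the orbit as a subspace -/
def orbitSub (B : AnSpace d Ω Y) (g : Y) : Submodule ℂ Y where
  carrier := B.orbit g
  add_mem' := by
    rintro x y ⟨P, hP⟩ ⟨Q, hQ⟩
    refine ⟨P + Q, fun w hw => ?_⟩
    rw [map_add, Pi.add_apply, hP w hw, hQ w hw, map_add, add_mul]
  zero_mem' := ⟨0, fun w _ => by simp⟩
  smul_mem' := by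
    rintro c x ⟨P, hP⟩
    refine ⟨MvPolynomial.C c * P, fun w hw => ?_⟩
    rw [map_smul, Pi.smul_apply, hP w hw, map_mul, MvPolynomial.eval_C, smul_eq_mul]
    ring

/-- In a graded space all multiples `h g`, `h` a multiplier, are in the closure of the polynomial
multiples of `g`. -/
lemma Graded.mult_mem [CompleteSpace Y] {B : AnSpace d Ω Y} (hG : B.Graded)
    {h : (Fin d → ℂ) → ℂ} (hm : B.IsMultiplier h) {g x : Y}
    (hx : ∀ w ∈ Ω, B.fn x w = h w * B.fn g w) : x ∈ closure (B.orbit g) := by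
  obtain ⟨Mh, hMh⟩ := hm.exists_clm
  obtain ⟨k, hk, tot⟩ := B.exists_kernel
  choose c hc hc' using fun l => B.comp_mem l (Mh (B.poly 1))
  set G : ℕ → MvPolynomial (Fin d) ℂ := fun n =>
    ∑ l ∈ Finset.range (n + 1), ((n + 1 - l : ℕ) : ℂ) • c l with hGdef
  choose MG hMG using fun n => B.exists_mul (G n)
  have hb : ∀ n, ‖MG n g‖ ≤ ((n + 1 : ℕ) : ℝ) * ‖Mh‖ * ‖g‖ := fun n =>
    hG.fejer_bound hMh c hc hc' (n + 1) (hMG n) g
  have hcl : x ∈ (B.orbitSub g).topologicalClosure := by
    refine Pick.weak_mem tot (Submodule.isClosed_topologicalClosure _)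
      (x := fun n => (((n : ℝ) + 1 : ℝ) : ℂ)⁻¹ • MG n g) (fun n => ?_) (C := ‖Mh‖ * ‖g‖)
      (fun n => ?_) fun w => ?_
    · refine Submodule.smul_mem _ _ (Submodule.le_topologicalClosure _ ?_)
      exact ⟨G n, hMG n g⟩
    · rw [norm_smul, norm_inv, Complex.norm_real, Real.norm_eq_abs,
        abs_of_pos (by positivity : (0 : ℝ) < (n : ℝ) + 1)]
      have h1 := hb n
      push_cast at h1
      have h2 : (0 : ℝ) < (n : ℝ) + 1 := by positivity
      rw [inv_mul_le_iff₀ h2]
      linarith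
    · have h1 := hG.fej_tendsto (Mh (B.poly 1))
      obtain ⟨L, hL, -⟩ := B.exists_eval w.2
      have h2 : Tendsto (fun n => L (B.fej n (Mh (B.poly 1)))) atTop
          (𝓝 (L (Mh (B.poly 1)))) := (L.continuous.tendsto _).comp h1
      have h3 := h2.mul_const (B.fn g w)
      rw [hL, hMh _ _ w.2, B.fn_poly _ _ w.2, map_one, mul_one] at h3
      rw [hk, hx _ w.2]
      refine h3.congr fun n => ?_
      rw [inner_smul_right, hk, hMG n g _ w.2]
      have h4 : L (B.fej n (Mh (B.poly 1))) = (((n : ℝ) + 1 : ℝ) : ℂ)⁻¹ *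
          MvPolynomial.eval (w : Fin d → ℂ) (G n) := by
        unfold fej
        rw [map_sum, hGdef, map_sum, Finset.mul_sum]
        refine Finset.sum_congr rfl fun l _ => ?_
        rw [map_smul, ← hc', hL, B.fn_poly _ _ w.2, MvPolynomial.smul_eval, smul_eq_mul]
        unfold wt
        push_cast
        rw [div_eq_mul_inv]
        ring
      rw [h4]
      ring
  exact hcl

/-- In a graded space multiplier-cyclic functions are shift-cyclic. -/
lemma Graded.cyclic_of_multCyclic [CompleteSpace Y] {B : AnSpace d Ω Y} (hG : B.Graded) {g : Y}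
    (hg : B.MultCyclic g) : B.Cyclic g := by
  have h1 : {x | ∃ h, B.IsMultiplier h ∧ ∀ w ∈ Ω, B.fn x w = h w * B.fn g w} ⊆
      closure (B.orbit g) := by
    rintro x ⟨h, hm, hx⟩
    exact hG.mult_mem hm hx
  have h2 := closure_minimal h1 isClosed_closure
  rw [hg] at h2
  exact Set.univ_subset_iff.1 h2

end AnSpace

end Pool.Agent.CycP
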