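import Pool.Agent.CycP.Blk
import Pool.Agent.CycP.Pos

set_option autoImplicit false

/-! The Hilbert space of analytic functions on a union of discs. -/

namespace Pool.Agent.CycP

open Polynomial

/-- centres, radii and weights of a family of disjoint discs -/
structure Cfg (z : ℕ → ℂ) (r ω : ℕ → ℝ) (R : ℝ) : Prop where
  r_pos : ∀ j, 0 < r j
  w_pos : ∀ j, 0 < ω j
  bdd : ∀ j, ‖z j‖ + r j ≤ R
  disj : ∀ i j (w : ℂ), ‖w - z i‖ < r i → ‖w - z j‖ < r j → i = j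
  summ : Summable fun j => ω j ^ 2

section

variable {z : ℕ → ℂ} {r ω : ℕ → ℝ} {R : ℝ}

lemma AA_bd (hc : Cfg z r ω R) (j : ℕ) : ‖AA (z j) (r j)‖ ≤ R :=
  (AA_norm _ (hc.r_pos j).le).trans (hc.bdd j)

/-- the shift -/
noncomputable def SS (hc : Cfg z r ω R) : YY →L[ℂ] YY :=
  blk (fun j => AA (z j) (r j)) R (AA_bd hc)

lemma SS_aeval (hc : Cfg z r ω R) (p : ℂ[X]) (y : YY) (j : ℕ) :
    aeval (SS hc) p y j = aeval (AA (z j) (r j)) p (y j) := aeval_blk _ _ _ _ _ _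

lemma norm_e0 : ‖e0‖ = 1 := by
  unfold e0
  rw [lp.norm_single (by simp)]
  simp

/-- the constant function one -/
noncomputable def oneV (hc : Cfg z r ω R) : YY :=
  ⟨fun j => (ω j : ℂ) • e0, by
    apply memlp_of_le (C := ∑' j, ω j ^ 2)
    intro s
    have h1 : ∀ j, ‖(ω j : ℂ) • e0‖ ^ 2 = ω j ^ 2 := by
      intro j
      rw [norm_smul, norm_e0, mul_one]
      simp
    simp only [h1]
    exact hc.summ.sum_le_tsum s (fun j _ => sq_nonneg _)⟩

@[simp] lemma oneV_apply (hc : Cfg z r ω R) (j : ℕ) : oneV hc j = (ω j : ℂ) • e0 := rfl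

/-- the union of the discs -/
def dom (z : ℕ → ℂ) (r : ℕ → ℝ) : Set (Fin 1 → ℂ) := {w | ∃ j, ‖w 0 - z j‖ < r j}

open scoped Classical in
/-- the function on the union of the discs -/
noncomputable def val (z : ℕ → ℂ) (r ω : ℕ → ℝ) (y : YY) (w : Fin 1 → ℂ) : ℂ :=
  if h : ∃ j, ‖w 0 - z j‖ < r j then
    ((ω h.choose : ℝ) : ℂ)⁻¹ * pv (y h.choose) ((w 0 - z h.choose) / (r h.choose : ℝ)) else 0

lemma u_lt (hc : Cfg z r ω R) {j : ℕ} {w : ℂ} (h : ‖w - z j‖ < r j) :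
    ‖(w - z j) / (r j : ℝ)‖ < 1 := by
  rw [norm_div, Complex.norm_real, Real.norm_of_nonneg (hc.r_pos j).le,
    div_lt_one (hc.r_pos j)]
  exact h

lemma val_eq (hc : Cfg z r ω R) {j : ℕ} {w : Fin 1 → ℂ} (h : ‖w 0 - z j‖ < r j) (y : YY) :
    val z r ω y w = ((ω j : ℝ) : ℂ)⁻¹ * pv (y j) ((w 0 - z j) / (r j : ℝ)) := by
  have h1 : ∃ j, ‖w 0 - z j‖ < r j := ⟨j, h⟩
  unfold val
  rw [dif_pos h1, hc.disj _ _ _ h1.choose_spec h]

/-- the linear map to functions -/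
noncomputable def fnL (hc : Cfg z r ω R) : YY →ₗ[ℂ] ((Fin 1 → ℂ) → ℂ) where
  toFun := val z r ω
  map_add' x y := by
    funext w
    by_cases h : ∃ j, ‖w 0 - z j‖ < r j
    · obtain ⟨j, hj⟩ := h
      rw [Pi.add_apply, val_eq hc hj, val_eq hc hj, val_eq hc hj, lp.coeFn_add, Pi.add_apply,
        pv_add _ _ (u_lt hc hj)]
      ring
    · simp only [Pi.add_apply, val, dif_neg h, add_zero]
  map_smul' c y := by
    funext w
    by_cases h : ∃ j, ‖w 0 - z j‖ < r j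
    · obtain ⟨j, hj⟩ := h
      rw [Pi.smul_apply, val_eq hc hj, val_eq hc hj, lp.coeFn_smul, Pi.smul_apply, pv_smul]
      simp
      ring
    · simp only [Pi.smul_apply, val, dif_neg h, smul_zero]

lemma fnL_apply (hc : Cfg z r ω R) (y : YY) (w : Fin 1 → ℂ) : fnL hc y w = val z r ω y w := rfl

lemma wC (hc : Cfg z r ω R) (j : ℕ) : ((ω j : ℝ) : ℂ) ≠ 0 := by
  exact_mod_cast (hc.w_pos j).ne'

lemma rC (hc : Cfg z r ω R) (j : ℕ) : ((r j : ℝ) : ℂ) ≠ 0 := by
  exact_mod_cast (hc.r_pos j).ne'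

lemma val_aeval (hc : Cfg z r ω R) (p : ℂ[X]) (y : YY) {w : Fin 1 → ℂ} (hw : w ∈ dom z r) :
    val z r ω (aeval (SS hc) p y) w = p.eval (w 0) * val z r ω y w := by
  obtain ⟨j, hj⟩ := hw
  rw [val_eq hc hj, val_eq hc hj, SS_aeval, pv_aeval _ _ _ _ (u_lt hc hj)]
  have h1 : z j + (r j : ℂ) * ((w 0 - z j) / (r j : ℝ)) = w 0 := by
    rw [mul_div_cancel₀ _ (rC hc j)]
    ring
  rw [h1]
  ring

lemma val_one (hc : Cfg z r ω R) {w : Fin 1 → ℂ} (hw : w ∈ dom z r) :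
    val z r ω (oneV hc) w = 1 := by
  obtain ⟨j, hj⟩ := hw
  rw [val_eq hc hj, oneV_apply, pv_smul, pv_e0, mul_one, inv_mul_cancel₀ (wC hc j)]

lemma isOpen_dom (z : ℕ → ℂ) (r : ℕ → ℝ) : IsOpen (dom z r) := by
  have : dom z r = ⋃ j, {w : Fin 1 → ℂ | ‖w 0 - z j‖ < r j} := by
    ext w; simp [dom]
  rw [this]
  apply isOpen_iUnion
  intro j
  exact isOpen_lt (by fun_prop) continuous_const

lemma val_analytic (hc : Cfg z r ω R) (y : YY) : AnalyticOnNhd ℂ (val z r ω y) (dom z r) := by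
  rintro w ⟨j, hj⟩
  have h1 : AnalyticAt ℂ (pv (y j)) ((w 0 - z j) / (r j : ℝ)) := by
    apply pv_analytic
    rw [Metric.mem_ball, dist_zero_right]
    exact u_lt hc hj
  have h2 : AnalyticAt ℂ (fun w : Fin 1 → ℂ => (w 0 - z j) / ((r j : ℝ) : ℂ)) w := by
    have h3 : AnalyticAt ℂ (fun w : Fin 1 → ℂ => w 0) w :=
      (ContinuousLinearMap.proj (R := ℂ) (φ := fun _ : Fin 1 => ℂ) 0).analyticAt w
    exact (h3.sub analyticAt_const).div analyticAt_const (rC hc j)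
  have h3 : AnalyticAt ℂ (fun w : Fin 1 → ℂ =>
      ((ω j : ℝ) : ℂ)⁻¹ * pv (y j) ((w 0 - z j) / (r j : ℝ))) w :=
    analyticAt_const.mul (AnalyticAt.comp (g := pv (y j)) h1 h2)
  refine h3.congr ?_
  have h4 : {w : Fin 1 → ℂ | ‖w 0 - z j‖ < r j} ∈ nhds w :=
    (isOpen_lt (by fun_prop) continuous_const).mem_nhds hj
  filter_upwards [h4] with v hv
  exact (val_eq hc hv y).symm

lemma val_inj (hc : Cfg z r ω R) (y : YY) (h : ∀ w ∈ dom z r, val z r ω y w = 0) : y = 0 := by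
  ext1
  funext j
  apply pv_inj
  intro u hu
  have hw : ‖(fun _ : Fin 1 => z j + r j * u) 0 - z j‖ < r j := by
    simp only [add_sub_cancel_left, norm_mul, Complex.norm_real,
      Real.norm_of_nonneg (hc.r_pos j).le]
    nlinarith [hc.r_pos j]
  have h1 := h (fun _ => z j + r j * u) ⟨j, hw⟩
  rw [val_eq hc hw] at h1
  have h2 : (z j + (r j : ℂ) * u - z j) / ((r j : ℝ) : ℂ) = u := by
    rw [add_sub_cancel_left, mul_div_cancel_left₀ _ (rC hc j)]
  simp only [h2] at h1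
  exact (mul_eq_zero.1 h1).resolve_left (inv_ne_zero (wC hc j))

lemma val_bounded (hc : Cfg z r ω R) {w : Fin 1 → ℂ} (hw : w ∈ dom z r) :
    ∃ C : ℝ, ∀ y, ‖val z r ω y w‖ ≤ C * ‖y‖ := by
  obtain ⟨j, hj⟩ := hw
  refine ⟨(ω j)⁻¹ * (1 - ‖(w 0 - z j) / ((r j : ℝ) : ℂ)‖)⁻¹, fun y => ?_⟩
  rw [val_eq hc hj, norm_mul, norm_inv, Complex.norm_real, Real.norm_of_nonneg (hc.w_pos j).le,
    mul_assoc]
  apply mul_le_mul_of_nonneg_left _ (inv_nonneg.2 (hc.w_pos j).le)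
  refine (pv_norm _ (u_lt hc hj)).trans ?_
  apply mul_le_mul_of_nonneg_left (lp.norm_apply_le_norm (by simp) y j)
  have := u_lt hc hj
  exact inv_nonneg.2 (by linarith)

/-- a polynomial in the one variable of `Fin 1` as a polynomial -/
noncomputable def toP (P : MvPolynomial (Fin 1) ℂ) : ℂ[X] := MvPolynomial.aeval (fun _ => X) P

lemma toP_eval (P : MvPolynomial (Fin 1) ℂ) (w : Fin 1 → ℂ) :
    (toP P).eval (w 0) = MvPolynomial.eval w P := by
  unfold toP
  induction P using MvPolynomial.induction_on with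
  | C a => simp
  | add P Q hP hQ => simp [hP, hQ]
  | mul_X P j hP =>
    have : j = 0 := Subsingleton.elim _ _
    subst this
    simp [hP]

lemma toP_surj (q : ℂ[X]) : ∃ P, toP P = q := by
  refine ⟨Polynomial.aeval (MvPolynomial.X 0) q, ?_⟩
  unfold toP
  rw [← Polynomial.aeval_algHom_apply]
  simp

/-- the Hilbert space of analytic functions -/
noncomputable def spc (hc : Cfg z r ω R)
    (hd : DenseRange fun q : ℂ[X] => aeval (SS hc) q (oneV hc)) : AnSpace 1 (dom z r) YY where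
  fn := fnL hc
  isOpen := isOpen_dom z r
  fn_inj := val_inj hc
  fn_analytic := val_analytic hc
  poly := fun P => aeval (SS hc) (toP P) (oneV hc)
  fn_poly := fun P w hw => by
    rw [fnL_apply, val_aeval hc _ _ hw, val_one hc hw, mul_one, toP_eval]
  poly_dense := by
    have : Set.range (fun P => aeval (SS hc) (toP P) (oneV hc)) =
        Set.range fun q : ℂ[X] => aeval (SS hc) q (oneV hc) := by
      ext y
      constructor
      · rintro ⟨P, rfl⟩; exact ⟨toP P, rfl⟩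
      · rintro ⟨q, rfl⟩
        obtain ⟨P, rfl⟩ := toP_surj q
        exact ⟨P, rfl⟩
    unfold DenseRange
    rw [this]
    exact hd
  fn_bounded := fun w hw => val_bounded hc hw
  shift := fun _ => SS hc
  fn_shift := fun j x w hw => by
    have : j = 0 := Subsingleton.elim _ _
    subst this
    have h := val_aeval hc X x hw
    rw [aeval_X, eval_X] at h
    exact h

lemma spc_poly (hc : Cfg z r ω R)
    (hd : DenseRange fun q : ℂ[X] => aeval (SS hc) q (oneV hc)) (P : MvPolynomial (Fin 1) ℂ) :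
    (spc hc hd).poly P = aeval (SS hc) (toP P) (oneV hc) := rfl

lemma spc_fn (hc : Cfg z r ω R)
    (hd : DenseRange fun q : ℂ[X] => aeval (SS hc) q (oneV hc)) (y : YY) (w : Fin 1 → ℂ) :
    (spc hc hd).fn y w = val z r ω y w := rfl

lemma spc_orbit (hc : Cfg z r ω R)
    (hd : DenseRange fun q : ℂ[X] => aeval (SS hc) q (oneV hc)) (f : YY) :
    (spc hc hd).orbit f = Set.range fun q : ℂ[X] => aeval (SS hc) q f := by
  ext y
  constructor
  · rintro ⟨P, hP⟩
    refine ⟨toP P, ?_⟩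
    apply (spc hc hd).fn_ext
    intro w hw
    rw [hP w hw, spc_fn, spc_fn, val_aeval hc _ _ hw, toP_eval]
  · rintro ⟨q, rfl⟩
    obtain ⟨P, rfl⟩ := toP_surj q
    refine ⟨P, fun w hw => ?_⟩
    rw [spc_fn, spc_fn, val_aeval hc _ _ hw, toP_eval]

lemma spc_cyclic (hc : Cfg z r ω R)
    (hd : DenseRange fun q : ℂ[X] => aeval (SS hc) q (oneV hc)) (f : YY) :
    (spc hc hd).Cyclic f ↔ DenseRange fun q : ℂ[X] => aeval (SS hc) q f := by
  unfold AnSpace.Cyclic DenseRange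
  rw [spc_orbit, dense_iff_closure_eq]

end

end Pool.Agent.CycP
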