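import Mathlib

set_option autoImplicit false

/-! Bounded analytic functions on balanced open sets are boundedly and pointwise approximable
by polynomials. -/

namespace Pool.Agent.CycP

open Filter Topology

/-- Every bounded analytic function on `D` is the pointwise limit on `D` of a sequence of
polynomials which is uniformly bounded on `D`. -/
def PolyApprox {d : ℕ} (D : Set (Fin d → ℂ)) : Prop :=
  ∀ h : (Fin d → ℂ) → ℂ, AnalyticOnNhd ℂ h D → (∃ K : ℝ, ∀ u ∈ D, ‖h u‖ ≤ K) →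
    ∃ (P : ℕ → MvPolynomial (Fin d) ℂ) (K : ℝ),
      (∀ n, ∀ u ∈ D, ‖MvPolynomial.eval u (P n)‖ ≤ K) ∧
      ∀ u ∈ D, Tendsto (fun n => MvPolynomial.eval u (P n)) atTop (𝓝 (h u))

/-- homogeneous parts are polynomials -/
lemma diag_poly {d : ℕ} (k : ℕ)
    (M : ContinuousMultilinearMap ℂ (fun _ : Fin k => Fin d → ℂ) ℂ) :
    ∃ Q : MvPolynomial (Fin d) ℂ, ∀ u, MvPolynomial.eval u Q = M (fun _ => u) := by
  refine ⟨∑ s : Fin k → Fin d, MvPolynomial.C (M fun i => Pi.single (s i) (1 : ℂ)) *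
    ∏ i, MvPolynomial.X (s i), fun u => ?_⟩
  have hu : u = ∑ j, u j • (Pi.single j (1 : ℂ) : Fin d → ℂ) := by
    funext i
    simp [Finset.sum_apply, Pi.single_apply]
  have h1 : M (fun _ => u) =
      ∑ s : Fin k → Fin d, M (fun i => u (s i) • (Pi.single (s i) (1 : ℂ) : Fin d → ℂ)) := by
    have h2 := M.map_sum (fun (_ : Fin k) (j : Fin d) => u j • (Pi.single j (1 : ℂ) : Fin d → ℂ))
    rw [← h2]
    congr 1
    funext i
    exact hu
  rw [h1, map_sum]
  apply Finset.sum_congr rfl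
  intro s _
  rw [M.map_smul_univ, map_mul, MvPolynomial.eval_C, map_prod, smul_eq_mul, mul_comm]
  simp

lemma one_var {f : ℂ → ℂ} {M : ℝ} (hf : DifferentiableOn ℂ f (Metric.closedBall 0 1))
    (hM : ∀ t, ‖t‖ ≤ 1 → ‖f t‖ ≤ M) {p : FormalMultilinearSeries ℂ ℂ ℂ}
    (hp : HasFPowerSeriesAt f p 0) {r : ℝ} (hr0 : 0 ≤ r) (hr1 : r < 1) (N : ℕ) :
    ‖f r - ∑ k ∈ Finset.range N, p k (fun _ => (r : ℂ))‖ ≤ M * r ^ N / (1 - r) := by
  have h1 : HasFPowerSeriesOnBall f (cauchyPowerSeries f 0 (1 : NNReal)) 0 (1 : NNReal) :=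
    DifferentiableOn.hasFPowerSeriesOnBall (by simpa using hf) one_pos
  have h2 : p = cauchyPowerSeries f 0 (1 : NNReal) :=
    hp.eq_formalMultilinearSeries h1.hasFPowerSeriesAt
  have hM0 : 0 ≤ M := (norm_nonneg _).trans (hM 0 (by simp))
  have hcirc : (2 * Real.pi)⁻¹ * ∫ θ : ℝ in 0..2 * Real.pi,
      ‖f (circleMap 0 (1 : NNReal) θ)‖ ≤ M := by
    have h3 : ∫ θ : ℝ in 0..2 * Real.pi, ‖f (circleMap 0 (1 : NNReal) θ)‖ ≤
        ∫ _θ : ℝ in 0..2 * Real.pi, M := by
      apply intervalIntegral.integral_mono_on Real.two_pi_pos.le _ (by simp)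
      · intro θ _
        apply hM
        simp [circleMap]
      · apply Continuous.intervalIntegrable
        apply Continuous.norm
        have hcm : ∀ θ : ℝ, circleMap 0 (1 : NNReal) θ ∈ Metric.closedBall (0 : ℂ) 1 := by
          intro θ
          simp [circleMap]
        rw [continuous_iff_continuousAt]
        intro θ
        have h4 : ContinuousOn (fun θ : ℝ => f (circleMap 0 (1 : NNReal) θ)) Set.univ :=
          hf.continuousOn.comp (continuous_circleMap 0 _).continuousOn (fun θ _ => hcm θ)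
        exact h4.continuousAt univ_mem
    rw [intervalIntegral.integral_const, sub_zero, smul_eq_mul] at h3
    have hpi := Real.two_pi_pos
    rw [inv_mul_le_iff₀ hpi]
    exact h3
  have hnorm : ∀ k, ‖p k (fun _ => (r : ℂ))‖ ≤ M * r ^ k := by
    intro k
    rw [h2]
    refine (ContinuousMultilinearMap.le_opNorm _ _).trans ?_
    have h3 := norm_cauchyPowerSeries_le f 0 (1 : NNReal) k
    have h4 : (|((1 : NNReal) : ℝ)|⁻¹) ^ k = 1 := by simp
    rw [h4, mul_one] at h3
    have h5 : ∏ _i : Fin k, ‖(r : ℂ)‖ = r ^ k := by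
      rw [Finset.prod_const, Finset.card_univ, Fintype.card_fin, Complex.norm_real,
        Real.norm_of_nonneg hr0]
    rw [h5]
    exact mul_le_mul_of_nonneg_right (h3.trans hcirc) (by positivity)
  have hsum : HasSum (fun k => p k (fun _ => (r : ℂ))) (f r) := by
    have h3 := h1.hasSum (y := (r : ℂ)) (by
      rw [Metric.eball_coe, Metric.mem_ball, dist_zero_right, Complex.norm_real,
        Real.norm_of_nonneg hr0]
      exact hr1)
    rw [zero_add] at h3
    rw [h2]
    exact h3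
  have hs := hsum.summable
  have h3 := hs.sum_add_tsum_nat_add N
  rw [hsum.tsum_eq] at h3
  rw [← h3, add_sub_cancel_left]
  have hg : Summable fun k : ℕ => M * r ^ (k + N) := by
    have h4 := (summable_geometric_of_lt_one hr0 hr1).mul_left (M * r ^ N)
    refine h4.congr (fun k => ?_)
    rw [pow_add]; ring
  refine (tsum_of_norm_bounded hg.hasSum (fun k => hnorm (k + N))).trans (le_of_eq ?_)
  have h4 : (fun k : ℕ => M * r ^ (k + N)) = fun k => (M * r ^ N) * r ^ k := by
    funext k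
    rw [pow_add]; ring
  rw [h4, tsum_mul_left, tsum_geometric_of_lt_one hr0 hr1]
  rfl

theorem polyApprox_of_balanced {d : ℕ} {D : Set (Fin d → ℂ)} (hbal : Balanced ℂ D) :
    PolyApprox D := by
  intro h hh ⟨M, hM⟩
  rcases D.eq_empty_or_nonempty with rfl | ⟨v, hv⟩
  · exact ⟨fun _ => 0, 0, fun n u hu => absurd hu (Set.notMem_empty u),
      fun u hu => absurd hu (Set.notMem_empty u)⟩
  have hsm : ∀ u ∈ D, ∀ t : ℂ, ‖t‖ ≤ 1 → t • u ∈ D := fun u hu t ht =>
    hbal t ht (Set.smul_mem_smul_set hu)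
  have h0 : (0 : Fin d → ℂ) ∈ D := by
    have := hsm v hv 0 (by simp)
    simpa using this
  have hM0 : 0 ≤ M := (norm_nonneg _).trans (hM 0 h0)
  obtain ⟨p, hp⟩ := hh 0 h0
  have key : ∀ u ∈ D, ∀ r : ℝ, 0 ≤ r → r < 1 → ∀ N : ℕ,
      ‖h ((r : ℂ) • u) - ∑ k ∈ Finset.range N, p k (fun _ => (r : ℂ) • u)‖ ≤
        M * r ^ N / (1 - r) := by
    intro u hu r hr0 hr1 N
    let L : ℂ →L[ℂ] (Fin d → ℂ) := ContinuousLinearMap.toSpanSingleton ℂ u
    have hL : ∀ t : ℂ, L t = t • u := fun t => ContinuousLinearMap.toSpanSingleton_apply ℂ u t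
    have hp' : HasFPowerSeriesAt h p (L 0) := by rw [map_zero]; exact hp
    have h2 := hp'.compContinuousLinearMap
    have h3 : DifferentiableOn ℂ (h ∘ L) (Metric.closedBall 0 1) := by
      intro t ht
      rw [Metric.mem_closedBall, dist_zero_right] at ht
      have h4 : DifferentiableAt ℂ h (L t) := by
        rw [hL]
        exact (hh _ (hsm u hu t ht)).differentiableAt
      exact (h4.comp t L.differentiableAt).differentiableWithinAt
    have h4 : ∀ t : ℂ, ‖t‖ ≤ 1 → ‖(h ∘ L) t‖ ≤ M := by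
      intro t ht
      rw [Function.comp_apply, hL]
      exact hM _ (hsm u hu t ht)
    have h5 := one_var h3 h4 h2 hr0 hr1 N
    rw [Function.comp_apply, hL] at h5
    exact h5
  have hQ := fun k => diag_poly k (p k)
  choose Q hQ using hQ
  let ρ : ℕ → ℝ := fun n => 1 - 1 / (n + 2)
  have hρ0 : ∀ n, 0 ≤ ρ n := fun n => by
    have : (1 : ℝ) / (n + 2) ≤ 1 := by
      rw [div_le_one (by positivity)]
      have : (0 : ℝ) ≤ n := Nat.cast_nonneg n
      linarith
    simp only [ρ]; linarith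
  have hρ1 : ∀ n, ρ n < 1 := fun n => by
    have : (0 : ℝ) < 1 / (n + 2) := by positivity
    simp only [ρ]; linarith
  have hρt : Tendsto ρ atTop (𝓝 1) := by
    have h1 : Tendsto (fun n : ℕ => (1 : ℝ) / (n + 2)) atTop (𝓝 0) := by
      have h2 := tendsto_one_div_add_atTop_nhds_zero_nat (𝕜 := ℝ)
      have h3 := h2.comp (tendsto_add_atTop_nat 1)
      refine h3.congr (fun n => ?_)
      simp only [Function.comp_apply]
      push_cast
      ring
    have h2 := h1.const_sub 1
    rw [sub_zero] at h2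
    exact h2
  have hN : ∀ n, ∃ N : ℕ, M * ρ n ^ N / (1 - ρ n) ≤ 1 / (n + 1) := by
    intro n
    have h1 : 0 < 1 - ρ n := by have := hρ1 n; linarith
    have h2 : 0 < (1 - ρ n) / ((n + 1) * (M + 1)) := by positivity
    obtain ⟨N, hN⟩ := exists_pow_lt_of_lt_one h2 (hρ1 n)
    refine ⟨N, ?_⟩
    rw [lt_div_iff₀ (by positivity)] at hN
    rw [div_le_div_iff₀ h1 (by positivity)]
    have h3 : 0 ≤ ρ n ^ N := pow_nonneg (hρ0 n) _
    have h4 : (0 : ℝ) ≤ n := Nat.cast_nonneg n
    have h5 : 0 ≤ ρ n ^ N * (n + 1) := by positivity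
    nlinarith
  choose N hN using hN
  have hev : ∀ n u, MvPolynomial.eval u (∑ k ∈ Finset.range (N n),
      MvPolynomial.C (((ρ n : ℝ) : ℂ) ^ k) * Q k) =
      ∑ k ∈ Finset.range (N n), p k (fun _ => ((ρ n : ℝ) : ℂ) • u) := by
    intro n u
    rw [map_sum]
    apply Finset.sum_congr rfl
    intro k _
    rw [map_mul, MvPolynomial.eval_C, hQ]
    have := (p k).map_smul_univ (fun _ => ((ρ n : ℝ) : ℂ)) (fun _ => u)
    rw [this]
    simp
  refine ⟨fun n => ∑ k ∈ Finset.range (N n), MvPolynomial.C (((ρ n : ℝ) : ℂ) ^ k) * Q k,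
    M + 1, fun n u hu => ?_, fun u hu => ?_⟩
  · simp only
    rw [hev]
    have h1 := (key u hu (ρ n) (hρ0 n) (hρ1 n) (N n)).trans (hN n)
    have h2 : ‖h (((ρ n : ℝ) : ℂ) • u)‖ ≤ M := by
      apply hM
      apply hsm u hu
      rw [Complex.norm_real, Real.norm_of_nonneg (hρ0 n)]
      exact (hρ1 n).le
    have h3 : (1 : ℝ) / (n + 1) ≤ 1 := by
      rw [div_le_one (by positivity)]
      have : (0 : ℝ) ≤ n := Nat.cast_nonneg n
      linarith
    have h4 := norm_sub_norm_le (∑ k ∈ Finset.range (N n), p k (fun _ => ((ρ n : ℝ) : ℂ) • u))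
      (h (((ρ n : ℝ) : ℂ) • u))
    rw [norm_sub_rev] at h4
    linarith
  · have h1 : Tendsto (fun n => h (((ρ n : ℝ) : ℂ) • u)) atTop (𝓝 (h u)) := by
      have h2 : ContinuousAt h u := (hh u hu).continuousAt
      have h3 : Tendsto (fun n => ((ρ n : ℝ) : ℂ) • u) atTop (𝓝 u) := by
        have h4 : Tendsto (fun n => ((ρ n : ℝ) : ℂ)) atTop (𝓝 1) := by
          have h5 := (Complex.continuous_ofReal.tendsto (1 : ℝ)).comp hρt
          rw [Complex.ofReal_one] at h5
          exact h5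
        have h5 := h4.smul_const u
        rw [one_smul] at h5
        exact h5
      exact h2.tendsto.comp h3
    have h2 : Tendsto (fun n => ‖MvPolynomial.eval u (∑ k ∈ Finset.range (N n),
        MvPolynomial.C (((ρ n : ℝ) : ℂ) ^ k) * Q k) - h (((ρ n : ℝ) : ℂ) • u)‖) atTop (𝓝 0) := by
      refine squeeze_zero (fun n => norm_nonneg _) (fun n => ?_)
        (tendsto_one_div_add_atTop_nhds_zero_nat (𝕜 := ℝ))
      rw [hev, norm_sub_rev]
      exact (key u hu (ρ n) (hρ0 n) (hρ1 n) (N n)).trans (hN n)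
    have h3 := (tendsto_zero_iff_norm_tendsto_zero.2 h2).add h1
    rw [zero_add] at h3
    refine h3.congr (fun n => ?_)
    ring

end Pool.Agent.CycP
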