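import Pool.Agent.CycP.Pos
import Pool.Agent.CycP.Bal

set_option autoImplicit false

/-! Spaces for which all bounded analytic functions are multipliers: (CP) holds if and only if
multiplier-cyclic functions are shift-cyclic. -/

namespace Pool.Agent.CycP

open Filter Topology

namespace AnSpace

variable {d : ℕ} {Ω : Set (Fin d → ℂ)} {X : Type} [NormedAddCommGroup X] [NormedSpace ℂ X]

/-- `h` is a multiplier of `X`: `h f ∈ X` for all `f ∈ X`. -/
def IsMultiplier (A : AnSpace d Ω X) (h : (Fin d → ℂ) → ℂ) : Prop :=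
  ∀ f : X, ∃ x : X, ∀ w ∈ Ω, A.fn x w = h w * A.fn f w

/-- `g` is multiplier-cyclic: the products `h g`, `h` a multiplier, are dense in `X`. -/
def MultCyclic (A : AnSpace d Ω X) (g : X) : Prop :=
  closure {x | ∃ h, A.IsMultiplier h ∧ ∀ w ∈ Ω, A.fn x w = h w * A.fn g w} = Set.univ

/-- Every bounded analytic function on `Ω` is a multiplier of `X`, with multiplication norm at
most a constant times the supremum norm. -/
def HInfMultiplier (A : AnSpace d Ω X) : Prop :=
  ∃ C : ℝ, ∀ h : (Fin d → ℂ) → ℂ, AnalyticOnNhd ℂ h Ω → ∀ K : ℝ, (∀ w ∈ Ω, ‖h w‖ ≤ K) →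
    ∀ f : X, ∃ x : X, (∀ w ∈ Ω, A.fn x w = h w * A.fn f w) ∧ ‖x‖ ≤ C * K * ‖f‖

lemma HInfMultiplier.isMultiplier {A : AnSpace d Ω X} (hH : A.HInfMultiplier)
    {h : (Fin d → ℂ) → ℂ} (hh : AnalyticOnNhd ℂ h Ω) {K : ℝ} (hK : ∀ w ∈ Ω, ‖h w‖ ≤ K) :
    A.IsMultiplier h := by
  obtain ⟨C, hC⟩ := hH
  intro f
  obtain ⟨x, hx, -⟩ := hC h hh K hK f
  exact ⟨x, hx⟩

/-- multiplication by a bounded analytic function as a bounded operator -/
lemma HInfMultiplier.exists_clm {A : AnSpace d Ω X} (hH : A.HInfMultiplier)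
    {h : (Fin d → ℂ) → ℂ} (hh : AnalyticOnNhd ℂ h Ω) {K : ℝ} (hK : ∀ w ∈ Ω, ‖h w‖ ≤ K) :
    ∃ M : X →L[ℂ] X, ∀ f, ∀ w ∈ Ω, A.fn (M f) w = h w * A.fn f w := by
  obtain ⟨C, hC⟩ := hH
  choose M hM hM' using hC h hh K hK
  refine ⟨LinearMap.mkContinuous
    { toFun := M
      map_add' := fun x y => ?_
      map_smul' := fun c x => ?_ } (C * K) hM', hM⟩
  · apply A.fn_ext
    intro w hw
    rw [hM _ w hw, map_add, map_add, Pi.add_apply, Pi.add_apply, hM _ w hw, hM _ w hw]
    ring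
  · apply A.fn_ext
    intro w hw
    rw [hM _ w hw, RingHom.id_apply, map_smul, map_smul, Pi.smul_apply, Pi.smul_apply, hM _ w hw]
    simp
    ring

/-- multipliers are analytic and bounded -/
lemma IsMultiplier.analytic_bounded [CompleteSpace X] {A : AnSpace d Ω X}
    {h : (Fin d → ℂ) → ℂ} (hm : A.IsMultiplier h) :
    ∃ h' : (Fin d → ℂ) → ℂ, (∀ w ∈ Ω, h' w = h w) ∧ AnalyticOnNhd ℂ h' Ω ∧
      ∃ K : ℝ, ∀ w ∈ Ω, ‖h' w‖ ≤ K := by
  choose M hM using hm
  let Ml : X →ₗ[ℂ] X :=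
    { toFun := M
      map_add' := fun x y => by
        apply A.fn_ext
        intro w hw
        rw [hM _ w hw, map_add, map_add, Pi.add_apply, Pi.add_apply, hM _ w hw, hM _ w hw]
        ring
      map_smul' := fun c x => by
        apply A.fn_ext
        intro w hw
        rw [hM _ w hw, RingHom.id_apply, map_smul, map_smul, Pi.smul_apply, Pi.smul_apply,
          hM _ w hw]
        simp
        ring }
  have hMl : ∀ x, ∀ w ∈ Ω, A.fn (Ml x) w = h w * A.fn x w := hM
  have hcont : Continuous Ml := by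
    apply Ml.continuous_of_seq_closed_graph
    intro u x y hu hMu
    apply A.fn_ext
    intro w hw
    obtain ⟨L, hL, -⟩ := A.exists_eval hw
    have h1 : Tendsto (fun n => L (Ml (u n))) atTop (𝓝 (L y)) :=
      (L.continuous.tendsto y).comp hMu
    have h2 : Tendsto (fun n => h w * L (u n)) atTop (𝓝 (h w * L x)) :=
      ((L.continuous.tendsto x).comp hu).const_mul (h w)
    have h3 : (fun n => L (Ml (u n))) = fun n => h w * L (u n) := by
      funext n
      rw [hL, hL, hMl _ w hw]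
    rw [h3] at h1
    have h4 := tendsto_nhds_unique h1 h2
    rw [hMl _ w hw, ← hL, ← hL, h4]
  let Mc : X →L[ℂ] X := ⟨Ml, hcont⟩
  refine ⟨fun w => A.fn (M (A.poly 1)) w, fun w hw => ?_, A.fn_analytic _, ‖Mc‖,
    fun w hw => ?_⟩
  · simp only
    rw [hM _ w hw, A.fn_poly _ w hw, map_one, mul_one]
  · simp only
    rw [hM _ w hw, A.fn_poly _ w hw, map_one, mul_one]
    obtain ⟨L, hL, hL'⟩ := A.exists_eval hw
    have hL0 : 0 < ‖L‖ := by
      rw [norm_pos_iff]
      intro h0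
      have := hL' 1
      rw [h0] at this
      simp at this
    have h1 : L.comp Mc = h w • L := by
      ext x
      show L (Ml x) = h w * L x
      rw [hL, hL, hMl _ w hw]
    have h2 : ‖h w‖ * ‖L‖ ≤ ‖L‖ * ‖Mc‖ := by
      rw [← norm_smul, ← h1]
      exact ContinuousLinearMap.opNorm_comp_le L Mc
    nlinarith

/-! ### the weak closure -/

lemma exists_functional {E : Type} [NormedAddCommGroup E] [NormedSpace ℂ E] (M : Submodule ℂ E)
    (hM : IsClosed (M : Set E)) {x : E} (hx : x ∉ M) :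
    ∃ u : E →L[ℂ] ℂ, (∀ y ∈ M, u y = 0) ∧ u x ≠ 0 := by
  have : IsClosed (M : Set E) := hM
  have hx' : M.mkQ x ≠ 0 := by
    rw [Submodule.mkQ_apply, Ne, Submodule.Quotient.mk_eq_zero]
    exact hx
  obtain ⟨v, -, hv⟩ := exists_dual_vector ℂ (M.mkQ x) (by simpa using hx')
  refine ⟨v.comp (⟨M.mkQ, by exact M.isOpenQuotientMap_mkQ.continuous⟩ : E →L[ℂ] E ⧸ M),
    fun y hy => ?_, ?_⟩
  · show v (M.mkQ y) = 0
    have : M.mkQ y = 0 := by
      rw [Submodule.mkQ_apply, Submodule.Quotient.mk_eq_zero]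
      exact hy
    rw [this, map_zero]
  · show v (M.mkQ x) ≠ 0
    rw [hv]
    simpa using hx'

/-- In a reflexive space a bounded sequence which converges at every point of `Ω` converges
weakly. -/
lemma mem_of_pointwise (A : AnSpace d Ω X)
    (hrefl : Function.Surjective (NormedSpace.inclusionInDoubleDual ℂ X))
    (M : Submodule ℂ X) (hM : IsClosed (M : Set X)) {y : ℕ → X} (hy : ∀ n, y n ∈ M)
    {K : ℝ} (hK : ∀ n, ‖y n‖ ≤ K) {x : X}
    (hx : ∀ w ∈ Ω, Tendsto (fun n => A.fn (y n) w) atTop (𝓝 (A.fn x w))) : x ∈ M := by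
  by_contra hxM
  obtain ⟨u, hu0, hux⟩ := exists_functional M hM hxM
  have hK0 : 0 ≤ K := (norm_nonneg _).trans (hK 0)
  -- the functionals along which the sequence converges
  let S : Submodule ℂ (StrongDual ℂ X) :=
    { carrier := {v | Tendsto (fun n => v (y n)) atTop (𝓝 (v x))}
      add_mem' := fun {v v'} hv hv' => by
        have := Tendsto.add hv hv'
        exact this
      zero_mem' := by
        show Tendsto (fun n => (0 : StrongDual ℂ X) (y n)) atTop (𝓝 ((0 : StrongDual ℂ X) x))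
        simp
      smul_mem' := fun c v hv => by
        have := Tendsto.const_mul c hv
        exact this }
  have hS : ∀ v, v ∈ S ↔ Tendsto (fun n => v (y n)) atTop (𝓝 (v x)) := fun v => Iff.rfl
  have hSc : IsClosed (S : Set (StrongDual ℂ X)) := by
    apply isClosed_of_closure_subset
    intro v hv
    show v ∈ S
    rw [hS, Metric.tendsto_atTop]
    intro ε hε
    rw [Metric.mem_closure_iff] at hv
    obtain ⟨v', hv', hd⟩ := hv (ε / (3 * (K + ‖x‖ + 1))) (by positivity)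
    have h1 := (hS v').1 hv'
    rw [Metric.tendsto_atTop] at h1
    obtain ⟨N, hN⟩ := h1 (ε / 3) (by positivity)
    refine ⟨N, fun n hn => ?_⟩
    have h2 := hN n hn
    rw [dist_eq_norm] at hd h2 ⊢
    have h3 : ‖(v - v') (y n)‖ ≤ ε / 3 := by
      refine ((v - v').le_opNorm _).trans ?_
      have h4 : ‖v - v'‖ * ‖y n‖ ≤ ε / (3 * (K + ‖x‖ + 1)) * (K + ‖x‖ + 1) :=
        mul_le_mul hd.le (by have := hK n; have := norm_nonneg x; linarith) (norm_nonneg _)
          (by positivity)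
      refine h4.trans (le_of_eq ?_)
      have : K + ‖x‖ + 1 ≠ 0 := by positivity
      field_simp
    have h4 : ‖(v - v') x‖ ≤ ε / 3 := by
      refine ((v - v').le_opNorm _).trans ?_
      have h4 : ‖v - v'‖ * ‖x‖ ≤ ε / (3 * (K + ‖x‖ + 1)) * (K + ‖x‖ + 1) :=
        mul_le_mul hd.le (by linarith) (norm_nonneg _) (by positivity)
      refine h4.trans (le_of_eq ?_)
      have : K + ‖x‖ + 1 ≠ 0 := by positivity
      field_simp
    have h5 : v (y n) - v x = (v - v') (y n) + (v' (y n) - v' x) - (v - v') x := by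
      rw [sub_apply, sub_apply]
      ring
    rw [h5]
    have h6 := norm_sub_le ((v - v') (y n) + (v' (y n) - v' x)) ((v - v') x)
    have h7 := norm_add_le ((v - v') (y n)) (v' (y n) - v' x)
    linarith
  have huS : u ∈ S := by
    by_contra huS
    obtain ⟨ξ, hξ0, hξu⟩ := exists_functional S hSc huS
    obtain ⟨x', hx'⟩ := hrefl ξ
    have h1 : x' = 0 := by
      apply A.fn_inj
      intro w hw
      obtain ⟨L, hL, -⟩ := A.exists_eval hw
      have h2 : L ∈ S := by
        rw [hS]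
        have h3 := hx w hw
        simp only [← hL] at h3
        exact h3
      have h3 := hξ0 L h2
      rw [← hx', NormedSpace.dual_def, hL] at h3
      exact h3
    rw [h1, map_zero] at hx'
    rw [← hx'] at hξu
    exact hξu rfl
  rw [hS] at huS
  have h1 : (fun n => u (y n)) = fun _ => (0 : ℂ) := funext fun n => hu0 _ (hy n)
  rw [h1] at huS
  exact hux (tendsto_nhds_unique huS tendsto_const_nhds)

/-- The functions `(P ∘ Φ) g`, `P` a polynomial. -/
def orbitMap (A : AnSpace d Ω X) {e : ℕ} (Φ : (Fin d → ℂ) → Fin e → ℂ) (g : X) :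
    Submodule ℂ X where
  carrier := {x | ∃ P : MvPolynomial (Fin e) ℂ, ∀ w ∈ Ω,
    A.fn x w = MvPolynomial.eval (Φ w) P * A.fn g w}
  add_mem' := by
    rintro x y ⟨P, hP⟩ ⟨Q, hQ⟩
    refine ⟨P + Q, fun w hw => ?_⟩
    rw [map_add, Pi.add_apply, hP w hw, hQ w hw, map_add, add_mul]
  zero_mem' := ⟨0, fun w _ => by simp⟩
  smul_mem' := by
    rintro c x ⟨P, hP⟩
    refine ⟨MvPolynomial.C c * P, fun w hw => ?_⟩
    rw [map_smul, Pi.smul_apply, hP w hw, map_mul, MvPolynomial.eval_C, smul_eq_mul]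
    ring

lemma mem_orbitMap {A : AnSpace d Ω X} {e : ℕ} {Φ : (Fin d → ℂ) → Fin e → ℂ} {g x : X} :
    x ∈ A.orbitMap Φ g ↔ ∃ P : MvPolynomial (Fin e) ℂ, ∀ w ∈ Ω,
      A.fn x w = MvPolynomial.eval (Φ w) P * A.fn g w := Iff.rfl

/-- The bounded analytic functions times `g` are in the closure of the polynomials in `Φ`
times `g`. -/
lemma mult_mem_closure (A : AnSpace d Ω X)
    (hrefl : Function.Surjective (NormedSpace.inclusionInDoubleDual ℂ X))
    (hH : A.HInfMultiplier) {e : ℕ} {D : Set (Fin e → ℂ)} (hD : PolyApprox D)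
    {Φ : (Fin d → ℂ) → Fin e → ℂ} {Ψ : (Fin e → ℂ) → Fin d → ℂ}
    (hΦ : AnalyticOnNhd ℂ Φ Ω) (hΨ : AnalyticOnNhd ℂ Ψ D) (hΦD : Set.MapsTo Φ Ω D)
    (hΨΩ : Set.MapsTo Ψ D Ω) (hinv : ∀ w ∈ Ω, Ψ (Φ w) = w)
    {h : (Fin d → ℂ) → ℂ} (hh : AnalyticOnNhd ℂ h Ω) {K : ℝ} (hK : ∀ w ∈ Ω, ‖h w‖ ≤ K)
    {g x : X} (hx : ∀ w ∈ Ω, A.fn x w = h w * A.fn g w) :
    x ∈ (A.orbitMap Φ g).topologicalClosure := by
  obtain ⟨P, K', hP1, hP2⟩ := hD (h ∘ Ψ) (hh.comp hΨ hΨΩ) ⟨K, fun u hu => hK _ (hΨΩ hu)⟩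
  obtain ⟨C, hC⟩ := hH
  have hPan : ∀ n, AnalyticOnNhd ℂ (fun w => MvPolynomial.eval (Φ w) (P n)) Ω := by
    intro n w hw
    have h1 : AnalyticAt ℂ (fun u : Fin e → ℂ => MvPolynomial.eval u (P n)) (Φ w) :=
      AnalyticOnNhd.eval_mvPolynomial (𝕜 := ℂ) (P n) _ (Set.mem_univ _)
    exact AnalyticAt.comp (g := fun u : Fin e → ℂ => MvPolynomial.eval u (P n)) h1 (hΦ w hw)
  choose y hy1 hy2 using fun n => hC _ (hPan n) K' (fun w hw => hP1 n _ (hΦD hw)) g
  refine A.mem_of_pointwise hrefl _ (Submodule.isClosed_topologicalClosure _)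
    (y := y) (fun n => ?_) hy2 (fun w hw => ?_)
  · apply Submodule.le_topologicalClosure
    exact ⟨P n, hy1 n⟩
  · have h1 := (hP2 (Φ w) (hΦD hw)).mul_const (A.fn g w)
    simp only [Function.comp_apply, hinv w hw] at h1
    rw [hx w hw]
    refine h1.congr (fun n => ?_)
    rw [hy1 n w hw]

/-! ### the change of variables -/

/-- The space `X` in the new variables. -/
lemma exists_transfer (A : AnSpace d Ω X)
    (hrefl : Function.Surjective (NormedSpace.inclusionInDoubleDual ℂ X))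
    (hH : A.HInfMultiplier) {D : Set (Fin d → ℂ)} (hDo : IsOpen D)
    (hDb : Bornology.IsBounded D) (hD : PolyApprox D)
    {Φ Ψ : (Fin d → ℂ) → Fin d → ℂ}
    (hΦ : AnalyticOnNhd ℂ Φ Ω) (hΨ : AnalyticOnNhd ℂ Ψ D) (hΦD : Set.MapsTo Φ Ω D)
    (hΨΩ : Set.MapsTo Ψ D Ω) (hinv : ∀ w ∈ Ω, Ψ (Φ w) = w) (hinv' : ∀ u ∈ D, Φ (Ψ u) = u) :
    ∃ A' : AnSpace d D X, ∀ x, ∀ u, A'.fn x u = A.fn x (Ψ u) := by
  obtain ⟨R, hR⟩ := isBounded_iff_forall_norm_le.1 hDb
  have hPan : ∀ P : MvPolynomial (Fin d) ℂ,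
      AnalyticOnNhd ℂ (fun w => MvPolynomial.eval (Φ w) P) Ω := by
    intro P w hw
    have h1 : AnalyticAt ℂ (fun u : Fin d → ℂ => MvPolynomial.eval u P) (Φ w) :=
      AnalyticOnNhd.eval_mvPolynomial (𝕜 := ℂ) P _ (Set.mem_univ _)
    exact AnalyticAt.comp (g := fun u : Fin d → ℂ => MvPolynomial.eval u P) h1 (hΦ w hw)
  have hPb : ∀ P : MvPolynomial (Fin d) ℂ, ∃ K : ℝ, ∀ w ∈ Ω, ‖MvPolynomial.eval (Φ w) P‖ ≤ K := by
    intro P
    have h1 : Continuous fun u : Fin d → ℂ => ‖MvPolynomial.eval u P‖ :=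
      (MvPolynomial.continuous_eval P).norm
    obtain ⟨K, hK⟩ := (isCompact_closedBall (0 : Fin d → ℂ) R).bddAbove_image h1.continuousOn
    refine ⟨K, fun w hw => hK ⟨Φ w, ?_, rfl⟩⟩
    rw [mem_closedBall_zero_iff]
    exact hR _ (hΦD hw)
  have hpoly : ∀ P : MvPolynomial (Fin d) ℂ, ∃ x : X, ∀ w ∈ Ω,
      A.fn x w = MvPolynomial.eval (Φ w) P := by
    intro P
    obtain ⟨K, hK⟩ := hPb P
    obtain ⟨x, hx⟩ := hH.isMultiplier (hPan P) hK (A.poly 1)
    refine ⟨x, fun w hw => ?_⟩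
    rw [hx w hw, A.fn_poly _ w hw, map_one, mul_one]
  choose poly' hpoly' using hpoly
  have hshift : ∀ j : Fin d, ∃ M : X →L[ℂ] X, ∀ f, ∀ w ∈ Ω, A.fn (M f) w = Φ w j * A.fn f w := by
    intro j
    have h1 := hPan (MvPolynomial.X j)
    obtain ⟨K, hK⟩ := hPb (MvPolynomial.X j)
    obtain ⟨M, hM⟩ := hH.exists_clm h1 hK
    refine ⟨M, fun f w hw => ?_⟩
    rw [hM f w hw]
    simp
  choose S hS using hshift
  refine ⟨{ fn := (LinearMap.funLeft ℂ ℂ Ψ).comp A.fn
            isOpen := hDo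
            fn_inj := fun x hx => A.fn_inj x (fun w hw => by
              have := hx (Φ w) (hΦD hw)
              rw [LinearMap.comp_apply, LinearMap.funLeft_apply, hinv w hw] at this
              exact this)
            fn_analytic := fun x => (A.fn_analytic x).comp hΨ hΨΩ
            poly := poly'
            fn_poly := fun P u hu => by
              rw [LinearMap.comp_apply, LinearMap.funLeft_apply, hpoly' P _ (hΨΩ hu), hinv' u hu]
            poly_dense := ?_
            fn_bounded := fun u hu => A.fn_bounded (Ψ u) (hΨΩ hu)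
            shift := S
            fn_shift := fun j x u hu => by
              rw [LinearMap.comp_apply, LinearMap.funLeft_apply, hS j x _ (hΨΩ hu), hinv' u hu,
                LinearMap.comp_apply, LinearMap.funLeft_apply] }, fun x u => rfl⟩
  -- density of the polynomials in the new variables
  have h1 : ((A.orbitMap Φ (A.poly 1) : Submodule ℂ X) : Set X) ⊆ Set.range poly' := by
    rintro x ⟨P, hP⟩
    refine ⟨P, A.fn_ext fun w hw => ?_⟩
    rw [hpoly' P w hw, hP w hw, A.fn_poly _ w hw, map_one, mul_one]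
  have h2 : ∀ Q, A.poly Q ∈ (A.orbitMap Φ (A.poly 1)).topologicalClosure := by
    intro Q
    obtain ⟨M, hM⟩ := A.exists_mul Q
    apply A.mult_mem_closure hrefl hH hD hΦ hΨ hΦD hΨΩ hinv
      (h := fun w => MvPolynomial.eval w Q) (K := ‖M‖)
    · exact fun w _ => AnalyticOnNhd.eval_mvPolynomial (𝕜 := ℂ) Q _ (Set.mem_univ _)
    · exact fun w hw => A.norm_eval_le (A.subset_maxDomain hw) hM
    · intro w hw
      rw [A.fn_poly _ w hw, A.fn_poly _ w hw, map_one, mul_one]
  have h3 : Set.range A.poly ⊆ closure (Set.range poly') := by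
    rintro _ ⟨Q, rfl⟩
    exact closure_mono h1 (h2 Q)
  have h4 : closure (Set.range A.poly) ⊆ closure (Set.range poly') :=
    closure_minimal h3 isClosed_closure
  intro x
  exact h4 (A.poly_dense x)

end AnSpace

open AnSpace

/-! ### the two implications -/

section

variable {d : ℕ} {Ω : Set (Fin d → ℂ)} {Y : Type} [NormedAddCommGroup Y] [NormedSpace ℂ Y]

/-- If all bounded analytic functions are multipliers and multiplier-cyclic functions are
shift-cyclic, then (CP) holds. -/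
theorem cp_of_multCyclic (B : AnSpace d Ω Y) (hH : B.HInfMultiplier)
    (hmc : ∀ g, B.MultCyclic g → B.Cyclic g) : B.CP := by
  intro e Ω' X _ _ _ A φ ψ T hψ hT f hf
  apply hmc
  set O : Set Y := {x | ∃ h, B.IsMultiplier h ∧ ∀ w ∈ Ω, B.fn x w = h w * B.fn (T f) w} with hO
  have hT1 : T (A.poly 1) = ψ := by
    apply B.fn_ext
    intro w hw
    have h4 := hT (A.poly 1) ⟨w, B.subset_maxDomain hw⟩
    simp only at h4
    obtain ⟨L, hL⟩ := (φ ⟨w, B.subset_maxDomain hw⟩).2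
    rw [A.ext_eq hL, hL 1, B.ext_of_mem hw, B.ext_of_mem hw] at h4
    simpa using h4
  have hψ0 : ∀ w ∈ Ω, B.fn ψ w ≠ 0 := by
    intro w hw
    have := B.cyclic_ext_ne_zero hψ (B.subset_maxDomain hw)
    rwa [B.ext_of_mem hw] at this
  have h1 : ∀ x ∈ A.orbit f, T x ∈ O := by
    rintro x ⟨P, hP⟩
    obtain ⟨M, hM⟩ := A.exists_mul P
    have hq : ∀ (w : Fin d → ℂ) (hw : w ∈ Ω), B.fn (T (A.poly P)) w / B.fn ψ w =
        MvPolynomial.eval (φ ⟨w, B.subset_maxDomain hw⟩ : Fin e → ℂ) P := by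
      intro w hw
      have h2 := hT (A.poly P) ⟨w, B.subset_maxDomain hw⟩
      simp only at h2
      obtain ⟨L, hL⟩ := (φ ⟨w, B.subset_maxDomain hw⟩).2
      rw [A.ext_eq hL, hL P, B.ext_of_mem hw, B.ext_of_mem hw] at h2
      rw [h2, mul_div_cancel_left₀ _ (hψ0 w hw)]
    refine ⟨fun w => B.fn (T (A.poly P)) w / B.fn ψ w, ?_, fun w hw => ?_⟩
    · apply hH.isMultiplier (K := ‖M‖)
      · exact (B.fn_analytic _).div (B.fn_analytic _) hψ0
      · intro w hw
        rw [hq w hw]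
        exact A.norm_eval_le (φ ⟨w, B.subset_maxDomain hw⟩).2 hM
    · show B.fn (T x) w = B.fn (T (A.poly P)) w / B.fn ψ w * B.fn (T f) w
      rw [hq w hw]
      have h3 := hT x ⟨w, B.subset_maxDomain hw⟩
      have h4 := hT f ⟨w, B.subset_maxDomain hw⟩
      simp only at h3 h4
      rw [B.ext_of_mem hw, B.ext_of_mem hw] at h3 h4
      rw [h3, h4, A.ext_mul (φ ⟨w, B.subset_maxDomain hw⟩).2 hP]
      ring
  have h2 : ψ ∈ closure O := by
    rw [← hT1]
    have h3 : T '' closure (A.orbit f) ⊆ closure O := by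
      refine (image_closure_subset_closure_image T.continuous).trans ?_
      apply closure_mono
      rintro _ ⟨x, hx, rfl⟩
      exact h1 x hx
    apply h3
    refine ⟨A.poly 1, ?_, rfl⟩
    rw [hf]
    trivial
  have h3 : B.orbit ψ ⊆ closure O := by
    rintro x ⟨Q, hQ⟩
    obtain ⟨M, hM⟩ := B.exists_mul Q
    have : x = M ψ := B.fn_ext (fun v hv => by rw [hQ v hv, hM ψ v hv])
    rw [this]
    have h4 : M '' closure O ⊆ closure O := by
      refine (image_closure_subset_closure_image M.continuous).trans ?_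
      apply closure_mono
      rintro _ ⟨y, ⟨h, hh, hy⟩, rfl⟩
      refine ⟨fun w => MvPolynomial.eval w Q * h w, fun z => ?_, fun w hw => ?_⟩
      · obtain ⟨x', hx'⟩ := hh z
        refine ⟨M x', fun w hw => ?_⟩
        rw [hM _ w hw, hx' w hw, mul_assoc]
      · rw [hM _ w hw, hy w hw, mul_assoc]
    exact h4 ⟨ψ, h2, rfl⟩
  have h4 : closure (B.orbit ψ) ⊆ closure O := closure_minimal h3 isClosed_closure
  rw [hψ] at h4
  exact Set.univ_subset_iff.1 h4

/-- (CP) implies that multiplier-cyclic functions are shift-cyclic, for reflexive spaces on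
domains which are biholomorphic to a domain with bounded pointwise approximation. -/
theorem multCyclic_of_cp [CompleteSpace Y] (B : AnSpace d Ω Y)
    (hrefl : Function.Surjective (NormedSpace.inclusionInDoubleDual ℂ Y))
    (hmax : B.maxDomain = Ω) (hH : B.HInfMultiplier) {D : Set (Fin d → ℂ)} (hDo : IsOpen D)
    (hDb : Bornology.IsBounded D) (hD : PolyApprox D)
    {Φ Ψ : (Fin d → ℂ) → Fin d → ℂ}
    (hΦ : AnalyticOnNhd ℂ Φ Ω) (hΨ : AnalyticOnNhd ℂ Ψ D) (hΦD : Set.MapsTo Φ Ω D)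
    (hΨΩ : Set.MapsTo Ψ D Ω) (hinv : ∀ w ∈ Ω, Ψ (Φ w) = w) (hinv' : ∀ u ∈ D, Φ (Ψ u) = u)
    (hcp : B.CP) (g : Y) (hg : B.MultCyclic g) : B.Cyclic g := by
  obtain ⟨A, hA⟩ := B.exists_transfer hrefl hH hDo hDb hD hΦ hΨ hΦD hΨΩ hinv hinv'
  have hmem : ∀ w : B.maxDomain, (w : Fin d → ℂ) ∈ Ω := fun w => hmax.subset w.2
  have hcy : A.Cyclic g := by
    have h1 : {x | ∃ h, B.IsMultiplier h ∧ ∀ w ∈ Ω, B.fn x w = h w * B.fn g w} ⊆
        closure (A.orbit g) := by
      rintro x ⟨h, hh, hx⟩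
      obtain ⟨h', hh', han, K, hK⟩ := hh.analytic_bounded
      have h2 := B.mult_mem_closure hrefl hH hD hΦ hΨ hΦD hΨΩ hinv han hK (g := g) (x := x)
        (fun w hw => by rw [hx w hw, hh' w hw])
      have h3 : ((B.orbitMap Φ g : Submodule ℂ Y) : Set Y) ⊆ A.orbit g := by
        rintro y ⟨P, hP⟩
        refine ⟨P, fun u hu => ?_⟩
        rw [hA, hA, hP _ (hΨΩ hu), hinv' u hu]
      exact closure_mono h3 h2
    have h2 := closure_minimal h1 isClosed_closure
    rw [hg] at h2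
    exact Set.univ_subset_iff.1 h2
  refine hcp d D Y _ _ inferInstance A
    (fun w => ⟨Φ w, A.subset_maxDomain (hΦD (hmem w))⟩) (B.poly 1) (ContinuousLinearMap.id ℂ Y)
    ?_ ?_ g hcy
  · have h1 : Set.range B.poly ⊆ B.orbit (B.poly 1) := by
      rintro _ ⟨P, rfl⟩
      refine ⟨P, fun w hw => ?_⟩
      rw [B.fn_poly _ w hw, B.fn_poly _ w hw, map_one, mul_one]
    have h2 : closure (Set.range B.poly) ⊆ closure (B.orbit (B.poly 1)) := closure_mono h1
    exact Set.univ_subset_iff.1 ((B.poly_dense.closure_range).symm.subset.trans h2)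
  · intro f w
    rw [ContinuousLinearMap.id_apply, B.ext_of_mem (hmem w), B.ext_of_mem (hmem w),
      A.ext_of_mem (hΦD (hmem w)), hA, hinv _ (hmem w), B.fn_poly _ _ (hmem w), map_one, one_mul]

end

end Pool.Agent.CycP
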