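import Mathlib

set_option autoImplicit false

/-! A sequence of isolated points in the unit disc whose values dominate the value at zero,
with summable weights, for all polynomials. -/

namespace Pool.Agent.CycP

open Polynomial

/-- the points -/
noncomputable def yz (n : ℕ) : ℂ :=
  if n = 0 then 0 else Complex.exp ((-6 + 2 * Real.pi * Complex.I * n) / 2 ^ Nat.log 2 n)

/-- the radii of the circles -/
noncomputable def yρ (m : ℕ) : ℝ := Real.exp (-6 / 2 ^ m)

lemma yρ_pos (m : ℕ) : 0 < yρ m := Real.exp_pos _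

lemma yρ_lt_one (m : ℕ) : yρ m < 1 := by
  unfold yρ
  rw [Real.exp_lt_one_iff]
  have : (0 : ℝ) < 2 ^ m := by positivity
  exact div_neg_of_neg_of_pos (by norm_num) this

lemma yρ_lt_succ (m : ℕ) : yρ m < yρ (m + 1) := by
  unfold yρ
  rw [Real.exp_lt_exp, pow_succ, div_lt_div_iff₀ (by positivity) (by positivity)]
  have : (0 : ℝ) < 2 ^ m := by positivity
  nlinarith

lemma yρ_strictMono : StrictMono yρ := strictMono_nat_of_lt_succ yρ_lt_succ

lemma yz_norm {n : ℕ} (hn : n ≠ 0) : ‖yz n‖ = yρ (Nat.log 2 n) := by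
  unfold yz yρ
  rw [if_neg hn, Complex.norm_exp]
  congr 1
  have h1 : ((-6 + 2 * Real.pi * Complex.I * n) / 2 ^ Nat.log 2 n : ℂ) =
      (((1 / 2 ^ Nat.log 2 n : ℝ)) : ℂ) * (-6 + 2 * Real.pi * Complex.I * n) := by
    push_cast
    ring
  rw [h1, Complex.re_ofReal_mul]
  simp
  ring

lemma yz_norm_lt (n : ℕ) : ‖yz n‖ < 1 := by
  by_cases hn : n = 0
  · subst hn
    simp [yz]
  · rw [yz_norm hn]; exact yρ_lt_one _

/-- the point number `2 ^ m + k` -/
lemma yz_level (m k : ℕ) (hk : k < 2 ^ m) :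
    yz (2 ^ m + k) = yρ m * Complex.exp (2 * Real.pi * Complex.I / (2 ^ m : ℕ)) ^ k := by
  have hlog : Nat.log 2 (2 ^ m + k) = m := by
    rw [Nat.log_eq_iff (Or.inr ⟨by norm_num, by positivity⟩)]
    refine ⟨by omega, ?_⟩
    rw [pow_succ]; omega
  unfold yz yρ
  rw [if_neg (by positivity), hlog, ← Complex.exp_nat_mul, Complex.ofReal_exp, ← Complex.exp_add,
    Complex.exp_eq_exp_iff_exists_int]
  refine ⟨1, ?_⟩
  have h2 : (2 : ℂ) ^ m ≠ 0 := pow_ne_zero _ two_ne_zero
  push_cast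
  field_simp
  ring

lemma yz_inj : Function.Injective yz := by
  intro i j hij
  by_cases hi : i = 0
  · by_cases hj : j = 0
    · rw [hi, hj]
    · exfalso
      have h1 := yz_norm hj
      rw [← hij, hi] at h1
      have h2 : ‖yz 0‖ = 0 := by simp [yz]
      rw [h2] at h1
      exact (yρ_pos _).ne h1
  · by_cases hj : j = 0
    · exfalso
      have h1 := yz_norm hi
      rw [hij, hj] at h1
      have h2 : ‖yz 0‖ = 0 := by simp [yz]
      rw [h2] at h1
      exact (yρ_pos _).ne h1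
    · have h1 : Nat.log 2 i = Nat.log 2 j := by
        apply yρ_strictMono.injective
        rw [← yz_norm hi, ← yz_norm hj, hij]
      set m := Nat.log 2 i with hm
      have hi2 : 2 ^ m ≤ i ∧ i < 2 ^ (m + 1) :=
        ⟨Nat.pow_log_le_self 2 hi, Nat.lt_pow_succ_log_self (by norm_num) i⟩
      have hj2 : 2 ^ m ≤ j ∧ j < 2 ^ (m + 1) := by
        rw [h1]
        exact ⟨Nat.pow_log_le_self 2 hj, Nat.lt_pow_succ_log_self (by norm_num) j⟩
      unfold yz at hij
      rw [if_neg hi, if_neg hj, ← hm, ← h1, Complex.exp_eq_exp_iff_exists_int] at hij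
      obtain ⟨n, hn⟩ := hij
      have hpi : (2 * Real.pi * Complex.I : ℂ) ≠ 0 := Complex.two_pi_I_ne_zero
      have h2 : ((2 : ℂ) ^ m) ≠ 0 := pow_ne_zero _ two_ne_zero
      have h3 : (2 * Real.pi * Complex.I : ℂ) * (i - j - n * 2 ^ m) = 0 := by
        have h4 : (-6 + 2 * Real.pi * Complex.I * i : ℂ) =
            -6 + 2 * Real.pi * Complex.I * j + n * (2 * Real.pi * Complex.I) * 2 ^ m := by
          field_simp at hn
          linear_combination hn
        linear_combination h4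
      have h4 : ((i : ℂ) - j - n * 2 ^ m) = 0 := (mul_eq_zero.1 h3).resolve_left hpi
      have h5 : ((i : ℤ) - j - n * 2 ^ m) = 0 := by exact_mod_cast h4
      have h6 : (i : ℤ) - j < 2 ^ m := by
        have : (i : ℤ) < 2 ^ (m + 1) := by exact_mod_cast hi2.2
        have h7 : (2 ^ m : ℤ) ≤ j := by exact_mod_cast hj2.1
        rw [pow_succ] at this
        omega
      have h7 : -(2 ^ m : ℤ) < (i : ℤ) - j := by
        have : (j : ℤ) < 2 ^ (m + 1) := by exact_mod_cast hj2.2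
        have h7 : (2 ^ m : ℤ) ≤ i := by exact_mod_cast hi2.1
        rw [pow_succ] at this
        omega
      have hp : (0 : ℤ) < 2 ^ m := by positivity
      have h8 : n < 1 := by
        by_contra hcon
        push Not at hcon
        nlinarith
      have h9 : -1 < n := by
        by_contra hcon
        push Not at hcon
        nlinarith
      have h10 : n = 0 := by omega
      rw [h10] at h5
      omega

/-- every point is isolated -/
lemma yz_isolated (i : ℕ) : ∃ δ > 0, ∀ j, j ≠ i → δ ≤ ‖yz j - yz i‖ := by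
  -- the far away points
  obtain ⟨K, δ1, hδ1, hfar⟩ : ∃ (K : ℕ) (δ : ℝ), 0 < δ ∧ ∀ j, K ≤ j → δ ≤ ‖yz j - yz i‖ := by
    by_cases hi : i = 0
    · refine ⟨1, yρ 0, yρ_pos 0, fun j hj => ?_⟩
      have h1 : yz i = 0 := by rw [hi]; simp [yz]
      rw [h1, sub_zero, yz_norm (by omega)]
      exact yρ_strictMono.monotone (Nat.zero_le _)
    · set m := Nat.log 2 i with hm
      refine ⟨2 ^ (m + 1), yρ (m + 1) - yρ m, sub_pos.2 (yρ_lt_succ m), fun j hj => ?_⟩
      have hj0 : j ≠ 0 := by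
        have : 0 < 2 ^ (m + 1) := by positivity
        omega
      have h1 : m + 1 ≤ Nat.log 2 j := Nat.le_log_of_pow_le (by norm_num) hj
      have h2 : yρ (m + 1) ≤ ‖yz j‖ := by
        rw [yz_norm hj0]; exact yρ_strictMono.monotone h1
      have h3 : ‖yz i‖ = yρ m := yz_norm hi
      have h4 := norm_sub_norm_le (yz j) (yz i)
      linarith
  have hnear : ∀ K : ℕ, ∃ δ > 0, ∀ j < K, j ≠ i → δ ≤ ‖yz j - yz i‖ := by
    intro K
    induction K with
    | zero => exact ⟨1, one_pos, fun j hj => absurd hj (by omega)⟩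
    | succ K ih =>
      obtain ⟨δ, hδ, h⟩ := ih
      by_cases hKi : K = i
      · refine ⟨δ, hδ, fun j hj hji => h j (by omega) hji⟩
      · have hpos : 0 < ‖yz K - yz i‖ := by
          rw [norm_pos_iff, sub_ne_zero]
          exact fun h => hKi (yz_inj h)
        refine ⟨min δ ‖yz K - yz i‖, lt_min hδ hpos, fun j hj hji => ?_⟩
        rcases Nat.lt_or_ge j K with hjK | hjK
        · exact (min_le_left _ _).trans (h j hjK hji)
        · have : j = K := by omega
          subst this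
          exact min_le_right _ _
  obtain ⟨δ2, hδ2, hn⟩ := hnear K
  refine ⟨min δ1 δ2, lt_min hδ1 hδ2, fun j hji => ?_⟩
  rcases Nat.lt_or_ge j K with h | h
  · exact (min_le_right _ _).trans (hn j h hji)
  · exact (min_le_left _ _).trans (hfar j h)

/-! ### the coefficients of a polynomial from its values at the points -/

lemma char_sum {N : ℕ} (hN : 0 < N) {ζ : ℂ} (hζ : IsPrimitiveRoot ζ N) (l n : ℕ) :
    ∑ k ∈ Finset.range N, ζ ^ (k * l) * (ζ ^ (k * n))⁻¹ = if l ≡ n [MOD N] then (N : ℂ) else 0 := by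
  have hζ0 : ζ ≠ 0 := hζ.ne_zero hN.ne'
  have h1 : ∀ k, ζ ^ (k * l) * (ζ ^ (k * n))⁻¹ = (ζ ^ l * (ζ ^ n)⁻¹) ^ k := by
    intro k
    rw [mul_pow, inv_pow, ← pow_mul, ← pow_mul, mul_comm k l, mul_comm k n]
  simp only [h1]
  have hx : (ζ ^ l * (ζ ^ n)⁻¹ = 1) ↔ l ≡ n [MOD N] := by
    have h2 : ζ ^ l * (ζ ^ n)⁻¹ = ζ ^ ((l : ℤ) - n) := by
      rw [zpow_sub₀ hζ0, zpow_natCast, zpow_natCast, div_eq_mul_inv]
    rw [h2, hζ.zpow_eq_one_iff_dvd]
    constructor
    · intro h
      exact (Nat.modEq_iff_dvd.2 h).symm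
    · intro h
      exact Nat.modEq_iff_dvd.1 h.symm
  by_cases h : l ≡ n [MOD N]
  · rw [if_pos h, hx.2 h]
    simp
  · rw [if_neg h, geom_sum_eq (fun h' => h (hx.1 h'))]
    have : (ζ ^ l * (ζ ^ n)⁻¹) ^ N = 1 := by
      rw [mul_pow, inv_pow, ← pow_mul, ← pow_mul, mul_comm l, mul_comm n, pow_mul, pow_mul,
        hζ.pow_eq_one]
      simp
    rw [this, sub_self, zero_div]

lemma coeff_avg (P : ℂ[X]) {N : ℕ} (hN : 0 < N) {ζ : ℂ} (hζ : IsPrimitiveRoot ζ N) (ρ : ℂ)
    (n : ℕ) :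
    ∑ k ∈ Finset.range N, P.eval (ρ * ζ ^ k) * (ζ ^ (k * n))⁻¹ =
      N * ∑ l ∈ (Finset.range (P.natDegree + 1)).filter (fun l => l ≡ n [MOD N]),
        P.coeff l * ρ ^ l := by
  have h1 : ∀ k, P.eval (ρ * ζ ^ k) * (ζ ^ (k * n))⁻¹ =
      ∑ l ∈ Finset.range (P.natDegree + 1),
        P.coeff l * ρ ^ l * (ζ ^ (k * l) * (ζ ^ (k * n))⁻¹) := by
    intro k
    rw [eval_eq_sum_range, Finset.sum_mul]
    apply Finset.sum_congr rfl
    intro l _
    rw [mul_pow, ← pow_mul]
    ring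
  simp only [h1]
  rw [Finset.sum_comm, Finset.sum_filter, Finset.mul_sum]
  apply Finset.sum_congr rfl
  intro l _
  rw [← Finset.mul_sum, char_sum hN hζ]
  split_ifs <;> ring

lemma q_bound : Real.exp (-3) ≤ 1 / 17 := by
  rw [Real.exp_neg]
  have h1 : (17 : ℝ) ≤ Real.exp 3 := by
    have h2 : Real.exp 3 = Real.exp 1 ^ 3 := by
      rw [← Real.exp_nat_mul]; norm_num
    rw [h2]
    have h3 := Real.exp_one_gt_d9
    have h4 : (2.7 : ℝ) ≤ Real.exp 1 := by linarith
    have h5 := pow_le_pow_left₀ (by norm_num) h4 3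
    refine le_trans ?_ h5
    norm_num
  rw [inv_le_comm₀ (by positivity) (by norm_num)]
  linarith

lemma ratio_pow {m l t : ℕ} (h : t * 2 ^ m ≤ l) :
    yρ m ^ l ≤ yρ (m + 1) ^ l * (1 / 17) ^ t := by
  have h1 : yρ m = yρ (m + 1) * Real.exp (-3 / 2 ^ m) := by
    unfold yρ
    rw [← Real.exp_add]
    congr 1
    rw [pow_succ]
    field_simp
    norm_num
  rw [h1, mul_pow]
  apply mul_le_mul_of_nonneg_left _ (pow_nonneg (yρ_pos _).le _)
  have h2 : Real.exp (-3 / 2 ^ m) ≤ 1 := by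
    rw [Real.exp_le_one_iff]
    have : (0 : ℝ) < 2 ^ m := by positivity
    exact div_nonpos_of_nonpos_of_nonneg (by norm_num) this.le
  have h3 : Real.exp (-3 / 2 ^ m) ^ (2 ^ m) = Real.exp (-3) := by
    rw [← Real.exp_nat_mul]
    congr 1
    push_cast
    field_simp
  calc Real.exp (-3 / 2 ^ m) ^ l ≤ Real.exp (-3 / 2 ^ m) ^ (2 ^ m * t) := by
        apply pow_le_pow_of_le_one (Real.exp_pos _).le h2
        rw [mul_comm]; exact h
    _ = Real.exp (-3) ^ t := by rw [pow_mul, h3]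
    _ ≤ (1 / 17) ^ t := pow_le_pow_left₀ (Real.exp_pos _).le q_bound t

/-- the mean of the values on the circle number `m` -/
noncomputable def mean (P : ℂ[X]) (m : ℕ) : ℝ :=
  (1 / 2 ^ m) * ∑ k ∈ Finset.range (2 ^ m), ‖P.eval (yz (2 ^ m + k))‖

lemma mean_nonneg (P : ℂ[X]) (m : ℕ) : 0 ≤ mean P m := by
  unfold mean; positivity

lemma coeff_step (P : ℂ[X]) (m : ℕ) {A : ℝ} (hA : ∀ l, ‖P.coeff l‖ * yρ (m + 1) ^ l ≤ A)
    (n : ℕ) : ‖P.coeff n‖ * yρ m ^ n ≤ mean P m + A / 16 := by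
  have hA0 : 0 ≤ A := le_trans (by have := yρ_pos (m + 1); positivity) (hA 0)
  have hN : 0 < 2 ^ m := by positivity
  rcases Nat.lt_or_ge n (2 ^ m) with hn | hn
  swap
  · have h1 := ratio_pow (m := m) (l := n) (t := 1) (by omega)
    have h2 := hA n
    have h3 := mean_nonneg P m
    have h4 : ‖P.coeff n‖ * yρ m ^ n ≤ ‖P.coeff n‖ * yρ (m + 1) ^ n * (1 / 17) ^ 1 := by
      rw [mul_assoc]
      exact mul_le_mul_of_nonneg_left h1 (norm_nonneg _)
    have h5 : ‖P.coeff n‖ * yρ (m + 1) ^ n * (1 / 17) ^ 1 ≤ A * (1 / 17) := by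
      rw [pow_one]
      exact mul_le_mul_of_nonneg_right h2 (by norm_num)
    linarith
  by_cases hd : P.natDegree < n
  · rw [coeff_eq_zero_of_natDegree_lt hd, norm_zero, zero_mul]
    have h3 := mean_nonneg P m
    positivity
  push Not at hd
  have hζ := Complex.isPrimitiveRoot_exp (2 ^ m) hN.ne'
  set ζ := Complex.exp (2 * Real.pi * Complex.I / (2 ^ m : ℕ)) with hζdef
  have hζn : ‖ζ‖ = 1 := hζ.norm'_eq_one hN.ne'
  have h1 := coeff_avg P hN hζ (yρ m : ℂ) n
  set s := (Finset.range (P.natDegree + 1)).filter (fun l => l ≡ n [MOD 2 ^ m]) with hs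
  have hns : n ∈ s := by
    rw [hs, Finset.mem_filter, Finset.mem_range]
    exact ⟨by omega, rfl⟩
  rw [← Finset.add_sum_erase s _ hns] at h1
  have h2 : P.coeff n * (yρ m : ℂ) ^ n =
      (1 / 2 ^ m : ℂ) * ∑ k ∈ Finset.range (2 ^ m), P.eval (yρ m * ζ ^ k) * (ζ ^ (k * n))⁻¹ -
        ∑ l ∈ s.erase n, P.coeff l * (yρ m : ℂ) ^ l := by
    rw [h1]
    have : ((2 : ℂ) ^ m) ≠ 0 := pow_ne_zero _ two_ne_zero
    push_cast
    field_simp
    ring
  have h3 : ‖P.coeff n‖ * yρ m ^ n = ‖P.coeff n * (yρ m : ℂ) ^ n‖ := by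
    rw [norm_mul, norm_pow, Complex.norm_real, Real.norm_of_nonneg (yρ_pos m).le]
  rw [h3, h2]
  refine (norm_sub_le _ _).trans (add_le_add ?_ ?_)
  · rw [norm_mul]
    unfold mean
    have h4 : ‖(1 / 2 ^ m : ℂ)‖ = 1 / 2 ^ m := by simp
    rw [h4]
    apply mul_le_mul_of_nonneg_left _ (by positivity)
    refine (norm_sum_le _ _).trans (Finset.sum_le_sum fun k hk => ?_)
    rw [norm_mul, norm_inv, norm_pow, hζn, one_pow, inv_one, mul_one,
      yz_level m k (Finset.mem_range.1 hk)]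
  · have h4 : ∀ l ∈ s.erase n, l = n + 2 ^ m * (l / 2 ^ m) ∧ 1 ≤ l / 2 ^ m := by
      intro l hl
      rw [Finset.mem_erase, hs, Finset.mem_filter] at hl
      have h5 : l % 2 ^ m = n := by
        have h6 := hl.2.2
        unfold Nat.ModEq at h6
        rw [h6, Nat.mod_eq_of_lt hn]
      have h6 := Nat.mod_add_div l (2 ^ m)
      rw [h5] at h6
      refine ⟨h6.symm, ?_⟩
      by_contra hcon
      have h7 : l / 2 ^ m = 0 := Nat.lt_one_iff.1 (not_le.1 hcon)
      rw [h7, mul_zero, add_zero] at h6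
      exact hl.1 h6.symm
    have h5 : ∀ l ∈ s.erase n, ‖P.coeff l * (yρ m : ℂ) ^ l‖ ≤ A * (1 / 17) ^ (l / 2 ^ m) := by
      intro l hl
      rw [norm_mul, norm_pow, Complex.norm_real, Real.norm_of_nonneg (yρ_pos m).le]
      have h6 := ratio_pow (m := m) (l := l) (t := l / 2 ^ m) (Nat.div_mul_le_self _ _)
      calc ‖P.coeff l‖ * yρ m ^ l ≤ ‖P.coeff l‖ * (yρ (m + 1) ^ l * (1 / 17) ^ (l / 2 ^ m)) :=
            mul_le_mul_of_nonneg_left h6 (norm_nonneg _)
        _ = (‖P.coeff l‖ * yρ (m + 1) ^ l) * (1 / 17) ^ (l / 2 ^ m) := by ring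
        _ ≤ A * (1 / 17) ^ (l / 2 ^ m) :=
            mul_le_mul_of_nonneg_right (hA l) (by positivity)
    refine (norm_sum_le _ _).trans ((Finset.sum_le_sum h5).trans ?_)
    rw [← Finset.mul_sum]
    have h6 : ∑ l ∈ s.erase n, ((1 : ℝ) / 17) ^ (l / 2 ^ m) ≤ 1 / 16 := by
      have h7 : ∑ l ∈ s.erase n, ((1 : ℝ) / 17) ^ (l / 2 ^ m) =
          ∑ t ∈ (s.erase n).image (fun l => l / 2 ^ m), ((1 : ℝ) / 17) ^ t := by
        rw [Finset.sum_image]
        intro l hl l' hl' hll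
        rw [(h4 l hl).1, (h4 l' hl').1]
        simp only at hll
        rw [hll]
      rw [h7]
      have h8 : 0 ∉ (s.erase n).image (fun l => l / 2 ^ m) := by
        intro h0
        rw [Finset.mem_image] at h0
        obtain ⟨l, hl, hl0⟩ := h0
        have := (h4 l hl).2
        omega
      have h9 : Summable fun t : ℕ => ((1 : ℝ) / 17) ^ t :=
        summable_geometric_of_lt_one (by norm_num) (by norm_num)
      have h10 := h9.sum_le_tsum (insert 0 ((s.erase n).image (fun l => l / 2 ^ m)))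
        (fun t _ => by positivity)
      rw [Finset.sum_insert h8, tsum_geometric_of_lt_one (by norm_num) (by norm_num)] at h10
      norm_num at h10 ⊢
      linarith
    have := mul_le_mul_of_nonneg_left h6 hA0
    linarith

lemma coeff_iter (P : ℂ[X]) {A : ℝ} (hA : ∀ l, ‖P.coeff l‖ ≤ A) (M : ℕ) : ∀ m n : ℕ,
    ‖P.coeff n‖ * yρ m ^ n ≤ ∑ j ∈ Finset.range M, (1 / 16) ^ j * mean P (m + j) +
      (1 / 16) ^ M * A := by
  induction M with
  | zero =>
    intro m n
    simp only [Finset.range_zero, Finset.sum_empty, pow_zero, one_mul, zero_add]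
    refine le_trans ?_ (hA n)
    exact mul_le_of_le_one_right (norm_nonneg _) (pow_le_one₀ (yρ_pos m).le (yρ_lt_one m).le)
  | succ M ih =>
    intro m n
    have h1 := coeff_step P m (ih (m + 1)) n
    refine h1.trans (le_of_eq ?_)
    rw [Finset.sum_range_succ', add_div, Finset.sum_div]
    simp only [pow_zero, one_mul, add_zero]
    have h2 : ∑ j ∈ Finset.range M, (1 / 16 : ℝ) ^ j * mean P (m + 1 + j) / 16 =
        ∑ j ∈ Finset.range M, (1 / 16) ^ (j + 1) * mean P (m + (j + 1)) := by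
      apply Finset.sum_congr rfl
      intro j _
      rw [show m + 1 + j = m + (j + 1) by ring, pow_succ]
      ring
    rw [h2, pow_succ]
    ring

lemma sum_levels (f : ℕ → ℝ) (M : ℕ) :
    ∑ j ∈ Finset.range M, ∑ k ∈ Finset.range (2 ^ j), f (2 ^ j + k) =
      ∑ i ∈ Finset.Ico 1 (2 ^ M), f i := by
  induction M with
  | zero => simp
  | succ M ih =>
    rw [Finset.sum_range_succ, ih, ← Finset.sum_Ico_consecutive f (m := 1) (n := 2 ^ M)
      (k := 2 ^ (M + 1)) Nat.one_le_two_pow (Nat.pow_le_pow_right (by norm_num) (by omega)),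
      Finset.sum_Ico_eq_sum_range f (2 ^ M)]
    have : 2 ^ (M + 1) - 2 ^ M = 2 ^ M := by rw [pow_succ]; omega
    rw [this]

/-- the coefficients of the vector which is cyclic upstairs and not downstairs -/
noncomputable def cf (n : ℕ) : ℝ := (1 / 4) ^ Nat.log 2 n

lemma cf_pos (n : ℕ) : 0 < cf n := by unfold cf; positivity

lemma cf_le_one (n : ℕ) : cf n ≤ 1 := pow_le_one₀ (by norm_num) (by norm_num)

lemma cf_zero : cf 0 = 1 := by simp [cf]

lemma cf_level {m k : ℕ} (hk : k < 2 ^ m) : cf (2 ^ m + k) = (1 / 4) ^ m := by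
  have hlog : Nat.log 2 (2 ^ m + k) = m := by
    rw [Nat.log_eq_iff (Or.inr ⟨by norm_num, by positivity⟩)]
    refine ⟨by omega, ?_⟩
    rw [pow_succ]; omega
  unfold cf
  rw [hlog]

lemma cf_sum_Ico (M : ℕ) : ∑ i ∈ Finset.Ico 1 (2 ^ M), cf i ^ 2 ≤ 8 / 7 := by
  rw [← sum_levels]
  have h1 : ∀ j ∈ Finset.range M, ∑ k ∈ Finset.range (2 ^ j), cf (2 ^ j + k) ^ 2 =
      (1 / 8 : ℝ) ^ j := by
    intro j _
    have h2 : ∀ k ∈ Finset.range (2 ^ j), cf (2 ^ j + k) ^ 2 = (1 / 16 : ℝ) ^ j := by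
      intro k hk
      rw [cf_level (Finset.mem_range.1 hk), ← pow_mul, mul_comm, pow_mul]
      norm_num
    rw [Finset.sum_congr rfl h2, Finset.sum_const, Finset.card_range, nsmul_eq_mul]
    push_cast
    rw [← mul_pow]
    norm_num
  rw [Finset.sum_congr rfl h1]
  have h9 : Summable fun t : ℕ => ((1 : ℝ) / 8) ^ t :=
    summable_geometric_of_lt_one (by norm_num) (by norm_num)
  have h10 := h9.sum_le_tsum (Finset.range M) (fun t _ => by positivity)
  rw [tsum_geometric_of_lt_one (by norm_num) (by norm_num)] at h10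
  refine h10.trans (le_of_eq (by norm_num))

lemma cf_sum (s : Finset ℕ) (hs : 0 ∉ s) : ∑ i ∈ s, cf i ^ 2 ≤ 8 / 7 := by
  have h1 : s ⊆ Finset.Ico 1 (2 ^ (s.sup id + 1)) := by
    intro i hi
    rw [Finset.mem_Ico]
    have h2 : i ≤ s.sup id := Finset.le_sup (f := id) hi
    have h3 : i < 2 ^ i := Nat.lt_two_pow_self
    have h4 : 2 ^ i ≤ 2 ^ (s.sup id + 1) := Nat.pow_le_pow_right (by norm_num) (by omega)
    refine ⟨?_, by omega⟩
    by_contra hcon
    have : i = 0 := by omega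
    subst this
    exact hs hi
  exact (Finset.sum_le_sum_of_subset_of_nonneg h1 (fun i _ _ => sq_nonneg _)).trans
    (cf_sum_Ico _)

/-- the value at zero is dominated by the values at the other points, with summable weights -/
theorem zero_dominated (P : ℂ[X]) {η : ℝ} (hη : 0 < η) : ∃ s : Finset ℕ, 0 ∉ s ∧
    ‖P.eval (yz 0)‖ ≤ ∑ i ∈ s, cf i ^ 2 * ‖P.eval (yz i)‖ + η := by
  set A : ℝ := ∑ l ∈ Finset.range (P.natDegree + 1), ‖P.coeff l‖ with hA
  have hA0 : 0 ≤ A := Finset.sum_nonneg fun _ _ => norm_nonneg _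
  have hAl : ∀ l, ‖P.coeff l‖ ≤ A := by
    intro l
    by_cases hl : l < P.natDegree + 1
    · exact Finset.single_le_sum (f := fun l => ‖P.coeff l‖) (fun _ _ => norm_nonneg _)
        (Finset.mem_range.2 hl)
    · rw [coeff_eq_zero_of_natDegree_lt (by omega), norm_zero]
      exact hA0
  obtain ⟨M, hM⟩ := exists_pow_lt_of_lt_one (show 0 < η / (A + 1) by positivity)
    (by norm_num : (1 : ℝ) / 16 < 1)
  refine ⟨Finset.Ico 1 (2 ^ M), by simp, ?_⟩
  have h1 := coeff_iter P hAl M 0 0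
  have h2 : P.eval (yz 0) = P.coeff 0 := by
    unfold yz
    rw [if_pos rfl, coeff_zero_eq_eval_zero]
  rw [h2]
  simp only [pow_zero, mul_one, zero_add] at h1
  refine h1.trans (add_le_add ?_ ?_)
  · rw [← sum_levels]
    apply Finset.sum_le_sum
    intro j _
    unfold mean
    rw [← mul_assoc, Finset.mul_sum]
    apply Finset.sum_le_sum
    intro k hk
    rw [cf_level (Finset.mem_range.1 hk)]
    apply mul_le_mul_of_nonneg_right _ (norm_nonneg _)
    have h3 : ((1 : ℝ) / 4) ^ j ^ 1 = (1 / 4) ^ j := by rw [pow_one]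
    have h4 : (((1 : ℝ) / 4) ^ j) ^ 2 = (1 / 16) ^ j := by
      rw [← pow_mul, mul_comm, pow_mul]; norm_num
    rw [h4]
    apply mul_le_of_le_one_right (by positivity)
    rw [div_le_one (by positivity)]
    exact one_le_pow₀ (by norm_num)
  · rw [lt_div_iff₀ (by positivity)] at hM
    have : (0 : ℝ) < (1 / 16) ^ M := by positivity
    nlinarith

end Pool.Agent.CycP
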