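import Pool.Agent.CycP.Rad
import Pool.Agent.CycP.Pts

set_option autoImplicit false

/-! A Hilbert space of analytic functions without (CP). -/

namespace Pool.Agent.CycP

open Polynomial

/-- the vector which is cyclic for one of the shifts only -/
noncomputable def gV : YY :=
  ⟨fun j => ((cf j : ℝ) : ℂ) • e0, by
    apply memlp_of_le (C := 1 + 8 / 7)
    intro s
    have h1 : ∀ j, ‖((cf j : ℝ) : ℂ) • e0‖ ^ 2 = cf j ^ 2 := by
      intro j
      rw [norm_smul, norm_e0, mul_one]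
      simp
    simp only [h1]
    calc ∑ j ∈ s, cf j ^ 2 ≤ ∑ j ∈ insert 0 (s.erase 0), cf j ^ 2 := by
          apply Finset.sum_le_sum_of_subset_of_nonneg _ (fun i _ _ => sq_nonneg _)
          intro i hi
          by_cases h : i = 0
          · rw [h]; exact Finset.mem_insert_self _ _
          · exact Finset.mem_insert_of_mem (Finset.mem_erase.2 ⟨h, hi⟩)
      _ = cf 0 ^ 2 + ∑ j ∈ s.erase 0, cf j ^ 2 := Finset.sum_insert (by simp)
      _ ≤ 1 + 8 / 7 := by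
          have h2 := cf_sum (s.erase 0) (by simp)
          have h3 := cf_le_one 0
          have h4 := (cf_pos 0).le
          nlinarith⟩

lemma gV_apply (j : ℕ) : gV j = ((cf j : ℝ) : ℂ) • e0 := rfl

lemma e0_zero : (e0 : HH) 0 = 1 := by
  unfold e0
  rw [lp.single_apply_self]

lemma coord_gap {r ω : ℕ → ℝ} {R : ℝ} (hc : Cfg yz r ω R) (q : ℂ[X]) (j : ℕ) :
    ‖q.eval (yz j) * cf j - ω j‖ ≤ ‖(aeval (SS hc) q gV - oneV hc) j‖ := by
  refine le_trans (le_of_eq ?_) (coord_le _ 0)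
  congr 1
  rw [lp.coeFn_sub, Pi.sub_apply, lp.coeFn_sub, Pi.sub_apply, SS_aeval, aeval_coord, gV_apply,
    oneV_apply, lp.coeFn_smul, lp.coeFn_smul, Pi.smul_apply, Pi.smul_apply, e0_zero]
  simp

lemma not_dense {r ω : ℕ → ℝ} {R : ℝ} (hc : Cfg yz r ω R) (h0 : ω 0 = 1)
    (hω : ∀ j, 1 ≤ j → ω j ≤ 1 * (1 / 4) ^ j) :
    ¬ DenseRange fun q : ℂ[X] => aeval (SS hc) q gV := by
  intro hd
  obtain ⟨q, hq⟩ := hd.exists_dist_lt (oneV hc) (show (0 : ℝ) < 1 / 5 by norm_num)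
  rw [dist_comm, dist_eq_norm] at hq
  set Δ : YY := aeval (SS hc) q gV - oneV hc with hΔ
  have h1 : ‖q.eval (yz 0) - 1‖ ≤ 1 / 5 := by
    have h2 := coord_gap hc q 0
    rw [cf_zero, h0, ← hΔ] at h2
    have h3 := lp.norm_apply_le_norm (by simp) Δ 0
    have h4 : q.eval (yz 0) * ((1 : ℝ) : ℂ) - ((1 : ℝ) : ℂ) = q.eval (yz 0) - 1 := by simp
    rw [h4] at h2
    linarith
  have h2 : 4 / 5 ≤ ‖q.eval (yz 0)‖ := by
    have h3 := norm_sub_norm_le (1 : ℂ) (1 - q.eval (yz 0))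
    rw [sub_sub_cancel, norm_one, norm_sub_rev 1 (q.eval (yz 0))] at h3
    linarith
  obtain ⟨s, hs0, hs⟩ := zero_dominated q (show (0 : ℝ) < 1 / 100 by norm_num)
  have h3 : ∀ i ∈ s, cf i ^ 2 * ‖q.eval (yz i)‖ ≤ (1 / 4) ^ i + cf i * ‖Δ i‖ := by
    intro i hi
    have hi1 : 1 ≤ i := by
      rcases Nat.eq_zero_or_pos i with h | h
      · subst h; exact absurd hi hs0
      · exact h
    have h4 := coord_gap hc q i
    rw [← hΔ] at h4
    have h5 : ‖q.eval (yz i)‖ * cf i ≤ ω i + ‖Δ i‖ := by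
      have h6 := norm_sub_norm_le (q.eval (yz i) * cf i) ((ω i : ℝ) : ℂ)
      rw [norm_mul, Complex.norm_real, Complex.norm_real, Real.norm_of_nonneg (cf_pos i).le,
        Real.norm_of_nonneg (hc.w_pos i).le] at h6
      linarith
    have h6 := hω i hi1
    rw [one_mul] at h6
    have h7 := cf_le_one i
    have h8 := cf_pos i
    have h9 : cf i * ω i ≤ (1 / 4) ^ i := by
      have := (hc.w_pos i)
      nlinarith
    calc cf i ^ 2 * ‖q.eval (yz i)‖ = cf i * (‖q.eval (yz i)‖ * cf i) := by ring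
      _ ≤ cf i * (ω i + ‖Δ i‖) := mul_le_mul_of_nonneg_left h5 h8.le
      _ ≤ (1 / 4) ^ i + cf i * ‖Δ i‖ := by rw [mul_add]; linarith
  have h4 : ∑ i ∈ s, ((1 : ℝ) / 4) ^ i ≤ 1 / 3 := by
    have h9 : Summable fun t : ℕ => ((1 : ℝ) / 4) ^ t :=
      summable_geometric_of_lt_one (by norm_num) (by norm_num)
    have h10 := h9.sum_le_tsum (insert 0 s) (fun t _ => by positivity)
    rw [Finset.sum_insert hs0, tsum_geometric_of_lt_one (by norm_num) (by norm_num)] at h10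
    norm_num at h10 ⊢
    linarith
  have h5 : ∑ i ∈ s, cf i * ‖Δ i‖ ≤ 11 / 10 * ‖Δ‖ := by
    have h6 := Finset.sum_mul_sq_le_sq_mul_sq s cf (fun i => ‖Δ i‖)
    have h7 := cf_sum s hs0
    have h8 := sum_sq_le Δ s
    have h9 : (∑ i ∈ s, cf i * ‖Δ i‖) ^ 2 ≤ (11 / 10 * ‖Δ‖) ^ 2 := by
      have h10 : 0 ≤ ∑ i ∈ s, ‖Δ i‖ ^ 2 := Finset.sum_nonneg fun _ _ => sq_nonneg _
      have h11 : 0 ≤ ‖Δ‖ ^ 2 := sq_nonneg _
      have h12 := mul_le_mul h7 h8 h10 (by norm_num : (0 : ℝ) ≤ 8 / 7)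
      refine h6.trans (h12.trans ?_)
      rw [mul_pow]
      nlinarith
    exact abs_le_of_sq_le_sq' h9 (by positivity) |>.2
  have h6 := Finset.sum_le_sum h3
  rw [Finset.sum_add_distrib] at h6
  linarith

/-- the affine maps between the discs -/
noncomputable def phi (z z' : ℕ → ℂ) (r r' : ℕ → ℝ) (j : ℕ) (w : Fin 1 → ℂ) : Fin 1 → ℂ :=
  fun _ => z' j + r' j * ((w 0 - z j) / (r j : ℝ))

lemma phi_mem {z z' : ℕ → ℂ} {r r' ω : ℕ → ℝ} {R R' : ℝ} (hc : Cfg z r ω R)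
    (hc' : Cfg z' r' ω R') {j : ℕ} {w : Fin 1 → ℂ} (hw : ‖w 0 - z j‖ < r j) :
    ‖phi z z' r r' j w 0 - z' j‖ < r' j := by
  have h1 := u_lt hc hw
  unfold phi
  rw [add_sub_cancel_left, norm_mul, Complex.norm_real, Real.norm_of_nonneg (hc'.r_pos j).le]
  have := hc'.r_pos j
  nlinarith

lemma val_phi {z z' : ℕ → ℂ} {r r' ω : ℕ → ℝ} {R R' : ℝ} (hc : Cfg z r ω R)
    (hc' : Cfg z' r' ω R') {j : ℕ} {w : Fin 1 → ℂ} (hw : ‖w 0 - z j‖ < r j) (y : YY) :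
    val z' r' ω y (phi z z' r r' j w) = val z r ω y w := by
  rw [val_eq hc hw, val_eq hc' (phi_mem hc hc' hw)]
  congr 2
  unfold phi
  rw [add_sub_cancel_left, mul_div_cancel_left₀ _ (rC hc' j)]

lemma spc_max {z : ℕ → ℂ} {r ω : ℕ → ℝ} {R : ℝ} (hc : Cfg z r ω R)
    (hd : DenseRange fun q : ℂ[X] => aeval (SS hc) q (oneV hc)) {w : Fin 1 → ℂ}
    (hw : w ∈ (spc hc hd).maxDomain) : w ∈ dom z r := by
  obtain ⟨L, hL⟩ := hw
  refine (eval_point hc (w := w) (L := L) (fun q => ?_) hd).1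
  obtain ⟨P, rfl⟩ := toP_surj q
  rw [toP_eval, ← hL P, spc_poly]

lemma spc_maxDomain {z : ℕ → ℂ} {r ω : ℕ → ℝ} {R : ℝ} (hc : Cfg z r ω R)
    (hd : DenseRange fun q : ℂ[X] => aeval (SS hc) q (oneV hc)) :
    (spc hc hd).maxDomain = dom z r :=
  Set.Subset.antisymm (fun _ hw => spc_max hc hd hw) fun _ hw => (spc hc hd).subset_maxDomain hw

lemma spc_ext {z : ℕ → ℂ} {r ω : ℕ → ℝ} {R : ℝ} (hc : Cfg z r ω R)
    (hd : DenseRange fun q : ℂ[X] => aeval (SS hc) q (oneV hc)) {w : Fin 1 → ℂ}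
    (hw : w ∈ dom z r) (y : YY) : (spc hc hd).ext y w = val z r ω y w := by
  rw [(spc hc hd).ext_of_mem hw, spc_fn]

end Pool.Agent.CycP
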