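import Mathlib

set_option autoImplicit false

/-! Banach spaces of analytic functions, shift-cyclic functions, the maximal domain and the
property (CP). -/

namespace Pool.Agent.CycP

/-- `A : AnSpace d Ω X` says that the normed space `X` is a Banach space of analytic functions
on the open set `Ω ⊆ ℂ^d` (completeness of `X` is asked separately): every `x : X` is a function
`A.fn x` of which only the values on `Ω` matter, the polynomials belong to `X` and are dense,
point evaluations at the points of `Ω` are bounded, and multiplication by each coordinate is a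
bounded operator on `X`. -/
structure AnSpace (d : ℕ) (Ω : Set (Fin d → ℂ)) (X : Type) [NormedAddCommGroup X]
    [NormedSpace ℂ X] where
  /-- the function on `Ω` given by an element of `X` -/
  fn : X →ₗ[ℂ] ((Fin d → ℂ) → ℂ)
  isOpen : IsOpen Ω
  fn_inj : ∀ x, (∀ w ∈ Ω, fn x w = 0) → x = 0
  fn_analytic : ∀ x, AnalyticOnNhd ℂ (fn x) Ω
  /-- the polynomial `P` as an element of `X` -/
  poly : MvPolynomial (Fin d) ℂ → X
  fn_poly : ∀ P, ∀ w ∈ Ω, fn (poly P) w = MvPolynomial.eval w P
  poly_dense : DenseRange poly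
  fn_bounded : ∀ w ∈ Ω, ∃ C : ℝ, ∀ x, ‖fn x w‖ ≤ C * ‖x‖
  /-- the shift, that is multiplication by the `j`-th coordinate -/
  shift : Fin d → X →L[ℂ] X
  fn_shift : ∀ j x, ∀ w ∈ Ω, fn (shift j x) w = w j * fn x w

namespace AnSpace

variable {d : ℕ} {Ω : Set (Fin d → ℂ)} {X : Type} [NormedAddCommGroup X] [NormedSpace ℂ X]

/-- The set of all products `P f`, `P` a polynomial. -/
def orbit (A : AnSpace d Ω X) (f : X) : Set X :=
  {x | ∃ P : MvPolynomial (Fin d) ℂ, ∀ w ∈ Ω, A.fn x w = MvPolynomial.eval w P * A.fn f w}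

/-- `f` is shift-cyclic: the products `P f` are dense in `X`. -/
def Cyclic (A : AnSpace d Ω X) (f : X) : Prop := closure (A.orbit f) = Set.univ

/-- The maximal domain: the set of all `w` such that `P ↦ P(w)` extends to a bounded
functional on `X`. -/
def maxDomain (A : AnSpace d Ω X) : Set (Fin d → ℂ) :=
  {w | ∃ L : X →L[ℂ] ℂ, ∀ P, L (A.poly P) = MvPolynomial.eval w P}

open scoped Classical in
/-- The value `Λ_w(f)` of `f` at the point `w` of the maximal domain (and zero elsewhere). -/
noncomputable def ext (A : AnSpace d Ω X) (f : X) (w : Fin d → ℂ) : ℂ :=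
  if h : w ∈ A.maxDomain then h.choose f else 0

/-- Property (CP) of a Banach space `Y` of analytic functions on `Ω' ⊆ ℂ^d'`: for every Banach
space `X` of analytic functions on an open set `Ω ⊆ ℂ^d`, every map `φ` of the maximal domains,
every shift-cyclic `ψ` in `Y` and every bounded operator `T : X → Y` with `T f = ψ (f ∘ φ)` on
the maximal domain, `T` maps shift-cyclic functions to shift-cyclic functions. -/
def CP {d' : ℕ} {Ω' : Set (Fin d' → ℂ)} {Y : Type} [NormedAddCommGroup Y] [NormedSpace ℂ Y]
    (B : AnSpace d' Ω' Y) : Prop :=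
  ∀ (d : ℕ) (Ω : Set (Fin d → ℂ)) (X : Type) (_ : NormedAddCommGroup X) (_ : NormedSpace ℂ X)
    (_ : CompleteSpace X) (A : AnSpace d Ω X) (φ : B.maxDomain → A.maxDomain) (ψ : Y)
    (T : X →L[ℂ] Y), B.Cyclic ψ →
    (∀ f, ∀ w : B.maxDomain, B.ext (T f) w = B.ext ψ w * A.ext f (φ w)) →
    ∀ f, A.Cyclic f → B.Cyclic (T f)

end AnSpace

end Pool.Agent.CycP
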