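import Pool.Agent.CycP.Sp

set_option autoImplicit false

/-! Density of the polynomial multiples; the maximal domain. -/

namespace Pool.Agent.CycP

open Polynomial

section

variable {z : ℕ → ℂ} {r ω : ℕ → ℝ} {R : ℝ}

lemma SS_single (hc : Cfg z r ω R) (q : ℂ[X]) (j : ℕ) (h : HH) :
    aeval (SS hc) q (lp.single 2 j h) = lp.single 2 j (aeval (AA (z j) (r j)) q h) := by
  ext1
  funext i
  rw [SS_aeval]
  by_cases hij : i = j
  · subst hij
    rw [lp.single_apply_self, lp.single_apply_self]
  · rw [lp.single_apply_ne _ _ _ hij, lp.single_apply_ne _ _ _ hij, map_zero]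

/-- the power of the shift as a polynomial in the affine shift -/
lemma UU_pow_eq (hc : Cfg z r ω R) (j k : ℕ) :
    aeval (AA (z j) (r j)) (((X - C (z j)) * C (((r j : ℝ) : ℂ)⁻¹)) ^ k) = UU ^ k := by
  rw [map_pow, map_mul, map_sub, aeval_X, aeval_C, aeval_C, Algebra.algebraMap_eq_smul_one,
    Algebra.algebraMap_eq_smul_one]
  congr 1
  have : AA (z j) (r j) - z j • (1 : HH →L[ℂ] HH) = ((r j : ℝ) : ℂ) • UU := by
    unfold AA
    abel
  rw [this, smul_mul_smul_comm, mul_one, mul_inv_cancel₀ (rC hc j), one_smul]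

lemma mem_of_singles {E : ℕ → Type} [∀ i, NormedAddCommGroup (E i)] [∀ i, NormedSpace ℂ (E i)]
    (M : Submodule ℂ (lp E 2)) (hM : IsClosed (M : Set (lp E 2)))
    (h : ∀ i (a : E i), lp.single 2 i a ∈ M) (y : lp E 2) : y ∈ M := by
  have h1 := lp.hasSum_single (p := 2) (by simp) y
  exact hM.mem_of_tendsto h1 (Filter.Eventually.of_forall fun s =>
    Submodule.sum_mem _ (fun i _ => h i _))

lemma dense_of (hc : Cfg z r ω R) {x : YY} {c : ℕ → ℂ} (hx : ∀ j, x j = c j • e0)
    (hc0 : ∀ j, c j ≠ 0)
    (h : ∀ j, ∀ ε > 0, ∃ p : ℂ[X], ‖aeval (SS hc) p x - lp.single 2 j (x j)‖ ≤ ε) :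
    DenseRange fun q : ℂ[X] => aeval (SS hc) q x := by
  let lin : ℂ[X] →ₗ[ℂ] YY :=
    { toFun := fun q => aeval (SS hc) q x
      map_add' := fun p q => by rw [map_add]; rfl
      map_smul' := fun a q => by rw [map_smul]; rfl }
  let M : Submodule ℂ YY := (LinearMap.range lin).topologicalClosure
  have hMc : IsClosed (M : Set YY) := Submodule.isClosed_topologicalClosure _
  have hMset : (M : Set YY) = closure (Set.range fun q : ℂ[X] => aeval (SS hc) q x) := by
    simp only [M, Submodule.topologicalClosure_coe]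
    congr 1
  -- invariance
  have hinv : ∀ (q : ℂ[X]) (y : YY), y ∈ M → aeval (SS hc) q y ∈ M := by
    intro q y hy
    have h1 : (aeval (SS hc) q) '' closure (Set.range fun q : ℂ[X] => aeval (SS hc) q x) ⊆
        closure ((aeval (SS hc) q) '' (Set.range fun q : ℂ[X] => aeval (SS hc) q x)) :=
      image_closure_subset_closure_image (aeval (SS hc) q).continuous
    have h2 : (aeval (SS hc) q) '' (Set.range fun q : ℂ[X] => aeval (SS hc) q x) ⊆
        Set.range fun q : ℂ[X] => aeval (SS hc) q x := by
      rintro _ ⟨_, ⟨p, rfl⟩, rfl⟩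
      refine ⟨q * p, ?_⟩
      simp only [map_mul]
      rfl
    have h3 : y ∈ closure (Set.range fun q : ℂ[X] => aeval (SS hc) q x) := by
      rw [← hMset]; exact hy
    have h4 := closure_mono h2 (h1 ⟨y, h3, rfl⟩)
    rw [← hMset] at h4
    exact h4
  -- the blocks of x
  have hs : ∀ j, lp.single 2 j (x j) ∈ M := by
    intro j
    have : lp.single 2 j (x j) ∈ closure (Set.range fun q : ℂ[X] => aeval (SS hc) q x) := by
      rw [Metric.mem_closure_iff]
      intro ε hε
      obtain ⟨p, hp⟩ := h j (ε / 2) (half_pos hε)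
      refine ⟨_, ⟨p, rfl⟩, ?_⟩
      rw [dist_comm, dist_eq_norm]
      exact lt_of_le_of_lt hp (half_lt_self hε)
    rw [← hMset] at this
    exact this
  have he : ∀ j, lp.single 2 j e0 ∈ M := by
    intro j
    have h1 := M.smul_mem (c j)⁻¹ (hs j)
    rw [hx j, ← lp.single_smul, smul_smul, inv_mul_cancel₀ (hc0 j), one_smul] at h1
    exact h1
  have hk : ∀ j k (a : ℂ), lp.single 2 j (lp.single 2 k a : HH) ∈ M := by
    intro j k a
    have h1 := hinv (((X - C (z j)) * C (((r j : ℝ) : ℂ)⁻¹)) ^ k) _ (he j)
    rw [SS_single, UU_pow_eq hc, UU_pow_e0] at h1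
    have h2 := M.smul_mem a h1
    rw [← lp.single_smul, ← lp.single_smul, smul_eq_mul, mul_one] at h2
    exact h2
  have hj : ∀ j (a : HH), lp.single 2 j a ∈ M := by
    intro j a
    let N : Submodule ℂ HH :=
      M.comap ((lp.singleContinuousLinearMap ℂ (fun _ : ℕ => HH) 2 j) : HH →ₗ[ℂ] YY)
    have hN : IsClosed (N : Set HH) :=
      hMc.preimage (lp.singleContinuousLinearMap ℂ (fun _ : ℕ => HH) 2 j).continuous
    have : a ∈ N := mem_of_singles N hN (fun k b => hk j k b) a
    exact this
  intro y
  rw [← hMset]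
  exact mem_of_singles M hMc hj y

/-- The maximal domain is the union of the open discs, and the extended values are the values. -/
lemma eval_point (hc : Cfg z r ω R) {w : Fin 1 → ℂ} {L : YY →L[ℂ] ℂ}
    (hL : ∀ q : ℂ[X], L (aeval (SS hc) q (oneV hc)) = q.eval (w 0))
    (hd : DenseRange fun q : ℂ[X] => aeval (SS hc) q (oneV hc)) :
    w ∈ dom z r ∧ ∀ y, L y = val z r ω y w := by
  -- the functional is an eigenvector
  have hS : ∀ y, L (SS hc y) = w 0 * L y := by
    have h1 : (fun y => L (SS hc y)) = fun y => w 0 * L y := by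
      refine hd.equalizer (L.continuous.comp (SS hc).continuous)
        (continuous_const.mul L.continuous) (funext fun q => ?_)
      have h2 : SS hc (aeval (SS hc) q (oneV hc)) = aeval (SS hc) (X * q) (oneV hc) := by
        rw [map_mul, aeval_X]; rfl
      simp only [Function.comp_apply]
      rw [h2, hL, hL, eval_mul, eval_X]
    exact fun y => congrFun h1 y
  -- blocks
  have hU : ∀ j (h : HH), L (lp.single 2 j (UU h)) =
      ((w 0 - z j) / (r j : ℝ)) * L (lp.single 2 j h) := by
    intro j h
    have h1 := hS (lp.single 2 j h)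
    have h2 : SS hc (lp.single 2 j h) = lp.single 2 j (AA (z j) (r j) h) := by
      have := SS_single hc X j h
      rw [aeval_X, aeval_X] at this
      exact this
    have h3 : AA (z j) (r j) h = z j • h + ((r j : ℝ) : ℂ) • UU h := rfl
    rw [h2, h3, lp.single_add, lp.single_smul, lp.single_smul, map_add, map_smul, map_smul,
      smul_eq_mul, smul_eq_mul] at h1
    have h4 := rC hc j
    field_simp
    linear_combination h1
  have hk : ∀ j k, L (lp.single 2 j (lp.single 2 k (1 : ℂ) : HH)) =
      ((w 0 - z j) / (r j : ℝ)) ^ k * L (lp.single 2 j e0) := by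
    intro j k
    induction k with
    | zero => simp [e0]
    | succ k ih =>
      rw [← UU_single, hU, ih]
      ring
  -- some block does not vanish
  have hex : ∃ j, L (lp.single 2 j e0) ≠ 0 := by
    by_contra hcon
    push Not at hcon
    have h1 : ∀ y, L y = 0 := by
      intro y
      have : y ∈ LinearMap.ker (L : YY →ₗ[ℂ] ℂ) := by
        apply mem_of_singles _ (isClosed_eq L.continuous continuous_const)
        intro j a
        have h2 : a ∈ (LinearMap.ker (L : YY →ₗ[ℂ] ℂ)).comap
            ((lp.singleContinuousLinearMap ℂ (fun _ : ℕ => HH) 2 j) : HH →ₗ[ℂ] YY) := by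
          apply mem_of_singles
          · exact (isClosed_eq L.continuous continuous_const).preimage
              (lp.singleContinuousLinearMap ℂ (fun _ : ℕ => HH) 2 j).continuous
          · intro k b
            show L (lp.single 2 j (lp.single 2 k b : HH)) = 0
            have h3 : (lp.single 2 k b : HH) = b • lp.single 2 k (1 : ℂ) := by
              rw [← lp.single_smul, smul_eq_mul, mul_one]
            rw [h3, lp.single_smul, map_smul, hk, hcon j]
            simp
        exact h2
      exact this
    have h2 := hL 1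
    rw [h1] at h2
    simp at h2
  -- such a block contains the point
  have hin : ∀ j, L (lp.single 2 j e0) ≠ 0 → ‖w 0 - z j‖ < r j := by
    intro j hj
    by_contra hcon
    push Not at hcon
    have hu : 1 ≤ ‖(w 0 - z j) / ((r j : ℝ) : ℂ)‖ := by
      rw [norm_div, Complex.norm_real, Real.norm_of_nonneg (hc.r_pos j).le,
        one_le_div (hc.r_pos j)]
      exact hcon
    set u := (w 0 - z j) / ((r j : ℝ) : ℂ) with hudef
    -- test with unimodular multiples
    have hu0 : u ≠ 0 := by
      intro h0
      rw [h0] at hu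
      simp at hu
      linarith
    set a := L (lp.single 2 j e0) with ha
    have h1 : ∀ n : ℕ, (n : ℝ) * ‖a‖ ≤ ‖L‖ * Real.sqrt n := by
      intro n
      let v : HH := ∑ k ∈ Finset.range n, lp.single 2 k ((u ^ k)⁻¹ * ‖(u ^ k)‖ : ℂ)
      have hv : ‖v‖ ≤ Real.sqrt n := by
        apply norm_le_of_sq (Real.sqrt_nonneg _)
        intro s
        rw [Real.sq_sqrt (Nat.cast_nonneg n)]
        have hvk : ∀ i, ‖v i‖ ≤ if i < n then 1 else 0 := by
          intro i
          have h2 : v i = ∑ k ∈ Finset.range n,
              (lp.single 2 k ((u ^ k)⁻¹ * ‖(u ^ k)‖ : ℂ) : HH) i := by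
            simp only [v, lp.coeFn_sum, Finset.sum_apply]
          rw [h2]
          by_cases hi : i < n
          · rw [if_pos hi, Finset.sum_eq_single i]
            · rw [lp.single_apply_self, norm_mul, norm_inv, Complex.norm_real, norm_norm,
                inv_mul_cancel₀ (norm_ne_zero_iff.2 (pow_ne_zero _ hu0))]
            · intro k _ hk
              exact lp.single_apply_ne _ _ _ hk.symm
            · intro h3
              exact absurd (Finset.mem_range.2 hi) h3
          · rw [if_neg hi, Finset.sum_eq_zero, norm_zero]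
            intro k hk
            apply lp.single_apply_ne
            intro h3
            exact hi (h3 ▸ Finset.mem_range.1 hk)
        calc ∑ i ∈ s, ‖v i‖ ^ 2 ≤ ∑ i ∈ s, (if i < n then 1 else 0 : ℝ) := by
              apply Finset.sum_le_sum
              intro i _
              have := hvk i
              split_ifs at this ⊢ with h3
              · have h4 := norm_nonneg (v i)
                nlinarith
              · have h4 := norm_nonneg (v i)
                have h5 : ‖v i‖ = 0 := le_antisymm this h4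
                rw [h5]; norm_num
          _ = ((s.filter (fun i => i < n)).card : ℝ) := by
              rw [Finset.sum_ite]; simp
          _ ≤ (n : ℝ) := by
              have h6 : s.filter (fun i => i < n) ⊆ Finset.range n := by
                intro i hi
                exact Finset.mem_range.2 (Finset.mem_filter.1 hi).2
              have := Finset.card_le_card h6
              rw [Finset.card_range] at this
              exact_mod_cast this
      have hLv : L (lp.single 2 j v) = (∑ k ∈ Finset.range n, (‖u ^ k‖ : ℂ)) * a := by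
        have h2 : (lp.single 2 j v : YY) = ∑ k ∈ Finset.range n,
            (lp.single 2 j (lp.single 2 k ((u ^ k)⁻¹ * ‖(u ^ k)‖ : ℂ) : HH) : YY) := by
          have := map_sum (lp.lsingle (𝕜 := ℂ) (E := fun _ : ℕ => HH) 2 j)
            (fun k => (lp.single 2 k ((u ^ k)⁻¹ * ‖(u ^ k)‖ : ℂ) : HH)) (Finset.range n)
          exact this
        rw [h2, map_sum, Finset.sum_mul]
        apply Finset.sum_congr rfl
        intro k _
        have h3 : (lp.single 2 k ((u ^ k)⁻¹ * ‖(u ^ k)‖ : ℂ) : HH) =
            ((u ^ k)⁻¹ * ‖(u ^ k)‖ : ℂ) • lp.single 2 k (1 : ℂ) := by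
          rw [← lp.single_smul, smul_eq_mul, mul_one]
        rw [h3, lp.single_smul, map_smul, hk, smul_eq_mul, ← ha, ← hudef]
        have h4 : u ^ k ≠ 0 := pow_ne_zero _ hu0
        field_simp
      have h5 : (n : ℝ) ≤ ‖(∑ k ∈ Finset.range n, (‖u ^ k‖ : ℂ))‖ := by
        have h6 : (∑ k ∈ Finset.range n, (‖u ^ k‖ : ℂ)) =
            ((∑ k ∈ Finset.range n, ‖u ^ k‖ : ℝ) : ℂ) := by push_cast; rfl
        rw [h6, Complex.norm_real]
        refine le_trans ?_ (le_abs_self _)
        calc (n : ℝ) = ∑ k ∈ Finset.range n, (1 : ℝ) := by simp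
          _ ≤ ∑ k ∈ Finset.range n, ‖u ^ k‖ := by
            apply Finset.sum_le_sum
            intro k _
            rw [norm_pow]
            exact one_le_pow₀ hu
      calc (n : ℝ) * ‖a‖ ≤ ‖(∑ k ∈ Finset.range n, (‖u ^ k‖ : ℂ))‖ * ‖a‖ :=
            mul_le_mul_of_nonneg_right h5 (norm_nonneg _)
        _ = ‖L (lp.single 2 j v)‖ := by rw [hLv, norm_mul]
        _ ≤ ‖L‖ * ‖(lp.single 2 j v : YY)‖ := L.le_opNorm _
        _ = ‖L‖ * ‖v‖ := by rw [lp.norm_single (by simp)]
        _ ≤ ‖L‖ * Real.sqrt n := mul_le_mul_of_nonneg_left hv (norm_nonneg _)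
    have ha0 : 0 < ‖a‖ := norm_pos_iff.2 hj
    obtain ⟨n, hn⟩ := exists_nat_gt ((‖L‖ / ‖a‖) ^ 2)
    have hn0 : (0 : ℝ) < n := lt_of_le_of_lt (sq_nonneg _) hn
    have h2 := h1 n
    have h3 : Real.sqrt n * Real.sqrt n = n := Real.mul_self_sqrt hn0.le
    have h4 : 0 < Real.sqrt n := Real.sqrt_pos.2 hn0
    have h5 : Real.sqrt n * ‖a‖ ≤ ‖L‖ := by
      have h6 : Real.sqrt n * (Real.sqrt n * ‖a‖) ≤ Real.sqrt n * ‖L‖ := by
        rw [← mul_assoc, h3]; linarith
      exact le_of_mul_le_mul_left h6 h4
    have h6 : Real.sqrt n ≤ ‖L‖ / ‖a‖ := by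
      rw [le_div_iff₀ ha0]; exact h5
    have h7 : (n : ℝ) ≤ (‖L‖ / ‖a‖) ^ 2 := by
      rw [← h3, sq]
      exact mul_self_le_mul_self h4.le h6
    linarith
  obtain ⟨j, hj⟩ := hex
  have hjin := hin j hj
  have hw : w ∈ dom z r := ⟨j, hjin⟩
  refine ⟨hw, ?_⟩
  -- agree on the dense set of polynomials
  have h1 : (L : YY → ℂ) = fun y => val z r ω y w := by
    obtain ⟨C, hC⟩ := val_bounded hc hw
    have hcont : Continuous fun y => val z r ω y w := by
      let L' : YY →L[ℂ] ℂ := LinearMap.mkContinuous ((LinearMap.proj w).comp (fnL hc)) C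
        (fun x => by simpa [fnL_apply] using hC x)
      exact L'.continuous
    refine hd.equalizer L.continuous hcont (funext fun q => ?_)
    simp only [Function.comp_apply]
    rw [hL, val_aeval hc _ _ hw, val_one hc hw, mul_one]
  exact fun y => congrFun h1 y

end

end Pool.Agent.CycP
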