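import Pool.Agent.CycP.Sep

set_option autoImplicit false

/-! Discs tending to zero are uniformly separated by polynomials. -/

namespace Pool.Agent.CycP

open Polynomial

/-- centres -/
noncomputable def bz (j : ℕ) : ℂ := ((1 / 16 : ℝ) ^ j : ℝ)

/-- radii -/
noncomputable def br (j : ℕ) : ℝ := (1 / 16) ^ j / 64

lemma br_pos (j : ℕ) : 0 < br j := by unfold br; positivity

lemma bz_norm (j : ℕ) : ‖bz j‖ = (1 / 16) ^ j := by
  unfold bz
  rw [Complex.norm_real, Real.norm_of_nonneg (by positivity)]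

lemma bA_norm (j : ℕ) : ‖AA (bz j) (br j)‖ ≤ 65 / 64 * (1 / 16) ^ j := by
  refine (AA_norm _ (br_pos j).le).trans ?_
  rw [bz_norm]
  unfold br
  apply le_of_eq
  ring

lemma b_bd (j : ℕ) : ‖bz j‖ + br j ≤ 2 := by
  rw [bz_norm]
  unfold br
  have : ((1 : ℝ) / 16) ^ j ≤ 1 := pow_le_one₀ (by norm_num) (by norm_num)
  linarith

lemma one_norm_le : ‖(1 : HH →L[ℂ] HH)‖ ≤ 1 := ContinuousLinearMap.norm_id_le

/-- the linear separating polynomial -/
noncomputable def bQ (n : ℕ) : ℂ[X] := 1 - C (bz n)⁻¹ * X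

lemma bQ_aeval (n : ℕ) (A : HH →L[ℂ] HH) : aeval A (bQ n) = 1 - (bz n)⁻¹ • A := by
  unfold bQ
  rw [map_sub, map_one, map_mul, aeval_C, aeval_X, Algebra.algebraMap_eq_smul_one,
    smul_mul_assoc, one_mul]

lemma bQ_tail {n i : ℕ} (h : n < i) : ‖aeval (AA (bz i) (br i)) (bQ n) - 1‖ ≤ 65 / 1024 := by
  rw [bQ_aeval]
  have h1 : 1 - (bz n)⁻¹ • AA (bz i) (br i) - 1 = -((bz n)⁻¹ • AA (bz i) (br i)) := by abel
  rw [h1, norm_neg, norm_smul, norm_inv, bz_norm]
  have h2 := bA_norm i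
  have h3 : ((1 : ℝ) / 16) ^ i ≤ (1 / 16) ^ n * (1 / 16) := by
    rw [← pow_succ]
    exact pow_le_pow_of_le_one (by norm_num) (by norm_num) h
  have h4 : (0 : ℝ) < (1 / 16) ^ n := by positivity
  rw [inv_mul_le_iff₀ h4]
  linarith

lemma bQ_self (n : ℕ) : ‖aeval (AA (bz n) (br n)) (bQ n)‖ ≤ 1 / 64 := by
  rw [bQ_aeval]
  have hz : bz n ≠ 0 := by
    rw [← norm_pos_iff, bz_norm]; positivity
  have h1 : (1 : HH →L[ℂ] HH) - (bz n)⁻¹ • AA (bz n) (br n) =
      -(((bz n)⁻¹ * ((br n : ℝ) : ℂ)) • UU) := by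
    unfold AA
    rw [smul_add, smul_smul, smul_smul, inv_mul_cancel₀ hz, one_smul]
    abel
  rw [h1, norm_neg, norm_smul, norm_mul, norm_inv, bz_norm, Complex.norm_real,
    Real.norm_of_nonneg (br_pos n).le]
  have h2 : ((1 : ℝ) / 16) ^ n ≠ 0 := by positivity
  have h3 : (((1 : ℝ) / 16) ^ n)⁻¹ * br n = 1 / 64 := by
    unfold br
    field_simp
  rw [h3]
  have := UU_norm
  linarith

lemma norm_le_one_add {x : HH →L[ℂ] HH} {η : ℝ} (h : ‖x - 1‖ ≤ η) : ‖x‖ ≤ 1 + η := by
  have h1 : x = 1 + (x - 1) := by abel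
  rw [h1]
  exact (norm_add_le _ _).trans (add_le_add one_norm_le h)

lemma mul_sub_one_le {x y : HH →L[ℂ] HH} {a b : ℝ} (hx : ‖x - 1‖ ≤ a) (hy : ‖y - 1‖ ≤ b) :
    ‖x * y - 1‖ ≤ a * (1 + b) + b := by
  have h1 : x * y - 1 = (x - 1) * y + (y - 1) := by noncomm_ring
  rw [h1]
  refine (norm_add_le _ _).trans (add_le_add ?_ hy)
  refine (norm_mul_le _ _).trans ?_
  exact mul_le_mul hx (norm_le_one_add hy) (norm_nonneg _) ((norm_nonneg _).trans hx)

/-- the tails of the sequence of discs are separated -/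
lemma b_tail (n : ℕ) : ∀ ε > 0, ∃ F : ℂ[X],
    (∀ i, n < i → ‖aeval (AA (bz i) (br i)) F - 1‖ ≤ ε) ∧
    ∀ i ≤ n, ‖aeval (AA (bz i) (br i)) F‖ ≤ ε := by
  induction n with
  | zero =>
    intro ε hε
    obtain ⟨Q, h1, h2⟩ := improve (fun i => AA (bz i) (br i)) {i | 0 < i} {0} (bQ 0)
      (fun i hi => (bQ_tail hi).trans (by norm_num))
      (fun i hi => by
        rw [Set.mem_singleton_iff] at hi
        subst hi
        exact (bQ_self 0).trans (by norm_num)) hε
    exact ⟨Q, fun i hi => h1 i hi, fun i hi => h2 i (by simpa using hi)⟩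
  | succ n ih =>
    intro ε hε
    obtain ⟨C, hC0, hC⟩ := aeval_bound (bQ (n + 1)) (R := 2) (by norm_num)
    obtain ⟨F, h1, h2⟩ := ih (1 / (100 * (C + 1))) (by positivity)
    have hη : 1 / (100 * (C + 1)) ≤ 1 / 100 := by
      apply one_div_le_one_div_of_le (by norm_num)
      nlinarith
    have hηC : 1 / (100 * (C + 1)) * C ≤ 1 / 8 := by
      rw [div_mul_eq_mul_div, div_le_iff₀ (by positivity)]
      nlinarith
    have hη0 : 0 < 1 / (100 * (C + 1)) := by positivity
    obtain ⟨Q, g1, g2⟩ := improve (fun i => AA (bz i) (br i)) {i | n + 1 < i} {i | i ≤ n + 1}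
      (F * bQ (n + 1)) (fun i hi => by
        rw [Set.mem_ofPred_eq] at hi
        rw [map_mul]
        refine (mul_sub_one_le (h1 i (by omega)) (bQ_tail hi)).trans ?_
        nlinarith) (fun i hi => by
        rw [Set.mem_ofPred_eq] at hi
        rw [map_mul]
        refine (norm_mul_le _ _).trans ?_
        rcases Nat.lt_or_ge i (n + 1) with h3 | h3
        · have h4 : ‖aeval (AA (bz i) (br i)) (bQ (n + 1))‖ ≤ C :=
            hC _ ((AA_norm _ (br_pos i).le).trans (b_bd i))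
          refine (mul_le_mul (h2 i (by omega)) h4 (norm_nonneg _) hη0.le).trans hηC
        · have h5 : i = n + 1 := le_antisymm hi h3
          subst h5
          refine (mul_le_mul (norm_le_one_add (h1 (n + 1) (by omega))) (bQ_self (n + 1))
            (norm_nonneg _) (by linarith)).trans ?_
          linarith) hε
    exact ⟨Q, fun i hi => g1 i hi, fun i hi => g2 i hi⟩

lemma b_sep : SepAll bz br := by
  intro j ε hε
  rcases j with _ | m
  · obtain ⟨F, h1, h2⟩ := b_tail 0 ε hε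
    refine ⟨1 - F, ?_, fun i hi => ?_⟩
    · rw [map_sub, map_one]
      have : 1 - aeval (AA (bz 0) (br 0)) F - 1 = -(aeval (AA (bz 0) (br 0)) F) := by abel
      rw [this, norm_neg]
      exact h2 0 le_rfl
    · rw [map_sub, map_one, norm_sub_rev]
      exact h1 i (Nat.pos_of_ne_zero hi)
  · obtain ⟨F, h1, h2⟩ := b_tail m (ε / 2) (half_pos hε)
    obtain ⟨G, g1, g2⟩ := b_tail (m + 1) (ε / 2) (half_pos hε)
    refine ⟨F - G, ?_, fun i hi => ?_⟩
    · rw [map_sub]
      have h3 : ∀ x y : HH →L[ℂ] HH, x - y - 1 = (x - 1) - y := fun x y => by abel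
      rw [h3]
      refine (norm_sub_le _ _).trans ?_
      have := h1 (m + 1) (by omega)
      have := g2 (m + 1) le_rfl
      linarith
    · rw [map_sub]
      rcases Nat.lt_or_ge i (m + 1) with h3 | h3
      · refine (norm_sub_le _ _).trans ?_
        have := h2 i (by omega)
        have := g2 i (by omega)
        linarith
      · have h4 : ∀ x y : HH →L[ℂ] HH, x - y = (x - 1) - (y - 1) := fun x y => by abel
        rw [h4]
        refine (norm_sub_le _ _).trans ?_
        have := h1 i (by omega)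
        have := g1 i (by omega)
        linarith

end Pool.Agent.CycP
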