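import Pool.Agent.CycP.Mul

set_option autoImplicit false
set_option linter.unusedSectionVars false

/-! Hilbert spaces on which the multiplication by the Riemann map is an isometry: (CP) holds if
and only if every closed shift-invariant subspace is invariant under all multipliers. -/

namespace Pool.Agent.CycP

open Filter Topology InnerProductSpace AnSpace

section hilbert

variable {Y : Type} [NormedAddCommGroup Y] [InnerProductSpace ℂ Y] [CompleteSpace Y]

/-- Hilbert spaces are reflexive. -/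
lemma hilbert_reflexive : Function.Surjective (NormedSpace.inclusionInDoubleDual ℂ Y) := by
  intro ξ
  let L : Y →L[ℂ] ℂ := LinearMap.mkContinuous
    { toFun := fun y => (starRingEnd ℂ) (ξ (toDual ℂ Y y))
      map_add' := fun x y => by rw [map_add, map_add, map_add]
      map_smul' := fun c x => by
        rw [LinearIsometryEquiv.map_smulₛₗ, map_smul, smul_eq_mul, map_mul]
        simp } ‖ξ‖ (fun y => by
        show ‖(starRingEnd ℂ) (ξ (toDual ℂ Y y))‖ ≤ ‖ξ‖ * ‖y‖
        rw [RCLike.norm_conj]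
        refine (ξ.le_opNorm _).trans (le_of_eq ?_)
        rw [LinearIsometryEquiv.norm_map])
  have hL : ∀ y, L y = (starRingEnd ℂ) (ξ (toDual ℂ Y y)) := fun y => rfl
  refine ⟨(toDual ℂ Y).symm L, ?_⟩
  ext v
  obtain ⟨y, rfl⟩ := (toDual ℂ Y).surjective v
  rw [NormedSpace.dual_def, toDual_apply_apply, ← inner_conj_symm, toDual_symm_apply, hL]
  simp

variable (S : Y →L[ℂ] Y)

/-- the closed cyclic subspace generated by `x` -/
noncomputable def cyc (x : Y) : Submodule ℂ Y :=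
  (Submodule.span ℂ (Set.range fun k : ℕ => (S ^ k) x)).topologicalClosure

lemma pow_mem_cyc (x : Y) (k : ℕ) : (S ^ k) x ∈ cyc S x :=
  Submodule.le_topologicalClosure _ (Submodule.subset_span ⟨k, rfl⟩)

lemma self_mem_cyc (x : Y) : x ∈ cyc S x := by
  have := pow_mem_cyc S x 0
  simpa using this

lemma isClosed_cyc (x : Y) : IsClosed (cyc S x : Set Y) := Submodule.isClosed_topologicalClosure _

lemma cyc_le {x : Y} {M : Submodule ℂ Y} (hM : IsClosed (M : Set Y))
    (h : ∀ k : ℕ, (S ^ k) x ∈ M) : cyc S x ≤ M := by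
  apply Submodule.topologicalClosure_minimal _ _ hM
  rw [Submodule.span_le]
  rintro _ ⟨k, rfl⟩
  exact h k

lemma pow_succ_apply (k : ℕ) (x : Y) : (S ^ (k + 1)) x = S ((S ^ k) x) := by
  rw [pow_succ']
  rfl

lemma pow_succ_apply' (k : ℕ) (x : Y) : (S ^ (k + 1)) x = (S ^ k) (S x) := by
  rw [pow_succ]
  rfl

lemma map_mem_cyc {x z : Y} (hz : z ∈ cyc S x) : S z ∈ cyc S x := by
  have h1 : cyc S x ≤ (cyc S x).comap (S : Y →ₗ[ℂ] Y) := by
    apply cyc_le
    · exact (isClosed_cyc S x).preimage S.continuous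
    · intro k
      rw [Submodule.mem_comap]
      show S ((S ^ k) x) ∈ cyc S x
      rw [← pow_succ_apply]
      exact pow_mem_cyc S x _
  exact h1 hz

lemma pow_map_mem_cyc {x z : Y} (hz : z ∈ cyc S x) (k : ℕ) : (S ^ k) z ∈ cyc S x := by
  induction k with
  | zero => simpa using hz
  | succ k ih => rw [pow_succ_apply]; exact map_mem_cyc S ih

variable {S} (hS : ∀ f, ‖S f‖ = ‖f‖)

include hS

lemma inner_S (x y : Y) : ⟪S x, S y⟫_ℂ = ⟪x, y⟫_ℂ := by
  let Si : Y →ₗᵢ[ℂ] Y := ⟨(S : Y →ₗ[ℂ] Y), hS⟩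
  exact Si.inner_map_map x y

lemma inner_pow (k : ℕ) (x y : Y) : ⟪(S ^ k) x, (S ^ k) y⟫_ℂ = ⟪x, y⟫_ℂ := by
  induction k with
  | zero => simp
  | succ k ih => rw [pow_succ_apply, pow_succ_apply, inner_S hS, ih]

lemma norm_Spow (k : ℕ) (x : Y) : ‖(S ^ k) x‖ = ‖x‖ := by
  induction k with
  | zero => simp
  | succ k ih => rw [pow_succ_apply, hS, ih]

/-- the wandering vector of a cyclic subspace of a pure isometry -/
lemma exists_wandering (hpure : ∀ z : Y, (∀ k : ℕ, ∃ y, (S ^ k) y = z) → z = 0) {x : Y}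
    (hx : x ≠ 0) :
    ∃ e ∈ cyc S x, Orthonormal ℂ (fun k : ℕ => (S ^ k) e) ∧
      ∀ z ∈ cyc S x, (∀ k : ℕ, ⟪(S ^ k) e, z⟫_ℂ = 0) → z = 0 := by
  set N := cyc S x with hN
  set N1 : Submodule ℂ Y := N.map (S : Y →ₗ[ℂ] Y) with hN1
  have hmem1 : ∀ z, z ∈ N1 ↔ ∃ y ∈ N, S y = z := fun z => by
    rw [hN1, Submodule.mem_map]
    rfl
  have hN1N : ∀ z ∈ N1, z ∈ N := by
    intro z hz
    obtain ⟨y, hy, rfl⟩ := (hmem1 z).1 hz
    exact map_mem_cyc S hy
  have hN1c : IsClosed (N1 : Set Y) := by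
    let Si : Y →ₗᵢ[ℂ] Y := ⟨(S : Y →ₗ[ℂ] Y), hS⟩
    have h1 : (N1 : Set Y) = Si '' (N : Set Y) := by
      ext z
      rw [SetLike.mem_coe, hmem1]
      rfl
    rw [h1]
    exact Si.isometry.isClosedEmbedding.isClosedMap _ (isClosed_cyc S x)
  have hcomp : CompleteSpace N1 := hN1c.completeSpace_coe
  obtain ⟨y, hy, e0, he0, hxy⟩ := N1.exists_add_mem_mem_orthogonal x
  have he0N : e0 ∈ N := by
    have : e0 = x - y := by rw [hxy]; abel
    rw [this]
    exact N.sub_mem (self_mem_cyc S x) (hN1N y hy)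
  have he0ne : e0 ≠ 0 := by
    intro h0
    rw [h0, add_zero] at hxy
    have h1 : N ≤ N1 := by
      apply cyc_le S hN1c
      intro k
      rcases k with _ | k
      · simpa [hxy] using hy
      · rw [hmem1]
        exact ⟨(S ^ k) x, pow_mem_cyc S x k, (pow_succ_apply S k x).symm⟩
    have h2 : ∀ k : ℕ, ∀ z ∈ N, ∃ y ∈ N, (S ^ k) y = z := by
      intro k
      induction k with
      | zero => exact fun z hz => ⟨z, hz, by simp⟩
      | succ k ih =>
        intro z hz
        obtain ⟨z1, hz1, rfl⟩ := (hmem1 z).1 (h1 hz)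
        obtain ⟨z2, hz2, rfl⟩ := ih z1 hz1
        exact ⟨z2, hz2, pow_succ_apply S k z2⟩
    apply hx
    apply hpure
    intro k
    obtain ⟨y', -, hy'⟩ := h2 k x (self_mem_cyc S x)
    exact ⟨y', hy'⟩
  have hn0 : (‖e0‖ : ℂ) ≠ 0 := by
    simpa using he0ne
  set e : Y := ((‖e0‖ : ℂ)⁻¹) • e0 with he
  have heN : e ∈ N := N.smul_mem _ he0N
  have heO : ∀ z ∈ N1, ⟪e, z⟫_ℂ = 0 := by
    intro z hz
    rw [he, inner_smul_left, Submodule.inner_left_of_mem_orthogonal hz he0, mul_zero]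
  have hen : ‖e‖ = 1 := by
    rw [he, norm_smul, norm_inv, Complex.norm_real, norm_norm]
    exact inv_mul_cancel₀ (norm_ne_zero_iff.2 he0ne)
  have hpow1 : ∀ k : ℕ, (S ^ (k + 1)) e ∈ N1 := by
    intro k
    rw [hmem1]
    exact ⟨(S ^ k) e, pow_map_mem_cyc S heN k, (pow_succ_apply S k e).symm⟩
  have hlt : ∀ j m : ℕ, ⟪(S ^ j) e, (S ^ (j + (m + 1))) e⟫_ℂ = 0 := by
    intro j m
    have h1 : (S ^ (j + (m + 1))) e = (S ^ j) ((S ^ (m + 1)) e) := by
      rw [pow_add]
      rfl
    rw [h1, inner_pow hS]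
    exact heO _ (hpow1 m)
  have horth : Orthonormal ℂ (fun k : ℕ => (S ^ k) e) := by
    refine ⟨fun k => by rw [norm_Spow hS, hen], fun j k hjk => ?_⟩
    simp only
    rcases Nat.lt_or_gt_of_ne hjk with h | h
    · obtain ⟨m, rfl⟩ := Nat.exists_eq_add_of_lt h
      rw [show j + m + 1 = j + (m + 1) by ring]
      exact hlt j m
    · obtain ⟨m, rfl⟩ := Nat.exists_eq_add_of_lt h
      rw [← inner_conj_symm, show k + m + 1 = k + (m + 1) by ring, hlt k m, map_zero]
  -- a vector of `N` orthogonal to `e` is in `S N`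
  have hstep : ∀ z ∈ N, ⟪e, z⟫_ℂ = 0 → z ∈ N1 := by
    intro z hz hez
    obtain ⟨y', hy', u, hu, hzu⟩ := N1.exists_add_mem_mem_orthogonal z
    have huN : u ∈ N := by
      have : u = z - y' := by rw [hzu]; abel
      rw [this]
      exact N.sub_mem hz (hN1N y' hy')
    have heu : ⟪e, u⟫_ℂ = 0 := by
      have h1 := hez
      rw [hzu, inner_add_right, heO y' hy', zero_add] at h1
      exact h1
    have he0u : ⟪e0, u⟫_ℂ = 0 := by
      rw [he, inner_smul_left] at heu
      rcases mul_eq_zero.1 heu with h | h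
      · exfalso
        rw [map_eq_zero] at h
        exact inv_ne_zero hn0 h
      · exact h
    have h1 : ∀ k : ℕ, ⟪(S ^ k) x, u⟫_ℂ = 0 := by
      intro k
      rcases k with _ | k
      · have h2 : (S ^ 0) x = x := by simp
        rw [h2, hxy, inner_add_left, he0u, add_zero]
        exact Submodule.inner_right_of_mem_orthogonal hy hu
      · refine Submodule.inner_right_of_mem_orthogonal (K := N1) ?_ hu
        rw [hmem1]
        exact ⟨(S ^ k) x, pow_mem_cyc S x k, (pow_succ_apply S k x).symm⟩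
    have h2 : N ≤ (Submodule.span ℂ {u})ᗮ := by
      apply cyc_le S (Submodule.isClosed_orthogonal _)
      intro k
      rw [Submodule.mem_orthogonal_singleton_iff_inner_left]
      exact h1 k
    have h3 := h2 huN
    rw [Submodule.mem_orthogonal_singleton_iff_inner_left, inner_self_eq_zero] at h3
    rw [hzu, h3, add_zero]
    exact hy'
  refine ⟨e, heN, horth, fun z hz hez => ?_⟩
  have hall : ∀ n : ℕ, ∃ y ∈ N, (S ^ n) y = z ∧ ∀ k : ℕ, ⟪(S ^ k) e, y⟫_ℂ = 0 := by
    intro n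
    induction n with
    | zero => exact ⟨z, hz, by simp, hez⟩
    | succ n ih =>
      obtain ⟨y', hy', hyz, hye⟩ := ih
      have h1 := hye 0
      rw [show (S ^ 0) e = e by simp] at h1
      obtain ⟨y2, hy2, rfl⟩ := (hmem1 y').1 (hstep y' hy' h1)
      refine ⟨y2, hy2, ?_, fun k => ?_⟩
      · rw [pow_succ_apply']
        exact hyz
      · rw [← inner_S hS, ← pow_succ_apply]
        exact hye (k + 1)
  apply hpure
  intro k
  obtain ⟨y', -, hy', -⟩ := hall k
  exact ⟨y', hy'⟩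

end hilbert

end Pool.Agent.CycP
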