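import Pool.Agent.CycP.Har

set_option autoImplicit false
set_option linter.unusedSectionVars false

/-! (CP) for Hilbert spaces on which multiplication by the Riemann map is an isometry. -/

namespace Pool.Agent.CycP

open Filter Topology InnerProductSpace AnSpace

section

variable {Y : Type} [NormedAddCommGroup Y] [InnerProductSpace ℂ Y] [CompleteSpace Y]
variable {S : Y →L[ℂ] Y} (hS : ∀ f, ‖S f‖ = ‖f‖)

/-- The orthonormal basis of a cyclic subspace. -/
lemma exists_basis {x e : Y} (heN : e ∈ cyc S x)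
    (horth : Orthonormal ℂ (fun k : ℕ => (S ^ k) e))
    (hcompl : ∀ z ∈ cyc S x, (∀ k : ℕ, ⟪(S ^ k) e, z⟫_ℂ = 0) → z = 0) :
    ∃ b : HilbertBasis ℕ ℂ (cyc S x), ∀ k, ((b k : cyc S x) : Y) = (S ^ k) e := by
  have hc : CompleteSpace (cyc S x) := (isClosed_cyc S x).completeSpace_coe
  let v : ℕ → cyc S x := fun k => ⟨(S ^ k) e, pow_map_mem_cyc S heN k⟩
  have hv : Orthonormal ℂ v := by
    refine ⟨fun k => horth.1 k, fun j k hjk => horth.2 hjk⟩
  have hbot : (Submodule.span ℂ (Set.range v))ᗮ = ⊥ := by
    rw [Submodule.eq_bot_iff]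
    intro z hz
    rw [Submodule.mem_orthogonal] at hz
    have h1 : (z : Y) = 0 := by
      apply hcompl z z.2
      intro k
      exact hz (v k) (Submodule.subset_span ⟨k, rfl⟩)
    exact Subtype.ext h1
  refine ⟨HilbertBasis.mkOfOrthogonalEqBot hv hbot, fun k => ?_⟩
  rw [HilbertBasis.coe_mkOfOrthogonalEqBot]

/-- The isometry from one cyclic subspace onto another one. -/
lemma exists_isometry {x1 x e1 e : Y} (hx1 : ∀ y, y ∈ cyc S x1)
    (h1o : Orthonormal ℂ (fun k : ℕ => (S ^ k) e1))
    (h1c : ∀ z ∈ cyc S x1, (∀ k : ℕ, ⟪(S ^ k) e1, z⟫_ℂ = 0) → z = 0)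
    (heN : e ∈ cyc S x) (horth : Orthonormal ℂ (fun k : ℕ => (S ^ k) e))
    (hcompl : ∀ z ∈ cyc S x, (∀ k : ℕ, ⟪(S ^ k) e, z⟫_ℂ = 0) → z = 0) :
    ∃ V : Y →ₗᵢ[ℂ] Y, (∀ k, V ((S ^ k) e1) = (S ^ k) e) ∧ (∀ y, V y ∈ cyc S x) ∧
      ∀ z ∈ cyc S x, ∃ y, V y = z := by
  obtain ⟨b1, hb1⟩ := exists_basis (hx1 e1) h1o h1c
  obtain ⟨b, hb⟩ := exists_basis heN horth hcompl
  -- the inclusion of everything in the first cyclic subspace
  let J : Y →ₗᵢ[ℂ] cyc S x1 :=
    { toFun := fun y => ⟨y, hx1 y⟩
      map_add' := fun _ _ => rfl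
      map_smul' := fun _ _ => rfl
      norm_map' := fun _ => rfl }
  have hJ : ∀ y, ((J y : cyc S x1) : Y) = y := fun _ => rfl
  let W : cyc S x1 ≃ₗᵢ[ℂ] cyc S x := b1.repr.trans b.repr.symm
  have hW : ∀ k, W (b1 k) = b k := by
    intro k
    show b.repr.symm (b1.repr (b1 k)) = b k
    rw [b1.repr_self, b.repr_symm_single]
  refine ⟨(cyc S x).subtypeₗᵢ.comp (W.toLinearIsometry.comp J), fun k => ?_, fun y => ?_,
    fun z hz => ?_⟩
  · show ((W (J ((S ^ k) e1)) : cyc S x) : Y) = (S ^ k) e
    have h1 : J ((S ^ k) e1) = b1 k := by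
      apply Subtype.ext
      rw [hb1, hJ]
    rw [h1, hW, hb]
  · exact (W (J y)).2
  · refine ⟨((W.symm ⟨z, hz⟩ : cyc S x1) : Y), ?_⟩
    show ((W (J ((W.symm ⟨z, hz⟩ : cyc S x1) : Y)) : cyc S x) : Y) = z
    have h1 : J ((W.symm ⟨z, hz⟩ : cyc S x1) : Y) = W.symm ⟨z, hz⟩ := Subtype.ext rfl
    rw [h1, LinearIsometryEquiv.apply_symm_apply]

end

/-! ### the theorem -/

section

variable {Ω : Set (Fin 1 → ℂ)} {Y : Type} [NormedAddCommGroup Y] [InnerProductSpace ℂ Y]
  [CompleteSpace Y]

/-- Closed shift-invariant subspaces are invariant under polynomials. -/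
lemma poly_mem_of_invariant (B : AnSpace 1 Ω Y) {M : Submodule ℂ Y}
    (hM : ∀ f ∈ M, B.shift 0 f ∈ M) (P : MvPolynomial (Fin 1) ℂ) :
    ∀ f ∈ M, ∀ y, (∀ w ∈ Ω, B.fn y w = MvPolynomial.eval w P * B.fn f w) → y ∈ M := by
  induction P using MvPolynomial.induction_on with
  | C a =>
    intro f hf y hy
    have : y = a • f := B.fn_ext fun w hw => by rw [hy w hw]; simp
    rw [this]
    exact M.smul_mem _ hf
  | add P Q hP hQ =>
    intro f hf y hy
    obtain ⟨MP, hMP⟩ := B.exists_mul P
    obtain ⟨MQ, hMQ⟩ := B.exists_mul Q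
    have : y = MP f + MQ f := B.fn_ext fun w hw => by
      rw [hy w hw, map_add, map_add, Pi.add_apply, hMP f w hw, hMQ f w hw, add_mul]
    rw [this]
    exact M.add_mem (hP f hf _ (hMP f)) (hQ f hf _ (hMQ f))
  | mul_X P j hP =>
    intro f hf y hy
    have hj : j = 0 := Subsingleton.elim _ _
    subst hj
    obtain ⟨MP, hMP⟩ := B.exists_mul P
    have : y = B.shift 0 (MP f) := B.fn_ext fun w hw => by
      rw [hy w hw, B.fn_shift 0 _ w hw, hMP f w hw, map_mul, MvPolynomial.eval_X]
      ring
    rw [this]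
    exact hM _ (hP f hf _ (hMP f))

/-- polynomials in `Φ` preserve the subspaces invariant under the multiplication by `Φ` -/
lemma exists_mul_map (B : AnSpace 1 Ω Y) {Φ : (Fin 1 → ℂ) → Fin 1 → ℂ} {S : Y →L[ℂ] Y}
    (hSfn : ∀ f, ∀ w ∈ Ω, B.fn (S f) w = Φ w 0 * B.fn f w) {M : Submodule ℂ Y}
    (hM : ∀ f ∈ M, S f ∈ M) {f : Y} (hf : f ∈ M) (P : MvPolynomial (Fin 1) ℂ) :
    ∃ y ∈ M, ∀ w ∈ Ω, B.fn y w = MvPolynomial.eval (Φ w) P * B.fn f w := by
  induction P using MvPolynomial.induction_on with
  | C a => exact ⟨a • f, M.smul_mem _ hf, fun w hw => by simp⟩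
  | add P Q hP hQ =>
    obtain ⟨y, hy, hy'⟩ := hP
    obtain ⟨z, hz, hz'⟩ := hQ
    exact ⟨y + z, M.add_mem hy hz, fun w hw => by
      rw [map_add, Pi.add_apply, hy' w hw, hz' w hw, map_add, add_mul]⟩
  | mul_X P j hP =>
    obtain ⟨y, hy, hy'⟩ := hP
    have hj : j = 0 := Subsingleton.elim _ _
    subst hj
    exact ⟨S y, hM y hy, fun w hw => by
      rw [hSfn _ w hw, hy' w hw, map_mul, MvPolynomial.eval_X]; ring⟩

/-- A Hilbert space on which the multiplication by the Riemann map is an isometry has (CP) if and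
only if all closed shift-invariant subspaces are invariant under all multipliers. -/
theorem cp_iff_invariant (B : AnSpace 1 Ω Y) (hmax : B.maxDomain = Ω) (hH : B.HInfMultiplier)
    {Φ Ψ : (Fin 1 → ℂ) → Fin 1 → ℂ}
    (hΦ : AnalyticOnNhd ℂ Φ Ω) (hΨ : AnalyticOnNhd ℂ Ψ (Metric.ball 0 1))
    (hΦD : Set.MapsTo Φ Ω (Metric.ball 0 1)) (hΨΩ : Set.MapsTo Ψ (Metric.ball 0 1) Ω)
    (hinv : ∀ w ∈ Ω, Ψ (Φ w) = w) (hinv' : ∀ u ∈ Metric.ball 0 1, Φ (Ψ u) = u)
    (hiso : ∀ f g : Y, (∀ w ∈ Ω, B.fn g w = Φ w 0 * B.fn f w) → ‖g‖ = ‖f‖) :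
    B.CP ↔ ∀ M : Submodule ℂ Y, IsClosed (M : Set Y) → (∀ f ∈ M, B.shift 0 f ∈ M) →
      ∀ h, B.IsMultiplier h → ∀ f ∈ M, ∀ g, (∀ w ∈ Ω, B.fn g w = h w * B.fn f w) → g ∈ M := by
  have hbal : PolyApprox (Metric.ball (0 : Fin 1 → ℂ) 1) :=
    polyApprox_of_balanced (balanced_ball_zero)
  constructor
  · intro hcp M hMc hM
    have hmc : ∀ g, B.MultCyclic g → B.Cyclic g := fun g hg =>
      multCyclic_of_cp B hilbert_reflexive hmax hH Metric.isOpen_ball Metric.isBounded_ball hbal
        hΦ hΨ hΦD hΨΩ hinv hinv' hcp g hg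
    have hφan : AnalyticOnNhd ℂ (fun w => Φ w 0) Ω := by
      intro w hw
      exact ((ContinuousLinearMap.proj (R := ℂ) (φ := fun _ : Fin 1 => ℂ) 0).analyticAt _).comp
        (hΦ w hw)
    have hφ1 : ∀ w ∈ Ω, ‖Φ w 0‖ < 1 := by
      intro w hw
      have h1 := hΦD hw
      rw [mem_ball_zero_iff] at h1
      exact (norm_le_pi_norm _ 0).trans_lt h1
    obtain ⟨S, hSfn⟩ := hH.exists_clm hφan (fun w hw => (hφ1 w hw).le)
    have hS : ∀ f, ‖S f‖ = ‖f‖ := fun f => hiso f (S f) (hSfn f)
    have hSk : ∀ (k : ℕ) f, ∀ w ∈ Ω, B.fn ((S ^ k) f) w = Φ w 0 ^ k * B.fn f w := by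
      intro k
      induction k with
      | zero => intro f w hw; simp
      | succ k ih =>
        intro f w hw
        rw [pow_succ_apply, hSfn _ w hw, ih f w hw]
        ring
    have hpure : ∀ z : Y, (∀ k : ℕ, ∃ y, (S ^ k) y = z) → z = 0 := by
      intro z hz
      choose y hy using hz
      apply B.fn_inj
      intro w hw
      obtain ⟨L, hL, -⟩ := B.exists_eval hw
      have h1 : ∀ k : ℕ, ‖B.fn z w‖ ≤ ‖Φ w 0‖ ^ k * (‖L‖ * ‖z‖) := by
        intro k
        have h2 : ‖y k‖ = ‖z‖ := by rw [← norm_Spow hS k (y k), hy k]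
        rw [← hy k, hSk k _ w hw, norm_mul, norm_pow]
        apply mul_le_mul_of_nonneg_left _ (by positivity)
        rw [← hL, hy k, ← h2]
        exact L.le_opNorm _
      have h2 : Tendsto (fun k : ℕ => ‖Φ w 0‖ ^ k * (‖L‖ * ‖z‖)) atTop (𝓝 0) := by
        have := (tendsto_pow_atTop_nhds_zero_of_lt_one (norm_nonneg _) (hφ1 w hw)).mul_const
          (‖L‖ * ‖z‖)
        rwa [zero_mul] at this
      have h3 : ‖B.fn z w‖ ≤ 0 := ge_of_tendsto' h2 h1
      exact norm_le_zero_iff.1 h3
    -- orbits
    have horb : ∀ g : Y, ∀ k : ℕ, (S ^ k) g ∈ B.orbitMap Φ g := by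
      intro g k
      refine ⟨MvPolynomial.X 0 ^ k, fun w hw => ?_⟩
      rw [hSk k g w hw, map_pow, MvPolynomial.eval_X]
    have hSM : ∀ f ∈ M, S f ∈ M := by
      intro f hf
      by_cases hf0 : f = 0
      · rw [hf0, map_zero]; exact M.zero_mem
      -- the constant function generates the whole space
      have h1all : ∀ y, y ∈ cyc S (B.poly 1) := by
        have h1 : ∀ Q, B.poly Q ∈ cyc S (B.poly 1) := by
          intro Q
          obtain ⟨MQ, hMQ⟩ := B.exists_mul Q
          have h2 : B.poly Q ∈ (B.orbitMap Φ (B.poly 1)).topologicalClosure := by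
            apply B.mult_mem_closure hilbert_reflexive hH hbal hΦ hΨ hΦD hΨΩ hinv
              (h := fun w => MvPolynomial.eval w Q) (K := ‖MQ‖)
            · exact fun w _ => AnalyticOnNhd.eval_mvPolynomial (𝕜 := ℂ) Q _ (Set.mem_univ _)
            · exact fun w hw => B.norm_eval_le (B.subset_maxDomain hw) hMQ
            · intro w hw
              rw [B.fn_poly _ w hw, B.fn_poly _ w hw, map_one, mul_one]
          have h3 : B.orbitMap Φ (B.poly 1) ≤ cyc S (B.poly 1) := by
            rintro y ⟨P, hP⟩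
            obtain ⟨y', hy', hy''⟩ := exists_mul_map B hSfn (fun f hf => map_mem_cyc S hf)
              (self_mem_cyc S (B.poly 1)) P
            have : y = y' := B.fn_ext fun w hw => by rw [hP w hw, hy'' w hw]
            rw [this]
            exact hy'
          exact Submodule.topologicalClosure_minimal _ h3 (isClosed_cyc S _) h2
        intro y
        have h2 : Set.range B.poly ⊆ (cyc S (B.poly 1) : Set Y) := by
          rintro _ ⟨Q, rfl⟩
          exact h1 Q
        exact (closure_minimal h2 (isClosed_cyc S _)) (B.poly_dense y)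
      by_cases h10 : B.poly 1 = 0
      · -- the space is trivial
        exfalso
        apply hf0
        have h1 : f ∈ cyc S (B.poly 1) := h1all f
        have h2 : cyc S (B.poly 1) ≤ ⊥ := by
          apply cyc_le S (by simp)
          intro k
          rw [h10, map_zero]
          exact Submodule.zero_mem _
        exact (Submodule.mem_bot ℂ).1 (h2 h1)
      obtain ⟨e1, he1N, he1o, he1c⟩ := exists_wandering hS hpure h10
      obtain ⟨e, heN, heo, hec⟩ := exists_wandering hS hpure hf0
      obtain ⟨V, hVe, hVN, hVs⟩ := exists_isometry h1all he1o he1c heN heo hec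
      -- every vector is in the closed span of the powers applied to `e1`
      have he1all : ∀ y, y ∈ cyc S e1 := by
        have hc : CompleteSpace (cyc S e1) := (isClosed_cyc S e1).completeSpace_coe
        intro y
        obtain ⟨y1, hy1, z, hz, hyz⟩ := (cyc S e1).exists_add_mem_mem_orthogonal y
        have hz0 : z = 0 := by
          apply he1c z (h1all z)
          intro k
          exact Submodule.inner_right_of_mem_orthogonal (pow_mem_cyc S e1 k) hz
        rw [hyz, hz0, add_zero]
        exact hy1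
      have hrel : ∀ w ∈ Ω, ∀ y, B.fn (V y) w * B.fn e1 w = B.fn y w * B.fn e w := by
        intro w hw y
        obtain ⟨L, hL, -⟩ := B.exists_eval hw
        let K : Submodule ℂ Y :=
          { carrier := {y | L (V y) * L e1 = L y * L e}
            add_mem' := fun {a b} ha hb => by
              show L (V (a + b)) * L e1 = L (a + b) * L e
              rw [map_add, map_add, map_add, add_mul, add_mul]
              exact congrArg₂ (· + ·) ha hb
            zero_mem' := by
              show L (V 0) * L e1 = L 0 * L e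
              simp
            smul_mem' := fun c a ha => by
              show L (V (c • a)) * L e1 = L (c • a) * L e
              rw [map_smul, map_smul, map_smul, smul_mul_assoc, smul_mul_assoc]
              exact congrArg (c • ·) ha }
        have hK : IsClosed (K : Set Y) :=
          isClosed_eq ((L.continuous.comp V.continuous).mul continuous_const)
            (L.continuous.mul continuous_const)
        have h1 : cyc S e1 ≤ K := by
          apply cyc_le S hK
          intro k
          show L (V ((S ^ k) e1)) * L e1 = L ((S ^ k) e1) * L e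
          rw [hVe, hL, hL, hL, hL, hSk k _ w hw, hSk k _ w hw]
          ring
        have h2 : L (V y) * L e1 = L y * L e := h1 (he1all y)
        rw [hL, hL, hL, hL] at h2
        exact h2
      have he1w : ∀ w ∈ Ω, B.fn e1 w ≠ 0 := by
        intro w hw h0
        obtain ⟨L, hL, hL'⟩ := B.exists_eval hw
        have h1 : cyc S e1 ≤ LinearMap.ker (L : Y →ₗ[ℂ] ℂ) := by
          apply cyc_le S L.isClosed_ker
          intro k
          rw [LinearMap.mem_ker]
          show L ((S ^ k) e1) = 0
          rw [hL, hSk k _ w hw, h0, mul_zero]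
        have h2 := h1 (he1all (B.poly 1))
        rw [LinearMap.mem_ker] at h2
        have h3 : L (B.poly 1) = 0 := h2
        rw [hL' 1, map_one] at h3
        exact one_ne_zero h3
      -- `V` commutes with multiplications
      have hVmul : ∀ (h : (Fin 1 → ℂ) → ℂ) (y y' : Y), (∀ w ∈ Ω, B.fn y' w = h w * B.fn y w) →
          ∀ w ∈ Ω, B.fn (V y') w = h w * B.fn (V y) w := by
        intro h y y' hyy w hw
        apply mul_right_cancel₀ (he1w w hw)
        rw [hrel w hw y', hyy w hw, mul_assoc (h w) (B.fn (V y) w), hrel w hw y]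
        ring
      obtain ⟨fo, hfo⟩ := hVs f (self_mem_cyc S f)
      have hVS : ∀ y, V (S y) = S (V y) := by
        intro y
        apply B.fn_ext
        intro w hw
        rw [hVmul (fun w => Φ w 0) y (S y) (hSfn y) w hw, hSfn _ w hw]
      have hVSk : ∀ k : ℕ, ∀ y, V ((S ^ k) y) = (S ^ k) (V y) := by
        intro k
        induction k with
        | zero => intro y; simp
        | succ k ih => intro y; rw [pow_succ_apply, hVS, ih, pow_succ_apply]
      -- `fo` is cyclic for the multipliers
      have hfoall : ∀ y, y ∈ cyc S fo := by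
        have hc : CompleteSpace (cyc S fo) := (isClosed_cyc S fo).completeSpace_coe
        have hc' : CompleteSpace (cyc S f) := (isClosed_cyc S f).completeSpace_coe
        intro y
        obtain ⟨y1, hy1, z, hz, hyz⟩ := (cyc S fo).exists_add_mem_mem_orthogonal y
        have hz0 : z = 0 := by
          have h1 : V z = 0 := by
            have h2 : ∀ k : ℕ, ⟪(S ^ k) f, V z⟫_ℂ = 0 := by
              intro k
              rw [← hfo, ← hVSk, V.inner_map_map]
              exact Submodule.inner_right_of_mem_orthogonal (pow_mem_cyc S fo k) hz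
            have h3 : cyc S f ≤ (Submodule.span ℂ {V z})ᗮ := by
              apply cyc_le S (Submodule.isClosed_orthogonal _)
              intro k
              rw [Submodule.mem_orthogonal_singleton_iff_inner_left]
              exact h2 k
            have h4 := h3 (hVN z)
            rwa [Submodule.mem_orthogonal_singleton_iff_inner_left, inner_self_eq_zero] at h4
          have h2 : ‖z‖ = 0 := by rw [← V.norm_map, h1, norm_zero]
          exact norm_eq_zero.1 h2
        rw [hyz, hz0, add_zero]
        exact hy1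
      have hfomc : B.MultCyclic fo := by
        apply Set.univ_subset_iff.1
        intro y _
        have h1 : Submodule.span ℂ (Set.range fun k : ℕ => (S ^ k) fo) ≤ B.orbitMap Φ fo := by
          rw [Submodule.span_le]
          rintro _ ⟨k, rfl⟩
          exact horb fo k
        have h2 : ((B.orbitMap Φ fo : Submodule ℂ Y) : Set Y) ⊆
            {x | ∃ h, B.IsMultiplier h ∧ ∀ w ∈ Ω, B.fn x w = h w * B.fn fo w} := by
          rintro x ⟨P, hP⟩
          refine ⟨fun w => MvPolynomial.eval (Φ w) P, fun x => ?_, hP⟩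
          obtain ⟨y, -, hy⟩ := exists_mul_map B hSfn (M := ⊤) (fun _ _ => trivial)
            (f := x) trivial P
          exact ⟨y, hy⟩
        exact closure_mono h2 (closure_mono h1 (hfoall y))
      have hfocy : B.Cyclic fo := hmc fo hfomc
      -- conclusion
      have h1 : V '' closure (B.orbit fo) ⊆ (M : Set Y) := by
        refine (image_closure_subset_closure_image V.continuous).trans ?_
        apply closure_minimal _ hMc
        rintro _ ⟨y, ⟨P, hP⟩, rfl⟩
        apply poly_mem_of_invariant B hM P f hf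
        intro w hw
        rw [hVmul _ fo y hP w hw, hfo]
      have h2 : V (S fo) ∈ (M : Set Y) := by
        apply h1
        refine ⟨S fo, ?_, rfl⟩
        rw [hfocy]
        trivial
      rw [hVS, hfo] at h2
      exact h2
    -- from the invariance under `S` to all multipliers
    intro h hh f hf g hg
    obtain ⟨h', hh', han, K, hK⟩ := hh.analytic_bounded
    have h2 := B.mult_mem_closure hilbert_reflexive hH hbal hΦ hΨ hΦD hΨΩ hinv han hK (g := f)
      (x := g) (fun w hw => by rw [hg w hw, hh' w hw])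
    have h3 : B.orbitMap Φ f ≤ M := by
      rintro y ⟨P, hP⟩
      obtain ⟨y', hy', hy''⟩ := exists_mul_map B hSfn hSM hf P
      have : y = y' := B.fn_ext fun w hw => by rw [hP w hw, hy'' w hw]
      rw [this]
      exact hy'
    exact Submodule.topologicalClosure_minimal _ h3 hMc h2
  · intro hinvt
    apply cp_of_multCyclic B hH
    intro g hg
    -- the closed shift-invariant subspace generated by `g`
    set N : Submodule ℂ Y := (B.orbitMap id g).topologicalClosure with hN
    have hNc : IsClosed (N : Set Y) := Submodule.isClosed_topologicalClosure _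
    have hNsh : ∀ f ∈ N, B.shift 0 f ∈ N := by
      have h1 : N ≤ N.comap ((B.shift 0 : Y →L[ℂ] Y) : Y →ₗ[ℂ] Y) := by
        apply Submodule.topologicalClosure_minimal
        · rintro y ⟨P, hP⟩
          rw [Submodule.mem_comap]
          apply Submodule.le_topologicalClosure
          refine ⟨MvPolynomial.X 0 * P, fun w hw => ?_⟩
          show B.fn (B.shift 0 y) w = _
          rw [B.fn_shift 0 y w hw, hP w hw, map_mul, MvPolynomial.eval_X]
          simp only [id]
          ring
        · exact hNc.preimage (B.shift 0).continuous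
      exact fun f hf => h1 hf
    have hgN : g ∈ N := by
      apply Submodule.le_topologicalClosure
      exact ⟨1, fun w hw => by simp⟩
    have h1 : {x | ∃ h, B.IsMultiplier h ∧ ∀ w ∈ Ω, B.fn x w = h w * B.fn g w} ⊆ (N : Set Y) := by
      rintro x ⟨h, hh, hx⟩
      exact hinvt N hNc hNsh h hh g hgN x hx
    have h2 := closure_minimal h1 hNc
    rw [hg] at h2
    have h3 : (N : Set Y) ⊆ closure (B.orbit g) := closure_mono fun x hx => hx
    exact Set.univ_subset_iff.1 (h2.trans h3)

end

end Pool.Agent.CycP
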