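import Mathlib

set_option autoImplicit false

/-! Complete Pick kernels, part A: positive semidefinite kernels and the row contraction. -/

open ComplexConjugate Filter Topology

noncomputable section

namespace Pool.Agent.CycP.Pick

variable {Y : Type} [NormedAddCommGroup Y] [InnerProductSpace ℂ Y] {ι : Type}

/-! ### positive semidefinite kernels -/

/-- positive semidefinite kernels -/
def Psd (N : ι → ι → ℂ) : Prop :=
  ∀ (s : Finset ι) (c : ι → ℂ), 0 ≤ (∑ z ∈ s, ∑ w ∈ s, conj (c z) * c w * N z w).re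

lemma Psd.add {N N' : ι → ι → ℂ} (h : Psd N) (h' : Psd N') :
    Psd fun z w => N z w + N' z w := by
  intro s c
  have h1 : (∑ z ∈ s, ∑ w ∈ s, conj (c z) * c w * (N z w + N' z w)) =
      (∑ z ∈ s, ∑ w ∈ s, conj (c z) * c w * N z w) +
        ∑ z ∈ s, ∑ w ∈ s, conj (c z) * c w * N' z w := by
    simp only [mul_add, Finset.sum_add_distrib]
  rw [h1, Complex.add_re]
  exact add_nonneg (h s c) (h' s c)

lemma psd_zero : Psd fun _ _ : ι => (0 : ℂ) := by
  intro s c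
  simp

lemma Psd.scale {N : ι → ι → ℂ} (h : Psd N) (a : ι → ℂ) :
    Psd fun z w => a z * conj (a w) * N z w := by
  intro s c
  have h1 := h s fun w => c w * conj (a w)
  refine h1.trans_eq ?_
  congr 1
  refine Finset.sum_congr rfl fun z _ => Finset.sum_congr rfl fun w _ => ?_
  rw [map_mul, Complex.conj_conj]
  ring

lemma Psd.lim {N : ℕ → ι → ι → ℂ} {N' : ι → ι → ℂ} (h : ∀ m, Psd (N m))
    (hl : ∀ z w, Tendsto (fun m => N m z w) atTop (𝓝 (N' z w))) : Psd N' := by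
  intro s c
  have h1 : Tendsto (fun m => (∑ z ∈ s, ∑ w ∈ s, conj (c z) * c w * N m z w).re) atTop
      (𝓝 (∑ z ∈ s, ∑ w ∈ s, conj (c z) * c w * N' z w).re) := by
    refine (Complex.continuous_re.tendsto _).comp ?_
    exact tendsto_finsetSum _ fun z _ => tendsto_finsetSum _ fun w _ => (hl z w).const_mul _
  exact ge_of_tendsto' h1 fun m => h m s c

lemma gram_sum (s : Finset ι) (c : ι → ℂ) (x : ι → Y) :
    ∑ z ∈ s, ∑ w ∈ s, conj (c z) * c w * inner ℂ (x z) (x w) =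
      inner ℂ (∑ z ∈ s, c z • x z) (∑ w ∈ s, c w • x w) := by
  rw [sum_inner]
  refine Finset.sum_congr rfl fun z _ => ?_
  rw [inner_sum]
  refine Finset.sum_congr rfl fun w _ => ?_
  rw [inner_smul_left, inner_smul_right]
  ring

lemma psd_gram (x : ι → Y) : Psd fun z w => inner ℂ (x z) (x w) := by
  intro s c
  rw [gram_sum, ← RCLike.re_eq_complex_re]
  exact inner_self_nonneg

/-! ### the data of a complete Pick kernel -/

/-- a complete Pick kernel `⟪k z, k w⟫ = δ(z) conj δ(w) / (1 - ∑ b_n(z) conj b_n(w))` -/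
structure Data (k : ι → Y) (δ : Y) (b : ℕ → ι → ℂ) (β : ι → ι → ℂ) : Prop where
  tot : ∀ f : Y, (∀ z, inner ℂ (k z) f = 0) → f = 0
  hs : ∀ z w, HasSum (fun n => b n z * conj (b n w)) (β z w)
  hδ : ∀ z, inner ℂ (k z) δ ≠ 0
  hK : ∀ z w, inner ℂ (k z) (k w) * (1 - β z w) = inner ℂ (k z) δ * conj (inner ℂ (k w) δ)

variable {k : ι → Y} {δ : Y} {b : ℕ → ι → ℂ} {β : ι → ι → ℂ}

lemma mul_conj_self (z : ℂ) : z * conj z = ((‖z‖ ^ 2 : ℝ) : ℂ) := by
  rw [Complex.mul_conj, Complex.normSq_eq_norm_sq]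

lemma Data.sq (D : Data k δ b β) (z : ι) : HasSum (fun n => ‖b n z‖ ^ 2) (β z z).re := by
  have h1 := Complex.hasSum_re (D.hs z z)
  simp only [mul_conj_self, Complex.ofReal_re] at h1
  exact h1

lemma Data.self_im (D : Data k δ b β) (z : ι) : β z z = ((β z z).re : ℂ) := by
  have h1 := D.hs z z
  simp only [mul_conj_self] at h1
  have h2 := Complex.hasSum_ofReal.2 (D.sq z)
  exact h1.unique h2

lemma Data.re_nonneg (D : Data k δ b β) (z : ι) : 0 ≤ (β z z).re :=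
  (D.sq z).nonneg fun _ => by positivity

lemma Data.re_lt (D : Data k δ b β) (z : ι) : (β z z).re < 1 := by
  have h1 := D.hK z z
  rw [mul_conj_self, inner_self_eq_norm_sq_to_K, D.self_im z] at h1
  have h2 : ‖k z‖ ^ 2 * (1 - (β z z).re) = ‖inner ℂ (k z) δ‖ ^ 2 := by
    have h3 := congrArg Complex.re h1
    have h4 : ((((‖k z‖ : ℝ) : ℂ)) ^ 2 * (1 - ((β z z).re : ℂ))).re =
        ‖k z‖ ^ 2 * (1 - (β z z).re) := by
      have : ((((‖k z‖ : ℝ) : ℂ)) ^ 2 * (1 - ((β z z).re : ℂ))) =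
        ((‖k z‖ ^ 2 * (1 - (β z z).re) : ℝ) : ℂ) := by push_cast; ring
      rw [this, Complex.ofReal_re]
    rw [← h4]
    rw [Complex.ofReal_re] at h3
    exact h3
  have h3 : 0 < ‖inner ℂ (k z) δ‖ ^ 2 := by
    have := norm_pos_iff.2 (D.hδ z)
    positivity
  by_contra h4
  rw [not_lt] at h4
  have h5 : ‖k z‖ ^ 2 * (1 - (β z z).re) ≤ 0 :=
    mul_nonpos_of_nonneg_of_nonpos (by positivity) (by linarith)
  linarith

lemma Data.norm_lt (D : Data k δ b β) (z w : ι) : ‖β z w‖ < 1 := by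
  have h1 : HasSum (fun n => (‖b n z‖ ^ 2 + ‖b n w‖ ^ 2) / 2) (((β z z).re + (β w w).re) / 2) :=
    ((D.sq z).add (D.sq w)).div_const 2
  have h2 : ‖∑' n, b n z * conj (b n w)‖ ≤ ((β z z).re + (β w w).re) / 2 := by
    refine tsum_of_norm_bounded h1 fun n => ?_
    rw [norm_mul, RCLike.norm_conj]
    nlinarith [sq_nonneg (‖b n z‖ - ‖b n w‖)]
  rw [(D.hs z w).tsum_eq] at h2
  have h3 := D.re_lt z
  have h4 := D.re_lt w
  linarith

lemma Data.one_sub_ne (D : Data k δ b β) (z w : ι) : 1 - β z w ≠ 0 := by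
  intro h
  have h1 := D.norm_lt z w
  rw [← sub_eq_zero.1 h, norm_one] at h1
  exact lt_irrefl _ h1

lemma Psd.mul_beta (D : Data k δ b β) {N : ι → ι → ℂ} (h : Psd N) :
    Psd fun z w => β z w * N z w := by
  refine Psd.lim (N := fun m z w => (∑ n ∈ Finset.range m, b n z * conj (b n w)) * N z w)
    (fun m => ?_) fun z w => (D.hs z w).tendsto_sum_nat.mul_const _
  induction m with
  | zero => simpa using psd_zero
  | succ m ih =>
    simp only [Finset.sum_range_succ, add_mul]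
    exact ih.add (h.scale (b m))

lemma Psd.mul_pow (D : Data k δ b β) {N : ι → ι → ℂ} (h : Psd N) (m : ℕ) :
    Psd fun z w => β z w ^ m * N z w := by
  induction m with
  | zero => simpa using h
  | succ m ih =>
    have h1 := Psd.mul_beta D ih
    simp only [← mul_assoc, ← pow_succ'] at h1
    exact h1

/-- multiplication of a positive kernel with `S = 1 / (1 - β)` -/
lemma Psd.mul_S (D : Data k δ b β) {N : ι → ι → ℂ} (h : Psd N) :
    Psd fun z w => (1 - β z w)⁻¹ * N z w := by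
  refine Psd.lim (N := fun m z w => (∑ j ∈ Finset.range m, β z w ^ j) * N z w)
    (fun m => ?_) fun z w =>
      (hasSum_geometric_of_norm_lt_one (D.norm_lt z w)).tendsto_sum_nat.mul_const _
  induction m with
  | zero => simpa using psd_zero
  | succ m ih =>
    simp only [Finset.sum_range_succ, add_mul]
    exact ih.add (Psd.mul_pow D h m)

/-! ### the row contraction -/

lemma cs (m : ℕ) (x0 y0 : ℂ) (G H : ℕ → Y) :
    ‖x0 * y0 + ∑ n ∈ Finset.range m, inner ℂ (G n) (H n)‖ ^ 2 ≤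
      (‖x0‖ ^ 2 + ∑ n ∈ Finset.range m, ‖H n‖ ^ 2) *
        (‖y0‖ ^ 2 + ∑ n ∈ Finset.range m, ‖G n‖ ^ 2) := by
  have h1 : ‖x0 * y0 + ∑ n ∈ Finset.range m, inner ℂ (G n) (H n)‖ ≤
      ‖x0‖ * ‖y0‖ + ∑ n ∈ Finset.range m, ‖H n‖ * ‖G n‖ := by
    refine (norm_add_le _ _).trans (add_le_add (norm_mul_le _ _) ?_)
    refine (norm_sum_le _ _).trans (Finset.sum_le_sum fun n _ => ?_)
    rw [mul_comm]
    exact norm_inner_le_norm _ _
  have h2 := Finset.sum_mul_sq_le_sq_mul_sq (Finset.range (m + 1))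
    ((fun n => match n with | 0 => ‖x0‖ | n + 1 => ‖H n‖ : ℕ → ℝ))
    ((fun n => match n with | 0 => ‖y0‖ | n + 1 => ‖G n‖ : ℕ → ℝ))
  rw [Finset.sum_range_succ', Finset.sum_range_succ', Finset.sum_range_succ'] at h2
  simp only at h2
  calc _ ≤ (‖x0‖ * ‖y0‖ + ∑ n ∈ Finset.range m, ‖H n‖ * ‖G n‖) ^ 2 := by gcongr
    _ = ((∑ n ∈ Finset.range m, ‖H n‖ * ‖G n‖) + ‖x0‖ * ‖y0‖) ^ 2 := by rw [add_comm]
    _ ≤ _ := h2
    _ = _ := by rw [add_comm (‖x0‖ ^ 2), add_comm (‖y0‖ ^ 2)]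

/-- the double sum as a series of squares -/
lemma Data.hasSum_inner (D : Data k δ b β) (s t : Finset ι) (c d : ι → ℂ) (x y : ι → Y) :
    HasSum (fun n => inner ℂ (∑ z ∈ t, (d z * conj (b n z)) • x z)
      (∑ w ∈ s, (c w * conj (b n w)) • y w))
      (∑ z ∈ t, ∑ w ∈ s, conj (d z) * c w * (β z w * inner ℂ (x z) (y w))) := by
  have h1 : ∀ n, inner ℂ (∑ z ∈ t, (d z * conj (b n z)) • x z)
      (∑ w ∈ s, (c w * conj (b n w)) • y w) = ∑ z ∈ t, ∑ w ∈ s, conj (d z) * c w *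
        ((b n z * conj (b n w)) * inner ℂ (x z) (y w)) := by
    intro n
    rw [sum_inner]
    refine Finset.sum_congr rfl fun z _ => ?_
    rw [inner_sum]
    refine Finset.sum_congr rfl fun w _ => ?_
    rw [inner_smul_left, inner_smul_right, map_mul, Complex.conj_conj]
    ring
  simp only [h1]
  exact hasSum_sum fun z _ => hasSum_sum fun w _ => ((D.hs z w).mul_right _).mul_left _

lemma Data.hasSum_sq (D : Data k δ b β) (s : Finset ι) (c : ι → ℂ) (y : ι → Y) :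
    HasSum (fun n => ‖∑ w ∈ s, (c w * conj (b n w)) • y w‖ ^ 2)
      (∑ z ∈ s, ∑ w ∈ s, conj (c z) * c w * (β z w * inner ℂ (y z) (y w))).re := by
  have h1 := Complex.hasSum_re (D.hasSum_inner s s c c y y)
  have h2 : ∀ n, (inner ℂ (∑ z ∈ s, (c z * conj (b n z)) • y z)
      (∑ w ∈ s, (c w * conj (b n w)) • y w)).re =
      ‖∑ w ∈ s, (c w * conj (b n w)) • y w‖ ^ 2 := by
    intro n
    rw [← RCLike.re_eq_complex_re]
    exact inner_self_eq_norm_sq _
  simp only [h2] at h1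
  exact h1

/-- the row contraction, tested against kernel functions -/
lemma Data.core (D : Data k δ b β) (s : Finset ι) (c : ι → ℂ) (y : ι → Y) (Ξ : ℂ)
    (t : Finset ι) (d : ι → ℂ) :
    ‖∑ z ∈ t, conj (d z) * (Ξ * inner ℂ (k z) δ +
      ∑ w ∈ s, c w * β z w * inner ℂ (k z) (y w))‖ ^ 2 ≤
      (‖Ξ‖ ^ 2 + (∑ z ∈ s, ∑ w ∈ s, conj (c z) * c w * (β z w * inner ℂ (y z) (y w))).re) *
        ‖∑ z ∈ t, d z • k z‖ ^ 2 := by
  set g : Y := ∑ z ∈ t, d z • k z with hg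
  set Q : ℝ := (∑ z ∈ s, ∑ w ∈ s, conj (c z) * c w * (β z w * inner ℂ (y z) (y w))).re with hQ
  set Gn : ℕ → Y := fun n => ∑ z ∈ t, (d z * conj (b n z)) • k z with hGn
  set Yn : ℕ → Y := fun n => ∑ w ∈ s, (c w * conj (b n w)) • y w with hYn
  have h1 : HasSum (fun n => inner ℂ (Gn n) (Yn n))
      (∑ z ∈ t, ∑ w ∈ s, conj (d z) * c w * (β z w * inner ℂ (k z) (y w))) :=
    D.hasSum_inner s t c d k y
  have h2 : HasSum (fun n => ‖Yn n‖ ^ 2) Q := D.hasSum_sq s c y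
  have h3 : HasSum (fun n => ‖Gn n‖ ^ 2)
      (∑ z ∈ t, ∑ w ∈ t, conj (d z) * d w * (β z w * inner ℂ (k z) (k w))).re :=
    D.hasSum_sq t d k
  have hgδ : inner ℂ g δ = ∑ z ∈ t, conj (d z) * inner ℂ (k z) δ := by
    rw [hg, sum_inner]
    exact Finset.sum_congr rfl fun z _ => inner_smul_left _ _ _
  have h4 : (∑ z ∈ t, ∑ w ∈ t, conj (d z) * d w * (β z w * inner ℂ (k z) (k w))).re =
      ‖g‖ ^ 2 - ‖inner ℂ g δ‖ ^ 2 := by
    have e1 : (∑ z ∈ t, ∑ w ∈ t, conj (d z) * d w * (β z w * inner ℂ (k z) (k w))) =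
        inner ℂ g g - inner ℂ g δ * conj (inner ℂ g δ) := by
      have e2 : inner ℂ g δ * conj (inner ℂ g δ) = ∑ z ∈ t, ∑ w ∈ t, conj (d z) * d w *
          (inner ℂ (k z) δ * conj (inner ℂ (k w) δ)) := by
        rw [hgδ, map_sum, Finset.sum_mul_sum]
        refine Finset.sum_congr rfl fun z _ => Finset.sum_congr rfl fun w _ => ?_
        rw [map_mul, Complex.conj_conj]
        ring
      rw [e2, hg, ← gram_sum, ← Finset.sum_sub_distrib]
      refine Finset.sum_congr rfl fun z _ => ?_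
      rw [← Finset.sum_sub_distrib]
      refine Finset.sum_congr rfl fun w _ => ?_
      rw [← D.hK z w]
      ring
    rw [e1, mul_conj_self, Complex.sub_re, Complex.ofReal_re, ← RCLike.re_eq_complex_re,
      inner_self_eq_norm_sq]
  rw [h4] at h3
  have h5 : ∑ z ∈ t, conj (d z) * (Ξ * inner ℂ (k z) δ +
      ∑ w ∈ s, c w * β z w * inner ℂ (k z) (y w)) = Ξ * inner ℂ g δ +
      ∑ z ∈ t, ∑ w ∈ s, conj (d z) * c w * (β z w * inner ℂ (k z) (y w)) := by
    rw [hgδ, Finset.mul_sum, ← Finset.sum_add_distrib]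
    refine Finset.sum_congr rfl fun z _ => ?_
    rw [mul_add, Finset.mul_sum]
    congr 1
    · ring
    · refine Finset.sum_congr rfl fun w _ => ?_
      ring
  rw [h5]
  have h6 : Tendsto (fun m => ‖Ξ * inner ℂ g δ + ∑ n ∈ Finset.range m, inner ℂ (Gn n) (Yn n)‖ ^ 2)
      atTop (𝓝 (‖Ξ * inner ℂ g δ +
        ∑ z ∈ t, ∑ w ∈ s, conj (d z) * c w * (β z w * inner ℂ (k z) (y w))‖ ^ 2)) :=
    ((h1.tendsto_sum_nat.const_add _).norm).pow 2
  refine le_of_tendsto' h6 fun m => ?_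
  refine (cs m Ξ (inner ℂ g δ) Gn Yn).trans ?_
  have h7 : ∑ n ∈ Finset.range m, ‖Yn n‖ ^ 2 ≤ Q :=
    sum_le_hasSum _ (fun n _ => by positivity) h2
  have h8 : ∑ n ∈ Finset.range m, ‖Gn n‖ ^ 2 ≤ ‖g‖ ^ 2 - ‖inner ℂ g δ‖ ^ 2 :=
    sum_le_hasSum _ (fun n _ => by positivity) h3
  have h9 : 0 ≤ ∑ n ∈ Finset.range m, ‖Yn n‖ ^ 2 := Finset.sum_nonneg fun n _ => by positivity
  refine mul_le_mul (by linarith) (by linarith)
    (add_nonneg (by positivity) (Finset.sum_nonneg fun n _ => by positivity)) ?_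
  have : 0 ≤ Q := h9.trans h7
  positivity

/-- bounds on the kernel functions are bounds everywhere -/
lemma norm_le_of_test {k : ι → Y} [CompleteSpace Y]
    (tot : ∀ f : Y, (∀ z, inner ℂ (k z) f = 0) → f = 0) (X : Y) (C : ℝ)
    (h : ∀ (t : Finset ι) (d : ι → ℂ), ‖inner ℂ (∑ z ∈ t, d z • k z) X‖ ^ 2 ≤
      C * ‖∑ z ∈ t, d z • k z‖ ^ 2) (hC : 0 ≤ C) : ‖X‖ ^ 2 ≤ C := by
  set K : Submodule ℂ Y := Submodule.span ℂ (Set.range k) with hK
  have htop : K.topologicalClosure = ⊤ := by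
    rw [Submodule.topologicalClosure_eq_top_iff, Submodule.eq_bot_iff]
    intro f hf
    refine tot f fun z => ?_
    exact (Submodule.mem_orthogonal K f).1 hf (k z) (Submodule.subset_span ⟨z, rfl⟩)
  have h1 : ∀ g ∈ K, ‖inner ℂ g X‖ ^ 2 ≤ C * ‖g‖ ^ 2 := by
    intro g hg
    rw [hK, Finsupp.mem_span_range_iff_exists_finsupp] at hg
    obtain ⟨c, rfl⟩ := hg
    exact h c.support c
  have h2 : IsClosed {g : Y | ‖inner ℂ g X‖ ^ 2 ≤ C * ‖g‖ ^ 2} :=
    isClosed_le (by fun_prop) (by fun_prop)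
  have h3 : (K.topologicalClosure : Set Y) ⊆ {g : Y | ‖inner ℂ g X‖ ^ 2 ≤ C * ‖g‖ ^ 2} := by
    rw [Submodule.topologicalClosure_coe]
    exact closure_minimal h1 h2
  have h4 : ‖inner ℂ X X‖ ^ 2 ≤ C * ‖X‖ ^ 2 := by
    apply h3
    rw [htop]
    trivial
  rw [inner_self_eq_norm_sq_to_K] at h4
  have h5 : ‖(((‖X‖ : ℝ) : ℂ)) ^ 2‖ = ‖X‖ ^ 2 := by
    rw [norm_pow, Complex.norm_real, norm_norm]
  change ‖(((‖X‖ : ℝ) : ℂ)) ^ 2‖ ^ 2 ≤ C * ‖X‖ ^ 2 at h4
  rw [h5] at h4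
  by_contra h6
  rw [not_le] at h6
  have h7 : 0 < ‖X‖ ^ 2 := hC.trans_lt h6
  nlinarith

lemma Data.row [CompleteSpace Y] (D : Data k δ b β) (ξ : ι → ℂ) (y x : ι → Y)
    (hx : ∀ z w, inner ℂ (k z) (x w) = ξ w * inner ℂ (k z) δ + β z w * inner ℂ (k z) (y w)) :
    Psd fun z w => conj (ξ z) * ξ w + β z w * inner ℂ (y z) (y w) - inner ℂ (x z) (x w) := by
  intro s c
  set X : Y := ∑ w ∈ s, c w • x w with hX
  set Ξ : ℂ := ∑ w ∈ s, c w * ξ w with hΞ
  set Q : ℝ := (∑ z ∈ s, ∑ w ∈ s, conj (c z) * c w * (β z w * inner ℂ (y z) (y w))).re with hQ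
  have hQ0 : 0 ≤ Q := (D.hasSum_sq s c y).nonneg fun _ => by positivity
  have h1 : ‖X‖ ^ 2 ≤ ‖Ξ‖ ^ 2 + Q := by
    refine norm_le_of_test D.tot X _ (fun t d => ?_) (by positivity)
    refine le_trans (le_of_eq ?_) (D.core s c y Ξ t d)
    congr 2
    rw [sum_inner]
    refine Finset.sum_congr rfl fun z _ => ?_
    rw [inner_smul_left, hX, inner_sum]
    congr 1
    have e1 : ∀ w, inner ℂ (k z) (c w • x w) = c w * ξ w * inner ℂ (k z) δ +
        c w * β z w * inner ℂ (k z) (y w) := by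
      intro w
      rw [inner_smul_right, hx]
      ring
    simp only [e1]
    rw [Finset.sum_add_distrib, ← Finset.sum_mul]
  have h2 : (∑ z ∈ s, ∑ w ∈ s, conj (c z) * c w *
      (conj (ξ z) * ξ w + β z w * inner ℂ (y z) (y w) - inner ℂ (x z) (x w))) =
      conj Ξ * Ξ + (∑ z ∈ s, ∑ w ∈ s, conj (c z) * c w * (β z w * inner ℂ (y z) (y w))) -
        inner ℂ X X := by
    rw [hX, ← gram_sum]
    have e1 : conj Ξ * Ξ = ∑ z ∈ s, ∑ w ∈ s, conj (c z) * c w * (conj (ξ z) * ξ w) := by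
      rw [hΞ, map_sum, Finset.sum_mul_sum]
      refine Finset.sum_congr rfl fun z _ => Finset.sum_congr rfl fun w _ => ?_
      rw [map_mul]
      ring
    rw [e1]
    simp only [mul_add, mul_sub, Finset.sum_add_distrib, Finset.sum_sub_distrib]
  have h3 : (inner ℂ X X).re = ‖X‖ ^ 2 := by
    rw [← RCLike.re_eq_complex_re]
    exact inner_self_eq_norm_sq X
  rw [h2, Complex.sub_re, Complex.add_re, mul_comm (conj Ξ), mul_conj_self, Complex.ofReal_re, h3]
  linarith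

/-! ### existence of functions and multiplication operators -/

lemma exists_of_bound [CompleteSpace Y] {k : ι → Y} (F : ι → ℂ) (C : ℝ) (hC : 0 ≤ C)
    (h : ∀ (t : Finset ι) (d : ι → ℂ), ‖∑ z ∈ t, d z * conj (F z)‖ ≤ C * ‖∑ z ∈ t, d z • k z‖) :
    ∃ x : Y, (∀ z, inner ℂ (k z) x = F z) ∧ ‖x‖ ≤ C := by
  set Φ : (ι →₀ ℂ) →ₗ[ℂ] Y := Finsupp.linearCombination ℂ k with hΦ
  set Ψ : (ι →₀ ℂ) →ₗ[ℂ] ℂ := Finsupp.linearCombination ℂ (fun z => conj (F z)) with hΨ
  have hb : ∀ c, ‖Ψ c‖ ≤ C * ‖Φ c‖ := fun c => h c.support c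
  have hker : LinearMap.ker Φ ≤ LinearMap.ker Ψ := by
    intro c hc
    rw [LinearMap.mem_ker] at hc ⊢
    have := hb c
    rw [hc, norm_zero, mul_zero] at this
    exact norm_le_zero_iff.1 this
  set L₀ : LinearMap.range Φ →ₗ[ℂ] ℂ :=
    (Submodule.liftQ (LinearMap.ker Φ) Ψ hker) ∘ₗ
      (Φ.quotKerEquivRange.symm : LinearMap.range Φ →ₗ[ℂ] ((ι →₀ ℂ) ⧸ LinearMap.ker Φ)) with hL₀
  have hL : ∀ (c : ι →₀ ℂ) (hc : Φ c ∈ LinearMap.range Φ), L₀ ⟨Φ c, hc⟩ = Ψ c := by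
    intro c hc
    rw [hL₀, LinearMap.comp_apply]
    have e1 : (Φ.quotKerEquivRange.symm : LinearMap.range Φ →ₗ[ℂ] _) ⟨Φ c, hc⟩ =
        (LinearMap.ker Φ).mkQ c := Φ.quotKerEquivRange_symm_apply_image c hc
    rw [e1]
    rfl
  have hbd : ∀ y : LinearMap.range Φ, ‖L₀ y‖ ≤ C * ‖y‖ := by
    intro y
    obtain ⟨c, hc⟩ := LinearMap.mem_range.1 y.2
    have e1 : y = ⟨Φ c, LinearMap.mem_range_self Φ c⟩ := Subtype.ext hc.symm
    rw [e1, hL]
    exact hb c
  set Lc : StrongDual ℂ (LinearMap.range Φ) := L₀.mkContinuous C hbd with hLc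
  obtain ⟨g, hg1, hg2⟩ := exists_extension_norm_eq (LinearMap.range Φ) Lc
  refine ⟨(InnerProductSpace.toDual ℂ Y).symm g, fun z => ?_, ?_⟩
  · have h1 : inner ℂ ((InnerProductSpace.toDual ℂ Y).symm g) (k z) = g (k z) := by
      rw [← InnerProductSpace.toDual_apply_apply, LinearIsometryEquiv.apply_symm_apply]
    have h2 : Φ (Finsupp.single z 1) = k z := by
      rw [hΦ, Finsupp.linearCombination_single, one_smul]
    have h3 : g (k z) = conj (F z) := by
      have h4 := hg1 ⟨Φ (Finsupp.single z 1), LinearMap.mem_range_self _ _⟩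
      have h5 : Lc ⟨Φ (Finsupp.single z 1), LinearMap.mem_range_self _ _⟩ = conj (F z) := by
        show L₀ _ = _
        rw [hL, hΨ, Finsupp.linearCombination_single, one_smul]
      rw [h5] at h4
      simp only at h4
      rw [h2] at h4
      exact h4
    rw [← inner_conj_symm, h1, h3, Complex.conj_conj]
  · rw [LinearIsometryEquiv.norm_map, hg2]
    exact L₀.mkContinuous_norm_le hC hbd

lemma exists_op {k : ι → Y} (tot : ∀ f : Y, (∀ z, inner ℂ (k z) f = 0) → f = 0) (a : ι → ℂ)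
    (C : ℝ) (hC : 0 ≤ C)
    (h : ∀ y, ∃ x : Y, (∀ z, inner ℂ (k z) x = a z * inner ℂ (k z) y) ∧ ‖x‖ ≤ C * ‖y‖) :
    ∃ M : Y →L[ℂ] Y, (∀ y z, inner ℂ (k z) (M y) = a z * inner ℂ (k z) y) ∧ ‖M‖ ≤ C := by
  choose M hM hM' using h
  have ext : ∀ x y : Y, (∀ z, inner ℂ (k z) x = inner ℂ (k z) y) → x = y := by
    intro x y hxy
    refine sub_eq_zero.1 (tot _ fun z => ?_)
    rw [inner_sub_right, hxy, sub_self]
  refine ⟨LinearMap.mkContinuous
    { toFun := M
      map_add' := fun x y => ext _ _ fun z => by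
        rw [hM, inner_add_right, inner_add_right, hM, hM, mul_add]
      map_smul' := fun c x => ext _ _ fun z => by
        rw [hM, RingHom.id_apply, inner_smul_right, inner_smul_right, hM]
        ring } C hM', hM, LinearMap.mkContinuous_norm_le _ hC _⟩

/-- multipliers from positive kernels -/
lemma exists_mult [CompleteSpace Y] {k : ι → Y}
    (tot : ∀ f : Y, (∀ z, inner ℂ (k z) f = 0) → f = 0) (a : ι → ℂ)
    (h : Psd fun z w => inner ℂ (k z) (k w) * (1 - a z * conj (a w))) :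
    ∃ M : Y →L[ℂ] Y, (∀ y z, inner ℂ (k z) (M y) = a z * inner ℂ (k z) y) ∧ ‖M‖ ≤ 1 := by
  have h1 : ∀ (s : Finset ι) (c : ι → ℂ),
      ‖∑ w ∈ s, (c w * conj (a w)) • k w‖ ≤ ‖∑ w ∈ s, c w • k w‖ := by
    intro s c
    have h2 := h s c
    have h3 : (∑ z ∈ s, ∑ w ∈ s, conj (c z) * c w *
        (inner ℂ (k z) (k w) * (1 - a z * conj (a w)))) =
        inner ℂ (∑ z ∈ s, c z • k z) (∑ w ∈ s, c w • k w) -
        inner ℂ (∑ z ∈ s, (c z * conj (a z)) • k z) (∑ w ∈ s, (c w * conj (a w)) • k w) := by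
      rw [← gram_sum, ← gram_sum s (fun z => c z * conj (a z)), ← Finset.sum_sub_distrib]
      refine Finset.sum_congr rfl fun z _ => ?_
      rw [← Finset.sum_sub_distrib]
      refine Finset.sum_congr rfl fun w _ => ?_
      rw [map_mul, Complex.conj_conj]
      ring
    have h4 : ∀ X : Y, (inner ℂ X X).re = ‖X‖ ^ 2 := by
      intro X
      rw [← RCLike.re_eq_complex_re]
      exact inner_self_eq_norm_sq X
    rw [h3, Complex.sub_re, h4, h4, sub_nonneg] at h2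
    exact le_of_sq_le_sq h2 (norm_nonneg _)
  refine exists_op tot a 1 zero_le_one fun y => ?_
  obtain ⟨x, hx1, hx2⟩ := exists_of_bound (k := k) (fun z => a z * inner ℂ (k z) y) (1 * ‖y‖)
    (by positivity) (fun t d => by
      have e1 : ∑ z ∈ t, d z * conj (a z * inner ℂ (k z) y) =
          inner ℂ y (∑ z ∈ t, (d z * conj (a z)) • k z) := by
        rw [inner_sum]
        refine Finset.sum_congr rfl fun z _ => ?_
        rw [map_mul, inner_smul_right, inner_conj_symm]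
        ring
      rw [e1, one_mul]
      refine (norm_inner_le_norm _ _).trans ?_
      gcongr
      exact h1 t d)
  exact ⟨x, hx1, hx2⟩

/-- multiplication by `β(·, w)` is a strict contraction -/
lemma Data.exists_T [CompleteSpace Y] (D : Data k δ b β) (w : ι) :
    ∃ T : Y →L[ℂ] Y, (∀ y z, inner ℂ (k z) (T y) = β z w * inner ℂ (k z) y) ∧ ‖T‖ < 1 := by
  obtain ⟨T, hT1, hT2⟩ := exists_op D.tot (fun z => β z w) (Real.sqrt (β w w).re)
    (Real.sqrt_nonneg _) (fun y => by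
      refine exists_of_bound (k := k) (fun z => β z w * inner ℂ (k z) y) _ (by positivity)
        (fun t d => ?_)
      have h1 := D.core {w} (fun _ => 1) (fun _ => y) 0 t d
      simp only [Finset.sum_singleton, map_one, one_mul, zero_mul, zero_add, norm_zero,
        ne_eq, OfNat.ofNat_ne_zero, not_false_eq_true, zero_pow] at h1
      have h2 : ‖∑ z ∈ t, d z * conj (β z w * inner ℂ (k z) y)‖ =
          ‖∑ z ∈ t, conj (d z) * (β z w * inner ℂ (k z) y)‖ := by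
        rw [← RCLike.norm_conj, map_sum]
        congr 1
        refine Finset.sum_congr rfl fun z _ => ?_
        rw [map_mul, Complex.conj_conj]
      have h3 : (β w w * inner ℂ y y).re = (β w w).re * ‖y‖ ^ 2 := by
        rw [D.self_im w, inner_self_eq_norm_sq_to_K, Complex.ofReal_re]
        have : ((β w w).re : ℂ) * (((‖y‖ : ℝ) : ℂ)) ^ 2 = (((β w w).re * ‖y‖ ^ 2 : ℝ) : ℂ) := by
          push_cast
          ring
        change (((β w w).re : ℂ) * (((‖y‖ : ℝ) : ℂ)) ^ 2).re = _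
        rw [this, Complex.ofReal_re]
      rw [h3] at h1
      rw [h2]
      refine le_of_sq_le_sq ?_ (by positivity)
      refine h1.trans_eq ?_
      rw [mul_pow, mul_pow, Real.sq_sqrt (D.re_nonneg w)])
  refine ⟨T, hT1, hT2.trans_lt ?_⟩
  rw [Real.sqrt_lt' one_pos, one_pow]
  exact D.re_lt w

end Pool.Agent.CycP.Pick
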