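import Pool.Agent.CycP.PickA

set_option autoImplicit false
set_option linter.unusedSectionVars false

/-! Complete Pick kernels, part B: every function is a quotient of multipliers. -/

open ComplexConjugate Filter Topology

noncomputable section

namespace Pool.Agent.CycP.Pick

variable {Y : Type} [NormedAddCommGroup Y] [InnerProductSpace ℂ Y] [CompleteSpace Y] {ι : Type}
variable {k : ι → Y} {δ : Y} {b : ℕ → ι → ℂ} {β : ι → ι → ℂ}

lemma ext_of_tot {k : ι → Y} (tot : ∀ f : Y, (∀ z, inner ℂ (k z) f = 0) → f = 0) {x y : Y}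
    (hxy : ∀ z, inner ℂ (k z) x = inner ℂ (k z) y) : x = y := by
  refine sub_eq_zero.1 (tot _ fun z => ?_)
  rw [inner_sub_right, hxy, sub_self]

lemma exists_resolvent (T : Y →L[ℂ] Y) (h : ‖T‖ < 1) :
    ∃ U : Y →L[ℂ] Y, ∀ y, U y - T (U y) = y := by
  refine ⟨((Units.oneSub T h)⁻¹ : (Y →L[ℂ] Y)ˣ), fun y => ?_⟩
  have h1 : ((Units.oneSub T h : (Y →L[ℂ] Y)ˣ) : Y →L[ℂ] Y) *
      ((Units.oneSub T h)⁻¹ : (Y →L[ℂ] Y)ˣ) = 1 := Units.mul_inv _
  have h2 := congrArg (fun M : Y →L[ℂ] Y => M y) h1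
  simp only [Units.val_oneSub] at h2
  exact h2

lemma re_self (X : Y) : (inner ℂ X X : ℂ).re = ‖X‖ ^ 2 := by
  rw [← RCLike.re_eq_complex_re]
  exact inner_self_eq_norm_sq X

lemma psd_of_eq {N N' : ι → ι → ℂ} (h : Psd N) (hN : ∀ z w, N z w = N' z w) : Psd N' := by
  have h1 : N = N' := funext fun z => funext fun w => hN z w
  exact h1 ▸ h

lemma psd_K_of (D : Data k δ b β) {N : ι → ι → ℂ} (x : ι → Y)
    (h : Psd fun z w => N z w - (1 - β z w) * inner ℂ (x z) (x w)) :
    Psd fun z w => inner ℂ (k z) (k w) * N z w := by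
  have h1 := ((Psd.mul_S D h).add (psd_gram x)).scale fun z => inner ℂ (k z) δ
  refine psd_of_eq h1 fun z w => ?_
  have h2 := D.one_sub_ne z w
  have h3 : inner ℂ (k z) (k w) = inner ℂ (k z) δ * conj (inner ℂ (k w) δ) * (1 - β z w)⁻¹ := by
    rw [← D.hK z w, mul_assoc, mul_inv_cancel₀ h2, mul_one]
  rw [h3]
  field_simp
  ring

/-- the factorisation for unit vectors -/
lemma factor_unit (D : Data k δ b β) (f : Y) (hf : ‖f‖ = 1) :
    ∃ (Mu Mv : Y →L[ℂ] Y) (u v : ι → ℂ), (∀ y z, inner ℂ (k z) (Mu y) = u z * inner ℂ (k z) y) ∧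
      (∀ y z, inner ℂ (k z) (Mv y) = v z * inner ℂ (k z) y) ∧ ‖Mv‖ ≤ 1 ∧ (∀ z, v z ≠ 1) ∧
      Mu δ = f - Mv f := by
  choose T hT hT1 using D.exists_T
  choose U hU using fun w => exists_resolvent (T w) (hT1 w)
  set g : ι → Y := fun w => U w f with hg
  have hgT : ∀ w, T w (g w) = g w - f := fun w => by
    have := hU w f
    rw [← this]
    show T w (g w) = g w - (g w - T w (g w))
    abel
  have hff : inner ℂ f f = (1 : ℂ) := by
    rw [inner_self_eq_norm_sq_to_K, hf]
    norm_num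
  set φ : ι → ℂ := fun w => inner ℂ (g w) f with hφ
  have hφc : ∀ w, inner ℂ f (g w) = conj (φ w) := fun w => (inner_conj_symm _ _).symm
  have hN1 : Psd fun z w => (φ z + conj (φ w) - 1) - (1 - β z w) * inner ℂ (g z) (g w) := by
    have h1 := D.row (fun _ => 0) g (fun w => T w (g w)) (fun z w => by
      rw [hT, zero_mul, zero_add])
    refine psd_of_eq h1 fun z w => ?_
    rw [hgT, hgT, inner_sub_left, inner_sub_right, inner_sub_right, hff, hφc]
    simp only [hφ, map_zero, mul_zero, zero_add]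
    ring
  have hφ0 : ∀ w, φ w ≠ 0 := by
    intro w h0
    have h1 := hN1 {w} fun _ => 1
    simp only [Finset.sum_singleton, map_one, one_mul] at h1
    rw [h0, map_zero, D.self_im w, Complex.sub_re, add_zero, zero_sub] at h1
    have h2 : ((1 - ((β w w).re : ℂ)) * inner ℂ (g w) (g w)).re =
        (1 - (β w w).re) * ‖g w‖ ^ 2 := by
      have : (1 - ((β w w).re : ℂ)) = ((1 - (β w w).re : ℝ) : ℂ) := by push_cast; ring
      rw [this, Complex.re_ofReal_mul, re_self]
    rw [h2, Complex.neg_re, Complex.one_re] at h1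
    have h3 : 0 ≤ (1 - (β w w).re) * ‖g w‖ ^ 2 :=
      mul_nonneg (by linarith [D.re_lt w]) (by positivity)
    linarith
  -- the multiplier v
  set v : ι → ℂ := fun z => 1 - (φ z)⁻¹ with hv
  have hPv : Psd fun z w => inner ℂ (k z) (k w) * (1 - v z * conj (v w)) := by
    have h1 := (psd_K_of D g hN1).scale fun z => (φ z)⁻¹
    refine psd_of_eq h1 fun z w => ?_
    have h2 := hφ0 z
    have h3 : conj (φ w) ≠ 0 := (map_ne_zero _).2 (hφ0 w)
    simp only [hv, map_sub, map_one, map_inv₀]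
    field_simp
    ring
  obtain ⟨Mv, hMv, hMv1⟩ := exists_mult D.tot v hPv
  -- the multiplier u
  set u : ι → ℂ := fun w => inner ℂ (k w) f / (inner ℂ (k w) δ * φ w) with hu
  set s' : ι → Y := fun w => (conj (inner ℂ (k w) δ))⁻¹ • k w with hs'
  have hs : ∀ w, T w (s' w) = s' w - δ := by
    intro w
    refine ext_of_tot D.tot fun z => ?_
    rw [hT, inner_sub_right, hs', inner_smul_right]
    have h3 : conj (inner ℂ (k w) δ) ≠ 0 := (map_ne_zero _).2 (D.hδ w)
    have h4 := D.hK z w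
    field_simp
    linear_combination -h4
  set η : ι → Y := fun w => s' w - conj (u w) • g w with hη
  have hηT : ∀ w, δ + T w (η w) = η w + conj (u w) • f := by
    intro w
    have e1 : T w (η w) = T w (s' w) - conj (u w) • T w (g w) := by
      rw [← map_smul, ← map_sub]
    have e2 : η w = s' w - conj (u w) • g w := rfl
    rw [e1, e2, hs, hgT, smul_sub]
    abel
  have hfη : ∀ w, inner ℂ f (η w) = 0 := by
    intro w
    have e1 : inner ℂ f (η w) = (conj (inner ℂ (k w) δ))⁻¹ * inner ℂ f (k w) -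
        conj (u w) * inner ℂ f (g w) := by
      rw [← inner_smul_right, ← inner_smul_right, ← inner_sub_right]
    rw [e1, hφc]
    have h3 : conj (inner ℂ (k w) δ) ≠ 0 := (map_ne_zero _).2 (D.hδ w)
    have h5 : conj (φ w) ≠ 0 := (map_ne_zero _).2 (hφ0 w)
    simp only [hu, map_div₀, map_mul, inner_conj_symm]
    field_simp
    ring
  have hηf : ∀ w, inner ℂ (η w) f = 0 := fun w => by
    rw [← inner_conj_symm, hfη, map_zero]
  have hN4 : Psd fun z w => (1 - u z * conj (u w)) - (1 - β z w) * inner ℂ (η z) (η w) := by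
    have h1 := D.row (fun _ => 1) η (fun w => δ + T w (η w)) (fun z w => by
      rw [inner_add_right, hT, one_mul])
    refine psd_of_eq h1 fun z w => ?_
    rw [hηT, hηT, inner_add_left, inner_add_right, inner_add_right, inner_smul_left,
      inner_smul_left, inner_smul_right, inner_smul_right, hff, hfη, hηf, Complex.conj_conj,
      map_one]
    ring
  obtain ⟨Mu, hMu, -⟩ := exists_mult D.tot u (psd_K_of D η hN4)
  refine ⟨Mu, Mv, u, v, hMu, hMv, hMv1, fun z hz => ?_, ext_of_tot D.tot fun z => ?_⟩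
  · have h1 : (φ z)⁻¹ = 0 := by
      simp only [hv] at hz
      linear_combination -hz
    exact hφ0 z (inv_eq_zero.1 h1)
  · rw [hMu, inner_sub_right, hMv]
    simp only [hv, hu]
    have h1 := hφ0 z
    have h2 := D.hδ z
    field_simp
    ring

/-- every function is `δ u / (1 - v)` with multipliers `u`, `v`, `‖M_v‖ ≤ 1` -/
lemma factor (D : Data k δ b β) (f : Y) :
    ∃ (Mu Mv : Y →L[ℂ] Y) (u v : ι → ℂ), (∀ y z, inner ℂ (k z) (Mu y) = u z * inner ℂ (k z) y) ∧
      (∀ y z, inner ℂ (k z) (Mv y) = v z * inner ℂ (k z) y) ∧ ‖Mv‖ ≤ 1 ∧ (∀ z, v z ≠ 1) ∧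
      Mu δ = f - Mv f := by
  by_cases hf : f = 0
  · refine ⟨0, 0, fun _ => 0, fun _ => 0, fun y z => by simp, fun y z => by simp, by simp,
      fun z => zero_ne_one, by simp [hf]⟩
  · have hn : ‖f‖ ≠ 0 := norm_ne_zero_iff.2 hf
    obtain ⟨Mu, Mv, u, v, h1, h2, h3, h4, h5⟩ := factor_unit D (((‖f‖ : ℂ))⁻¹ • f) (by
      rw [norm_smul, norm_inv, Complex.norm_real, norm_norm]
      exact inv_mul_cancel₀ hn)
    have hn' : ((‖f‖ : ℝ) : ℂ) ≠ 0 := by exact_mod_cast hn
    refine ⟨((‖f‖ : ℝ) : ℂ) • Mu, Mv, fun z => ((‖f‖ : ℝ) : ℂ) * u z, v, fun y z => ?_, h2, h3, h4,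
      ?_⟩
    · rw [smul_apply, inner_smul_right, h1]
      ring
    · rw [smul_apply, h5, map_smul, smul_sub, smul_smul, smul_smul,
        mul_inv_cancel₀ hn', one_smul, one_smul]

end Pool.Agent.CycP.Pick
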