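import Pool.Agent.CycP.PickB

set_option autoImplicit false
set_option linter.unusedSectionVars false

/-! Complete Pick kernels, part C: quotients and the closed subspaces invariant under all
multiplication operators. -/

open ComplexConjugate Filter Topology

noncomputable section

namespace Pool.Agent.CycP.Pick

variable {Y : Type} [NormedAddCommGroup Y] [InnerProductSpace ℂ Y] [CompleteSpace Y] {ι : Type}
variable {k : ι → Y} {δ : Y} {b : ℕ → ι → ℂ} {β : ι → ι → ℂ}

/-- `M` is multiplication by some function -/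
def IsMul (k : ι → Y) (M : Y →L[ℂ] Y) : Prop :=
  ∃ a : ι → ℂ, ∀ y z, inner ℂ (k z) (M y) = a z * inner ℂ (k z) y

lemma IsMul.comp {M M' : Y →L[ℂ] Y} (h : IsMul k M) (h' : IsMul k M') : IsMul k (M.comp M') := by
  obtain ⟨a, ha⟩ := h
  obtain ⟨a', ha'⟩ := h'
  refine ⟨fun z => a z * a' z, fun y z => ?_⟩
  rw [ContinuousLinearMap.comp_apply, ha, ha', mul_assoc]

lemma IsMul.add {M M' : Y →L[ℂ] Y} (h : IsMul k M) (h' : IsMul k M') : IsMul k (M + M') := by
  obtain ⟨a, ha⟩ := h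
  obtain ⟨a', ha'⟩ := h'
  refine ⟨fun z => a z + a' z, fun y z => ?_⟩
  rw [add_apply, inner_add_right, ha, ha', add_mul]

lemma IsMul.smul {M : Y →L[ℂ] Y} (h : IsMul k M) (c : ℂ) : IsMul k (c • M) := by
  obtain ⟨a, ha⟩ := h
  refine ⟨fun z => c * a z, fun y z => ?_⟩
  rw [smul_apply, inner_smul_right, ha, mul_assoc]

lemma isMul_id : IsMul k (ContinuousLinearMap.id ℂ Y) :=
  ⟨fun _ => 1, fun y z => by rw [ContinuousLinearMap.id_apply, one_mul]⟩

lemma isMul_zero : IsMul k (0 : Y →L[ℂ] Y) :=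
  ⟨fun _ => 0, fun y z => by simp⟩

lemma IsMul.comm (tot : ∀ f : Y, (∀ z, inner ℂ (k z) f = 0) → f = 0) {M M' : Y →L[ℂ] Y}
    (h : IsMul k M) (h' : IsMul k M') (y : Y) : M (M' y) = M' (M y) := by
  obtain ⟨a, ha⟩ := h
  obtain ⟨a', ha'⟩ := h'
  refine ext_of_tot tot fun z => ?_
  rw [ha, ha', ha', ha]
  ring

/-- the closed subspace spanned by the multiples of `g` -/
def multSpan (k : ι → Y) (g : Y) : Submodule ℂ Y :=
  Submodule.topologicalClosure
    { carrier := {x | ∃ M : Y →L[ℂ] Y, IsMul k M ∧ x = M g}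
      add_mem' := by
        rintro _ _ ⟨M, hM, rfl⟩ ⟨M', hM', rfl⟩
        exact ⟨M + M', hM.add hM', rfl⟩
      zero_mem' := ⟨0, isMul_zero, rfl⟩
      smul_mem' := by
        rintro c _ ⟨M, hM, rfl⟩
        exact ⟨c • M, hM.smul c, rfl⟩ }

lemma multSpan_closed (k : ι → Y) (g : Y) : IsClosed (multSpan k g : Set Y) :=
  Submodule.isClosed_topologicalClosure _

lemma mem_multSpan_iff {g x : Y} :
    x ∈ multSpan k g ↔ x ∈ closure {x | ∃ M : Y →L[ℂ] Y, IsMul k M ∧ x = M g} := Iff.rfl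

lemma IsMul.mem {M : Y →L[ℂ] Y} (hM : IsMul k M) (g : Y) : M g ∈ multSpan k g :=
  subset_closure ⟨M, hM, rfl⟩

lemma self_mem (g : Y) : g ∈ multSpan k g := isMul_id.mem g

/-- invariance under all multiplication operators -/
def Inv (k : ι → Y) (N : Submodule ℂ Y) : Prop :=
  ∀ M : Y →L[ℂ] Y, IsMul k M → ∀ x ∈ N, M x ∈ N

lemma multSpan_inv (g : Y) : Inv k (multSpan k g) := by
  intro M hM x hx
  rw [mem_multSpan_iff] at hx ⊢
  have h1 : M '' closure {x | ∃ M : Y →L[ℂ] Y, IsMul k M ∧ x = M g} ⊆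
      closure {x | ∃ M : Y →L[ℂ] Y, IsMul k M ∧ x = M g} := by
    refine (image_closure_subset_closure_image M.continuous).trans (closure_mono ?_)
    rintro _ ⟨_, ⟨M', hM', rfl⟩, rfl⟩
    exact ⟨M.comp M', hM.comp hM', rfl⟩
  exact h1 ⟨x, hx, rfl⟩

lemma multSpan_le {N : Submodule ℂ Y} (hN : IsClosed (N : Set Y)) (hI : Inv k N) {g : Y}
    (hg : g ∈ N) : multSpan k g ≤ N := by
  intro x hx
  rw [mem_multSpan_iff] at hx
  have h1 : closure {x | ∃ M : Y →L[ℂ] Y, IsMul k M ∧ x = M g} ⊆ (N : Set Y) := by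
    refine closure_minimal ?_ hN
    rintro _ ⟨M, hM, rfl⟩
    exact hI M hM g hg
  exact h1 hx

/-- weak limits -/
lemma weak_mem (tot : ∀ f : Y, (∀ z, inner ℂ (k z) f = 0) → f = 0) {N : Submodule ℂ Y}
    (hN : IsClosed (N : Set Y)) {x : ℕ → Y} (hx : ∀ n, x n ∈ N) {C : ℝ} (hC : ∀ n, ‖x n‖ ≤ C)
    {G : Y} (hl : ∀ z, Tendsto (fun n => inner ℂ (k z) (x n)) atTop (𝓝 (inner ℂ (k z) G))) :
    G ∈ N := by
  have hC0 : 0 ≤ C := (norm_nonneg _).trans (hC 0)
  set K : Submodule ℂ Y := Submodule.span ℂ (Set.range k) with hK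
  have htop : K.topologicalClosure = ⊤ := by
    rw [Submodule.topologicalClosure_eq_top_iff, Submodule.eq_bot_iff]
    intro f hf
    refine tot f fun z => ?_
    exact (Submodule.mem_orthogonal K f).1 hf (k z) (Submodule.subset_span ⟨z, rfl⟩)
  have h1 : ∀ y ∈ K, Tendsto (fun n => inner ℂ y (x n)) atTop (𝓝 (inner ℂ y G)) := by
    intro y hy
    induction hy using Submodule.span_induction with
    | mem y hy =>
      obtain ⟨z, rfl⟩ := hy
      exact hl z
    | zero => simp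
    | add y y' _ _ h h' =>
      simp only [inner_add_left]
      exact h.add h'
    | smul c y _ h =>
      simp only [inner_smul_left]
      exact h.const_mul _
  have h2 : ∀ y : Y, Tendsto (fun n => inner ℂ y (x n)) atTop (𝓝 (inner ℂ y G)) := by
    intro y
    rw [Metric.tendsto_atTop]
    intro ε hε
    have hy : y ∈ K.topologicalClosure := by rw [htop]; trivial
    obtain ⟨y', hy', hd⟩ := Metric.mem_closure_iff.1 hy (ε / (3 * (C + ‖G‖ + 1))) (by positivity)
    obtain ⟨m, hm⟩ := Metric.tendsto_atTop.1 (h1 y' hy') (ε / 3) (by positivity)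
    refine ⟨m, fun n hn => ?_⟩
    have h3 := hm n hn
    rw [dist_eq_norm] at hd h3 ⊢
    have h4 : ∀ u : Y, ‖u‖ ≤ C + ‖G‖ + 1 → ‖inner ℂ (y - y') u‖ ≤ ε / 3 := by
      intro u hu
      refine (norm_inner_le_norm _ _).trans ?_
      refine (mul_le_mul hd.le hu (norm_nonneg _) (by positivity)).trans (le_of_eq ?_)
      have : C + ‖G‖ + 1 ≠ 0 := by positivity
      field_simp
    have h5 : inner ℂ y (x n) - inner ℂ y G = inner ℂ (y - y') (x n) +
        (inner ℂ y' (x n) - inner ℂ y' G) - inner ℂ (y - y') G := by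
      rw [inner_sub_left, inner_sub_left]
      ring
    rw [h5]
    have h6 := norm_sub_le (inner ℂ (y - y') (x n) + (inner ℂ y' (x n) - inner ℂ y' G))
      (inner ℂ (y - y') G)
    have h7 := norm_add_le (inner ℂ (y - y') (x n)) (inner ℂ y' (x n) - inner ℂ y' G)
    have h8 := h4 (x n) (by have := hC n; have := norm_nonneg G; linarith)
    have h9 := h4 G (by linarith)
    linarith
  have h3 : G ∈ Nᗮᗮ := by
    rw [Submodule.mem_orthogonal]
    intro y hy
    have h4 : (fun n => inner ℂ y (x n)) = fun _ => (0 : ℂ) := by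
      funext n
      rw [Submodule.mem_orthogonal'] at hy
      exact hy _ (hx n)
    have h5 := h2 y
    rw [h4] at h5
    exact tendsto_nhds_unique h5 tendsto_const_nhds
  rw [Submodule.orthogonal_orthogonal_eq_closure] at h3
  have h4 : (G : Y) ∈ closure (N : Set Y) := h3
  rwa [hN.closure_eq] at h4

/-- `1 - v` is cyclic when `v` is a contractive multiplier -/
lemma mem_of_one_sub (tot : ∀ f : Y, (∀ z, inner ℂ (k z) f = 0) → f = 0)
    (hk : ∀ z, k z ≠ 0) {Mv : Y →L[ℂ] Y} {v : ι → ℂ}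
    (hMv : ∀ y z, inner ℂ (k z) (Mv y) = v z * inner ℂ (k z) y) (hv : ‖Mv‖ ≤ 1)
    (hv1 : ∀ z, v z ≠ 1) {N : Submodule ℂ Y} (hN : IsClosed (N : Set Y)) (hI : Inv k N) {G : Y}
    (hG : G - Mv G ∈ N) : G ∈ N := by
  -- the values of `v` are bounded by one
  have hvz : ∀ z, ‖v z‖ ≤ 1 := by
    intro z
    have h1 := hMv (k z) z
    have h2 : ‖v z‖ * ‖k z‖ ^ 2 ≤ ‖k z‖ ^ 2 := by
      have h3 : ‖inner ℂ (k z) (Mv (k z))‖ ≤ ‖k z‖ * (1 * ‖k z‖) :=
        (norm_inner_le_norm _ _).trans (by gcongr; exact Mv.le_of_opNorm_le hv _)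
      rw [h1, norm_mul, inner_self_eq_norm_sq_to_K] at h3
      have h4 : ‖(((‖k z‖ : ℝ) : ℂ)) ^ 2‖ = ‖k z‖ ^ 2 := by
        rw [norm_pow, Complex.norm_real, norm_norm]
      change ‖v z‖ * ‖(((‖k z‖ : ℝ) : ℂ)) ^ 2‖ ≤ _ at h3
      rw [h4] at h3
      nlinarith
    have h5 : 0 < ‖k z‖ ^ 2 := by
      have := norm_pos_iff.2 (hk z)
      positivity
    by_contra h6
    rw [not_le] at h6
    nlinarith
  set r : ℕ → ℝ := fun n => 1 - 1 / ((n : ℝ) + 1) with hr
  have hr0 : ∀ n, 0 ≤ r n := by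
    intro n
    simp only [hr]
    have : 1 / ((n : ℝ) + 1) ≤ 1 := by
      rw [div_le_one (by positivity)]
      have : (0 : ℝ) ≤ n := Nat.cast_nonneg n
      linarith
    linarith
  have hr1 : ∀ n, r n < 1 := by
    intro n
    simp only [hr]
    have : 0 < 1 / ((n : ℝ) + 1) := by positivity
    linarith
  have hrl : Tendsto r atTop (𝓝 1) := by
    have h1 := (tendsto_one_div_add_atTop_nhds_zero_nat (𝕜 := ℝ)).const_sub 1
    rw [sub_zero] at h1
    exact h1
  have hrv : ∀ n z, 1 - (r n : ℂ) * v z ≠ 0 := by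
    intro n z h0
    have h1 : ‖(r n : ℂ) * v z‖ < 1 := by
      rw [norm_mul, Complex.norm_real, Real.norm_eq_abs, abs_of_nonneg (hr0 n)]
      have := hvz z
      have := hr1 n
      have := hr0 n
      nlinarith [norm_nonneg (v z)]
    rw [← sub_eq_zero.1 h0, norm_one] at h1
    exact lt_irrefl _ h1
  choose U hU using fun n => exists_resolvent ((r n : ℂ) • Mv) (by
    rw [norm_smul, Complex.norm_real, Real.norm_eq_abs, abs_of_nonneg (hr0 n)]
    have := hr1 n
    have := hr0 n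
    nlinarith [norm_nonneg Mv])
  simp only [smul_apply] at hU
  have hUm : ∀ n y z, inner ℂ (k z) (U n y) = (1 - (r n : ℂ) * v z)⁻¹ * inner ℂ (k z) y := by
    intro n y z
    have h1 := congrArg (fun x => inner ℂ (k z) x) (hU n y)
    simp only [inner_sub_right, inner_smul_right, hMv] at h1
    have h2 := hrv n z
    rw [← h1]
    field_simp
  have hUn : ∀ n y, (1 - r n) * ‖U n y‖ ≤ ‖y‖ := by
    intro n y
    have h1 : ‖U n y‖ - ‖(r n : ℂ) • Mv (U n y)‖ ≤ ‖y‖ := by
      conv_rhs => rw [← hU n y]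
      exact norm_sub_norm_le _ _
    have h2 : ‖(r n : ℂ) • Mv (U n y)‖ ≤ r n * ‖U n y‖ := by
      rw [norm_smul, Complex.norm_real, Real.norm_eq_abs, abs_of_nonneg (hr0 n)]
      refine mul_le_mul_of_nonneg_left ?_ (hr0 n)
      simpa using Mv.le_of_opNorm_le hv (U n y)
    linarith
  refine weak_mem tot hN (x := fun n => U n (G - Mv G)) (fun n => ?_) (C := 2 * ‖G‖)
    (fun n => ?_) fun z => ?_
  · exact hI (U n) ⟨_, hUm n⟩ _ hG
  · have h1 : U n (G - Mv G) = G - ((1 - r n : ℝ) : ℂ) • U n (Mv G) := by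
      refine ext_of_tot tot fun z => ?_
      have h2 := hrv n z
      rw [hUm, inner_sub_right, inner_sub_right, inner_smul_right, hUm, hMv]
      push_cast
      field_simp
      ring
    rw [h1]
    refine (norm_sub_le _ _).trans ?_
    rw [norm_smul, Complex.norm_real, Real.norm_eq_abs, abs_of_nonneg (by linarith [hr1 n])]
    have h3 := hUn n (Mv G)
    have h4 : ‖Mv G‖ ≤ 1 * ‖G‖ := Mv.le_of_opNorm_le hv G
    linarith
  · simp only [hUm, inner_sub_right, hMv]
    have h1 : Tendsto (fun n => (1 - (r n : ℂ) * v z)⁻¹) atTop (𝓝 (1 - ((1 : ℝ) : ℂ) * v z)⁻¹) := by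
      refine Tendsto.inv₀ ?_ ?_
      · refine Tendsto.const_sub _ (Tendsto.mul_const _ ?_)
        exact (Complex.continuous_ofReal.tendsto 1).comp hrl
      · rw [Complex.ofReal_one, one_mul]
        exact sub_ne_zero.2 (hv1 z).symm
    have h2 := h1.mul_const (inner ℂ (k z) G - v z * inner ℂ (k z) G)
    have h3 : (1 - ((1 : ℝ) : ℂ) * v z)⁻¹ * (inner ℂ (k z) G - v z * inner ℂ (k z) G) =
        inner ℂ (k z) G := by
      rw [Complex.ofReal_one, one_mul]
      have : 1 - v z ≠ 0 := sub_ne_zero.2 (hv1 z).symm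
      field_simp
    rw [h3] at h2
    exact h2

lemma Data.k_ne (D : Data k δ b β) (z : ι) : k z ≠ 0 := by
  intro h
  apply D.hδ z
  rw [h, inner_zero_left]

/-- the main step: if `F g = G ψ` with `ψ` cyclic then `G` is in the invariant subspace of `g` -/
theorem Data.mem_multSpan (D : Data k δ b β) {ψ g F G : Y} (hψ : multSpan k ψ = ⊤)
    (h : ∀ z, inner ℂ (k z) F * inner ℂ (k z) g = inner ℂ (k z) G * inner ℂ (k z) ψ)
    (hψ0 : ∀ z, inner ℂ (k z) ψ ≠ 0) : G ∈ multSpan k g := by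
  obtain ⟨A1, V1, u1, v1, hA1, hV1, hn1, hv1, he1⟩ := factor D F
  obtain ⟨A2, V2, u2, v2, hA2, hV2, hn2, hv2, he2⟩ := factor D ψ
  obtain ⟨A3, V3, u3, v3, hA3, hV3, hn3, hv3, he3⟩ := factor D G
  have mA1 : IsMul k A1 := ⟨_, hA1⟩
  have mA2 : IsMul k A2 := ⟨_, hA2⟩
  have mA3 : IsMul k A3 := ⟨_, hA3⟩
  have mV1 : IsMul k V1 := ⟨_, hV1⟩
  have mV2 : IsMul k V2 := ⟨_, hV2⟩
  have mV3 : IsMul k V3 := ⟨_, hV3⟩
  set N := multSpan k g with hNdef
  have hN : IsClosed (N : Set Y) := multSpan_closed k g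
  have hI : Inv k N := multSpan_inv g
  have hg : g ∈ N := self_mem g
  -- `M_{u2} G` is in the subspace
  have s1 : A2 G ∈ N := by
    refine mem_of_one_sub D.tot D.k_ne hV1 hn1 hv1 hN hI ?_
    have e1 : A2 G - V1 (A2 G) = A1 (g - V2 g) := by
      refine ext_of_tot D.tot fun z => ?_
      have f1 := congrArg (fun x => inner ℂ (k z) x) he1
      have f2 := congrArg (fun x => inner ℂ (k z) x) he2
      simp only [inner_sub_right, hA1, hV1, hA2, hV2] at f1 f2
      rw [inner_sub_right, hV1, hA2, hA1, inner_sub_right, hV2]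
      have h1 := h z
      have h2 := D.hδ z
      have h3 := hψ0 z
      refine mul_left_cancel₀ h2 (mul_left_cancel₀ h3 ?_)
      linear_combination (1 - v1 z) * inner ℂ (k z) G * inner ℂ (k z) ψ * f2 -
        (1 - v2 z) * inner ℂ (k z) g * inner ℂ (k z) ψ * f1 -
        (1 - v1 z) * (1 - v2 z) * inner ℂ (k z) ψ * h1
    rw [e1]
    exact hI A1 mA1 _ (N.sub_mem hg (hI V2 mV2 g hg))
  -- `M_{u3} M_{u2} δ` is in the subspace
  have s2 : A3 (A2 δ) ∈ N := by
    have e1 : A3 (A2 δ) = A2 G - V3 (A2 G) := by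
      rw [mA3.comm D.tot mA2, he3, map_sub, mA2.comm D.tot mV3]
    rw [e1]
    exact N.sub_mem s1 (hI V3 mV3 _ s1)
  -- `M_{u2} δ` is cyclic
  have s3 : multSpan k (A2 δ) = ⊤ := by
    rw [eq_top_iff, ← hψ]
    refine multSpan_le (multSpan_closed k _) (multSpan_inv _) ?_
    refine mem_of_one_sub D.tot D.k_ne hV2 hn2 hv2 (multSpan_closed k _) (multSpan_inv _) ?_
    rw [← he2]
    exact self_mem _
  -- `M_{u3} δ` is in the subspace
  have s4 : A3 δ ∈ N := by
    have h1 : δ ∈ multSpan k (A2 δ) := by rw [s3]; trivial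
    rw [mem_multSpan_iff] at h1
    have h2 : A3 '' closure {x | ∃ M : Y →L[ℂ] Y, IsMul k M ∧ x = M (A2 δ)} ⊆ (N : Set Y) := by
      refine (image_closure_subset_closure_image A3.continuous).trans (closure_minimal ?_ hN)
      rintro _ ⟨_, ⟨M, hM, rfl⟩, rfl⟩
      rw [mA3.comm D.tot hM]
      exact hI M hM _ s2
    exact h2 ⟨δ, h1, rfl⟩
  refine mem_of_one_sub D.tot D.k_ne hV3 hn3 hv3 hN hI ?_
  rw [← he3]
  exact s4

end Pool.Agent.CycP.Pick
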