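import Pool.Agent.CycP.Mul

set_option autoImplicit false
set_option linter.unusedSectionVars false

/-! Spaces in which homogeneous polynomials of different degrees are orthogonal: closed
shift-invariant subspaces are invariant under all multipliers. -/

open ComplexConjugate Filter Topology

noncomputable section

namespace Pool.Agent.CycP

/-! ### the window inequality -/

section window

variable {Y : Type} [NormedAddCommGroup Y] [InnerProductSpace ℂ Y]

/-- indicator of the windows that contain `j` -/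
def chi (N m j : ℕ) : ℝ := if j ≤ m ∧ m < j + N then 1 else 0

lemma chi_sq (N m j : ℕ) : chi N m j * chi N m j = chi N m j := by
  unfold chi
  split_ifs <;> simp

lemma sum_chi {N J j : ℕ} (hj : j < J) : ∑ m ∈ Finset.range (J + N), chi N m j = N := by
  unfold chi
  rw [← Finset.sum_filter, Finset.sum_const, nsmul_eq_mul, mul_one]
  have h1 : (Finset.range (J + N)).filter (fun m => j ≤ m ∧ m < j + N) = Finset.Ico j (j + N) := by
    ext m
    simp only [Finset.mem_filter, Finset.mem_range, Finset.mem_Ico]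
    omega
  rw [h1, Nat.card_Ico]
  simp

lemma sum_chi_mul {N J j l : ℕ} (hj : j < J) (hl : l ≤ j) :
    ∑ m ∈ Finset.range (J + N), chi N m j * chi N m l = ((N - (j - l) : ℕ) : ℝ) := by
  have h0 : ∀ m, chi N m j * chi N m l = if j ≤ m ∧ m < l + N then 1 else 0 := by
    intro m
    unfold chi
    by_cases h1 : j ≤ m ∧ m < j + N
    · by_cases h2 : l ≤ m ∧ m < l + N
      · rw [if_pos h1, if_pos h2, if_pos ⟨h1.1, h2.2⟩, one_mul]
      · rw [if_pos h1, if_neg h2, if_neg (by omega), mul_zero]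
    · rw [if_neg h1, zero_mul, if_neg]
      rintro ⟨h2, h3⟩
      exact h1 ⟨h2, by omega⟩
  simp only [h0]
  rw [← Finset.sum_filter, Finset.sum_const, nsmul_eq_mul, mul_one]
  have h1 : (Finset.range (J + N)).filter (fun m => j ≤ m ∧ m < l + N) = Finset.Ico j (l + N) := by
    ext m
    simp only [Finset.mem_filter, Finset.mem_range, Finset.mem_Ico]
    omega
  rw [h1, Nat.card_Ico]
  congr 1
  omega

lemma norm_sq_sum {p : ℕ → Y} (hp : ∀ i j, i ≠ j → inner ℂ (p i) (p j) = 0) (J : ℕ)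
    (a : ℕ → ℝ) :
    ‖∑ j ∈ Finset.range J, (a j : ℂ) • p j‖ ^ 2 = ∑ j ∈ Finset.range J, a j * a j * ‖p j‖ ^ 2 := by
  have h1 : (‖∑ j ∈ Finset.range J, (a j : ℂ) • p j‖ ^ 2 : ℝ) =
      (inner ℂ (∑ j ∈ Finset.range J, (a j : ℂ) • p j)
        (∑ j ∈ Finset.range J, (a j : ℂ) • p j) : ℂ).re := by
    rw [← RCLike.re_eq_complex_re]
    exact (inner_self_eq_norm_sq _).symm
  rw [h1, sum_inner, Complex.re_sum]
  refine Finset.sum_congr rfl fun i hi => ?_
  rw [inner_sum, Finset.sum_eq_single i]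
  · rw [inner_smul_left, inner_smul_right, Complex.conj_ofReal, inner_self_eq_norm_sq_to_K]
    have : (a i : ℂ) * ((a i : ℂ) * ((‖p i‖ : ℝ) : ℂ) ^ 2) = ((a i * a i * ‖p i‖ ^ 2 : ℝ) : ℂ) := by
      push_cast
      ring
    change ((a i : ℂ) * ((a i : ℂ) * ((‖p i‖ : ℝ) : ℂ) ^ 2)).re = _
    rw [this, Complex.ofReal_re]
  · intro j _ hji
    rw [inner_smul_left, inner_smul_right, hp i j hji.symm, mul_zero, mul_zero]
  · intro h
    exact absurd hi h

lemma sum_window {p : ℕ → Y} (hp : ∀ i j, i ≠ j → inner ℂ (p i) (p j) = 0) (N J : ℕ) :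
    ∑ m ∈ Finset.range (J + N), ‖∑ j ∈ Finset.range J, (chi N m j : ℂ) • p j‖ ^ 2 =
      N * ‖∑ j ∈ Finset.range J, p j‖ ^ 2 := by
  have h1 : ‖∑ j ∈ Finset.range J, p j‖ ^ 2 = ∑ j ∈ Finset.range J, ‖p j‖ ^ 2 := by
    have := norm_sq_sum hp J fun _ => 1
    simp only [Complex.ofReal_one, one_smul, one_mul] at this
    exact this
  simp only [norm_sq_sum hp, chi_sq]
  rw [Finset.sum_comm, h1, Finset.mul_sum]
  refine Finset.sum_congr rfl fun j hj => ?_
  rw [← Finset.sum_mul, sum_chi (Finset.mem_range.1 hj)]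

/-- the window inequality (Fejer kernels are positive) -/
lemma window_ineq {p r : ℕ → Y} (hp : ∀ i j, i ≠ j → inner ℂ (p i) (p j) = 0)
    (hr : ∀ i j, i ≠ j → inner ℂ (r i) (r j) = 0) (N J : ℕ) (M : Y →L[ℂ] Y) (c : ℕ → ℕ → ℂ)
    (hc : ∀ j < J, ∀ l < J, c j l = ((∑ m ∈ Finset.range (J + N), chi N m j * chi N m l : ℝ) : ℂ) *
      inner ℂ (p j) (M (r l))) :
    ‖∑ j ∈ Finset.range J, ∑ l ∈ Finset.range J, c j l‖ ≤
      N * ‖M‖ * ‖∑ j ∈ Finset.range J, p j‖ * ‖∑ j ∈ Finset.range J, r j‖ := by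
  set Wp : ℕ → Y := fun m => ∑ j ∈ Finset.range J, (chi N m j : ℂ) • p j with hWp
  set Wr : ℕ → Y := fun m => ∑ j ∈ Finset.range J, (chi N m j : ℂ) • r j with hWr
  have h1 : ∑ j ∈ Finset.range J, ∑ l ∈ Finset.range J, c j l =
      ∑ m ∈ Finset.range (J + N), inner ℂ (Wp m) (M (Wr m)) := by
    have e1 : ∀ m, inner ℂ (Wp m) (M (Wr m)) = ∑ j ∈ Finset.range J, ∑ l ∈ Finset.range J,
        ((chi N m j * chi N m l : ℝ) : ℂ) * inner ℂ (p j) (M (r l)) := by
      intro m
      simp only [hWp, hWr]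
      rw [map_sum, sum_inner]
      refine Finset.sum_congr rfl fun j _ => ?_
      rw [inner_sum]
      refine Finset.sum_congr rfl fun l _ => ?_
      rw [map_smul, inner_smul_left, inner_smul_right, Complex.conj_ofReal]
      push_cast
      ring
    simp only [e1]
    rw [Finset.sum_comm (s := Finset.range (J + N))]
    refine Finset.sum_congr rfl fun j hj => ?_
    rw [Finset.sum_comm (s := Finset.range (J + N))]
    refine Finset.sum_congr rfl fun l hl => ?_
    rw [hc j (Finset.mem_range.1 hj) l (Finset.mem_range.1 hl), ← Finset.sum_mul]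
    push_cast
    ring
  rw [h1]
  have h2 : ‖∑ m ∈ Finset.range (J + N), inner ℂ (Wp m) (M (Wr m))‖ ≤
      ∑ m ∈ Finset.range (J + N), ‖M‖ * (‖Wp m‖ * ‖Wr m‖) := by
    refine (norm_sum_le _ _).trans (Finset.sum_le_sum fun m _ => ?_)
    refine (norm_inner_le_norm _ _).trans ?_
    have := M.le_opNorm (Wr m)
    calc ‖Wp m‖ * ‖M (Wr m)‖ ≤ ‖Wp m‖ * (‖M‖ * ‖Wr m‖) := by gcongr
      _ = _ := by ring
  refine h2.trans ?_
  rw [← Finset.mul_sum]
  have h3 := Real.sum_mul_le_sqrt_mul_sqrt (Finset.range (J + N)) (fun m => ‖Wp m‖) fun m => ‖Wr m‖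
  simp only [hWp, hWr] at h3
  rw [sum_window hp, sum_window hr, Real.sqrt_mul (Nat.cast_nonneg N),
    Real.sqrt_mul (Nat.cast_nonneg N), Real.sqrt_sq (norm_nonneg _),
    Real.sqrt_sq (norm_nonneg _)] at h3
  have h4 : Real.sqrt N * Real.sqrt N = N := Real.mul_self_sqrt (Nat.cast_nonneg N)
  calc ‖M‖ * ∑ m ∈ Finset.range (J + N), ‖Wp m‖ * ‖Wr m‖
      ≤ ‖M‖ * (Real.sqrt N * ‖∑ j ∈ Finset.range J, p j‖ *
        (Real.sqrt N * ‖∑ j ∈ Finset.range J, r j‖)) := by
        refine mul_le_mul_of_nonneg_left h3 (norm_nonneg _)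
    _ = (Real.sqrt N * Real.sqrt N) * ‖M‖ * ‖∑ j ∈ Finset.range J, p j‖ *
        ‖∑ j ∈ Finset.range J, r j‖ := by ring
    _ = _ := by rw [h4]

end window

end Pool.Agent.CycP
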