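import Pool.Agent.CycP.PickC
import Pool.Agent.CycP.PickD

set_option autoImplicit false
set_option linter.unusedSectionVars false

/-! Spaces in which homogeneous polynomials of different degrees are orthogonal: every multiple
`h g`, `h` a multiplier, is in the closed shift-invariant subspace generated by `g`. -/

open ComplexConjugate Filter Topology

noncomputable section

namespace Pool.Agent.CycP

namespace AnSpace

variable {d : ℕ} {Ω : Set (Fin d → ℂ)} {Y : Type} [NormedAddCommGroup Y] [InnerProductSpace ℂ Y]

/-- homogeneous polynomials of different degrees are orthogonal -/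
def Graded (B : AnSpace d Ω Y) : Prop :=
  ∀ (j l : ℕ) (P Q : MvPolynomial (Fin d) ℂ), P.IsHomogeneous j → Q.IsHomogeneous l → j ≠ l →
    inner ℂ (B.poly P) (B.poly Q) = 0

/-- the inclusion of the polynomials as a linear map -/
def polyL (B : AnSpace d Ω Y) : MvPolynomial (Fin d) ℂ →ₗ[ℂ] Y where
  toFun := B.poly
  map_add' P Q := by
    apply B.fn_ext
    intro w hw
    rw [map_add, Pi.add_apply, B.fn_poly _ w hw, B.fn_poly _ w hw, B.fn_poly _ w hw, map_add]
  map_smul' c P := by
    apply B.fn_ext
    intro w hw
    rw [RingHom.id_apply, map_smul, Pi.smul_apply, B.fn_poly _ w hw, B.fn_poly _ w hw,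
      MvPolynomial.smul_eval, smul_eq_mul]

lemma polyL_apply (B : AnSpace d Ω Y) (P : MvPolynomial (Fin d) ℂ) : B.polyL P = B.poly P := rfl

/-- the homogeneous polynomials of degree `l` -/
def hom (B : AnSpace d Ω Y) (l : ℕ) : Submodule ℂ Y :=
  (MvPolynomial.homogeneousSubmodule (Fin d) ℂ l).map B.polyL

instance (B : AnSpace d Ω Y) (l : ℕ) : FiniteDimensional ℂ (B.hom l) := by
  have h1 : FiniteDimensional ℂ (MvPolynomial.homogeneousSubmodule (Fin d) ℂ l) :=
    Module.Finite.iff_fg.2 (MvPolynomial.homogeneousSubmodule_fg (Fin d) ℂ l)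
  unfold hom
  infer_instance

lemma mem_hom {B : AnSpace d Ω Y} {l : ℕ} {x : Y} :
    x ∈ B.hom l ↔ ∃ P : MvPolynomial (Fin d) ℂ, P.IsHomogeneous l ∧ B.poly P = x := Iff.rfl

/-- the component of degree `l` -/
def comp (B : AnSpace d Ω Y) (l : ℕ) : Y →L[ℂ] Y := (B.hom l).starProjection

lemma comp_mem (B : AnSpace d Ω Y) (l : ℕ) (x : Y) :
    ∃ P : MvPolynomial (Fin d) ℂ, P.IsHomogeneous l ∧ B.poly P = B.comp l x :=
  mem_hom.1 ((B.hom l).starProjection_apply_mem x)

lemma poly_sum_comp (B : AnSpace d Ω Y) (P : MvPolynomial (Fin d) ℂ) {J : ℕ}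
    (hJ : P.totalDegree < J) :
    ∑ j ∈ Finset.range J, B.poly (MvPolynomial.homogeneousComponent j P) = B.poly P := by
  have h1 : ∑ j ∈ Finset.range J, MvPolynomial.homogeneousComponent j P = P := by
    conv_rhs => rw [← MvPolynomial.sum_homogeneousComponent P]
    symm
    apply Finset.sum_subset
    · intro j hj
      rw [Finset.mem_range] at hj ⊢
      omega
    · intro j _ hj
      rw [Finset.mem_range] at hj
      exact MvPolynomial.homogeneousComponent_eq_zero j P (by omega)
  conv_rhs => rw [← h1]
  simp only [← B.polyL_apply]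
  rw [map_sum]

lemma Graded.comp_poly {B : AnSpace d Ω Y} (hG : B.Graded) (l : ℕ)
    (P : MvPolynomial (Fin d) ℂ) :
    B.comp l (B.poly P) = B.poly (MvPolynomial.homogeneousComponent l P) := by
  unfold comp
  refine Submodule.eq_starProjection_of_mem_of_inner_eq_zero (K := B.hom l) ?_ fun y hy => ?_
  · exact mem_hom.2 ⟨_, MvPolynomial.homogeneousComponent_isHomogeneous l P, rfl⟩
  · obtain ⟨Q, hQ, rfl⟩ := mem_hom.1 hy
    rw [inner_sub_left, ← B.poly_sum_comp P (J := max P.totalDegree l + 1) (by omega), sum_inner,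
      Finset.sum_eq_single l, sub_self]
    · intro j _ hj
      exact hG j l _ _ (MvPolynomial.homogeneousComponent_isHomogeneous j P) hQ hj
    · intro h
      rw [Finset.mem_range] at h
      omega

/-- a property of all elements may be checked on the polynomials -/
lemma ext_poly (B : AnSpace d Ω Y) {E : Type} [TopologicalSpace E] [T2Space E] {f g : Y → E}
    (hf : Continuous f) (hg : Continuous g) (h : ∀ P, f (B.poly P) = g (B.poly P)) (x : Y) :
    f x = g x := by
  have := B.poly_dense.equalizer hf hg (funext h)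
  exact congrFun this x

lemma Graded.inner_mul {B : AnSpace d Ω Y} (hG : B.Graded) {j l : ℕ}
    {P R : MvPolynomial (Fin d) ℂ} (hP : P.IsHomogeneous j) (hR : R.IsHomogeneous l)
    {M : Y →L[ℂ] Y} (hM : ∀ x, ∀ w ∈ Ω, B.fn (M x) w = MvPolynomial.eval w R * B.fn x w) (x : Y) :
    inner ℂ (B.poly P) (M x) =
      if l ≤ j then inner ℂ (B.poly P) (M (B.comp (j - l) x)) else 0 := by
  have key : ∀ H : MvPolynomial (Fin d) ℂ, inner ℂ (B.poly P) (M (B.poly H)) =
      if l ≤ j then inner ℂ (B.poly P) (M (B.poly (MvPolynomial.homogeneousComponent (j - l) H)))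
        else 0 := by
    intro H
    have h1 : ∀ i ≠ j - l, inner ℂ (B.poly P)
        (M (B.poly (MvPolynomial.homogeneousComponent i H))) = 0 ∨ i + l = j := by
      intro i _
      by_cases h : i + l = j
      · exact Or.inr h
      · left
        rw [B.mul_poly hM]
        refine hG j (l + i) _ _ hP
          (hR.mul (MvPolynomial.homogeneousComponent_isHomogeneous i H)) (by omega)
    rw [← B.poly_sum_comp H (J := max H.totalDegree (j - l) + 1) (by omega), map_sum, inner_sum]
    split_ifs with hlj
    · rw [Finset.sum_eq_single (j - l)]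
      · intro i _ hi
        rcases h1 i hi with h2 | h2
        · exact h2
        · omega
      · intro h
        rw [Finset.mem_range] at h
        omega
    · refine Finset.sum_eq_zero fun i _ => ?_
      rw [B.mul_poly hM]
      exact hG j (l + i) _ _ hP
        (hR.mul (MvPolynomial.homogeneousComponent_isHomogeneous i H)) (by omega)
  split_ifs with hlj
  · refine B.ext_poly (f := fun x => inner ℂ (B.poly P) (M x))
      (g := fun x => inner ℂ (B.poly P) (M (B.comp (j - l) x))) (by fun_prop) (by fun_prop)
      (fun H => ?_) x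
    rw [key H, if_pos hlj, hG.comp_poly]
  · refine B.ext_poly (f := fun x => inner ℂ (B.poly P) (M x)) (g := fun _ => (0 : ℂ))
      (by fun_prop) (by fun_prop) (fun H => ?_) x
    rw [key H, if_neg hlj]

end AnSpace

end Pool.Agent.CycP
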