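import Pool.Agent.CycP.PickF

set_option autoImplicit false
set_option linter.unusedSectionVars false

/-! Complete Pick spaces have (CP). -/

open ComplexConjugate Filter Topology

noncomputable section

namespace Pool.Agent.CycP

namespace AnSpace

variable {d : ℕ} {Ω : Set (Fin d → ℂ)} {Y : Type} [NormedAddCommGroup Y] [InnerProductSpace ℂ Y]

/-- `Y` is a complete Pick space: `Y` has the reproducing kernel
`K(z, w) = δ(z) * conj δ(w) / (1 - ∑ n, b n z * conj (b n w))`, with a function `δ ∈ Y` without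
zeros in `Ω`. The vector `k w ∈ Y` is the function `K(·, w)`. -/
def CompletePick (B : AnSpace d Ω Y) : Prop :=
  ∃ (k : (Fin d → ℂ) → Y) (δ : Y) (b : ℕ → (Fin d → ℂ) → ℂ)
    (β : (Fin d → ℂ) → (Fin d → ℂ) → ℂ),
    (∀ w ∈ Ω, ∀ f : Y, inner ℂ (k w) f = B.fn f w) ∧ (∀ z ∈ Ω, B.fn δ z ≠ 0) ∧
    ∀ z ∈ Ω, ∀ w ∈ Ω, HasSum (fun n => b n z * conj (b n w)) (β z w) ∧
      B.fn (k w) z * (1 - β z w) = B.fn δ z * conj (B.fn δ w)

/-- The norm of `Y` is rotation invariant: for `|c| = 1` the map `f ↦ f (c ·)` is an isometry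
of `Y`. -/
def RotInvariant (B : AnSpace d Ω Y) : Prop :=
  ∀ c : ℂ, ‖c‖ = 1 → (∀ z ∈ Ω, c • z ∈ Ω) ∧
    ∀ f : Y, ∃ x : Y, (∀ z ∈ Ω, B.fn x z = B.fn f (c • z)) ∧ ‖x‖ = ‖f‖

lemma eval_smul_hom {P : MvPolynomial (Fin d) ℂ} {j : ℕ} (hP : P.IsHomogeneous j) (c : ℂ)
    (z : Fin d → ℂ) : MvPolynomial.eval (c • z) P = c ^ j * MvPolynomial.eval z P := by
  rw [MvPolynomial.eval_eq, MvPolynomial.eval_eq, Finset.mul_sum]
  refine Finset.sum_congr rfl fun s hs => ?_
  have h1 := hP.degree_eq_sum_deg_support hs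
  rw [h1, Finset.prod_congr rfl fun i _ => show (c • z) i ^ s i = c ^ s i * z i ^ s i by
    rw [Pi.smul_apply, smul_eq_mul, mul_pow], Finset.prod_mul_distrib, Finset.prod_pow_eq_pow_sum]
  ring

lemma RotInvariant.graded {B : AnSpace d Ω Y} (hR : B.RotInvariant) : B.Graded := by
  intro j l P Q hP hQ hjl
  have hjl' : ((l : ℂ) - j) ≠ 0 := by
    rw [sub_ne_zero]
    exact_mod_cast hjl.symm
  set θ : ℝ := Real.pi / ((l : ℝ) - j) with hθ
  set c : ℂ := Complex.exp (θ * Complex.I) with hc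
  have hc1 : ‖c‖ = 1 := Complex.norm_exp_ofReal_mul_I θ
  obtain ⟨hΩ, hU⟩ := hR c hc1
  choose U hU1 hU2 using hU
  -- `U` is a linear isometry
  let Ul : Y →ₗᵢ[ℂ] Y :=
    { toFun := U
      map_add' := fun x y => by
        apply B.fn_ext
        intro w hw
        rw [hU1 _ w hw, map_add, map_add, Pi.add_apply, Pi.add_apply, hU1 _ w hw, hU1 _ w hw]
      map_smul' := fun a x => by
        apply B.fn_ext
        intro w hw
        rw [hU1 _ w hw, RingHom.id_apply, map_smul, map_smul, Pi.smul_apply, Pi.smul_apply,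
          hU1 _ w hw]
      norm_map' := hU2 }
  have hpoly : ∀ (i : ℕ) (R : MvPolynomial (Fin d) ℂ), R.IsHomogeneous i →
      Ul (B.poly R) = c ^ i • B.poly R := by
    intro i R hR
    apply B.fn_ext
    intro w hw
    rw [map_smul, Pi.smul_apply, smul_eq_mul, B.fn_poly _ w hw]
    show B.fn (U (B.poly R)) w = _
    rw [hU1 _ w hw, B.fn_poly _ _ (hΩ w hw), eval_smul_hom hR]
  have h1 := Ul.inner_map_map (B.poly P) (B.poly Q)
  rw [hpoly j P hP, hpoly l Q hQ, inner_smul_left, inner_smul_right, ← mul_assoc] at h1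
  have h2 : conj (c ^ j) * c ^ l = -1 := by
    rw [map_pow, hc, ← Complex.exp_conj, ← Complex.exp_nat_mul, ← Complex.exp_nat_mul,
      ← Complex.exp_add, ← Complex.exp_pi_mul_I]
    congr 1
    rw [map_mul, Complex.conj_ofReal, Complex.conj_I, hθ]
    push_cast
    field_simp
    ring
  rw [h2] at h1
  have h3 : (2 : ℂ) * inner ℂ (B.poly P) (B.poly Q) = 0 := by linear_combination -h1
  exact (mul_eq_zero.1 h3).resolve_left two_ne_zero

/-- the kernel data on `Ω` -/
lemma CompletePick.exists_data {B : AnSpace d Ω Y} (h : B.CompletePick) :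
    ∃ (k : Ω → Y) (δ : Y) (b : ℕ → Ω → ℂ) (β : Ω → Ω → ℂ), Pick.Data k δ b β ∧
      ∀ (w : Ω) (f : Y), inner ℂ (k w) f = B.fn f w := by
  obtain ⟨k, δ, b, β, h1, h2, h3⟩ := h
  refine ⟨fun w => k w, δ, fun n w => b n w, fun z w => β z w, ⟨?_, ?_, ?_, ?_⟩,
    fun w f => h1 w w.2 f⟩
  · intro f hf
    apply B.fn_inj
    intro w hw
    have := hf ⟨w, hw⟩
    rw [h1 w hw] at this
    exact this
  · exact fun z w => (h3 z z.2 w w.2).1
  · intro z
    rw [h1 z z.2]
    exact h2 z z.2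
  · intro z w
    rw [h1 z z.2, h1 z z.2, h1 w w.2]
    exact (h3 z z.2 w w.2).2

/-- Complete Pick spaces in which multiplier-cyclic functions are shift-cyclic have (CP). -/
theorem CompletePick.cp [CompleteSpace Y] {B : AnSpace d Ω Y} (hB : B.CompletePick)
    (hmc : ∀ g, B.MultCyclic g → B.Cyclic g) : B.CP := by
  obtain ⟨k, δ, b, β, D, hk⟩ := hB.exists_data
  intro e Ω' X _ _ _ A φ ψ T hψ hT f hf
  apply hmc
  set g : Y := T f with hg
  -- multiplication operators are multipliers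
  have hmul : ∀ M : Y →L[ℂ] Y, Pick.IsMul k M →
      ∃ h, B.IsMultiplier h ∧ ∀ y, ∀ w ∈ Ω, B.fn (M y) w = h w * B.fn y w := by
    classical
    rintro M ⟨a, ha⟩
    have h1 : ∀ y, ∀ w ∈ Ω, B.fn (M y) w =
        (fun w => if hw : w ∈ Ω then a ⟨w, hw⟩ else 0) w * B.fn y w := by
      intro y w hw
      have := ha y ⟨w, hw⟩
      rw [hk, hk] at this
      simp only [dif_pos hw]
      exact this
    exact ⟨_, fun y => ⟨M y, h1 y⟩, h1⟩
  -- polynomials are multiplication operators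
  have hpol : ∀ P : MvPolynomial (Fin d) ℂ, ∃ M : Y →L[ℂ] Y, Pick.IsMul k M ∧
      ∀ y, ∀ w ∈ Ω, B.fn (M y) w = MvPolynomial.eval w P * B.fn y w := by
    intro P
    obtain ⟨M, hM⟩ := B.exists_mul P
    refine ⟨M, ⟨fun w => MvPolynomial.eval (w : Fin d → ℂ) P, fun y w => ?_⟩, hM⟩
    rw [hk, hk]
    exact hM y w w.2
  have horb : ∀ y, closure (B.orbit y) ⊆ (Pick.multSpan k y : Set Y) := by
    intro y
    refine closure_minimal ?_ (Pick.multSpan_closed k y)
    rintro x ⟨P, hP⟩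
    obtain ⟨M, hM1, hM2⟩ := hpol P
    have : x = M y := B.fn_ext fun w hw => by rw [hP w hw, hM2 y w hw]
    rw [this]
    exact hM1.mem y
  have hψtop : Pick.multSpan k ψ = ⊤ := by
    rw [Submodule.eq_top_iff']
    intro y
    apply horb
    rw [hψ]
    trivial
  have hψ0 : ∀ w ∈ Ω, B.fn ψ w ≠ 0 := by
    intro w hw
    have := B.cyclic_ext_ne_zero hψ (B.subset_maxDomain hw)
    rwa [B.ext_of_mem hw] at this
  have hT1 : T (A.poly 1) = ψ := by
    apply B.fn_ext
    intro w hw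
    have h4 := hT (A.poly 1) ⟨w, B.subset_maxDomain hw⟩
    simp only at h4
    obtain ⟨L, hL⟩ := (φ ⟨w, B.subset_maxDomain hw⟩).2
    rw [A.ext_eq hL, hL 1, B.ext_of_mem hw, B.ext_of_mem hw] at h4
    simpa using h4
  -- the main step
  have h1 : ∀ x ∈ A.orbit f, T x ∈ Pick.multSpan k g := by
    rintro x ⟨P, hP⟩
    refine D.mem_multSpan (F := T (A.poly P)) hψtop (fun w => ?_) fun w => ?_
    · rw [hk, hk, hk, hk]
      have hw := w.2
      have h2 := hT (A.poly P) ⟨w, B.subset_maxDomain hw⟩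
      have h3 := hT x ⟨w, B.subset_maxDomain hw⟩
      have h4 := hT f ⟨w, B.subset_maxDomain hw⟩
      simp only at h2 h3 h4
      have h5 := A.ext_mul (φ ⟨w, B.subset_maxDomain hw⟩).2 hP
      obtain ⟨L, hL⟩ := (φ ⟨w, B.subset_maxDomain hw⟩).2
      rw [A.ext_eq hL, hL P, B.ext_of_mem hw, B.ext_of_mem hw] at h2
      rw [B.ext_of_mem hw, B.ext_of_mem hw] at h3 h4
      rw [h2, h3, hg, h4, h5]
      ring
    · rw [hk]
      exact hψ0 w w.2
  have h2 : ψ ∈ Pick.multSpan k g := by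
    have h3 : T '' closure (A.orbit f) ⊆ (Pick.multSpan k g : Set Y) := by
      refine (image_closure_subset_closure_image T.continuous).trans
        (closure_minimal ?_ (Pick.multSpan_closed k g))
      rintro _ ⟨x, hx, rfl⟩
      exact h1 x hx
    rw [← hT1]
    apply h3
    refine ⟨A.poly 1, ?_, rfl⟩
    rw [hf]
    trivial
  have h3 : Pick.multSpan k g = ⊤ := by
    rw [eq_top_iff, ← hψtop]
    exact Pick.multSpan_le (Pick.multSpan_closed k g) (Pick.multSpan_inv g) h2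
  -- multiplier-cyclicity
  unfold MultCyclic
  rw [Set.eq_univ_iff_forall]
  intro y
  have h4 : y ∈ Pick.multSpan k g := by rw [h3]; trivial
  rw [Pick.mem_multSpan_iff] at h4
  refine closure_mono ?_ h4
  rintro _ ⟨M, hM, rfl⟩
  obtain ⟨h, hh1, hh2⟩ := hmul M hM
  exact ⟨h, hh1, hh2 g⟩

end AnSpace

end Pool.Agent.CycP
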