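import Pool.Agent.CycP.PickG

set_option autoImplicit false
set_option linter.unusedSectionVars false

/-! Unitarily invariant complete Pick kernels `K(z, w) = 1 / (1 - ∑ c n * ⟨z, w⟩ ^ n)`. -/

open ComplexConjugate Filter Topology

noncomputable section

namespace Pool.Agent.CycP

namespace AnSpace

variable {d : ℕ} {Ω : Set (Fin d → ℂ)} {Y : Type} [NormedAddCommGroup Y] [InnerProductSpace ℂ Y]

/-- the sesquilinear form of `ℂ^d` -/
def sq (z w : Fin d → ℂ) : ℂ := ∑ j, z j * conj (w j)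

lemma sq_smul (a : ℂ) (z w : Fin d → ℂ) : sq (a • z) w = a * sq z w := by
  unfold sq
  rw [Finset.mul_sum]
  refine Finset.sum_congr rfl fun j _ => ?_
  rw [Pi.smul_apply, smul_eq_mul, mul_assoc]

lemma sq_smul_smul {a : ℂ} (ha : ‖a‖ = 1) (z w : Fin d → ℂ) : sq (a • z) (a • w) = sq z w := by
  unfold sq
  refine Finset.sum_congr rfl fun j _ => ?_
  rw [Pi.smul_apply, Pi.smul_apply, smul_eq_mul, smul_eq_mul, map_mul]
  have h1 : a * conj a = 1 := by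
    rw [Pick.mul_conj_self, ha]
    norm_num
  linear_combination (z j * conj (w j)) * h1

/-- the reproducing kernel of `Y` is `1 / (1 - ∑ c n * ⟨z, w⟩ ^ n)` with `c n ≥ 0` -/
def UnitaryPick (B : AnSpace d Ω Y) : Prop :=
  (∀ a : ℂ, ‖a‖ = 1 → ∀ z ∈ Ω, a • z ∈ Ω) ∧
  ∃ (k : (Fin d → ℂ) → Y) (c : ℕ → ℝ), (∀ w ∈ Ω, ∀ f : Y, inner ℂ (k w) f = B.fn f w) ∧
    (∀ n, 0 ≤ c n) ∧ (∀ z ∈ Ω, Summable fun n => c n * (∑ j, ‖z j‖ ^ 2) ^ n) ∧
    ∀ z ∈ Ω, ∀ w ∈ Ω, B.fn (k w) z * (1 - ∑' n, c n * sq z w ^ n) = 1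

/-- a kernel that depends on `⟨z, w⟩` only is rotation invariant -/
lemma rotInvariant_of_kernel [CompleteSpace Y] {B : AnSpace d Ω Y} {k : (Fin d → ℂ) → Y}
    (hk : ∀ w ∈ Ω, ∀ f : Y, inner ℂ (k w) f = B.fn f w)
    (hΩ : ∀ a : ℂ, ‖a‖ = 1 → ∀ z ∈ Ω, a • z ∈ Ω)
    (hK : ∀ a : ℂ, ‖a‖ = 1 → ∀ z ∈ Ω, ∀ w ∈ Ω, B.fn (k (a • w)) (a • z) = B.fn (k w) z) :
    B.RotInvariant := by
  -- contractions
  have key : ∀ a : ℂ, ‖a‖ = 1 → ∀ f : Y, ∃ x : Y, (∀ z ∈ Ω, B.fn x z = B.fn f (a • z)) ∧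
      ‖x‖ ≤ ‖f‖ := by
    intro a ha f
    have hn : ∀ (t : Finset Ω) (e : Ω → ℂ), ‖∑ z ∈ t, e z • k (a • (z : Fin d → ℂ))‖ =
        ‖∑ z ∈ t, e z • k z‖ := by
      intro t e
      have h1 : ∀ X : Y, ‖X‖ ^ 2 = (inner ℂ X X).re := by
        intro X
        rw [← RCLike.re_eq_complex_re]
        exact (inner_self_eq_norm_sq X).symm
      have h2 : ‖∑ z ∈ t, e z • k (a • (z : Fin d → ℂ))‖ ^ 2 = ‖∑ z ∈ t, e z • k z‖ ^ 2 := by
        rw [h1, h1, ← Pick.gram_sum t e (fun z : Ω => k (a • (z : Fin d → ℂ))),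
          ← Pick.gram_sum t e (fun z : Ω => k (z : Fin d → ℂ))]
        congr 1
        refine Finset.sum_congr rfl fun z _ => Finset.sum_congr rfl fun w _ => ?_
        rw [hk _ (hΩ a ha z z.2), hk _ z.2, hK a ha z z.2 w w.2]
      have h3 := congrArg Real.sqrt h2
      rwa [Real.sqrt_sq (norm_nonneg _), Real.sqrt_sq (norm_nonneg _)] at h3
    obtain ⟨x, hx1, hx2⟩ := Pick.exists_of_bound (k := fun z : Ω => k (z : Fin d → ℂ))
      (fun z => B.fn f (a • (z : Fin d → ℂ))) ‖f‖ (norm_nonneg f) (fun t e => by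
        have e1 : ∑ z ∈ t, e z * conj (B.fn f (a • (z : Fin d → ℂ))) =
            inner ℂ f (∑ z ∈ t, e z • k (a • (z : Fin d → ℂ))) := by
          rw [inner_sum]
          refine Finset.sum_congr rfl fun z _ => ?_
          rw [inner_smul_right, ← hk _ (hΩ a ha z z.2), inner_conj_symm]
        rw [e1, ← hn t e]
        exact norm_inner_le_norm _ _)
    refine ⟨x, fun z hz => ?_, hx2⟩
    rw [← hk z hz]
    exact hx1 ⟨z, hz⟩
  intro a ha
  refine ⟨hΩ a ha, fun f => ?_⟩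
  obtain ⟨x, hx1, hx2⟩ := key a ha f
  have ha' : ‖conj a‖ = 1 := by rw [RCLike.norm_conj, ha]
  obtain ⟨x', hx1', hx2'⟩ := key (conj a) ha' x
  have h1 : conj a * a = 1 := by
    rw [mul_comm, Pick.mul_conj_self, ha]
    norm_num
  have h2 : x' = f := by
    apply B.fn_ext
    intro z hz
    rw [hx1' z hz, hx1 _ (hΩ _ ha' z hz), smul_smul, mul_comm a, h1, one_smul]
  rw [h2] at hx2'
  exact ⟨x, hx1, le_antisymm hx2 hx2'⟩

lemma norm_sq_le (z w : Fin d → ℂ) :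
    ∑ j, ‖z j‖ * ‖w j‖ ≤ max (∑ j, ‖z j‖ ^ 2) (∑ j, ‖w j‖ ^ 2) := by
  have h1 : ∑ j, ‖z j‖ * ‖w j‖ ≤ ∑ j, (‖z j‖ ^ 2 + ‖w j‖ ^ 2) / 2 := by
    refine Finset.sum_le_sum fun j _ => ?_
    nlinarith [sq_nonneg (‖z j‖ - ‖w j‖)]
  rw [← Finset.sum_div, Finset.sum_add_distrib] at h1
  have h2 := le_max_left (∑ j, ‖z j‖ ^ 2) (∑ j, ‖w j‖ ^ 2)
  have h3 := le_max_right (∑ j, ‖z j‖ ^ 2) (∑ j, ‖w j‖ ^ 2)
  linarith

/-- the expansion over words -/
lemma hasSum_words {c : ℕ → ℝ} (hc : ∀ n, 0 ≤ c n) {z w : Fin d → ℂ}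
    (hz : Summable fun n => c n * (∑ j, ‖z j‖ ^ 2) ^ n)
    (hw : Summable fun n => c n * (∑ j, ‖w j‖ ^ 2) ^ n) :
    HasSum (fun i : Σ n : ℕ, (Fin n → Fin d) =>
      ((Real.sqrt (c i.1) : ℂ) * ∏ j, z (i.2 j)) * conj ((Real.sqrt (c i.1) : ℂ) * ∏ j, w (i.2 j)))
      (∑' n, c n * sq z w ^ n) := by
  have hterm : ∀ i : Σ n : ℕ, (Fin n → Fin d),
      ((Real.sqrt (c i.1) : ℂ) * ∏ j, z (i.2 j)) * conj ((Real.sqrt (c i.1) : ℂ) * ∏ j, w (i.2 j)) =
        (c i.1 : ℂ) * ∏ j, (z (i.2 j) * conj (w (i.2 j))) := by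
    intro i
    have h1 : (Real.sqrt (c i.1) : ℂ) * (Real.sqrt (c i.1) : ℂ) = (c i.1 : ℂ) := by
      rw [← Complex.ofReal_mul, Real.mul_self_sqrt (hc _)]
    rw [map_mul, Complex.conj_ofReal, map_prod, Finset.prod_mul_distrib, ← h1]
    ring
  simp only [hterm]
  have hmax : Summable fun n => c n * (∑ j, ‖z j‖ * ‖w j‖) ^ n := by
    refine Summable.of_nonneg_of_le (fun n => ?_) (fun n => ?_) (hz.add hw)
    · exact mul_nonneg (hc n) (by positivity)
    · have h1 : (∑ j, ‖z j‖ * ‖w j‖) ^ n ≤ (∑ j, ‖z j‖ ^ 2) ^ n + (∑ j, ‖w j‖ ^ 2) ^ n := by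
        have h2 : (∑ j, ‖z j‖ * ‖w j‖) ^ n ≤ (max (∑ j, ‖z j‖ ^ 2) (∑ j, ‖w j‖ ^ 2)) ^ n :=
          pow_le_pow_left₀ (by positivity) (norm_sq_le z w) n
        refine h2.trans ?_
        rcases max_choice (∑ j, ‖z j‖ ^ 2) (∑ j, ‖w j‖ ^ 2) with h | h
        · rw [h]
          have : 0 ≤ (∑ j, ‖w j‖ ^ 2) ^ n := by positivity
          linarith
        · rw [h]
          have : 0 ≤ (∑ j, ‖z j‖ ^ 2) ^ n := by positivity
          linarith
      calc c n * (∑ j, ‖z j‖ * ‖w j‖) ^ n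
          ≤ c n * ((∑ j, ‖z j‖ ^ 2) ^ n + (∑ j, ‖w j‖ ^ 2) ^ n) :=
            mul_le_mul_of_nonneg_left h1 (hc n)
        _ = _ := by ring
  have hnorm : ∀ n, ∑ t : Fin n → Fin d, ‖(c n : ℂ) * ∏ j, (z (t j) * conj (w (t j)))‖ =
      c n * (∑ j, ‖z j‖ * ‖w j‖) ^ n := by
    intro n
    rw [Fintype.sum_pow, Finset.mul_sum]
    refine Finset.sum_congr rfl fun t _ => ?_
    rw [norm_mul, Complex.norm_real, Real.norm_eq_abs, abs_of_nonneg (hc n), norm_prod]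
    congr 1
    refine Finset.prod_congr rfl fun j _ => ?_
    rw [norm_mul, RCLike.norm_conj]
  have hsum : Summable fun i : Σ n : ℕ, (Fin n → Fin d) =>
      (c i.1 : ℂ) * ∏ j, (z (i.2 j) * conj (w (i.2 j))) := by
    refine Summable.of_norm ?_
    rw [summable_sigma_of_nonneg fun i => norm_nonneg _]
    refine ⟨fun n => Summable.of_finite, ?_⟩
    refine hmax.congr fun n => ?_
    rw [tsum_fintype]
    exact (hnorm n).symm
  refine HasSum.sigma_of_hasSum (g := fun n => (c n : ℂ) * sq z w ^ n) ?_ (fun n => ?_) hsum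
  · refine Summable.hasSum ?_
    refine Summable.of_norm_bounded hmax fun n => ?_
    rw [norm_mul, Complex.norm_real, Real.norm_eq_abs, abs_of_nonneg (hc n), norm_pow]
    refine mul_le_mul_of_nonneg_left (pow_le_pow_left₀ (norm_nonneg _) ?_ n) (hc n)
    unfold sq
    refine (norm_sum_le _ _).trans (Finset.sum_le_sum fun j _ => ?_)
    rw [norm_mul, RCLike.norm_conj]
  · have h1 : (c n : ℂ) * sq z w ^ n =
        ∑ t : Fin n → Fin d, (c n : ℂ) * ∏ j, (z (t j) * conj (w (t j))) := by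
      unfold sq
      rw [Fintype.sum_pow, Finset.mul_sum]
    rw [h1]
    exact hasSum_fintype _

/-- the unitarily invariant kernels are complete Pick kernels -/
lemma UnitaryPick.completePick {B : AnSpace d Ω Y} (h : B.UnitaryPick) : B.CompletePick := by
  obtain ⟨-, k, c, hk, hc, hs, hK⟩ := h
  obtain ⟨e, he⟩ := exists_injective_nat (Σ n : ℕ, (Fin n → Fin d))
  set bb : (Σ n : ℕ, (Fin n → Fin d)) → (Fin d → ℂ) → ℂ :=
    fun i z => (Real.sqrt (c i.1) : ℂ) * ∏ j, z (i.2 j) with hbb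
  refine ⟨k, B.poly 1, fun m z => Function.extend e (fun i => bb i z) (fun _ => 0) m,
    fun z w => ∑' n, c n * sq z w ^ n, hk, fun z hz => ?_, fun z hz w hw => ⟨?_, ?_⟩⟩
  · rw [B.fn_poly _ z hz, map_one]
    exact one_ne_zero
  · rw [← he.hasSum_iff]
    · have h1 := hasSum_words (z := z) (w := w) hc (hs z hz) (hs w hw)
      have h2 : (fun m => Function.extend e (fun i => bb i z) (fun _ => 0) m *
          conj (Function.extend e (fun i => bb i w) (fun _ => 0) m)) ∘ e =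
          fun i => bb i z * conj (bb i w) := by
        funext i
        rw [Function.comp_apply, he.extend_apply, he.extend_apply]
      rw [h2]
      exact h1
    · intro m hm
      have hm' : ¬ ∃ i, e i = m := hm
      show Function.extend e (fun i => bb i z) (fun _ => 0) m *
          conj (Function.extend e (fun i => bb i w) (fun _ => 0) m) = 0
      rw [Function.extend_apply' _ _ _ hm', zero_mul]
  · rw [hK z hz w hw, B.fn_poly _ z hz, B.fn_poly _ w hw, map_one, map_one, map_one, mul_one]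

end AnSpace

end Pool.Agent.CycP
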