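import Pool.Agent.CycP.Geo1

set_option autoImplicit false

/-! Discs of small radii about isolated points are separated by polynomials. -/

namespace Pool.Agent.CycP

open Polynomial

/-- separation of the discs with index at most `n` -/
def SepN (z : ℕ → ℂ) (r : ℕ → ℝ) (n : ℕ) : Prop := ∀ j ≤ n, ∀ ε > 0, ∃ p : ℂ[X],
  ‖aeval (AA (z j) (r j)) p - 1‖ ≤ ε ∧ ∀ i ≤ n, i ≠ j → ‖aeval (AA (z i) (r i)) p‖ ≤ ε

lemma SepN.of_eq {z : ℕ → ℂ} {r r' : ℕ → ℝ} {n : ℕ} (hs : SepN z r n)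
    (h : ∀ i ≤ n, r' i = r i) : SepN z r' n := by
  intro j hj ε hε
  obtain ⟨p, h1, h2⟩ := hs j hj ε hε
  refine ⟨p, ?_, fun i hi hij => ?_⟩
  · rw [h j hj]; exact h1
  · rw [h i hi]; exact h2 i hi hij

lemma sepN_zero (z : ℕ → ℂ) (r : ℕ → ℝ) : SepN z r 0 := by
  intro j hj ε hε
  refine ⟨1, ?_, fun i hi hij => absurd (by omega) hij⟩
  rw [map_one, sub_self, norm_zero]
  exact hε.le

lemma aeval_sub_self (w : ℂ) (r : ℝ) : aeval (AA w r) (X - C w) = (r : ℂ) • UU := by
  rw [map_sub, aeval_X, aeval_C, Algebra.algebraMap_eq_smul_one]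
  unfold AA
  abel

lemma small_disc (p : ℂ[X]) (w : ℂ) (hp : p.eval w = 0) {ε : ℝ} (hε : 0 < ε) :
    ∃ ρ > 0, ∀ r, 0 < r → r ≤ ρ → ‖aeval (AA w r) p‖ ≤ ε := by
  obtain ⟨q, hq⟩ := dvd_iff_isRoot.2 hp
  obtain ⟨K, hK0, hK⟩ := aeval_bound q (R := ‖w‖ + 1) (by positivity)
  refine ⟨min 1 (ε / (K + 1)), lt_min one_pos (by positivity), fun r hr hrρ => ?_⟩
  have h1 : r ≤ 1 := hrρ.trans (min_le_left _ _)
  have h2 : r ≤ ε / (K + 1) := hrρ.trans (min_le_right _ _)
  rw [hq, map_mul, aeval_sub_self]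
  refine (norm_mul_le _ _).trans ?_
  have h3 : ‖(r : ℂ) • UU‖ ≤ r := by
    rw [norm_smul, Complex.norm_real, Real.norm_of_nonneg hr.le]
    have := UU_norm
    nlinarith
  have h4 : ‖aeval (AA w r) q‖ ≤ K := hK _ ((AA_norm w hr.le).trans (by linarith))
  refine (mul_le_mul h3 h4 (norm_nonneg _) hr.le).trans ?_
  rw [le_div_iff₀ (by positivity)] at h2
  nlinarith

lemma sep_from_point {z z' : ℂ} {r : ℝ} (hr : 0 < r) (h : r < ‖z' - z‖) :
    ∃ H : ℂ[X], ‖aeval (AA z r) H - 1‖ ≤ 1 / 16 ∧ H.eval z' = 0 := by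
  have hne : z' - z ≠ 0 := by
    rw [← norm_pos_iff]; exact hr.trans h
  have h1 : r / ‖z' - z‖ < 1 := (div_lt_one (hr.trans h)).2 h
  have h0 : 0 ≤ r / ‖z' - z‖ := by positivity
  obtain ⟨K, hK⟩ := exists_pow_lt_of_lt_one (show (0 : ℝ) < 1 / 16 by norm_num) h1
  have hKpos : 0 < K := by
    rcases Nat.eq_zero_or_pos K with rfl | h
    · norm_num at hK
    · exact h
  refine ⟨1 - (C (z' - z)⁻¹ * (X - C z)) ^ K, ?_, ?_⟩
  · rw [map_sub, map_one, map_pow, map_mul, aeval_C, aeval_sub_self]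
    have e1 : ∀ x : HH →L[ℂ] HH, ‖1 - x - 1‖ = ‖x‖ := by
      intro x
      have : 1 - x - 1 = -x := by abel
      rw [this, norm_neg]
    rw [e1, Algebra.algebraMap_eq_smul_one, smul_mul_assoc, one_mul]
    refine (norm_pow_le' _ hKpos).trans ?_
    refine le_trans (pow_le_pow_left₀ (norm_nonneg _) ?_ K) hK.le
    rw [norm_smul, norm_smul, norm_inv, Complex.norm_real, Real.norm_of_nonneg hr.le]
    have := UU_norm
    rw [div_eq_inv_mul]
    apply mul_le_mul_of_nonneg_left _ (by positivity)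
    nlinarith
  · simp only [eval_sub, eval_one, eval_pow, eval_mul, eval_C, eval_X]
    rw [inv_mul_cancel₀ hne, one_pow, sub_self]

lemma sep_step {z : ℕ → ℂ} {r : ℕ → ℝ} {n : ℕ} (hr : ∀ i ≤ n, 0 < r i) (hs : SepN z r n)
    (hz : ∀ i ≤ n, r i < ‖z (n + 1) - z i‖) :
    ∃ ρ > 0, ∀ ρ', 0 < ρ' → ρ' ≤ ρ → SepN z (Function.update r (n + 1) ρ') (n + 1) := by
  have hH : ∀ i, ∃ H : ℂ[X], i ≤ n → ‖aeval (AA (z i) (r i)) H - 1‖ ≤ 1 / 16 ∧
      H.eval (z (n + 1)) = 0 := by
    intro i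
    by_cases hi : i ≤ n
    · obtain ⟨H, h1, h2⟩ := sep_from_point (hr i hi) (hz i hi)
      exact ⟨H, fun _ => ⟨h1, h2⟩⟩
    · exact ⟨0, fun h => absurd h hi⟩
  choose H hH using hH
  -- a common bound
  obtain ⟨K, hK0, hK⟩ : ∃ K : ℝ, 0 ≤ K ∧ ∀ i ≤ n, ∀ j ≤ n,
      ‖aeval (AA (z j) (r j)) (H i)‖ ≤ K := by
    refine ⟨∑ i ∈ Finset.range (n + 1), ∑ j ∈ Finset.range (n + 1),
      ‖aeval (AA (z j) (r j)) (H i)‖,
      Finset.sum_nonneg fun i _ => Finset.sum_nonneg fun j _ => norm_nonneg _, ?_⟩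
    intro i hi j hj
    have h1 := Finset.single_le_sum (f := fun j => ‖aeval (AA (z j) (r j)) (H i)‖)
      (s := Finset.range (n + 1)) (fun j _ => norm_nonneg _)
      (Finset.mem_range.2 (Nat.lt_succ_of_le hj))
    refine h1.trans ?_
    exact Finset.single_le_sum (f := fun i => ∑ j ∈ Finset.range (n + 1),
      ‖aeval (AA (z j) (r j)) (H i)‖) (s := Finset.range (n + 1))
      (fun i _ => Finset.sum_nonneg fun j _ => norm_nonneg _)
      (Finset.mem_range.2 (Nat.lt_succ_of_le hi))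
  set ε1 : ℝ := 1 / (32 * ((n + 1 : ℝ) * (K + 1))) with hε1
  have hε1pos : 0 < ε1 := by positivity
  have hε1eq : ε1 * (2 * ((n + 1 : ℝ) * (K + 1))) = 1 / 16 := by
    rw [hε1]
    have : ((n + 1 : ℝ) * (K + 1)) ≠ 0 := by positivity
    field_simp
    norm_num
  have hE : ∀ i, ∃ E : ℂ[X], i ≤ n → ‖aeval (AA (z i) (r i)) E - 1‖ ≤ ε1 ∧
      ∀ j ≤ n, j ≠ i → ‖aeval (AA (z j) (r j)) E‖ ≤ ε1 := by
    intro i
    by_cases hi : i ≤ n
    · obtain ⟨E, h1, h2⟩ := hs i hi ε1 hε1pos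
      exact ⟨E, fun _ => ⟨h1, h2⟩⟩
    · exact ⟨0, fun h => absurd h hi⟩
  choose E hE using hE
  set S : ℂ[X] := ∑ i ∈ Finset.range (n + 1), E i * H i with hS
  have hS0 : S.eval (z (n + 1)) = 0 := by
    rw [hS, eval_finsetSum]
    apply Finset.sum_eq_zero
    intro i hi
    rw [eval_mul, (hH i (Nat.lt_succ_iff.1 (Finset.mem_range.1 hi))).2, mul_zero]
  have hS1 : ∀ j ≤ n, ‖aeval (AA (z j) (r j)) S - 1‖ ≤ 1 / 8 := by
    intro j hj
    have hjm : j ∈ Finset.range (n + 1) := Finset.mem_range.2 (Nat.lt_succ_of_le hj)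
    rw [hS, map_sum, ← Finset.add_sum_erase _ _ hjm]
    have e1 : ∀ x y : HH →L[ℂ] HH, x + y - 1 = (x - 1) + y := fun x y => by abel
    rw [e1]
    refine (norm_add_le _ _).trans ?_
    have h1 : ‖aeval (AA (z j) (r j)) (E j * H j) - 1‖ ≤ ε1 * (1 + 1 / 16) + 1 / 16 := by
      rw [map_mul]
      exact mul_sub_one_le (hE j hj).1 (hH j hj).1
    have h2 : ‖∑ i ∈ (Finset.range (n + 1)).erase j, aeval (AA (z j) (r j)) (E i * H i)‖ ≤
        n * (ε1 * K) := by
      refine (norm_sum_le _ _).trans ?_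
      have h3 : ∀ i ∈ (Finset.range (n + 1)).erase j,
          ‖aeval (AA (z j) (r j)) (E i * H i)‖ ≤ ε1 * K := by
        intro i hi
        rw [Finset.mem_erase, Finset.mem_range] at hi
        have hin : i ≤ n := Nat.lt_succ_iff.1 hi.2
        rw [map_mul]
        refine (norm_mul_le _ _).trans ?_
        exact mul_le_mul ((hE i hin).2 j hj (fun h => hi.1 h.symm)) (hK i hin j hj)
          (norm_nonneg _) hε1pos.le
      refine (Finset.sum_le_sum h3).trans ?_
      rw [Finset.sum_const, Finset.card_erase_of_mem hjm, Finset.card_range, nsmul_eq_mul]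
      simp
    have h3 : (n : ℝ) * (ε1 * K) + ε1 * (1 + 1 / 16) ≤ ε1 * (2 * ((n + 1 : ℝ) * (K + 1))) := by
      have hn : (0 : ℝ) ≤ n := Nat.cast_nonneg n
      have h4 : (n : ℝ) * K + (1 + 1 / 16) ≤ 2 * ((n + 1 : ℝ) * (K + 1)) := by nlinarith
      nlinarith
    rw [hε1eq] at h3
    linarith
  obtain ⟨ρ, hρ0, hρ⟩ := small_disc S (z (n + 1)) hS0 (show (0 : ℝ) < 1 / 8 by norm_num)
  refine ⟨ρ, hρ0, fun ρ' hρ'0 hρ' => ?_⟩
  set r' := Function.update r (n + 1) ρ' with hr'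
  have hr'n : r' (n + 1) = ρ' := by rw [hr', Function.update_self]
  have hr'i : ∀ i ≤ n, r' i = r i := fun i hi => by
    rw [hr', Function.update_of_ne (by omega)]
  have himp : ∀ η > 0, ∃ Q : ℂ[X], (∀ i ≤ n, ‖aeval (AA (z i) (r i)) Q - 1‖ ≤ η) ∧
      ‖aeval (AA (z (n + 1)) ρ') Q‖ ≤ η := by
    intro η hη
    obtain ⟨Q, h1, h2⟩ := improve (fun i => AA (z i) (r' i)) {i | i ≤ n} {n + 1} S
      (fun i hi => by
        rw [Set.mem_ofPred_eq] at hi
        rw [hr'i i hi]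
        exact hS1 i hi)
      (fun i hi => by
        rw [Set.mem_singleton_iff] at hi
        subst hi
        rw [hr'n]
        exact hρ ρ' hρ'0 hρ') hη
    refine ⟨Q, fun i hi => ?_, ?_⟩
    · have := h1 i hi
      rwa [hr'i i hi] at this
    · have := h2 (n + 1) rfl
      rwa [hr'n] at this
  intro j hj ε hε
  rcases Nat.lt_or_ge j (n + 1) with hjn | hjn
  · have hjn' : j ≤ n := by omega
    set e : ℝ := min ε 1 / 4 with he
    have hm : 0 < min ε 1 := lt_min hε one_pos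
    have he0 : 0 < e := by positivity
    have hm1 : min ε 1 ≤ 1 := min_le_right _ _
    have hmε : min ε 1 ≤ ε := min_le_left _ _
    obtain ⟨p, h1, h2⟩ := hs j hjn' e he0
    set Cp := ‖aeval (AA (z (n + 1)) ρ') p‖ with hCp
    have hCp0 : 0 ≤ Cp := norm_nonneg _
    obtain ⟨Q, g1, g2⟩ := himp (e / (Cp + 1)) (by positivity)
    have hη : e / (Cp + 1) ≤ e := div_le_self he0.le (by linarith)
    have hη0 : 0 < e / (Cp + 1) := by positivity
    have hηC : Cp * (e / (Cp + 1)) ≤ e := by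
      rw [mul_div_assoc', div_le_iff₀ (by positivity)]
      nlinarith
    refine ⟨p * Q, ?_, fun i hi hij => ?_⟩
    · rw [hr'i j hjn', map_mul]
      refine (mul_sub_one_le h1 (g1 j hjn')).trans ?_
      nlinarith
    · rw [map_mul]
      refine (norm_mul_le _ _).trans ?_
      rcases Nat.lt_or_ge i (n + 1) with hin | hin
      · have hin' : i ≤ n := by omega
        rw [hr'i i hin']
        refine (mul_le_mul (h2 i hin' hij) (norm_le_one_add (g1 i hin')) (norm_nonneg _)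
          he0.le).trans ?_
        nlinarith
      · have : i = n + 1 := by omega
        subst this
        rw [hr'n]
        refine (mul_le_mul_of_nonneg_left g2 (norm_nonneg _)).trans ?_
        rw [← hCp]
        linarith
  · have : j = n + 1 := by omega
    subst this
    obtain ⟨Q, g1, g2⟩ := himp ε hε
    refine ⟨1 - Q, ?_, fun i hi hij => ?_⟩
    · rw [hr'n, map_sub, map_one]
      have e1 : ∀ x : HH →L[ℂ] HH, ‖1 - x - 1‖ = ‖x‖ := by
        intro x
        have : 1 - x - 1 = -x := by abel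
        rw [this, norm_neg]
      rw [e1]
      exact g2
    · have hin : i ≤ n := by omega
      rw [hr'i i hin, map_sub, map_one, norm_sub_rev]
      exact g1 i hin

/-- isolated points are the centres of separated discs -/
theorem exists_radii (z : ℕ → ℂ) (δ : ℕ → ℝ) (hδ : ∀ i, 0 < δ i)
    (hz : ∀ i j, j ≠ i → δ i ≤ ‖z j - z i‖) :
    ∃ r : ℕ → ℝ, (∀ i, 0 < r i) ∧ (∀ i, r i ≤ 1) ∧ SepFin z r := by
  let St : ℕ → Type := fun n =>
    {r : ℕ → ℝ // (∀ i ≤ n, 0 < r i ∧ r i < δ i ∧ r i ≤ 1) ∧ SepN z r n}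
  have step : ∀ n (s : St n), ∃ s' : St (n + 1), ∀ i ≤ n, s'.1 i = s.1 i := by
    rintro n ⟨r, h1, h2⟩
    obtain ⟨ρ, hρ0, hρ⟩ := sep_step (fun i hi => (h1 i hi).1) h2 (fun i hi =>
      (h1 i hi).2.1.trans_le (hz i (n + 1) (by omega)))
    have hpos : 0 < min ρ (min (δ (n + 1) / 2) 1) :=
      lt_min hρ0 (lt_min (half_pos (hδ _)) one_pos)
    have h3 := hρ (min ρ (min (δ (n + 1) / 2) 1)) hpos (min_le_left _ _)
    refine ⟨⟨_, ?_, h3⟩, fun i hi => ?_⟩
    · intro i hi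
      rcases Nat.lt_or_ge i (n + 1) with hin | hin
      · rw [Function.update_of_ne (by omega)]
        exact h1 i (by omega)
      · have : i = n + 1 := by omega
        subst this
        rw [Function.update_self]
        refine ⟨hpos, ?_, ?_⟩
        · refine lt_of_le_of_lt ((min_le_right _ _).trans (min_le_left _ _)) ?_
          have := hδ (n + 1)
          linarith
        · exact (min_le_right _ _).trans (min_le_right _ _)
    · show Function.update r (n + 1) _ i = r i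
      rw [Function.update_of_ne (by omega)]
  choose f hf using step
  let s0 : St 0 := ⟨fun _ => min (δ 0 / 2) 1, by
    intro i hi
    have : i = 0 := by omega
    subst this
    refine ⟨lt_min (half_pos (hδ _)) one_pos, ?_, min_le_right _ _⟩
    refine lt_of_le_of_lt (min_le_left _ _) ?_
    have := hδ 0
    linarith, sepN_zero _ _⟩
  let seq : ∀ n, St n := fun n => Nat.rec s0 (fun n s => f n s) n
  have hseq : ∀ n, seq (n + 1) = f n (seq n) := fun n => rfl
  have hag : ∀ n i, i ≤ n → (seq n).1 i = (seq i).1 i := by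
    intro n
    induction n with
    | zero =>
      intro i hi
      have : i = 0 := by omega
      subst this
      rfl
    | succ n ih =>
      intro i hi
      rcases Nat.lt_or_ge i (n + 1) with hin | hin
      · rw [hseq, hf n (seq n) i (by omega)]
        exact ih i (by omega)
      · have : i = n + 1 := by omega
        subst this
        rfl
  refine ⟨fun i => (seq i).1 i, fun i => ((seq i).2.1 i le_rfl).1,
    fun i => ((seq i).2.1 i le_rfl).2.2, ?_⟩
  intro n j hj ε hε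
  exact ((seq n).2.2.of_eq (fun i hi => (hag n i hi).symm)) j hj ε hε

end Pool.Agent.CycP
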