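import Pool.Agent.CycP.Dn

set_option autoImplicit false

/-! Separating polynomials, choice of the weights. -/

namespace Pool.Agent.CycP

open Polynomial

/-! ### improving approximate idempotents -/

lemma imp_zero {x : HH →L[ℂ] HH} {η : ℝ} (hx : ‖x‖ ≤ η) (hη : η ≤ 1 / 8) :
    ‖3 * x ^ 2 - 2 * x ^ 3‖ ≤ η / 2 := by
  have h0 : 0 ≤ η := (norm_nonneg _).trans hx
  have e3 : (3 : HH →L[ℂ] HH) = (3 : ℂ) • 1 := by
    rw [← Algebra.algebraMap_eq_smul_one]; exact (map_ofNat (algebraMap ℂ (HH →L[ℂ] HH)) 3).symm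
  have e2 : (2 : HH →L[ℂ] HH) = (2 : ℂ) • 1 := by
    rw [← Algebra.algebraMap_eq_smul_one]; exact (map_ofNat (algebraMap ℂ (HH →L[ℂ] HH)) 2).symm
  have h1 : 3 * x ^ 2 = (3 : ℂ) • x ^ 2 := by rw [e3, smul_mul_assoc, one_mul]
  have h2 : 2 * x ^ 3 = (2 : ℂ) • x ^ 3 := by rw [e2, smul_mul_assoc, one_mul]
  have h3 : ‖x ^ 2‖ ≤ η ^ 2 := (norm_pow_le' x (by norm_num)).trans
    (pow_le_pow_left₀ (norm_nonneg _) hx 2)
  have h4 : ‖x ^ 3‖ ≤ η ^ 3 := (norm_pow_le' x (by norm_num)).trans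
    (pow_le_pow_left₀ (norm_nonneg _) hx 3)
  rw [h1, h2]
  refine (norm_sub_le _ _).trans ?_
  rw [norm_smul, norm_smul]
  simp only [RCLike.norm_ofNat]
  have h5 : η ^ 2 ≤ η * (1 / 8) := by nlinarith
  have h6 : η ^ 3 ≤ η * (1 / 64) := by
    have : η ^ 2 ≤ 1 / 64 := by nlinarith
    nlinarith
  linarith

lemma imp_one {x : HH →L[ℂ] HH} {η : ℝ} (hx : ‖x - 1‖ ≤ η) (hη : η ≤ 1 / 8) :
    ‖3 * x ^ 2 - 2 * x ^ 3 - 1‖ ≤ η / 2 := by
  have h1 : 3 * x ^ 2 - 2 * x ^ 3 - 1 = -(3 * (x - 1) ^ 2 + 2 * (x - 1) ^ 3) := by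
    noncomm_ring
  have h0 : 0 ≤ η := (norm_nonneg _).trans hx
  rw [h1, norm_neg]
  set y := x - 1 with hy
  have e3 : (3 : HH →L[ℂ] HH) = (3 : ℂ) • 1 := by
    rw [← Algebra.algebraMap_eq_smul_one]; exact (map_ofNat (algebraMap ℂ (HH →L[ℂ] HH)) 3).symm
  have e2 : (2 : HH →L[ℂ] HH) = (2 : ℂ) • 1 := by
    rw [← Algebra.algebraMap_eq_smul_one]; exact (map_ofNat (algebraMap ℂ (HH →L[ℂ] HH)) 2).symm
  have h1 : 3 * y ^ 2 = (3 : ℂ) • y ^ 2 := by rw [e3, smul_mul_assoc, one_mul]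
  have h2 : 2 * y ^ 3 = (2 : ℂ) • y ^ 3 := by rw [e2, smul_mul_assoc, one_mul]
  have h3 : ‖y ^ 2‖ ≤ η ^ 2 := (norm_pow_le' y (by norm_num)).trans
    (pow_le_pow_left₀ (norm_nonneg _) hx 2)
  have h4 : ‖y ^ 3‖ ≤ η ^ 3 := (norm_pow_le' y (by norm_num)).trans
    (pow_le_pow_left₀ (norm_nonneg _) hx 3)
  rw [h1, h2]
  refine (norm_add_le _ _).trans ?_
  rw [norm_smul, norm_smul]
  simp only [RCLike.norm_ofNat]
  have h5 : η ^ 2 ≤ η * (1 / 8) := by nlinarith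
  have h6 : η ^ 3 ≤ η * (1 / 64) := by
    have : η ^ 2 ≤ 1 / 64 := by nlinarith
    nlinarith
  linarith

lemma improve {ι : Type} (A : ι → HH →L[ℂ] HH) (s1 s2 : Set ι) (P : ℂ[X])
    (h1 : ∀ i ∈ s1, ‖aeval (A i) P - 1‖ ≤ 1 / 8) (h2 : ∀ i ∈ s2, ‖aeval (A i) P‖ ≤ 1 / 8)
    {ε : ℝ} (hε : 0 < ε) :
    ∃ Q : ℂ[X], (∀ i ∈ s1, ‖aeval (A i) Q - 1‖ ≤ ε) ∧ ∀ i ∈ s2, ‖aeval (A i) Q‖ ≤ ε := by
  have key : ∀ n : ℕ, ∃ Q : ℂ[X], (∀ i ∈ s1, ‖aeval (A i) Q - 1‖ ≤ 1 / 8 * (1 / 2) ^ n) ∧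
      ∀ i ∈ s2, ‖aeval (A i) Q‖ ≤ 1 / 8 * (1 / 2) ^ n := by
    intro n
    induction n with
    | zero => exact ⟨P, by simpa using h1, by simpa using h2⟩
    | succ n ih =>
      obtain ⟨Q, hQ1, hQ2⟩ := ih
      have hle : (1 : ℝ) / 8 * (1 / 2) ^ n ≤ 1 / 8 := by
        have : ((1 : ℝ) / 2) ^ n ≤ 1 := pow_le_one₀ (by norm_num) (by norm_num)
        linarith
      refine ⟨3 * Q ^ 2 - 2 * Q ^ 3, fun i hi => ?_, fun i hi => ?_⟩
      · have h3 := imp_one (hQ1 i hi) hle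
        have h4 : aeval (A i) (3 * Q ^ 2 - 2 * Q ^ 3) =
            3 * (aeval (A i) Q) ^ 2 - 2 * (aeval (A i) Q) ^ 3 := by
          rw [map_sub, map_mul, map_mul, map_pow, map_pow, map_ofNat, map_ofNat]
        rw [h4]
        refine h3.trans (le_of_eq ?_)
        ring
      · have h3 := imp_zero (hQ2 i hi) hle
        have h4 : aeval (A i) (3 * Q ^ 2 - 2 * Q ^ 3) =
            3 * (aeval (A i) Q) ^ 2 - 2 * (aeval (A i) Q) ^ 3 := by
          rw [map_sub, map_mul, map_mul, map_pow, map_pow, map_ofNat, map_ofNat]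
        rw [h4]
        refine h3.trans (le_of_eq ?_)
        ring
  obtain ⟨n, hn⟩ := exists_pow_lt_of_lt_one hε (by norm_num : (1 : ℝ) / 2 < 1)
  obtain ⟨Q, hQ1, hQ2⟩ := key n
  have h0 : (0 : ℝ) ≤ (1 / 2) ^ n := by positivity
  exact ⟨Q, fun i hi => (hQ1 i hi).trans (by linarith), fun i hi => (hQ2 i hi).trans (by linarith)⟩

lemma aeval_bound (P : ℂ[X]) {R : ℝ} (hR : 0 ≤ R) :
    ∃ C : ℝ, 0 ≤ C ∧ ∀ A : HH →L[ℂ] HH, ‖A‖ ≤ R → ‖aeval A P‖ ≤ C := by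
  induction P using Polynomial.induction_on' with
  | add p q hp hq =>
    obtain ⟨C, hC, h⟩ := hp
    obtain ⟨D, hD, h'⟩ := hq
    refine ⟨C + D, add_nonneg hC hD, fun A hA => ?_⟩
    rw [map_add]
    exact (norm_add_le _ _).trans (add_le_add (h A hA) (h' A hA))
  | monomial n a =>
    refine ⟨‖a‖ * R ^ n, by positivity, fun A hA => ?_⟩
    rw [aeval_monomial, Algebra.algebraMap_eq_smul_one, smul_mul_assoc, one_mul, norm_smul]
    apply mul_le_mul_of_nonneg_left _ (norm_nonneg _)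
    rcases Nat.eq_zero_or_pos n with rfl | hn
    · rw [pow_zero, pow_zero]
      exact ContinuousLinearMap.norm_id_le
    · exact (norm_pow_le' A hn).trans (pow_le_pow_left₀ (norm_nonneg _) hA n)

/-- point values are bounded by operator norms -/
lemma eval_le_norm (z : ℂ) (r : ℝ) (p : ℂ[X]) {u : ℂ} (hu : ‖u‖ < 1) :
    ‖p.eval (z + r * u)‖ ≤ ‖aeval (AA z r) p‖ := by
  let L : HH →L[ℂ] ℂ := LinearMap.mkContinuous
    { toFun := fun h => pv h u
      map_add' := fun h h' => pv_add h h' hu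
      map_smul' := fun c h => pv_smul c h u } (1 - ‖u‖)⁻¹ (fun h => pv_norm h hu)
  have hL : ∀ h, L h = pv h u := fun h => rfl
  have hL0 : 0 < ‖L‖ := by
    rw [norm_pos_iff]
    intro h0
    have h1 := hL e0
    rw [h0, pv_e0] at h1
    simp at h1
  have h1 : L.comp (aeval (AA z r) p) = p.eval (z + r * u) • L := by
    ext h
    exact pv_aeval z r p h hu
  have h2 : ‖p.eval (z + r * u)‖ * ‖L‖ ≤ ‖L‖ * ‖aeval (AA z r) p‖ := by
    rw [← norm_smul, ← h1]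
    exact ContinuousLinearMap.opNorm_comp_le L _
  nlinarith

lemma eval_le_norm' {z : ℂ} {r : ℝ} (hr : 0 < r) (p : ℂ[X]) {w : ℂ} (hw : ‖w - z‖ < r) :
    ‖p.eval w‖ ≤ ‖aeval (AA z r) p‖ := by
  have h1 : ‖(w - z) / (r : ℂ)‖ < 1 := by
    rw [norm_div, Complex.norm_real, Real.norm_of_nonneg hr.le, div_lt_one hr]
    exact hw
  have h2 := eval_le_norm z r p h1
  have h3 : z + (r : ℂ) * ((w - z) / (r : ℂ)) = w := by
    have : (r : ℂ) ≠ 0 := by exact_mod_cast hr.ne'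
    rw [mul_div_cancel₀ _ this]
    ring
  rwa [h3] at h2

lemma not_both {z z' : ℂ} {r r' : ℝ} (hr : 0 < r) (hr' : 0 < r') {p : ℂ[X]}
    (h1 : ‖aeval (AA z r) p - 1‖ ≤ 1 / 4) (h2 : ‖aeval (AA z' r') p‖ ≤ 1 / 4) {w : ℂ}
    (hw : ‖w - z‖ < r) (hw' : ‖w - z'‖ < r') : False := by
  have h3 := eval_le_norm' hr (p - 1) hw
  have h4 := eval_le_norm' hr' p hw'
  rw [map_sub, map_one] at h3
  have h5 : ‖p.eval w - 1‖ ≤ 1 / 4 := by
    have := h3.trans h1
    simpa using this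
  have h6 : ‖p.eval w‖ ≤ 1 / 4 := h4.trans h2
  have h7 : ‖(1 : ℂ)‖ ≤ ‖p.eval w‖ + ‖p.eval w - 1‖ := by
    have := norm_sub_le (p.eval w) (p.eval w - 1)
    rw [sub_sub_cancel] at this
    exact this
  rw [norm_one] at h7
  linarith

/-! ### uniform separation -/

/-- uniform separation: polynomials close to one on one disc and to zero on all others -/
def SepAll (z : ℕ → ℂ) (r : ℕ → ℝ) : Prop := ∀ j, ∀ ε > 0, ∃ p : ℂ[X],
  ‖aeval (AA (z j) (r j)) p - 1‖ ≤ ε ∧ ∀ i, i ≠ j → ‖aeval (AA (z i) (r i)) p‖ ≤ ε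

/-- separation of finitely many discs -/
def SepFin (z : ℕ → ℂ) (r : ℕ → ℝ) : Prop := ∀ n, ∀ j ≤ n, ∀ ε > 0, ∃ p : ℂ[X],
  ‖aeval (AA (z j) (r j)) p - 1‖ ≤ ε ∧ ∀ i ≤ n, i ≠ j → ‖aeval (AA (z i) (r i)) p‖ ≤ ε

lemma disj_of_all {z : ℕ → ℂ} {r : ℕ → ℝ} (hr : ∀ j, 0 < r j) (h : SepAll z r) (i j : ℕ)
    (w : ℂ) (hi : ‖w - z i‖ < r i) (hj : ‖w - z j‖ < r j) : i = j := by
  by_contra hij
  obtain ⟨p, h1, h2⟩ := h j (1 / 4) (by norm_num)
  exact not_both (hr j) (hr i) h1 (h2 i hij) hj hi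

lemma disj_of_fin {z : ℕ → ℂ} {r : ℕ → ℝ} (hr : ∀ j, 0 < r j) (h : SepFin z r) (i j : ℕ)
    (w : ℂ) (hi : ‖w - z i‖ < r i) (hj : ‖w - z j‖ < r j) : i = j := by
  by_contra hij
  obtain ⟨p, h1, h2⟩ := h (max i j) j (le_max_right _ _) (1 / 4) (by norm_num)
  exact not_both (hr j) (hr i) h1 (h2 i (le_max_left _ _) hij) hj hi

lemma dense_all {z : ℕ → ℂ} {r ω : ℕ → ℝ} {R : ℝ} (hc : Cfg z r ω R) (h : SepAll z r)
    {x : YY} {c : ℕ → ℂ} (hx : ∀ j, x j = c j • e0) (hc0 : ∀ j, c j ≠ 0) :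
    DenseRange fun q : ℂ[X] => aeval (SS hc) q x := by
  apply dense_of hc hx hc0
  intro j ε hε
  obtain ⟨p, h1, h2⟩ := h j (ε / (‖x‖ + 1)) (by positivity)
  refine ⟨p, ?_⟩
  have h3 : ‖aeval (SS hc) p x - lp.single 2 j (x j)‖ ≤ ε / (‖x‖ + 1) * ‖x‖ := by
    apply norm_dom x (by positivity)
    intro i
    rw [lp.coeFn_sub, Pi.sub_apply, SS_aeval]
    by_cases hij : i = j
    · subst hij
      rw [lp.single_apply_self]
      have h4 : aeval (AA (z i) (r i)) p (x i) - x i = (aeval (AA (z i) (r i)) p - 1) (x i) := by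
        rw [sub_apply]; rfl
      rw [h4]
      exact (ContinuousLinearMap.le_opNorm _ _).trans
        (mul_le_mul_of_nonneg_right h1 (norm_nonneg _))
    · rw [lp.single_apply_ne _ _ _ hij, sub_zero]
      exact (ContinuousLinearMap.le_opNorm _ _).trans
        (mul_le_mul_of_nonneg_right (h2 i hij) (norm_nonneg _))
  refine h3.trans ?_
  rw [div_mul_eq_mul_div, div_le_iff₀ (by positivity)]
  nlinarith [norm_nonneg x]

/-! ### choice of the weights -/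

theorem weights {z : ℕ → ℂ} {r : ℕ → ℝ} {R : ℝ} (hr : ∀ j, 0 < r j)
    (hb : ∀ j, ‖z j‖ + r j ≤ R) (h : SepFin z r) {δ : ℝ} (hδ : 0 < δ) :
    ∃ (ω : ℕ → ℝ) (hc : Cfg z r ω R), ω 0 = 1 ∧ (∀ j, 1 ≤ j → ω j ≤ δ * (1 / 4) ^ j) ∧
      DenseRange fun q : ℂ[X] => aeval (SS hc) q (oneV hc) := by
  have hR : 0 ≤ R := by
    have := hb 0
    have h1 := hr 0
    have h2 := norm_nonneg (z 0)
    linarith
  have hE : ∀ n j, ∃ p : ℂ[X], j ≤ n → ‖aeval (AA (z j) (r j)) p - 1‖ ≤ (1 / 2) ^ n ∧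
      ∀ i ≤ n, i ≠ j → ‖aeval (AA (z i) (r i)) p‖ ≤ (1 / 2) ^ n := by
    intro n j
    by_cases hj : j ≤ n
    · obtain ⟨p, h1, h2⟩ := h n j hj ((1 / 2) ^ n) (by positivity)
      exact ⟨p, fun _ => ⟨h1, h2⟩⟩
    · exact ⟨0, fun h => absurd h hj⟩
  choose E hE using hE
  have hK : ∀ n, ∃ C : ℝ, 0 ≤ C ∧ ∀ j ≤ n, ∀ A : HH →L[ℂ] HH, ‖A‖ ≤ R → ‖aeval A (E n j)‖ ≤ C := by
    intro n
    have h1 := fun j => aeval_bound (E n j) hR
    choose C hC0 hC using h1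
    refine ⟨∑ j ∈ Finset.range (n + 1), C j, Finset.sum_nonneg fun j _ => hC0 j, ?_⟩
    intro j hj A hA
    refine (hC j A hA).trans ?_
    exact Finset.single_le_sum (f := C) (fun i _ => hC0 i)
      (Finset.mem_range.2 (Nat.lt_succ_of_le hj))
  choose K hK0 hK using hK
  let ω : ℕ → ℝ := fun i => if i = 0 then 1 else
    δ * (1 / 4) ^ i / (1 + ∑ n ∈ Finset.range i, K n)
  have hden : ∀ i, 1 ≤ 1 + ∑ n ∈ Finset.range i, K n := fun i => by
    have := Finset.sum_nonneg (s := Finset.range i) fun n _ => hK0 n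
    linarith
  have hω0 : ω 0 = 1 := by simp [ω]
  have hωpos : ∀ i, 0 < ω i := by
    intro i
    by_cases hi : i = 0
    · subst hi; rw [hω0]; exact one_pos
    · simp only [ω, if_neg hi]
      have := hden i
      positivity
  have hωle : ∀ j, 1 ≤ j → ω j ≤ δ * (1 / 4) ^ j := by
    intro j hj
    simp only [ω, if_neg (by omega : j ≠ 0)]
    exact div_le_self (by positivity) (hden j)
  have hωall : ∀ j, ω j ≤ (1 + δ) * (1 / 4) ^ j := by
    intro j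
    rcases Nat.eq_zero_or_pos j with rfl | hj
    · rw [hω0]; simp; exact hδ.le
    · refine (hωle j hj).trans ?_
      have : (0 : ℝ) < (1 / 4) ^ j := by positivity
      nlinarith
  have hωK : ∀ n i, n < i → ω i * K n ≤ δ * (1 / 4) ^ i := by
    intro n i hni
    simp only [ω, if_neg (by omega : i ≠ 0)]
    rw [div_mul_eq_mul_div, div_le_iff₀ (lt_of_lt_of_le one_pos (hden i))]
    apply mul_le_mul_of_nonneg_left _ (by positivity)
    have := Finset.single_le_sum (f := K) (fun i _ => hK0 i) (Finset.mem_range.2 hni)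
    linarith
  have hsumm : Summable fun j => ω j ^ 2 := by
    have h1 : Summable fun j : ℕ => (1 + δ) ^ 2 * ((1 : ℝ) / 16) ^ j :=
      (summable_geometric_of_lt_one (by norm_num) (by norm_num)).mul_left _
    refine Summable.of_nonneg_of_le (fun j => sq_nonneg _) (fun j => ?_) h1
    have h2 := pow_le_pow_left₀ (hωpos j).le (hωall j) 2
    refine h2.trans (le_of_eq ?_)
    rw [mul_pow, ← pow_mul, mul_comm j 2, pow_mul]
    norm_num
  have hc : Cfg z r ω R := ⟨hr, hωpos, hb, disj_of_fin hr h, hsumm⟩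
  refine ⟨ω, hc, hω0, hωle, ?_⟩
  have hone : ∀ j, oneV hc j = (ω j : ℂ) • e0 := fun j => rfl
  apply dense_of hc hone (wC hc)
  -- comparison vector
  let T : YY := ⟨fun j => ((ω j + δ * (1 / 2) ^ j : ℝ) : ℂ) • e0, by
    apply memlp_of_le (C := ∑' j : ℕ, ((1 + 2 * δ) ^ 2 * ((1 : ℝ) / 4) ^ j))
    intro s
    have h1 : Summable fun j : ℕ => (1 + 2 * δ) ^ 2 * ((1 : ℝ) / 4) ^ j :=
      (summable_geometric_of_lt_one (by norm_num) (by norm_num)).mul_left _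
    refine le_trans ?_ (h1.sum_le_tsum s (fun j _ => by positivity))
    apply Finset.sum_le_sum
    intro j _
    rw [norm_smul, norm_e0, mul_one, Complex.norm_real, Real.norm_eq_abs, sq_abs]
    have h2 : ω j + δ * (1 / 2) ^ j ≤ (1 + 2 * δ) * (1 / 2) ^ j := by
      have h3 := hωall j
      have h4 : ((1 : ℝ) / 4) ^ j ≤ (1 / 2) ^ j := pow_le_pow_left₀ (by norm_num) (by norm_num) j
      nlinarith
    have h3 : 0 ≤ ω j + δ * (1 / 2) ^ j := by
      have := hωpos j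
      positivity
    have h4 := pow_le_pow_left₀ h3 h2 2
    refine h4.trans (le_of_eq ?_)
    rw [mul_pow, ← pow_mul, mul_comm j 2, pow_mul]
    norm_num⟩
  have hT : ∀ j, ‖T j‖ = ω j + δ * (1 / 2) ^ j := by
    intro j
    have h3 : 0 ≤ ω j + δ * (1 / 2) ^ j := by
      have := hωpos j
      positivity
    show ‖((ω j + δ * (1 / 2) ^ j : ℝ) : ℂ) • e0‖ = _
    rw [norm_smul, norm_e0, mul_one, Complex.norm_real, Real.norm_of_nonneg h3]
  intro j ε hε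
  obtain ⟨n0, hn0⟩ := exists_pow_lt_of_lt_one (show 0 < ε / (‖T‖ + 1) by positivity)
    (by norm_num : (1 : ℝ) / 2 < 1)
  set n := max n0 j with hn
  have hjn : j ≤ n := le_max_right _ _
  have hnlt : ((1 : ℝ) / 2) ^ n < ε / (‖T‖ + 1) :=
    lt_of_le_of_lt (pow_le_pow_of_le_one (by norm_num) (by norm_num) (le_max_left _ _)) hn0
  refine ⟨E n j, ?_⟩
  have h3 : ‖aeval (SS hc) (E n j) (oneV hc) - lp.single 2 j (oneV hc j)‖ ≤
      (1 / 2) ^ n * ‖T‖ := by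
    apply norm_dom T (by positivity)
    intro i
    rw [lp.coeFn_sub, Pi.sub_apply, SS_aeval, hT, hone]
    have hnω : ‖(ω i : ℂ) • e0‖ = ω i := by
      rw [norm_smul, norm_e0, mul_one, Complex.norm_real, Real.norm_of_nonneg (hωpos i).le]
    have hp2 : (0 : ℝ) < (1 / 2) ^ n := by positivity
    have hq2 : (0 : ℝ) < (1 / 2) ^ i := by positivity
    by_cases hij : i = j
    · subst hij
      rw [lp.single_apply_self, hone]
      have h4 : aeval (AA (z i) (r i)) (E n i) ((ω i : ℂ) • e0) - (ω i : ℂ) • e0 =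
          (aeval (AA (z i) (r i)) (E n i) - 1) ((ω i : ℂ) • e0) := by
        rw [sub_apply]; rfl
      rw [h4]
      refine (ContinuousLinearMap.le_opNorm _ _).trans ?_
      rw [hnω]
      have h5 := mul_le_mul_of_nonneg_right (hE n i hjn).1 (hωpos i).le
      refine h5.trans ?_
      have : 0 ≤ δ * (1 / 2) ^ i := by positivity
      nlinarith
    · rw [lp.single_apply_ne _ _ _ hij, sub_zero]
      refine (ContinuousLinearMap.le_opNorm _ _).trans ?_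
      rw [hnω]
      by_cases hin : i ≤ n
      · have h5 := mul_le_mul_of_nonneg_right ((hE n j hjn).2 i hin hij) (hωpos i).le
        refine h5.trans ?_
        have : 0 ≤ δ * (1 / 2) ^ i := by positivity
        nlinarith
      · have h5 := hK n j hjn _ (AA_bd hc i)
        have h6 := mul_le_mul_of_nonneg_right h5 (hωpos i).le
        have h7 := hωK n i (not_le.1 hin)
        have h8 : ((1 : ℝ) / 4) ^ i ≤ (1 / 2) ^ n * (1 / 2) ^ i := by
          have h9 : ((1 : ℝ) / 4) ^ i = (1 / 2) ^ i * (1 / 2) ^ i := by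
            rw [← mul_pow]; norm_num
          rw [h9]
          apply mul_le_mul_of_nonneg_right _ hq2.le
          exact pow_le_pow_of_le_one (by norm_num) (by norm_num) (not_le.1 hin).le
        have h9 := hωpos i
        have h10 : δ * (1 / 4) ^ i ≤ (1 / 2) ^ n * (δ * (1 / 2) ^ i) := by nlinarith
        nlinarith
  refine h3.trans ?_
  have h4 : ((1 : ℝ) / 2) ^ n * (‖T‖ + 1) < ε := (lt_div_iff₀ (by positivity)).1 hnlt
  have : (0 : ℝ) < (1 / 2) ^ n := by positivity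
  nlinarith [norm_nonneg T]

end Pool.Agent.CycP
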