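import Pool.Agent.CycP.Har

set_option autoImplicit false
set_option linter.unusedSectionVars false

/-! Power bounded multiplication operators on reflexive spaces of analytic functions. -/

open Filter Topology Polynomial

noncomputable section

namespace Pool.Agent.CycP

namespace AnSpace

variable {d : ℕ} {Ω : Set (Fin d → ℂ)} {E : Type} [NormedAddCommGroup E] [NormedSpace ℂ E]

/-- In a reflexive space a bounded sequence which converges at every point of `Ω` converges
weakly. -/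
lemma tendsto_functional (A : AnSpace d Ω E)
    (hrefl : Function.Surjective (NormedSpace.inclusionInDoubleDual ℂ E)) {y : ℕ → E}
    {K : ℝ} (hK : ∀ n, ‖y n‖ ≤ K) {x : E}
    (hx : ∀ w ∈ Ω, Tendsto (fun n => A.fn (y n) w) atTop (𝓝 (A.fn x w))) (u : E →L[ℂ] ℂ) :
    Tendsto (fun n => u (y n)) atTop (𝓝 (u x)) := by
  have hK0 : 0 ≤ K := (norm_nonneg _).trans (hK 0)
  let S : Submodule ℂ (StrongDual ℂ E) :=
    { carrier := {v | Tendsto (fun n => v (y n)) atTop (𝓝 (v x))}
      add_mem' := fun {v v'} hv hv' => by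
        have := Tendsto.add hv hv'
        exact this
      zero_mem' := by
        show Tendsto (fun n => (0 : StrongDual ℂ E) (y n)) atTop (𝓝 ((0 : StrongDual ℂ E) x))
        simp
      smul_mem' := fun c v hv => by
        have := Tendsto.const_mul c hv
        exact this }
  have hS : ∀ v, v ∈ S ↔ Tendsto (fun n => v (y n)) atTop (𝓝 (v x)) := fun v => Iff.rfl
  have hSc : IsClosed (S : Set (StrongDual ℂ E)) := by
    apply isClosed_of_closure_subset
    intro v hv
    show v ∈ S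
    rw [hS, Metric.tendsto_atTop]
    intro ε hε
    rw [Metric.mem_closure_iff] at hv
    obtain ⟨v', hv', hd⟩ := hv (ε / (3 * (K + ‖x‖ + 1))) (by positivity)
    have h1 := (hS v').1 hv'
    rw [Metric.tendsto_atTop] at h1
    obtain ⟨N, hN⟩ := h1 (ε / 3) (by positivity)
    refine ⟨N, fun n hn => ?_⟩
    have h2 := hN n hn
    rw [dist_eq_norm] at hd h2 ⊢
    have h3 : ‖(v - v') (y n)‖ ≤ ε / 3 := by
      refine ((v - v').le_opNorm _).trans ?_
      have h4 : ‖v - v'‖ * ‖y n‖ ≤ ε / (3 * (K + ‖x‖ + 1)) * (K + ‖x‖ + 1) :=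
        mul_le_mul hd.le (by have := hK n; have := norm_nonneg x; linarith) (norm_nonneg _)
          (by positivity)
      refine h4.trans (le_of_eq ?_)
      have : K + ‖x‖ + 1 ≠ 0 := by positivity
      field_simp
    have h4 : ‖(v - v') x‖ ≤ ε / 3 := by
      refine ((v - v').le_opNorm _).trans ?_
      have h4 : ‖v - v'‖ * ‖x‖ ≤ ε / (3 * (K + ‖x‖ + 1)) * (K + ‖x‖ + 1) :=
        mul_le_mul hd.le (by linarith) (norm_nonneg _) (by positivity)
      refine h4.trans (le_of_eq ?_)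
      have : K + ‖x‖ + 1 ≠ 0 := by positivity
      field_simp
    have h5 : v (y n) - v x = (v - v') (y n) + (v' (y n) - v' x) - (v - v') x := by
      rw [sub_apply, sub_apply]
      ring
    rw [h5]
    have h6 := norm_sub_le ((v - v') (y n) + (v' (y n) - v' x)) ((v - v') x)
    have h7 := norm_add_le ((v - v') (y n)) (v' (y n) - v' x)
    linarith
  rw [← hS]
  by_contra huS
  obtain ⟨ξ, hξ0, hξu⟩ := exists_functional S hSc huS
  obtain ⟨x', hx'⟩ := hrefl ξ
  have h1 : x' = 0 := by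
    apply A.fn_inj
    intro w hw
    obtain ⟨L, hL, -⟩ := A.exists_eval hw
    have h2 : L ∈ S := by
      rw [hS]
      have h3 := hx w hw
      simp only [← hL] at h3
      exact h3
    have h3 := hξ0 L h2
    rw [← hx', NormedSpace.dual_def, hL] at h3
    exact h3
  rw [h1, map_zero] at hx'
  rw [← hx'] at hξu
  exact hξu rfl

/-- `V` is multiplication by the function `v` -/
def MulBy (A : AnSpace d Ω E) (V : E →L[ℂ] E) (v : (Fin d → ℂ) → ℂ) : Prop :=
  ∀ x, ∀ w ∈ Ω, A.fn (V x) w = v w * A.fn x w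

lemma MulBy.isMultiplier {A : AnSpace d Ω E} {V : E →L[ℂ] E} {v : (Fin d → ℂ) → ℂ}
    (h : A.MulBy V v) : A.IsMultiplier v := fun f => ⟨V f, h f⟩

lemma MulBy.comp {A : AnSpace d Ω E} {V V' : E →L[ℂ] E} {v v' : (Fin d → ℂ) → ℂ}
    (h : A.MulBy V v) (h' : A.MulBy V' v') : A.MulBy (V.comp V') (fun w => v w * v' w) := by
  intro x w hw
  rw [ContinuousLinearMap.comp_apply, h _ w hw, h' _ w hw, mul_assoc]

lemma MulBy.comm {A : AnSpace d Ω E} {V V' : E →L[ℂ] E} {v v' : (Fin d → ℂ) → ℂ}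
    (h : A.MulBy V v) (h' : A.MulBy V' v') (x : E) : V (V' x) = V' (V x) := by
  apply A.fn_ext
  intro w hw
  rw [h _ w hw, h' _ w hw, h' _ w hw, h _ w hw]
  ring

/-- the operator of a multiplier -/
lemma IsMultiplier.exists_opr [CompleteSpace E] {A : AnSpace d Ω E} {h : (Fin d → ℂ) → ℂ}
    (hm : A.IsMultiplier h) : ∃ M : E →L[ℂ] E, A.MulBy M h := by
  choose M hM using hm
  let Ml : E →ₗ[ℂ] E :=
    { toFun := M
      map_add' := fun x y => by
        apply A.fn_ext
        intro w hw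
        rw [hM _ w hw, map_add, map_add, Pi.add_apply, Pi.add_apply, hM _ w hw, hM _ w hw]
        ring
      map_smul' := fun c x => by
        apply A.fn_ext
        intro w hw
        rw [hM _ w hw, RingHom.id_apply, map_smul, map_smul, Pi.smul_apply, Pi.smul_apply,
          hM _ w hw]
        simp
        ring }
  have hMl : ∀ x, ∀ w ∈ Ω, A.fn (Ml x) w = h w * A.fn x w := hM
  have hcont : Continuous Ml := by
    apply Ml.continuous_of_seq_closed_graph
    intro u x y hu hMu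
    apply A.fn_ext
    intro w hw
    obtain ⟨L, hL, -⟩ := A.exists_eval hw
    have h1 : Tendsto (fun n => L (Ml (u n))) atTop (𝓝 (L y)) :=
      (L.continuous.tendsto y).comp hMu
    have h2 : Tendsto (fun n => h w * L (u n)) atTop (𝓝 (h w * L x)) :=
      ((L.continuous.tendsto x).comp hu).const_mul (h w)
    have h3 : (fun n => L (Ml (u n))) = fun n => h w * L (u n) := by
      funext n
      rw [hL, hL, hMl _ w hw]
    rw [h3] at h1
    have h4 := tendsto_nhds_unique h1 h2
    rw [hMl _ w hw, ← hL, ← hL, h4]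
  exact ⟨⟨Ml, hcont⟩, hMl⟩

/-- the powers of `V` are bounded -/
def PowBdd (V : E →L[ℂ] E) : Prop := ∃ C : ℝ, ∀ n, ‖V ^ n‖ ≤ C

lemma MulBy.pow {A : AnSpace d Ω E} {V : E →L[ℂ] E} {v : (Fin d → ℂ) → ℂ}
    (h : A.MulBy V v) (n : ℕ) : A.MulBy (V ^ n) (fun w => v w ^ n) := by
  induction n with
  | zero => intro x w _; simp
  | succ n ih =>
    intro x w hw
    rw [pow_succ', mul_apply_eq_comp, h _ w hw, ih _ w hw]
    ring

/-- a bounded functional at a point multiplies by the value -/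
lemma functional_mulBy (A : AnSpace d Ω E) {V : E →L[ℂ] E} {v : (Fin d → ℂ) → ℂ}
    (h : A.MulBy V v) {w : Fin d → ℂ} {L : E →L[ℂ] ℂ}
    (hL : ∀ P, L (A.poly P) = MvPolynomial.eval w P) (x : E) :
    L (V x) = L (V (A.poly 1)) * L x := by
  have : (fun x => L (V x)) = fun x => L (V (A.poly 1)) * L x := by
    refine A.poly_dense.equalizer (L.continuous.comp V.continuous)
      (continuous_const.mul L.continuous) (funext fun Q => ?_)
    obtain ⟨M, hM⟩ := A.exists_mul Q
    have e1 : V (A.poly Q) = M (V (A.poly 1)) := by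
      apply A.fn_ext
      intro z hz
      rw [h _ z hz, hM _ z hz, h _ z hz, A.fn_poly _ z hz, A.fn_poly _ z hz, map_one]
      ring
    simp only [Function.comp_apply]
    rw [e1, A.functional_mul hL hM, hL]
    ring
  exact congrFun this x

lemma aeval_functional (A : AnSpace d Ω E) {V : E →L[ℂ] E} {v : (Fin d → ℂ) → ℂ}
    (h : A.MulBy V v) {w : Fin d → ℂ} {L : E →L[ℂ] ℂ}
    (hL : ∀ P, L (A.poly P) = MvPolynomial.eval w P) (p : ℂ[X]) (x : E) :
    L (aeval V p x) = p.eval (L (V (A.poly 1))) * L x := by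
  induction p using Polynomial.induction_on' with
  | add p q hp hq =>
    rw [map_add, add_apply, map_add, hp, hq, eval_add, add_mul]
  | monomial n a =>
    rw [aeval_monomial, eval_monomial]
    have h1 : ∀ n : ℕ, ∀ x : E, L ((V ^ n) x) = L (V (A.poly 1)) ^ n * L x := by
      intro n
      induction n with
      | zero => intro x; simp
      | succ n ih =>
        intro x
        rw [pow_succ', mul_apply_eq_comp, A.functional_mulBy h hL, ih]
        ring
    rw [mul_apply_eq_comp, mul_assoc, ← h1 n x]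
    show L ((algebraMap ℂ (E →L[ℂ] E) a) ((V ^ n) x)) = _
    rw [Algebra.algebraMap_eq_smul_one, smul_apply, one_apply_eq_self, map_smul,
      smul_eq_mul]

lemma aeval_fn (A : AnSpace d Ω E) {V : E →L[ℂ] E} {v : (Fin d → ℂ) → ℂ}
    (h : A.MulBy V v) (p : ℂ[X]) (x : E) {w : Fin d → ℂ} (hw : w ∈ Ω) :
    A.fn (aeval V p x) w = p.eval (v w) * A.fn x w := by
  obtain ⟨L, hL, hL'⟩ := A.exists_eval hw
  have h1 := A.aeval_functional h hL' p x
  have h2 : L (V (A.poly 1)) = v w := by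
    rw [hL, h _ w hw, A.fn_poly _ w hw, map_one, mul_one]
  rw [h2, hL, hL] at h1
  exact h1

lemma norm_le_one_of_powBdd (A : AnSpace d Ω E) {V : E →L[ℂ] E} {v : (Fin d → ℂ) → ℂ}
    (h : A.MulBy V v) (hV : PowBdd V) {w : Fin d → ℂ} (hw : w ∈ Ω) : ‖v w‖ ≤ 1 := by
  obtain ⟨C, hC⟩ := hV
  obtain ⟨L, hL, hL'⟩ := A.exists_eval hw
  have hL0 : L (A.poly 1) = 1 := by rw [hL', map_one]
  have h1 : ∀ n : ℕ, ‖v w‖ ^ n ≤ ‖L‖ * (C * ‖A.poly 1‖) := by
    intro n
    have h2 : L ((V ^ n) (A.poly 1)) = v w ^ n := by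
      rw [hL, h.pow n _ w hw, A.fn_poly _ w hw, map_one, mul_one]
    rw [← norm_pow, ← h2]
    refine (L.le_opNorm _).trans (mul_le_mul_of_nonneg_left ?_ (norm_nonneg _))
    exact (V ^ n).le_of_opNorm_le (hC n) _
  by_contra h3
  rw [not_le] at h3
  obtain ⟨n, hn⟩ := pow_unbounded_of_one_lt (‖L‖ * (C * ‖A.poly 1‖)) h3
  exact absurd (h1 n) (not_le.2 hn)

/-! ### Cesaro means of the geometric series -/

/-- the Cesaro means of `1 / (1 - X)` -/
def ces (n : ℕ) : ℂ[X] :=
  C ((1 : ℂ) / (n + 1)) * ∑ k ∈ Finset.range (n + 1), ∑ j ∈ Finset.range (k + 1), X ^ j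

/-- the means of the powers -/
def pmean (n : ℕ) : ℂ[X] := C ((1 : ℂ) / (n + 1)) * ∑ k ∈ Finset.range (n + 1), X ^ (k + 1)

lemma ces_mul (n : ℕ) : ces n * (1 - X) = 1 - pmean n := by
  unfold ces pmean
  have h1 : ∀ k : ℕ, (∑ j ∈ Finset.range (k + 1), (X : ℂ[X]) ^ j) * (1 - X) = 1 - X ^ (k + 1) := by
    intro k
    have := geom_sum_mul_neg (X : ℂ[X]) (k + 1)
    exact this
  rw [mul_assoc, Finset.sum_mul, Finset.sum_congr rfl fun k _ => h1 k, Finset.sum_sub_distrib,
    Finset.sum_const, Finset.card_range, mul_sub]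
  congr 1
  have h2 : ((n : ℂ) + 1) ≠ 0 := by exact_mod_cast Nat.succ_ne_zero n
  rw [nsmul_eq_mul, mul_one]
  have h3 : ((n + 1 : ℕ) : ℂ[X]) = C ((n : ℂ) + 1) := by
    push_cast
    rw [map_add, map_natCast, map_one]
  rw [h3, ← map_mul, one_div, inv_mul_cancel₀ h2, map_one]

lemma ces_apply (V : E →L[ℂ] E) (n : ℕ) (g : E) :
    aeval V (ces n) (g - V g) = g - aeval V (pmean n) g := by
  have h1 := congrArg (fun p : ℂ[X] => aeval V p g) (ces_mul n)
  simp only [map_mul, map_sub, map_one, aeval_X] at h1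
  rw [mul_apply_eq_comp, sub_apply, sub_apply, one_apply_eq_self] at h1
  exact h1

lemma norm_pmean (V : E →L[ℂ] E) {C : ℝ} (hC : ∀ n, ‖V ^ n‖ ≤ C) (n : ℕ) (g : E) :
    ‖aeval V (pmean n) g‖ ≤ C * ‖g‖ := by
  have h0 : 0 ≤ C := (norm_nonneg _).trans (hC 0)
  have e1 : aeval V (pmean n) g =
      ((1 : ℂ) / (n + 1)) • ∑ k ∈ Finset.range (n + 1), (V ^ (k + 1)) g := by
    unfold pmean
    rw [map_mul, aeval_C, map_sum, mul_apply_eq_comp,
      Algebra.algebraMap_eq_smul_one, smul_apply, one_apply_eq_self,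
      sum_apply]
    simp only [map_pow, aeval_X]
  have h3 : ‖((1 : ℂ) / (n + 1))‖ = 1 / ((n : ℝ) + 1) := by
    rw [norm_div, norm_one]
    congr 1
    have : ((n : ℂ) + 1) = (((n : ℝ) + 1 : ℝ) : ℂ) := by push_cast; rfl
    rw [this, Complex.norm_real, Real.norm_of_nonneg (by positivity)]
  rw [e1, norm_smul, h3]
  have h4 : ‖∑ k ∈ Finset.range (n + 1), (V ^ (k + 1)) g‖ ≤ (n + 1) * (C * ‖g‖) := by
    refine (norm_sum_le _ _).trans ?_
    refine (Finset.sum_le_sum fun k _ => (V ^ (k + 1)).le_of_opNorm_le (hC (k + 1)) g).trans ?_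
    rw [Finset.sum_const, Finset.card_range, nsmul_eq_mul]
    push_cast
    exact le_rfl
  have h5 : (0 : ℝ) < (n : ℝ) + 1 := by positivity
  calc 1 / ((n : ℝ) + 1) * ‖∑ k ∈ Finset.range (n + 1), (V ^ (k + 1)) g‖
      ≤ 1 / ((n : ℝ) + 1) * ((n + 1) * (C * ‖g‖)) :=
        mul_le_mul_of_nonneg_left h4 (by positivity)
    _ = C * ‖g‖ := by field_simp

lemma pmean_eval_tendsto {v : ℂ} (hv : ‖v‖ ≤ 1) (hv1 : v ≠ 1) :
    Tendsto (fun n => (pmean n).eval v) atTop (𝓝 0) := by
  have hb : ∀ n : ℕ, ‖(pmean n).eval v‖ ≤ (2 / ‖1 - v‖) * (1 / ((n : ℝ) + 1)) := by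
    intro n
    have h0 : 1 - v ≠ 0 := sub_ne_zero.2 hv1.symm
    have h1 : (pmean n).eval v = (1 / (n + 1)) * (v * ((1 - v ^ (n + 1)) / (1 - v))) := by
      unfold pmean
      rw [eval_mul, eval_C, eval_finsetSum]
      congr 1
      have h2 := geom_sum_mul_neg v (n + 1)
      rw [eq_div_iff h0 |>.2 h2 |>.symm, Finset.mul_sum]
      refine Finset.sum_congr rfl fun k _ => ?_
      rw [eval_pow, eval_X, pow_succ']
    have h3 : ‖((1 : ℂ) / (n + 1))‖ = 1 / ((n : ℝ) + 1) := by
      rw [norm_div, norm_one]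
      congr 1
      have : ((n : ℂ) + 1) = (((n : ℝ) + 1 : ℝ) : ℂ) := by push_cast; rfl
      rw [this, Complex.norm_real, Real.norm_of_nonneg (by positivity)]
    rw [h1, norm_mul, h3, mul_comm, norm_mul, norm_div]
    refine mul_le_mul_of_nonneg_right ?_ (by positivity)
    have h4 : ‖1 - v ^ (n + 1)‖ ≤ 2 := by
      refine (norm_sub_le _ _).trans ?_
      rw [norm_one, norm_pow]
      have := pow_le_one₀ (n := n + 1) (norm_nonneg v) hv
      linarith
    calc ‖v‖ * (‖1 - v ^ (n + 1)‖ / ‖1 - v‖) ≤ 1 * (2 / ‖1 - v‖) := by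
          refine mul_le_mul hv ?_ (by positivity) zero_le_one
          exact div_le_div_of_nonneg_right h4 (norm_nonneg _)
      _ = _ := one_mul _
  refine squeeze_zero_norm hb ?_
  have := (tendsto_one_div_add_atTop_nhds_zero_nat (𝕜 := ℝ)).const_mul (2 / ‖1 - v‖)
  rwa [mul_zero] at this

/-- the Cesaro means applied to `(1 - v) g` converge weakly to `g` -/
lemma ces_tendsto (A : AnSpace d Ω E)
    (hrefl : Function.Surjective (NormedSpace.inclusionInDoubleDual ℂ E))
    {V : E →L[ℂ] E} {v : (Fin d → ℂ) → ℂ} (h : A.MulBy V v) (hV : PowBdd V)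
    (hv1 : ∀ w ∈ Ω, v w ≠ 1) (g : E) (u : E →L[ℂ] ℂ) :
    Tendsto (fun n => u (aeval V (ces n) (g - V g))) atTop (𝓝 (u g)) := by
  obtain ⟨C, hC⟩ := hV
  refine A.tendsto_functional hrefl (K := ‖g‖ + C * ‖g‖) (fun n => ?_) (fun w hw => ?_) u
  · rw [ces_apply]
    exact (norm_sub_le _ _).trans (by gcongr; exact norm_pmean V hC n g)
  · have h1 := pmean_eval_tendsto (A.norm_le_one_of_powBdd h ⟨C, hC⟩ hw) (hv1 w hw)
    have h2 := (h1.mul_const (A.fn g w)).const_sub (A.fn g w)
    rw [zero_mul, sub_zero] at h2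
    refine h2.congr fun n => ?_
    rw [ces_apply, map_sub, Pi.sub_apply, A.aeval_fn h _ _ hw]

/-- `g` is in every closed `V`-invariant subspace that contains `(1 - v) g` -/
lemma mem_of_one_sub (A : AnSpace d Ω E)
    (hrefl : Function.Surjective (NormedSpace.inclusionInDoubleDual ℂ E))
    {V : E →L[ℂ] E} {v : (Fin d → ℂ) → ℂ} (h : A.MulBy V v) (hV : PowBdd V)
    (hv1 : ∀ w ∈ Ω, v w ≠ 1) {N : Submodule ℂ E} (hN : IsClosed (N : Set E))
    (hI : ∀ x ∈ N, V x ∈ N) {g : E} (hg : g - V g ∈ N) : g ∈ N := by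
  by_contra hgN
  obtain ⟨u, hu0, hu1⟩ := exists_functional N hN hgN
  have h1 := A.ces_tendsto hrefl h hV hv1 g u
  have h2 : ∀ p : ℂ[X], ∀ x ∈ N, aeval V p x ∈ N := by
    intro p
    induction p using Polynomial.induction_on' with
    | add p q hp hq =>
      intro x hx
      rw [map_add, add_apply]
      exact N.add_mem (hp x hx) (hq x hx)
    | monomial n a =>
      have h3 : ∀ n : ℕ, ∀ x ∈ N, (V ^ n) x ∈ N := by
        intro n
        induction n with
        | zero => intro x hx; simpa using hx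
        | succ n ih =>
          intro x hx
          rw [pow_succ', mul_apply_eq_comp]
          exact hI _ (ih x hx)
      intro x hx
      rw [aeval_monomial, mul_apply_eq_comp, Algebra.algebraMap_eq_smul_one,
        smul_apply, one_apply_eq_self]
      exact N.smul_mem a (h3 n x hx)
  have h3 : (fun n => u (aeval V (ces n) (g - V g))) = fun _ => (0 : ℂ) :=
    funext fun n => hu0 _ (h2 _ _ hg)
  rw [h3] at h1
  exact hu1 (tendsto_nhds_unique h1 tendsto_const_nhds)

end AnSpace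

end Pool.Agent.CycP
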