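import Pool.Agent.CycP.SmA
import Pool.Agent.CycP.Sp

set_option autoImplicit false
set_option linter.unusedSectionVars false

/-! The one variable space attached to a power bounded multiplier `v` and a shift-cyclic function
`ψ = (1 - v) g`. -/

open Filter Topology Polynomial

noncomputable section

namespace Pool.Agent.CycP

/-- continuous functions on the closed unit disc -/
abbrev Wd : Type := C(Metric.closedBall (0 : ℂ) 1, ℂ)

/-- the function `(1 - w) ^ 2 * p w` -/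
def wp : ℂ[X] →ₗ[ℂ] Wd where
  toFun p := ⟨fun w => (1 - (w : ℂ)) ^ 2 * p.eval (w : ℂ), by fun_prop⟩
  map_add' p q := by
    ext w
    simp [mul_add]
  map_smul' c p := by
    ext w
    simp
    ring

lemma wp_apply (p : ℂ[X]) (w : Metric.closedBall (0 : ℂ) 1) :
    wp p w = (1 - (w : ℂ)) ^ 2 * p.eval (w : ℂ) := rfl

/-- the coordinate function -/
def idW : Wd := ⟨fun w => (w : ℂ), by fun_prop⟩

lemma wp_X_mul (p : ℂ[X]) : wp (X * p) = idW * wp p := by
  ext w
  rw [wp_apply, ContinuousMap.mul_apply, wp_apply, eval_mul, eval_X]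
  show _ = (w : ℂ) * _
  ring

open scoped Classical in
/-- the values -/
def aW (a : Wd) (w : ℂ) : ℂ := if h : w ∈ Metric.closedBall (0 : ℂ) 1 then a ⟨w, h⟩ else 0

lemma aW_of {a : Wd} {w : ℂ} (h : w ∈ Metric.closedBall (0 : ℂ) 1) : aW a w = a ⟨w, h⟩ := by
  unfold aW
  rw [dif_pos h]

lemma aW_norm_le (a : Wd) (w : ℂ) : ‖aW a w‖ ≤ ‖a‖ := by
  unfold aW
  split_ifs with h
  · exact a.norm_coe_le_norm _
  · simp

lemma aW_add (a a' : Wd) (w : ℂ) : aW (a + a') w = aW a w + aW a' w := by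
  unfold aW
  split_ifs with h
  · rfl
  · simp

lemma aW_smul (c : ℂ) (a : Wd) (w : ℂ) : aW (c • a) w = c * aW a w := by
  unfold aW
  split_ifs with h
  · rfl
  · simp

lemma aW_sub (a a' : Wd) (w : ℂ) : aW (a - a') w = aW a w - aW a' w := by
  unfold aW
  split_ifs with h
  · rfl
  · simp

lemma aW_cont (w : ℂ) : Continuous fun a : Wd => aW a w := by
  unfold aW
  split_ifs with h
  · exact continuous_eval_const (⟨w, h⟩ : Metric.closedBall (0 : ℂ) 1)
  · exact continuous_const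

section space

variable {E : Type} [NormedAddCommGroup E] [NormedSpace ℂ E]

/-- `p ↦ (p(V) ψ, (1 - w) ^ 2 p)` -/
def pair (V : E →L[ℂ] E) (ψ : E) : ℂ[X] →ₗ[ℂ] E × Wd where
  toFun p := (aeval V p ψ, wp p)
  map_add' p q := by
    ext : 1
    · simp
    · simp
  map_smul' c p := by
    ext : 1
    · simp
    · simp

/-- the closure of the polynomials -/
def XS (V : E →L[ℂ] E) (ψ : E) : Submodule ℂ (E × Wd) :=
  (LinearMap.range (pair V ψ)).topologicalClosure

lemma XS_closed (V : E →L[ℂ] E) (ψ : E) : IsClosed (XS V ψ : Set (E × Wd)) :=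
  Submodule.isClosed_topologicalClosure _

lemma pair_mem (V : E →L[ℂ] E) (ψ : E) (p : ℂ[X]) : pair V ψ p ∈ XS V ψ :=
  subset_closure ⟨p, rfl⟩

lemma mem_XS {V : E →L[ℂ] E} {ψ : E} {x : E × Wd} :
    x ∈ XS V ψ ↔ x ∈ closure (Set.range (pair V ψ)) := Iff.rfl

instance [CompleteSpace E] (V : E →L[ℂ] E) (ψ : E) : CompleteSpace (XS V ψ) :=
  (XS_closed V ψ).completeSpace_coe

/-- the shift on the product -/
def shP (V : E →L[ℂ] E) : E × Wd →L[ℂ] E × Wd :=
  V.prodMap (ContinuousLinearMap.mul ℂ Wd idW)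

lemma shP_apply (V : E →L[ℂ] E) (x : E × Wd) : shP V x = (V x.1, idW * x.2) := rfl

lemma shP_pair (V : E →L[ℂ] E) (ψ : E) (p : ℂ[X]) : shP V (pair V ψ p) = pair V ψ (X * p) := by
  rw [shP_apply]
  show (V (aeval V p ψ), idW * wp p) = (aeval V (X * p) ψ, wp (X * p))
  rw [wp_X_mul, map_mul, aeval_X]
  rfl

lemma shP_mem (V : E →L[ℂ] E) (ψ : E) (x : XS V ψ) : shP V x ∈ XS V ψ := by
  have h1 : shP V '' closure (Set.range (pair V ψ)) ⊆ closure (Set.range (pair V ψ)) := by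
    refine (image_closure_subset_closure_image (shP V).continuous).trans (closure_mono ?_)
    rintro _ ⟨_, ⟨p, rfl⟩, rfl⟩
    exact ⟨X * p, (shP_pair V ψ p).symm⟩
  exact h1 ⟨x, x.2, rfl⟩

/-- the open unit disc -/
def Dsk : Set (Fin 1 → ℂ) := {w | ‖w 0‖ < 1}

lemma Dsk_open : IsOpen Dsk := by
  have h1 : Continuous fun w : Fin 1 → ℂ => ‖w 0‖ := (continuous_apply 0).norm
  exact isOpen_lt h1 continuous_const

lemma Dsk_ball {w : Fin 1 → ℂ} (hw : w ∈ Dsk) : w 0 ∈ Metric.ball (0 : ℂ) 1 := by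
  rw [mem_ball_zero_iff]
  exact hw

lemma Dsk_ne {w : Fin 1 → ℂ} (hw : w ∈ Dsk) : 1 - w 0 ≠ 0 := by
  intro h
  have h1 : ‖w 0‖ < 1 := hw
  rw [← sub_eq_zero.1 h, norm_one] at h1
  exact lt_irrefl _ h1

/-- the function of an element -/
def fnX (V : E →L[ℂ] E) (ψ : E) : XS V ψ →ₗ[ℂ] ((Fin 1 → ℂ) → ℂ) where
  toFun x w := aW (x : E × Wd).2 (w 0) / (1 - w 0) ^ 2
  map_add' x y := by
    funext w
    show aW ((x : E × Wd).2 + (y : E × Wd).2) (w 0) / (1 - w 0) ^ 2 = _
    rw [aW_add, add_div]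
    rfl
  map_smul' c x := by
    funext w
    show aW (c • (x : E × Wd).2) (w 0) / (1 - w 0) ^ 2 = _
    rw [aW_smul, mul_div_assoc]
    rfl

lemma fnX_apply (V : E →L[ℂ] E) (ψ : E) (x : XS V ψ) (w : Fin 1 → ℂ) :
    fnX V ψ x w = aW (x : E × Wd).2 (w 0) / (1 - w 0) ^ 2 := rfl

lemma differentiableOn_aW {V : E →L[ℂ] E} {ψ : E} {x : E × Wd} (hx : x ∈ XS V ψ) :
    DifferentiableOn ℂ (aW x.2) (Metric.ball 0 1) := by
  rw [mem_XS, mem_closure_iff_seq_limit] at hx
  obtain ⟨y, hy, hyx⟩ := hx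
  choose p hp using hy
  have h1 : Tendsto (fun n => (y n).2) atTop (𝓝 x.2) := (continuous_snd.tendsto x).comp hyx
  have h2 : TendstoUniformlyOn (fun n => aW (y n).2) (aW x.2) atTop (Metric.ball 0 1) := by
    rw [Metric.tendstoUniformlyOn_iff]
    intro ε hε
    have h3 := (tendsto_iff_norm_sub_tendsto_zero.1 h1).eventually (gt_mem_nhds hε)
    filter_upwards [h3] with n hn w _
    rw [dist_eq_norm, ← aW_sub]
    refine (aW_norm_le _ _).trans_lt ?_
    rwa [norm_sub_rev]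
  refine h2.tendstoLocallyUniformlyOn.differentiableOn (Eventually.of_forall fun n => ?_)
    Metric.isOpen_ball
  have h3 : ∀ w ∈ Metric.ball (0 : ℂ) 1, aW (y n).2 w = (1 - w) ^ 2 * (p n).eval w := by
    intro w hw
    rw [aW_of (Metric.ball_subset_closedBall hw), ← hp n]
    rfl
  refine DifferentiableOn.congr ?_ h3
  refine ((differentiableOn_const 1).sub differentiableOn_id).pow 2 |>.mul ?_
  exact (p n).differentiable.differentiableOn

lemma rel_of_mem {d : ℕ} {Ω : Set (Fin d → ℂ)} (B : AnSpace d Ω E) {V : E →L[ℂ] E}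
    {v : (Fin d → ℂ) → ℂ} (h : B.MulBy V v) {ψ : E} {x : E × Wd} (hx : x ∈ XS V ψ)
    {z : Fin d → ℂ} (hz : z ∈ Ω) (hv : ‖v z‖ < 1) :
    B.fn x.1 z * (1 - v z) ^ 2 = B.fn ψ z * aW x.2 (v z) := by
  obtain ⟨L, hL, -⟩ := B.exists_eval hz
  have h1 : closure (Set.range (pair V ψ)) ⊆
      {x : E × Wd | L x.1 * (1 - v z) ^ 2 = B.fn ψ z * aW x.2 (v z)} := by
    refine closure_minimal ?_ (isClosed_eq ?_ ?_)
    · rintro _ ⟨p, rfl⟩
      show L (aeval V p ψ) * (1 - v z) ^ 2 = B.fn ψ z * aW (wp p) (v z)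
      have hb : v z ∈ Metric.closedBall (0 : ℂ) 1 := by
        rw [mem_closedBall_zero_iff]
        exact hv.le
      rw [hL, B.aeval_fn h p ψ hz, aW_of hb, wp_apply]
      ring
    · exact (L.continuous.comp continuous_fst).mul continuous_const
    · exact continuous_const.mul ((aW_cont (v z)).comp continuous_snd)
  have h2 := h1 hx
  rw [Set.mem_ofPred_eq, hL] at h2
  exact h2

lemma aW_zero_of {a : Wd} (h : ∀ w ∈ Metric.ball (0 : ℂ) 1, aW a w = 0) : a = 0 := by
  ext u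
  rw [ContinuousMap.zero_apply]
  set r : ℕ → ℝ := fun n => 1 - 1 / ((n : ℝ) + 1) with hr
  have hr0 : ∀ n, 0 ≤ r n := by
    intro n
    simp only [hr]
    have : 1 / ((n : ℝ) + 1) ≤ 1 := by
      rw [div_le_one (by positivity)]
      have : (0 : ℝ) ≤ n := Nat.cast_nonneg n
      linarith
    linarith
  have hr1 : ∀ n, r n < 1 := by
    intro n
    simp only [hr]
    have : 0 < 1 / ((n : ℝ) + 1) := by positivity
    linarith
  have hrl : Tendsto r atTop (𝓝 1) := by
    have h1 := (tendsto_one_div_add_atTop_nhds_zero_nat (𝕜 := ℝ)).const_sub 1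
    rw [sub_zero] at h1
    exact h1
  have hu : ‖(u : ℂ)‖ ≤ 1 := by
    have := u.2
    rwa [mem_closedBall_zero_iff] at this
  have hlt : ∀ n, ‖(r n : ℂ) * (u : ℂ)‖ < 1 := by
    intro n
    rw [norm_mul, Complex.norm_real, Real.norm_of_nonneg (hr0 n)]
    have := hr1 n
    have := hr0 n
    nlinarith [norm_nonneg (u : ℂ)]
  have hm : ∀ n, (r n : ℂ) * (u : ℂ) ∈ Metric.closedBall (0 : ℂ) 1 := fun n => by
    rw [mem_closedBall_zero_iff]
    exact (hlt n).le
  have h1 : ∀ n, a ⟨(r n : ℂ) * (u : ℂ), hm n⟩ = 0 := by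
    intro n
    rw [← aW_of (hm n)]
    apply h
    rw [mem_ball_zero_iff]
    exact hlt n
  have h2 : Tendsto (fun n => (⟨(r n : ℂ) * (u : ℂ), hm n⟩ : Metric.closedBall (0 : ℂ) 1)) atTop
      (𝓝 u) := by
    rw [tendsto_subtype_rng]
    have h3 := ((Complex.continuous_ofReal.tendsto 1).comp hrl).mul_const (u : ℂ)
    rw [Complex.ofReal_one, one_mul] at h3
    exact h3
  have h3 := (a.continuous.tendsto u).comp h2
  have h4 : (a ∘ fun n => (⟨(r n : ℂ) * (u : ℂ), hm n⟩ : Metric.closedBall (0 : ℂ) 1)) =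
      fun _ => (0 : ℂ) := funext h1
  rw [h4] at h3
  exact tendsto_nhds_unique h3 tendsto_const_nhds

/-- the one variable space -/
def spX {d : ℕ} {Ω : Set (Fin d → ℂ)} (B : AnSpace d Ω E) {V : E →L[ℂ] E}
    {v : (Fin d → ℂ) → ℂ} (h : B.MulBy V v) (hlt : ∀ z ∈ Ω, ‖v z‖ < 1) (ψ : E) :
    AnSpace 1 Dsk (XS V ψ) where
  fn := fnX V ψ
  isOpen := Dsk_open
  fn_inj := by
    intro x hx
    have ha : (x : E × Wd).2 = 0 := by
      apply aW_zero_of
      intro w hw
      rw [mem_ball_zero_iff] at hw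
      have h1 := hx (fun _ => w) hw
      rw [fnX_apply] at h1
      have h2 : (1 - w) ^ 2 ≠ 0 := pow_ne_zero 2 (Dsk_ne (w := fun _ => w) hw)
      exact (div_eq_zero_iff.1 h1).resolve_right h2
    have hy : (x : E × Wd).1 = 0 := by
      apply B.fn_inj
      intro z hz
      have h1 := rel_of_mem B h x.2 hz (hlt z hz)
      rw [ha] at h1
      have h2 : aW 0 (v z) = 0 := by
        unfold aW
        split_ifs <;> rfl
      rw [h2, mul_zero] at h1
      have h3 : (1 - v z) ^ 2 ≠ 0 := pow_ne_zero 2 (Dsk_ne (w := fun _ => v z) (hlt z hz))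
      exact (mul_eq_zero.1 h1).resolve_right h3
    exact Subtype.ext (Prod.ext hy ha)
  fn_analytic := by
    intro x w hw
    have h1 : AnalyticAt ℂ (fun t : ℂ => aW (x : E × Wd).2 t / (1 - t) ^ 2) (w 0) := by
      refine AnalyticAt.div ?_ ?_ ?_
      · exact (differentiableOn_aW x.2).analyticAt (Metric.isOpen_ball.mem_nhds (Dsk_ball hw))
      · exact ((analyticAt_const.sub analyticAt_id).pow 2)
      · exact pow_ne_zero 2 (Dsk_ne hw)
    have h2 : AnalyticAt ℂ (fun w : Fin 1 → ℂ => w 0) w :=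
      (ContinuousLinearMap.proj (R := ℂ) (φ := fun _ : Fin 1 => ℂ) 0).analyticAt w
    exact AnalyticAt.comp (g := fun t : ℂ => aW (x : E × Wd).2 t / (1 - t) ^ 2)
      (f := fun w : Fin 1 → ℂ => w 0) h1 h2
  poly := fun P => ⟨pair V ψ (toP P), pair_mem V ψ _⟩
  fn_poly := by
    intro P w hw
    rw [fnX_apply]
    show aW (wp (toP P)) (w 0) / (1 - w 0) ^ 2 = _
    rw [aW_of (Metric.ball_subset_closedBall (Dsk_ball hw)), wp_apply, ← toP_eval]
    exact mul_div_cancel_left₀ _ (pow_ne_zero 2 (Dsk_ne hw))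
  poly_dense := by
    intro x
    rw [Metric.mem_closure_iff]
    intro ε hε
    obtain ⟨_, ⟨p, rfl⟩, hp⟩ := Metric.mem_closure_iff.1 (mem_XS.1 x.2) ε hε
    obtain ⟨P, rfl⟩ := toP_surj p
    exact ⟨_, ⟨P, rfl⟩, hp⟩
  fn_bounded := by
    intro w hw
    refine ⟨1 / ‖(1 - w 0) ^ 2‖, fun x => ?_⟩
    rw [fnX_apply, norm_div, div_eq_mul_inv, mul_comm, one_div]
    refine mul_le_mul_of_nonneg_left ?_ (by positivity)
    exact (aW_norm_le _ _).trans (norm_snd_le (x : E × Wd))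
  shift := fun _ => ((shP V).comp (XS V ψ).subtypeL).codRestrict (XS V ψ) (shP_mem V ψ)
  fn_shift := by
    intro j x w hw
    have hj : j = 0 := Subsingleton.elim _ _
    subst hj
    rw [fnX_apply, fnX_apply]
    show aW (idW * (x : E × Wd).2) (w 0) / _ = _
    rw [aW_of (Metric.ball_subset_closedBall (Dsk_ball hw)),
      aW_of (Metric.ball_subset_closedBall (Dsk_ball hw)), ContinuousMap.mul_apply, mul_div_assoc]
    rfl

end space

end Pool.Agent.CycP
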