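import Pool.Agent.CycP.SmB

set_option autoImplicit false
set_option linter.unusedSectionVars false

/-! (CP), already for spaces of functions of one variable, implies that `g` is shift-cyclic if
`(1 - v) g` is, for power bounded multipliers `v`. -/

open Filter Topology Polynomial

noncomputable section

namespace Pool.Agent.CycP

namespace AnSpace

/-- Property (CP) for spaces `X` of functions of `e` variables. -/
def CPd {d' : ℕ} {Ω' : Set (Fin d' → ℂ)} {Y : Type} [NormedAddCommGroup Y] [NormedSpace ℂ Y]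
    (B : AnSpace d' Ω' Y) (d : ℕ) : Prop :=
  ∀ (Ω : Set (Fin d → ℂ)) (X : Type) (_ : NormedAddCommGroup X) (_ : NormedSpace ℂ X)
    (_ : CompleteSpace X) (A : AnSpace d Ω X) (φ : B.maxDomain → A.maxDomain) (ψ : Y)
    (T : X →L[ℂ] Y), B.Cyclic ψ →
    (∀ f, ∀ w : B.maxDomain, B.ext (T f) w = B.ext ψ w * A.ext f (φ w)) →
    ∀ f, A.Cyclic f → B.Cyclic (T f)

lemma cp_iff {d' : ℕ} {Ω' : Set (Fin d' → ℂ)} {Y : Type} [NormedAddCommGroup Y]
    [NormedSpace ℂ Y] (B : AnSpace d' Ω' Y) : B.CP ↔ ∀ d, B.CPd d := Iff.rfl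

variable {d : ℕ} {Ω : Set (Fin d → ℂ)} {E : Type} [NormedAddCommGroup E] [NormedSpace ℂ E]

/-- the function `1 / (1 - w)` -/
def oneW : Wd := ⟨fun w => 1 - (w : ℂ), by fun_prop⟩

lemma wp_ces_sub (n : ℕ) : ‖wp (ces n) - oneW‖ ≤ 2 / ((n : ℝ) + 1) := by
  rw [ContinuousMap.norm_le _ (by positivity)]
  intro u
  have hu : ‖(u : ℂ)‖ ≤ 1 := by
    have := u.2
    rwa [mem_closedBall_zero_iff] at this
  have h1 := congrArg (eval (u : ℂ)) (ces_mul n)
  rw [eval_mul, eval_sub, eval_one, eval_X, eval_sub, eval_one] at h1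
  have h2 : (wp (ces n) - oneW) u = -((1 - (u : ℂ)) * (pmean n).eval (u : ℂ)) := by
    rw [ContinuousMap.sub_apply, wp_apply]
    show (1 - (u : ℂ)) ^ 2 * (ces n).eval (u : ℂ) - (1 - (u : ℂ)) = _
    linear_combination (1 - (u : ℂ)) * h1
  have h3 : (1 - (u : ℂ)) * (pmean n).eval (u : ℂ) =
      (1 / ((n : ℂ) + 1)) * ((u : ℂ) * (1 - (u : ℂ) ^ (n + 1))) := by
    unfold pmean
    rw [eval_mul, eval_C, eval_finsetSum]
    have h4 := geom_sum_mul_neg (u : ℂ) (n + 1)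
    rw [← h4, Finset.sum_congr rfl fun k _ => show eval (u : ℂ) ((X : ℂ[X]) ^ (k + 1)) =
      (u : ℂ) * (u : ℂ) ^ k by rw [eval_pow, eval_X, pow_succ'], ← Finset.mul_sum]
    ring
  have h5 : ‖((1 : ℂ) / ((n : ℂ) + 1))‖ = 1 / ((n : ℝ) + 1) := by
    rw [norm_div, norm_one]
    congr 1
    have : ((n : ℂ) + 1) = (((n : ℝ) + 1 : ℝ) : ℂ) := by push_cast; rfl
    rw [this, Complex.norm_real, Real.norm_of_nonneg (by positivity)]
  rw [h2, norm_neg, h3, norm_mul, h5, norm_mul]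
  have h6 : ‖1 - (u : ℂ) ^ (n + 1)‖ ≤ 2 := by
    refine (norm_sub_le _ _).trans ?_
    rw [norm_one, norm_pow]
    have := pow_le_one₀ (n := n + 1) (norm_nonneg (u : ℂ)) hu
    linarith
  have h7 : ‖(u : ℂ)‖ * ‖1 - (u : ℂ) ^ (n + 1)‖ ≤ 2 := by
    nlinarith [norm_nonneg (u : ℂ), norm_nonneg (1 - (u : ℂ) ^ (n + 1))]
  calc 1 / ((n : ℝ) + 1) * (‖(u : ℂ)‖ * ‖1 - (u : ℂ) ^ (n + 1)‖)
      ≤ 1 / ((n : ℝ) + 1) * 2 := mul_le_mul_of_nonneg_left h7 (by positivity)
    _ = 2 / ((n : ℝ) + 1) := by ring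

/-- the element `(g, 1 / (1 - w))` -/
lemma elt_mem (B : AnSpace d Ω E)
    (hrefl : Function.Surjective (NormedSpace.inclusionInDoubleDual ℂ E))
    {V : E →L[ℂ] E} {v : (Fin d → ℂ) → ℂ} (h : B.MulBy V v) (hV : PowBdd V)
    (hv1 : ∀ w ∈ Ω, v w ≠ 1) (g : E) : (g, oneW) ∈ XS V (g - V g) := by
  by_contra hx
  obtain ⟨u, hu0, hu1⟩ := exists_functional _ (XS_closed V (g - V g)) hx
  have h1 := B.ces_tendsto hrefl h hV hv1 g (u.comp (ContinuousLinearMap.inl ℂ E Wd))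
  have h2 : Tendsto (fun n => u (0, wp (ces n))) atTop (𝓝 (u (0, oneW))) := by
    have h3 : Tendsto (fun n => wp (ces n)) atTop (𝓝 oneW) := by
      rw [tendsto_iff_norm_sub_tendsto_zero]
      refine squeeze_zero (fun n => norm_nonneg _) (fun n => wp_ces_sub n) ?_
      have h4 := (tendsto_one_div_add_atTop_nhds_zero_nat (𝕜 := ℝ)).const_mul 2
      rw [mul_zero] at h4
      refine h4.congr fun n => ?_
      ring
    exact (u.continuous.tendsto _).comp (tendsto_const_nhds.prodMk_nhds h3)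
  have h3 := h1.add h2
  have h4 : (fun n => (u.comp (ContinuousLinearMap.inl ℂ E Wd)) (aeval V (ces n) (g - V g)) +
      u (0, wp (ces n))) = fun _ => (0 : ℂ) := by
    funext n
    have h5 := hu0 _ (pair_mem V (g - V g) (ces n))
    refine Eq.trans ?_ h5
    show u (aeval V (ces n) (g - V g), 0) + u (0, wp (ces n)) = _
    rw [← map_add, Prod.mk_add_mk, add_zero, zero_add]
    rfl
  rw [h4] at h3
  have h5 := tendsto_nhds_unique h3 tendsto_const_nhds
  apply hu1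
  refine Eq.trans ?_ h5
  show _ = u (g, 0) + u (0, oneW)
  rw [← map_add, Prod.mk_add_mk, add_zero, zero_add]

end AnSpace

open AnSpace

/-- the step for `|v| < 1` -/
theorem cyclic_of_one_sub_lt {d : ℕ} {Ω : Set (Fin d → ℂ)} {E : Type} [NormedAddCommGroup E]
    [NormedSpace ℂ E] [CompleteSpace E] (B : AnSpace d Ω E)
    (hrefl : Function.Surjective (NormedSpace.inclusionInDoubleDual ℂ E)) (hcp : B.CPd 1)
    {V : E →L[ℂ] E} {v : (Fin d → ℂ) → ℂ} (h : B.MulBy V v) (hV : PowBdd V)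
    (hlt : ∀ z ∈ Ω, ‖v z‖ < 1) {g : E} (hψ : B.Cyclic (g - V g)) : B.Cyclic g := by
  have hv1 : ∀ w ∈ Ω, v w ≠ 1 := by
    intro w hw h1
    have := hlt w hw
    rw [h1, norm_one] at this
    exact lt_irrefl _ this
  set ψ : E := g - V g with hψdef
  set A := spX B h hlt ψ with hA
  -- functionals on the space
  have hfun : ∀ w : B.maxDomain, ∃ Λ : XS V ψ →L[ℂ] ℂ,
      (∀ P, Λ (A.poly P) = MvPolynomial.eval (fun _ => w.2.choose (V (B.poly 1))) P) ∧
      ∀ x : XS V ψ, w.2.choose (x : E × Wd).1 = B.ext ψ w * Λ x := by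
    intro w
    have hL := w.2.choose_spec
    set L := w.2.choose with hLdef
    have h0 : L ψ ≠ 0 := by
      have := B.cyclic_ext_ne_zero hψ w.2
      rwa [B.ext_eq hL] at this
    refine ⟨(L ψ)⁻¹ • (L.comp (ContinuousLinearMap.fst ℂ E Wd)).comp (XS V ψ).subtypeL,
      fun P => ?_, fun x => ?_⟩
    · show (L ψ)⁻¹ * L (aeval V (toP P) ψ) = _
      rw [B.aeval_functional h hL, ← toP_eval]
      field_simp
    · rw [B.ext_eq hL]
      show L (x : E × Wd).1 = L ψ * ((L ψ)⁻¹ * L (x : E × Wd).1)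
      rw [← mul_assoc, mul_inv_cancel₀ h0, one_mul]
  choose Λ hΛ1 hΛ2 using hfun
  set f : XS V ψ := ⟨(g, oneW), B.elt_mem hrefl h hV hv1 g⟩ with hf
  have hfc : A.Cyclic f := by
    -- `(1 - w) f = 1`
    have h1 : A.poly 1 ∈ A.orbit f := by
      refine ⟨1 - MvPolynomial.X 0, fun w hw => ?_⟩
      rw [A.fn_poly _ w hw]
      show _ = _ * (aW oneW (w 0) / (1 - w 0) ^ 2)
      rw [aW_of (Metric.ball_subset_closedBall (Dsk_ball hw))]
      have h2 : oneW ⟨w 0, Metric.ball_subset_closedBall (Dsk_ball hw)⟩ = 1 - w 0 := rfl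
      rw [h2]
      have h3 := Dsk_ne hw
      simp only [map_sub, map_one, MvPolynomial.eval_X]
      field_simp
    refine A.cyclic_of_mem_closure (ψ := A.poly 1) ?_ (subset_closure h1)
    have h2 : Set.range A.poly ⊆ A.orbit (A.poly 1) := by
      rintro _ ⟨P, rfl⟩
      refine ⟨P, fun w hw => ?_⟩
      rw [A.fn_poly _ w hw, A.fn_poly _ w hw, map_one, mul_one]
    have h3 : closure (Set.range A.poly) ⊆ closure (A.orbit (A.poly 1)) := closure_mono h2
    exact Set.univ_subset_iff.1 ((A.poly_dense.closure_range).symm.subset.trans h3)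
  have hres := hcp Dsk (XS V ψ) _ _ inferInstance A
    (fun w => ⟨fun _ => w.2.choose (V (B.poly 1)), ⟨Λ w, hΛ1 w⟩⟩) ψ
    ((ContinuousLinearMap.fst ℂ E Wd).comp (XS V ψ).subtypeL) hψ (fun x w => by
      rw [B.ext_eq w.2.choose_spec, A.ext_eq (hΛ1 w)]
      exact hΛ2 w x) f hfc
  exact hres

lemma AnSpace.cyclic_smul {d : ℕ} {Ω : Set (Fin d → ℂ)} {E : Type} [NormedAddCommGroup E]
    [NormedSpace ℂ E] (B : AnSpace d Ω E) {c : ℂ} (hc : c ≠ 0) {g : E} (hg : B.Cyclic g) :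
    B.Cyclic (c • g) := by
  refine B.cyclic_of_mem_closure hg (subset_closure ⟨MvPolynomial.C c⁻¹, fun w hw => ?_⟩)
  rw [map_smul, Pi.smul_apply, MvPolynomial.eval_C, smul_eq_mul, ← mul_assoc,
    inv_mul_cancel₀ hc, one_mul]

lemma powBdd_half {E : Type} [NormedAddCommGroup E] [NormedSpace ℂ E] {V : E →L[ℂ] E}
    (hV : PowBdd V) : PowBdd ((1 / 2 : ℂ) • (1 + V)) := by
  obtain ⟨C, hC⟩ := hV
  refine ⟨C, fun n => ?_⟩
  rw [_root_.smul_pow, norm_smul, norm_pow]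
  have h1 : ‖(1 / 2 : ℂ)‖ = 1 / 2 := by norm_num
  rw [h1, add_comm, (Commute.one_right V).add_pow]
  have h2 : ‖∑ m ∈ Finset.range (n + 1), V ^ m * 1 ^ (n - m) * ((n.choose m : ℕ) : E →L[ℂ] E)‖ ≤
      ∑ m ∈ Finset.range (n + 1), C * (n.choose m : ℝ) := by
    refine (norm_sum_le _ _).trans (Finset.sum_le_sum fun m _ => ?_)
    rw [one_pow, mul_one, ← nsmul_eq_mul', ← Nat.cast_smul_eq_nsmul ℂ, norm_smul, mul_comm]
    have h3 : ‖((n.choose m : ℕ) : ℂ)‖ = (n.choose m : ℝ) := by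
      rw [Complex.norm_natCast]
    rw [h3]
    exact mul_le_mul_of_nonneg_right (hC m) (Nat.cast_nonneg _)
  have h3 : ∑ m ∈ Finset.range (n + 1), C * (n.choose m : ℝ) = C * 2 ^ n := by
    rw [← Finset.mul_sum]
    congr 1
    have := Nat.sum_range_choose n
    exact_mod_cast this
  rw [h3] at h2
  calc (1 / 2 : ℝ) ^ n *
        ‖∑ m ∈ Finset.range (n + 1), V ^ m * 1 ^ (n - m) * ((n.choose m : ℕ) : E →L[ℂ] E)‖
      ≤ (1 / 2 : ℝ) ^ n * (C * 2 ^ n) := mul_le_mul_of_nonneg_left h2 (by positivity)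
    _ = C * ((1 / 2 : ℝ) ^ n * 2 ^ n) := by ring
    _ = C := by rw [← mul_pow]; norm_num

/-- (CP) for spaces of functions of one variable: if `(1 - v) g` is shift-cyclic, `v` a power
bounded multiplier, then `g` is shift-cyclic. -/
theorem cyclic_of_one_sub {d : ℕ} {Ω : Set (Fin d → ℂ)} {E : Type} [NormedAddCommGroup E]
    [NormedSpace ℂ E] [CompleteSpace E] (B : AnSpace d Ω E)
    (hrefl : Function.Surjective (NormedSpace.inclusionInDoubleDual ℂ E)) (hcp : B.CPd 1)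
    {V : E →L[ℂ] E} {v : (Fin d → ℂ) → ℂ} (h : B.MulBy V v) (hV : PowBdd V)
    {g : E} (hψ : B.Cyclic (g - V g)) : B.Cyclic g := by
  have hv1 : ∀ w ∈ Ω, v w ≠ 1 := by
    intro w hw h1
    have h2 := B.cyclic_ext_ne_zero hψ (B.subset_maxDomain hw)
    rw [B.ext_of_mem hw, map_sub, Pi.sub_apply, h _ w hw, h1, one_mul, sub_self] at h2
    exact h2 rfl
  have h' : B.MulBy ((1 / 2 : ℂ) • (1 + V)) (fun w => (1 / 2) * (1 + v w)) := by
    intro x w hw
    rw [smul_apply, add_apply, one_apply_eq_self, map_smul, map_add, Pi.smul_apply, Pi.add_apply,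
      h _ w hw, smul_eq_mul]
    ring
  refine cyclic_of_one_sub_lt B hrefl hcp h' (powBdd_half hV) (fun w hw => ?_) (g := g) ?_
  · -- `|(1 + v) / 2| < 1`
    have h1 := B.norm_le_one_of_powBdd h hV hw
    have h2 := hv1 w hw
    have h3 : ‖(1 / 2 : ℂ) * (1 + v w)‖ ^ 2 =
        (1 / 4) * (2 * (1 + ‖v w‖ ^ 2) - ‖1 - v w‖ ^ 2) := by
      have h4 := parallelogram_law_with_norm ℝ (1 : ℂ) (v w)
      rw [norm_mul, mul_pow]
      have h5 : ‖(1 / 2 : ℂ)‖ = 1 / 2 := by norm_num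
      rw [h5]
      have h6 : ‖(1 : ℂ)‖ = 1 := norm_one
      rw [h6] at h4
      nlinarith
    have h4 : 0 < ‖1 - v w‖ := norm_pos_iff.2 (sub_ne_zero.2 h2.symm)
    have h5 : ‖v w‖ ^ 2 ≤ 1 := by nlinarith [norm_nonneg (v w)]
    have h6 : ‖(1 / 2 : ℂ) * (1 + v w)‖ ^ 2 < 1 := by
      rw [h3]
      nlinarith
    nlinarith [norm_nonneg ((1 / 2 : ℂ) * (1 + v w))]
  · have e1 : g - ((1 / 2 : ℂ) • (1 + V)) g = (1 / 2 : ℂ) • (g - V g) := by
      rw [smul_apply, add_apply, one_apply_eq_self, smul_add, smul_sub]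
      have : g = (1 / 2 : ℂ) • g + (1 / 2 : ℂ) • g := by
        rw [← add_smul]
        norm_num
      nth_rewrite 1 [this]
      abel
    rw [e1]
    exact B.cyclic_smul (by norm_num) hψ

end Pool.Agent.CycP
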