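import Pool.Agent.CycP.SmC

set_option autoImplicit false
set_option linter.unusedSectionVars false

/-! Reflexive spaces of Smirnov type, that is, all functions are `u ψ₀ / (1 - v)` with multipliers
`u`, `v`: (CP) holds if and only if multiplier-cyclic functions are shift-cyclic. -/

open Filter Topology Polynomial

noncomputable section

namespace Pool.Agent.CycP

namespace AnSpace

variable {d : ℕ} {Ω : Set (Fin d → ℂ)} {E : Type} [NormedAddCommGroup E] [NormedSpace ℂ E]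

lemma MulBy.add {A : AnSpace d Ω E} {V V' : E →L[ℂ] E} {v v' : (Fin d → ℂ) → ℂ}
    (h : A.MulBy V v) (h' : A.MulBy V' v') : A.MulBy (V + V') (fun w => v w + v' w) := by
  intro x w hw
  rw [add_apply, map_add, Pi.add_apply, h _ w hw, h' _ w hw, add_mul]

lemma MulBy.smul {A : AnSpace d Ω E} {V : E →L[ℂ] E} {v : (Fin d → ℂ) → ℂ}
    (h : A.MulBy V v) (c : ℂ) : A.MulBy (c • V) (fun w => c * v w) := by
  intro x w hw
  rw [smul_apply, map_smul, Pi.smul_apply, h _ w hw, smul_eq_mul, mul_assoc]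

lemma mulBy_one (A : AnSpace d Ω E) : A.MulBy 1 (fun _ => 1) := by
  intro x w _
  rw [one_apply_eq_self, one_mul]

lemma mulBy_zero (A : AnSpace d Ω E) : A.MulBy 0 (fun _ => 0) := by
  intro x w _
  simp

/-- the closed subspace spanned by the multiples of `g` -/
def msp (B : AnSpace d Ω E) (g : E) : Submodule ℂ E :=
  Submodule.topologicalClosure
    { carrier := {x | ∃ (M : E →L[ℂ] E) (h : (Fin d → ℂ) → ℂ), B.MulBy M h ∧ x = M g}
      add_mem' := by
        rintro _ _ ⟨M, h, hM, rfl⟩ ⟨M', h', hM', rfl⟩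
        exact ⟨M + M', _, hM.add hM', rfl⟩
      zero_mem' := ⟨0, _, B.mulBy_zero, rfl⟩
      smul_mem' := by
        rintro c _ ⟨M, h, hM, rfl⟩
        exact ⟨c • M, _, hM.smul c, rfl⟩ }

lemma msp_closed (B : AnSpace d Ω E) (g : E) : IsClosed (B.msp g : Set E) :=
  Submodule.isClosed_topologicalClosure _

lemma mem_msp {B : AnSpace d Ω E} {g x : E} : x ∈ B.msp g ↔
    x ∈ closure {x | ∃ (M : E →L[ℂ] E) (h : (Fin d → ℂ) → ℂ), B.MulBy M h ∧ x = M g} := Iff.rfl

lemma MulBy.mem_msp {B : AnSpace d Ω E} {M : E →L[ℂ] E} {h : (Fin d → ℂ) → ℂ}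
    (hM : B.MulBy M h) (g : E) : M g ∈ B.msp g := subset_closure ⟨M, h, hM, rfl⟩

lemma self_mem_msp (B : AnSpace d Ω E) (g : E) : g ∈ B.msp g := B.mulBy_one.mem_msp g

/-- invariance under all multiplication operators -/
def MInv (B : AnSpace d Ω E) (N : Submodule ℂ E) : Prop :=
  ∀ (M : E →L[ℂ] E) (h : (Fin d → ℂ) → ℂ), B.MulBy M h → ∀ x ∈ N, M x ∈ N

lemma msp_inv (B : AnSpace d Ω E) (g : E) : B.MInv (B.msp g) := by
  intro M h hM x hx
  have h1 : M '' closure {x | ∃ (M : E →L[ℂ] E) (h : (Fin d → ℂ) → ℂ), B.MulBy M h ∧ x = M g} ⊆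
      closure {x | ∃ (M : E →L[ℂ] E) (h : (Fin d → ℂ) → ℂ), B.MulBy M h ∧ x = M g} := by
    refine (image_closure_subset_closure_image M.continuous).trans (closure_mono ?_)
    rintro _ ⟨_, ⟨M', h', hM', rfl⟩, rfl⟩
    exact ⟨M.comp M', _, hM.comp hM', rfl⟩
  exact h1 ⟨x, hx, rfl⟩

lemma msp_le {B : AnSpace d Ω E} {N : Submodule ℂ E} (hN : IsClosed (N : Set E))
    (hI : B.MInv N) {g : E} (hg : g ∈ N) : B.msp g ≤ N := by
  intro x hx
  have h1 : closure {x | ∃ (M : E →L[ℂ] E) (h : (Fin d → ℂ) → ℂ), B.MulBy M h ∧ x = M g} ⊆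
      (N : Set E) := by
    refine closure_minimal ?_ hN
    rintro _ ⟨M, h, hM, rfl⟩
    exact hI M h hM g hg
  exact h1 hx

lemma multCyclic_iff [CompleteSpace E] (B : AnSpace d Ω E) (g : E) :
    B.MultCyclic g ↔ B.msp g = ⊤ := by
  have h1 : {x | ∃ h, B.IsMultiplier h ∧ ∀ w ∈ Ω, B.fn x w = h w * B.fn g w} =
      {x | ∃ (M : E →L[ℂ] E) (h : (Fin d → ℂ) → ℂ), B.MulBy M h ∧ x = M g} := by
    ext x
    constructor
    · rintro ⟨h, hh, hx⟩
      obtain ⟨M, hM⟩ := hh.exists_opr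
      exact ⟨M, h, hM, B.fn_ext fun w hw => by rw [hx w hw, hM g w hw]⟩
    · rintro ⟨M, h, hM, rfl⟩
      exact ⟨h, hM.isMultiplier, hM g⟩
  unfold MultCyclic
  rw [h1, Submodule.eq_top_iff', Set.eq_univ_iff_forall]
  exact Iff.rfl

/-- the orbit of `g` is contained in the closed subspace spanned by the multiples -/
lemma closure_orbit_le (B : AnSpace d Ω E) (g : E) : closure (B.orbit g) ⊆ (B.msp g : Set E) := by
  refine closure_minimal ?_ (B.msp_closed g)
  rintro x ⟨P, hP⟩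
  obtain ⟨M, hM⟩ := B.exists_mul P
  have : x = M g := B.fn_ext fun w hw => by rw [hP w hw, hM g w hw]
  rw [this]
  exact MulBy.mem_msp (h := fun w => MvPolynomial.eval w P) hM g

lemma Cyclic.msp_eq {B : AnSpace d Ω E} {g : E} (hg : B.Cyclic g) : B.msp g = ⊤ := by
  rw [Submodule.eq_top_iff']
  intro x
  apply B.closure_orbit_le
  rw [hg]
  trivial

/-- Every function is `u ψ₀ / (1 - v)` with multipliers `u`, `v`, the multiplication by `v`
having the property `P`. -/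
def Smirnov (B : AnSpace d Ω E) (P : (E →L[ℂ] E) → Prop) (ψ₀ : E) : Prop :=
  ∀ F : E, ∃ (U V : E →L[ℂ] E) (u v : (Fin d → ℂ) → ℂ), B.MulBy U u ∧ B.MulBy V v ∧ P V ∧
    (∀ w ∈ Ω, v w ≠ 1) ∧ F - V F = U ψ₀

variable {P : (E →L[ℂ] E) → Prop}

/-- a multiplier with dense range maps shift-cyclic functions to shift-cyclic functions -/
lemma cyclic_of_dense (B : AnSpace d Ω E) {U : E →L[ℂ] E} {u : (Fin d → ℂ) → ℂ}
    (hU : B.MulBy U u) (hd : DenseRange U) {ψ : E} (hψ : B.Cyclic ψ) : B.Cyclic (U ψ) := by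
  have h1 : U '' closure (B.orbit ψ) ⊆ closure (B.orbit (U ψ)) := by
    refine (image_closure_subset_closure_image U.continuous).trans (closure_mono ?_)
    rintro _ ⟨x, ⟨Q, hQ⟩, rfl⟩
    refine ⟨Q, fun w hw => ?_⟩
    rw [hU _ w hw, hQ w hw, hU _ w hw]
    ring
  rw [hψ, Set.image_univ] at h1
  have h2 : closure (Set.range U) ⊆ closure (B.orbit (U ψ)) :=
    closure_minimal h1 isClosed_closure
  exact Set.univ_subset_iff.1 (hd.closure_range.symm.subset.trans h2)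

/-- from `(1 - v) g` to `g` -/
theorem cyclic_of_multCyclic_smirnov [CompleteSpace E] (B : AnSpace d Ω E)
    (hrefl : Function.Surjective (NormedSpace.inclusionInDoubleDual ℂ E))
    (hP : ∀ V, P V → PowBdd V) {ψ₀ : E} (hψ₀ : B.Cyclic ψ₀) (hS : B.Smirnov P ψ₀)
    (hiv : ∀ (V : E →L[ℂ] E) (v : (Fin d → ℂ) → ℂ) (g : E), B.MulBy V v → P V →
      B.Cyclic (g - V g) → B.Cyclic g) {g : E} (hg : B.MultCyclic g) : B.Cyclic g := by
  rw [multCyclic_iff] at hg
  obtain ⟨U, V, u, v, hU, hV, hPV, hv1, he⟩ := hS g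
  refine hiv V v g hV hPV ?_
  rw [he]
  refine B.cyclic_of_dense hU ?_ hψ₀
  have h1 : B.msp (U ψ₀) = ⊤ := by
    rw [eq_top_iff, ← hg]
    refine msp_le (B.msp_closed _) (B.msp_inv _) ?_
    refine B.mem_of_one_sub hrefl hV (hP V hPV) hv1 (B.msp_closed _)
      (fun x hx => B.msp_inv _ V v hV x hx) ?_
    rw [he]
    exact B.self_mem_msp _
  intro y
  have h2 : y ∈ B.msp (U ψ₀) := by rw [h1]; trivial
  rw [mem_msp] at h2
  refine closure_mono ?_ h2
  rintro _ ⟨M, h, hM, rfl⟩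
  exact ⟨M ψ₀, hU.comm hM ψ₀⟩

/-- the main step: if `F g = G ψ` with `ψ` cyclic then `G` is in the invariant subspace of `g` -/
theorem Smirnov.mem_msp {B : AnSpace d Ω E}
    (hrefl : Function.Surjective (NormedSpace.inclusionInDoubleDual ℂ E))
    (hP : ∀ V, P V → PowBdd V) {ψ₀ : E} (hψ₀ : ∀ w ∈ Ω, B.fn ψ₀ w ≠ 0) (hS : B.Smirnov P ψ₀)
    {ψ g F G : E} (hψ : B.msp ψ = ⊤)
    (h : ∀ w ∈ Ω, B.fn F w * B.fn g w = B.fn G w * B.fn ψ w)
    (hψ0 : ∀ w ∈ Ω, B.fn ψ w ≠ 0) : G ∈ B.msp g := by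
  obtain ⟨A1, V1, u1, v1, hA1, hV1, hn1, hv1, he1⟩ := hS F
  obtain ⟨A2, V2, u2, v2, hA2, hV2, hn2, hv2, he2⟩ := hS ψ
  obtain ⟨A3, V3, u3, v3, hA3, hV3, hn3, hv3, he3⟩ := hS G
  set N := B.msp g with hNdef
  have hN : IsClosed (N : Set E) := B.msp_closed g
  have hI : B.MInv N := B.msp_inv g
  have hg : g ∈ N := B.self_mem_msp g
  -- `u2 G` is in the subspace
  have s1 : A2 G ∈ N := by
    refine B.mem_of_one_sub hrefl hV1 (hP _ hn1) hv1 hN (hI V1 v1 hV1) ?_
    have e1 : A2 G - V1 (A2 G) = A1 (g - V2 g) := by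
      refine B.fn_ext fun z hz => ?_
      have f1 := congrArg (fun x => B.fn x z) he1
      have f2 := congrArg (fun x => B.fn x z) he2
      simp only [map_sub, Pi.sub_apply, hA1 _ z hz, hV1 _ z hz, hA2 _ z hz, hV2 _ z hz] at f1 f2
      rw [map_sub, Pi.sub_apply, hV1 _ z hz, hA2 _ z hz, hA1 _ z hz, map_sub, Pi.sub_apply,
        hV2 _ z hz]
      have h1 := h z hz
      have h2 := hψ₀ z hz
      have h3 := hψ0 z hz
      refine mul_left_cancel₀ h2 (mul_left_cancel₀ h3 ?_)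
      linear_combination -(1 - v1 z) * B.fn G z * B.fn ψ z * f2 +
        (1 - v2 z) * B.fn g z * B.fn ψ z * f1 -
        (1 - v1 z) * (1 - v2 z) * B.fn ψ z * h1
    rw [e1]
    exact hI A1 _ hA1 _ (N.sub_mem hg (hI V2 _ hV2 g hg))
  -- `u3 u2 ψ₀` is in the subspace
  have s2 : A3 (A2 ψ₀) ∈ N := by
    have e1 : A3 (A2 ψ₀) = A2 G - V3 (A2 G) := by
      rw [hA3.comm hA2, ← he3, map_sub, hA2.comm hV3]
    rw [e1]
    exact N.sub_mem s1 (hI V3 _ hV3 _ s1)
  -- `u2 ψ₀` is cyclic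
  have s3 : B.msp (A2 ψ₀) = ⊤ := by
    rw [eq_top_iff, ← hψ]
    refine msp_le (B.msp_closed _) (B.msp_inv _) ?_
    refine B.mem_of_one_sub hrefl hV2 (hP _ hn2) hv2 (B.msp_closed _)
      (B.msp_inv _ V2 v2 hV2) ?_
    rw [he2]
    exact B.self_mem_msp _
  -- `u3 ψ₀` is in the subspace
  have s4 : A3 ψ₀ ∈ N := by
    have h1 : ψ₀ ∈ B.msp (A2 ψ₀) := by rw [s3]; trivial
    rw [AnSpace.mem_msp] at h1
    have h2 : A3 '' closure {x | ∃ (M : E →L[ℂ] E) (h : (Fin d → ℂ) → ℂ), B.MulBy M h ∧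
        x = M (A2 ψ₀)} ⊆ (N : Set E) := by
      refine (image_closure_subset_closure_image A3.continuous).trans (closure_minimal ?_ hN)
      rintro _ ⟨_, ⟨M, h', hM, rfl⟩, rfl⟩
      rw [hA3.comm hM]
      exact hI M _ hM _ s2
    exact h2 ⟨ψ₀, h1, rfl⟩
  refine B.mem_of_one_sub hrefl hV3 (hP _ hn3) hv3 hN (hI V3 _ hV3) ?_
  rw [he3]
  exact s4

/-- Spaces of Smirnov type in which multiplier-cyclic functions are shift-cyclic have (CP). -/
theorem Smirnov.cp [CompleteSpace E] {B : AnSpace d Ω E}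
    (hrefl : Function.Surjective (NormedSpace.inclusionInDoubleDual ℂ E))
    (hP : ∀ V, P V → PowBdd V) {ψ₀ : E} (hψ₀ : ∀ w ∈ Ω, B.fn ψ₀ w ≠ 0) (hS : B.Smirnov P ψ₀)
    (hmc : ∀ g, B.MultCyclic g → B.Cyclic g) : B.CP := by
  intro e Ω' X _ _ _ A φ ψ T hψ hT f hf
  apply hmc
  rw [multCyclic_iff]
  set g : E := T f with hg
  have hψtop : B.msp ψ = ⊤ := hψ.msp_eq
  have hψ0 : ∀ w ∈ Ω, B.fn ψ w ≠ 0 := by
    intro w hw
    have := B.cyclic_ext_ne_zero hψ (B.subset_maxDomain hw)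
    rwa [B.ext_of_mem hw] at this
  have hT1 : T (A.poly 1) = ψ := by
    apply B.fn_ext
    intro w hw
    have h4 := hT (A.poly 1) ⟨w, B.subset_maxDomain hw⟩
    simp only at h4
    obtain ⟨L, hL⟩ := (φ ⟨w, B.subset_maxDomain hw⟩).2
    rw [A.ext_eq hL, hL 1, B.ext_of_mem hw, B.ext_of_mem hw] at h4
    simpa using h4
  have h1 : ∀ x ∈ A.orbit f, T x ∈ B.msp g := by
    rintro x ⟨Q, hQ⟩
    refine hS.mem_msp hrefl hP hψ₀ (F := T (A.poly Q)) hψtop (fun w hw => ?_) hψ0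
    have h2 := hT (A.poly Q) ⟨w, B.subset_maxDomain hw⟩
    have h3 := hT x ⟨w, B.subset_maxDomain hw⟩
    have h4 := hT f ⟨w, B.subset_maxDomain hw⟩
    simp only at h2 h3 h4
    have h5 := A.ext_mul (φ ⟨w, B.subset_maxDomain hw⟩).2 hQ
    obtain ⟨L, hL⟩ := (φ ⟨w, B.subset_maxDomain hw⟩).2
    rw [A.ext_eq hL, hL Q, B.ext_of_mem hw, B.ext_of_mem hw] at h2
    rw [B.ext_of_mem hw, B.ext_of_mem hw] at h3 h4
    rw [h2, h3, hg, h4, h5]
    ring
  have h2 : ψ ∈ B.msp g := by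
    have h3 : T '' closure (A.orbit f) ⊆ (B.msp g : Set E) := by
      refine (image_closure_subset_closure_image T.continuous).trans
        (closure_minimal ?_ (B.msp_closed g))
      rintro _ ⟨x, hx, rfl⟩
      exact h1 x hx
    rw [← hT1]
    apply h3
    refine ⟨A.poly 1, ?_, rfl⟩
    rw [hf]
    trivial
  rw [eq_top_iff, ← hψtop]
  exact msp_le (B.msp_closed g) (B.msp_inv g) h2

/-- Spaces of Smirnov type: equivalent forms of (CP). -/
theorem Smirnov.tfae [CompleteSpace E] {B : AnSpace d Ω E}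
    (hrefl : Function.Surjective (NormedSpace.inclusionInDoubleDual ℂ E))
    (hP : ∀ V, P V → PowBdd V) {ψ₀ : E} (hψ₀ : B.Cyclic ψ₀) (hS : B.Smirnov P ψ₀) :
    List.TFAE [B.CP, B.CPd 1, ∀ g, B.MultCyclic g → B.Cyclic g,
      ∀ (V : E →L[ℂ] E) (v : (Fin d → ℂ) → ℂ) (g : E), B.MulBy V v → P V →
        B.Cyclic (g - V g) → B.Cyclic g] := by
  have h0 : ∀ w ∈ Ω, B.fn ψ₀ w ≠ 0 := by
    intro w hw
    have := B.cyclic_ext_ne_zero hψ₀ (B.subset_maxDomain hw)
    rwa [B.ext_of_mem hw] at this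
  tfae_have 1 → 2 := fun h => h 1
  tfae_have 2 → 4 := fun h V v g hV hPV hg => cyclic_of_one_sub B hrefl h hV (hP V hPV) hg
  tfae_have 4 → 3 := fun h g hg => B.cyclic_of_multCyclic_smirnov hrefl hP hψ₀ hS h hg
  tfae_have 3 → 1 := fun h => hS.cp hrefl hP h0 h
  tfae_finish

/-- Every function is a multiplier times a multiplier-cyclic function. -/
def Factors (B : AnSpace d Ω E) : Prop :=
  ∀ F : E, ∃ (Θ : E →L[ℂ] E) (θ : (Fin d → ℂ) → ℂ) (G : E), B.MulBy Θ θ ∧ B.MultCyclic G ∧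
    F = Θ G

/-- Every closed shift-invariant subspace is invariant under all multipliers. -/
def Lattice (B : AnSpace d Ω E) : Prop :=
  ∀ N : Submodule ℂ E, IsClosed (N : Set E) → (∀ j, ∀ f ∈ N, B.shift j f ∈ N) →
    ∀ h, B.IsMultiplier h → ∀ f ∈ N, ∀ y, (∀ w ∈ Ω, B.fn y w = h w * B.fn f w) → y ∈ N

lemma poly_mem_of_inv (B : AnSpace d Ω E) {N : Submodule ℂ E}
    (hN : ∀ j, ∀ f ∈ N, B.shift j f ∈ N) (P : MvPolynomial (Fin d) ℂ) :
    ∀ f ∈ N, ∀ y, (∀ w ∈ Ω, B.fn y w = MvPolynomial.eval w P * B.fn f w) → y ∈ N := by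
  induction P using MvPolynomial.induction_on with
  | C a =>
    intro f hf y hy
    have : y = a • f := B.fn_ext fun w hw => by rw [hy w hw]; simp
    rw [this]
    exact N.smul_mem _ hf
  | add P Q hP hQ =>
    intro f hf y hy
    obtain ⟨MP, hMP⟩ := B.exists_mul P
    obtain ⟨MQ, hMQ⟩ := B.exists_mul Q
    have : y = MP f + MQ f := B.fn_ext fun w hw => by
      rw [hy w hw, map_add, map_add, Pi.add_apply, hMP f w hw, hMQ f w hw, add_mul]
    rw [this]
    exact N.add_mem (hP f hf _ (hMP f)) (hQ f hf _ (hMQ f))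
  | mul_X P j hP =>
    intro f hf y hy
    obtain ⟨MP, hMP⟩ := B.exists_mul P
    have : y = B.shift j (MP f) := B.fn_ext fun w hw => by
      rw [hy w hw, B.fn_shift j _ w hw, hMP f w hw, map_mul, MvPolynomial.eval_X]
      ring
    rw [this]
    exact hN j _ (hP f hf _ (hMP f))

/-- the closed shift-invariant subspace generated by `f` -/
def zsp (B : AnSpace d Ω E) (f : E) : Submodule ℂ E :=
  Submodule.topologicalClosure
    { carrier := B.orbit f
      add_mem' := by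
        rintro x y ⟨P, hP⟩ ⟨Q, hQ⟩
        refine ⟨P + Q, fun w hw => ?_⟩
        rw [map_add, Pi.add_apply, hP w hw, hQ w hw, map_add, add_mul]
      zero_mem' := ⟨0, fun w _ => by simp⟩
      smul_mem' := by
        rintro c x ⟨P, hP⟩
        refine ⟨MvPolynomial.C c * P, fun w hw => ?_⟩
        rw [map_smul, Pi.smul_apply, hP w hw, map_mul, MvPolynomial.eval_C, smul_eq_mul]
        ring }

lemma coe_zsp (B : AnSpace d Ω E) (f : E) : (B.zsp f : Set E) = closure (B.orbit f) := rfl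

lemma Factors.lattice_iff [CompleteSpace E] {B : AnSpace d Ω E} (hF : B.Factors) :
    (∀ g, B.MultCyclic g → B.Cyclic g) ↔ B.Lattice := by
  constructor
  · intro hmc N hN hshift h hh f hf y hy
    obtain ⟨Θ, θ, G, hΘ, hG, rfl⟩ := hF f
    obtain ⟨M, hM⟩ := hh.exists_opr
    have hyM : y = M (Θ G) := B.fn_ext fun w hw => by rw [hy w hw, hM _ w hw]
    by_contra hyN
    obtain ⟨u, hu0, hu1⟩ := exists_functional N hN hyN
    have h1 : ∀ x : E, u (Θ x) = 0 := by
      intro x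
      have h2 : closure (B.orbit G) ⊆ {x | u (Θ x) = 0} := by
        refine closure_minimal ?_ (isClosed_eq (u.continuous.comp Θ.continuous)
          continuous_const)
        rintro z ⟨P, hP⟩
        refine hu0 _ (B.poly_mem_of_inv hshift P _ hf _ fun w hw => ?_)
        rw [hΘ _ w hw, hP w hw, hΘ _ w hw]
        ring
      rw [hmc G hG] at h2
      exact h2 (Set.mem_univ x)
    apply hu1
    rw [hyM, hM.comm hΘ]
    exact h1 _
  · intro hL g hg
    rw [multCyclic_iff] at hg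
    have h1 : B.msp g ≤ B.zsp g := by
      refine msp_le (Submodule.isClosed_topologicalClosure _) ?_ ?_
      · intro M h hM x hx
        refine hL (B.zsp g) (Submodule.isClosed_topologicalClosure _) (fun j f hf => ?_) h
          hM.isMultiplier x hx _ (hM x)
        have h2 : B.shift j f ∈ closure (B.orbit g) := by
          refine B.mul_mem_closure (Q := MvPolynomial.X j) (fun x w hw => ?_) hf
          rw [MvPolynomial.eval_X]
          exact B.fn_shift j x w hw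
        exact h2
      · exact subset_closure ⟨1, fun w _ => by rw [map_one, one_mul]⟩
    rw [hg, top_le_iff] at h1
    unfold Cyclic
    rw [← coe_zsp, h1]
    rfl

end AnSpace

end Pool.Agent.CycP
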