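import Mathlib

set_option autoImplicit false
set_option linter.unusedSectionVars false

/-! The full Fock space over countably many letters: the creation operators, and the wandering
vector of a cyclic subspace. -/

open ComplexConjugate Filter Topology

noncomputable section

namespace Pool.Agent.CycP.Fock

/-! ### sums over words -/

/-- the product of the letters -/
def wd {R : Type} [CommMonoid R] (c : ℕ → R) (α : List ℕ) : R := (α.map c).prod

lemma wd_nil {R : Type} [CommMonoid R] (c : ℕ → R) : wd c [] = 1 := rfl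

lemma wd_cons {R : Type} [CommMonoid R] (c : ℕ → R) (n : ℕ) (α : List ℕ) :
    wd c (n :: α) = c n * wd c α := by simp [wd]

lemma wd_nonneg {c : ℕ → ℝ} (hc : ∀ n, 0 ≤ c n) (α : List ℕ) : 0 ≤ wd c α := by
  induction α with
  | nil => rw [wd_nil]; exact zero_le_one
  | cons n α ih => rw [wd_cons]; exact mul_nonneg (hc n) ih

lemma sum_wd_le {c : ℕ → ℝ} (hc : ∀ n, 0 ≤ c n) {q : ℝ} (hq : HasSum c q) (hq1 : q < 1) (L : ℕ) :
    ∀ u : Finset (List ℕ), (∀ α ∈ u, α.length ≤ L) → ∑ α ∈ u, wd c α ≤ 1 / (1 - q) := by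
  classical
  have hq0 : 0 ≤ q := hq.nonneg hc
  have h1q : 1 ≤ 1 / (1 - q) := by
    rw [le_div_iff₀ (by linarith)]
    linarith
  induction L with
  | zero =>
    intro u hu
    have h1 : u ⊆ {[]} := by
      intro α hα
      have := hu α hα
      rw [Finset.mem_singleton]
      exact List.length_eq_zero_iff.1 (by omega)
    refine (Finset.sum_le_sum_of_subset_of_nonneg h1 fun α _ _ => wd_nonneg hc α).trans ?_
    rw [Finset.sum_singleton, wd_nil]
    exact h1q
  | succ L ih =>
    intro u hu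
    set u' := u.filter (fun α => α ≠ []) with hu'
    have h1 : ∑ α ∈ u, wd c α ≤ 1 + ∑ α ∈ u', wd c α := by
      have h2 : u ⊆ insert [] u' := by
        intro α hα
        by_cases h : α = []
        · rw [h]; exact Finset.mem_insert_self _ _
        · exact Finset.mem_insert_of_mem (Finset.mem_filter.2 ⟨hα, h⟩)
      refine (Finset.sum_le_sum_of_subset_of_nonneg h2 fun α _ _ => wd_nonneg hc α).trans ?_
      rw [Finset.sum_insert (by simp [hu']), wd_nil]
    set g : List ℕ → ℕ × List ℕ := fun α => (α.headI, α.tail) with hg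
    have hcons : ∀ α ∈ u', (g α).1 :: (g α).2 = α := by
      intro α hα
      have h2 := (Finset.mem_filter.1 hα).2
      cases α with
      | nil => exact absurd rfl h2
      | cons n α => rfl
    have hinj : Set.InjOn g u' := by
      intro α hα α' hα' h
      rw [← hcons α hα, ← hcons α' hα', h]
    have h3 : ∑ α ∈ u', wd c α = ∑ x ∈ u'.image g, c x.1 * wd c x.2 := by
      rw [Finset.sum_image hinj]
      refine Finset.sum_congr rfl fun α hα => ?_
      rw [← wd_cons, hcons α hα]
    set N := (u'.image g).image Prod.fst with hN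
    set W := (u'.image g).image Prod.snd with hW
    have h4 : u'.image g ⊆ N ×ˢ W := by
      intro x hx
      rw [Finset.mem_product]
      exact ⟨Finset.mem_image_of_mem _ hx, Finset.mem_image_of_mem _ hx⟩
    have h5 : ∑ x ∈ u'.image g, c x.1 * wd c x.2 ≤ (∑ n ∈ N, c n) * ∑ α ∈ W, wd c α := by
      rw [Finset.sum_mul_sum, ← Finset.sum_product']
      exact Finset.sum_le_sum_of_subset_of_nonneg h4 fun x _ _ =>
        mul_nonneg (hc _) (wd_nonneg hc _)
    have h6 : ∑ α ∈ W, wd c α ≤ 1 / (1 - q) := by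
      refine ih W fun β hβ => ?_
      obtain ⟨x, hx, rfl⟩ := Finset.mem_image.1 hβ
      obtain ⟨α, hα, rfl⟩ := Finset.mem_image.1 hx
      have h7 := hu α (Finset.mem_filter.1 hα).1
      show α.tail.length ≤ L
      rw [List.length_tail]
      omega
    have h7 : ∑ n ∈ N, c n ≤ q := sum_le_hasSum N (fun n _ => hc n) hq
    have h8 : (∑ n ∈ N, c n) * ∑ α ∈ W, wd c α ≤ q * (1 / (1 - q)) :=
      mul_le_mul h7 h6 (Finset.sum_nonneg fun α _ => wd_nonneg hc α) hq0
    have h9 : 1 + q * (1 / (1 - q)) = 1 / (1 - q) := by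
      have : 1 - q ≠ 0 := by linarith
      field_simp
      ring
    linarith

lemma summable_wd {c : ℕ → ℝ} (hc : ∀ n, 0 ≤ c n) {q : ℝ} (hq : HasSum c q) (hq1 : q < 1) :
    Summable (wd c) := by
  refine summable_of_sum_le (fun α => wd_nonneg hc α) (c := 1 / (1 - q)) fun u => ?_
  refine sum_wd_le hc hq hq1 (u.sup List.length) u fun α hα => ?_
  exact Finset.le_sup (f := List.length) hα

/-- the geometric series over words -/
lemma tsum_wd {c : ℕ → ℂ} {s : ℂ} (hs : HasSum c s) (hc : Summable fun n => ‖c n‖)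
    (hw : Summable fun α => ‖wd c α‖) : (∑' α, wd c α) * (1 - s) = 1 := by
  classical
  have hw' : Summable (wd c) := hw.of_norm
  have h1 := hw'.tsum_eq_add_tsum_ite ([] : List ℕ)
  set f : List ℕ → ℂ := fun α => if α = [] then 0 else wd c α with hf
  set g : ℕ × List ℕ → List ℕ := fun x => x.1 :: x.2 with hg
  have hinj : Function.Injective g := by
    intro x y hxy
    simp only [hg, List.cons.injEq] at hxy
    exact Prod.ext hxy.1 hxy.2
  have hsupp : Function.support f ⊆ Set.range g := by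
    intro α hα
    cases α with
    | nil => exact absurd (by simp [hf]) hα
    | cons n α => exact ⟨(n, α), rfl⟩
  have h2 : ∑' x, f (g x) = ∑' α, f α := hinj.tsum_eq hsupp
  have h3 : ∑' x : ℕ × List ℕ, f (g x) = s * ∑' α, wd c α := by
    have h4 : ∀ x : ℕ × List ℕ, f (g x) = c x.1 * wd c x.2 := by
      intro x
      simp only [hf, hg, reduceCtorEq, if_false]
      exact wd_cons c x.1 x.2
    simp only [h4]
    rw [← hs.tsum_eq]
    exact (tsum_mul_tsum_of_summable_norm hc hw).symm
  rw [wd_nil] at h1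
  have h5 : ∑' α, f α = s * ∑' α, wd c α := by rw [← h2, h3]
  have h6 : ∑' α, wd c α = 1 + s * ∑' α, wd c α := by
    rw [← h5]
    exact h1
  linear_combination h6

/-! ### the Fock space -/

/-- the full Fock space -/
abbrev FF : Type := lp (fun _ : List ℕ => ℂ) 2

/-- the basis -/
def ee (α : List ℕ) : FF := lp.single 2 α (1 : ℂ)

lemma inner_ee_left (α : List ℕ) (f : FF) : inner ℂ (ee α) f = f α := by
  unfold ee
  rw [lp.inner_single_left]
  simp

lemma ee_apply (α β : List ℕ) : (ee α : List ℕ → ℂ) β = if β = α then 1 else 0 := by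
  unfold ee
  rw [lp.single_apply]
  split_ifs with h
  · subst h; exact Pi.single_eq_same _ _
  · exact Pi.single_eq_of_ne h _

lemma orthonormal_ee : Orthonormal ℂ ee := by
  rw [orthonormal_iff_ite]
  intro α β
  rw [inner_ee_left, ee_apply]

lemma hasSum_ee (f : FF) : HasSum (fun α => f α • ee α) f := by
  have h1 := lp.hasSum_single (E := fun _ : List ℕ => ℂ) (p := 2) (by norm_num) f
  have h2 : (fun α => f α • ee α) = fun α => lp.single (E := fun _ : List ℕ => ℂ) 2 α (f α) := by
    funext α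
    unfold ee
    rw [← lp.single_smul, smul_eq_mul, mul_one]
  rw [h2]
  exact h1

section maps

variable {F : Type} [NormedAddCommGroup F]

lemma mem_of_ee [NormedSpace ℂ F] {N : Submodule ℂ F} (hN : IsClosed (N : Set F))
    (T : FF →L[ℂ] F) (h : ∀ α, T (ee α) ∈ N) (x : FF) : T x ∈ N := by
  have h1 := T.hasSum (hasSum_ee x)
  refine hN.mem_of_tendsto h1 (Eventually.of_forall fun s => ?_)
  refine N.sum_mem fun α _ => ?_
  show T (x α • ee α) ∈ N
  rw [map_smul]
  exact N.smul_mem _ (h α)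

lemma clm_ext [NormedSpace ℂ F] {T T' : FF →L[ℂ] F} (h : ∀ α, T (ee α) = T' (ee α)) (x : FF) :
    T x = T' x := by
  have h1 := mem_of_ee (N := (⊥ : Submodule ℂ F)) isClosed_singleton (T - T') (fun α => by
    rw [sub_apply, h α, sub_self]
    exact Submodule.zero_mem _) x
  rw [Submodule.mem_bot, sub_apply] at h1
  exact sub_eq_zero.1 h1

/-- the isometry given by an orthonormal family -/
lemma exists_iso [InnerProductSpace ℂ F] [CompleteSpace F] {v : List ℕ → F}
    (hv : Orthonormal ℂ v) : ∃ Θ : FF →L[ℂ] F, (∀ α, Θ (ee α) = v α) ∧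
      ∀ x y, inner ℂ (Θ x) (Θ y) = inner ℂ x y := by
  refine ⟨(hv.orthogonalFamily.linearIsometry).toContinuousLinearMap, fun α => ?_, fun x y => ?_⟩
  · show hv.orthogonalFamily.linearIsometry (lp.single 2 α (1 : ℂ)) = v α
    rw [OrthogonalFamily.linearIsometry_apply_single]
    simp
  · exact LinearIsometry.inner_map_map _ x y

end maps

lemma exists_RR (n : ℕ) : ∃ R : FF →L[ℂ] FF, (∀ α, R (ee α) = ee (n :: α)) ∧
    ∀ x y, inner ℂ (R x) (R y) = inner ℂ x y := by
  apply exists_iso
  rw [orthonormal_iff_ite]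
  intro α β
  rw [inner_ee_left, ee_apply]
  by_cases h : α = β
  · rw [if_pos h, if_pos (by rw [h])]
  · rw [if_neg h, if_neg]
    intro h1
    exact h (List.cons.inj h1).2

/-- the creation operators -/
def RR (n : ℕ) : FF →L[ℂ] FF := (exists_RR n).choose

lemma RR_ee (n : ℕ) (α : List ℕ) : RR n (ee α) = ee (n :: α) := (exists_RR n).choose_spec.1 α

lemma RR_inner (n : ℕ) (x y : FF) : inner ℂ (RR n x) (RR n y) = inner ℂ x y :=
  (exists_RR n).choose_spec.2 x y

/-- the annihilation operators -/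
def RA (n : ℕ) : FF →L[ℂ] FF := ContinuousLinearMap.adjoint (RR n)

lemma RA_apply (n : ℕ) (y : FF) (α : List ℕ) : RA n y α = y (n :: α) := by
  rw [← inner_ee_left, RA, ContinuousLinearMap.adjoint_inner_right, RR_ee, inner_ee_left]

lemma inner_RA (n : ℕ) (x y : FF) : inner ℂ x (RA n y) = inner ℂ (RR n x) y := by
  rw [RA, ContinuousLinearMap.adjoint_inner_right]

lemma RA_RR_self (n : ℕ) (x : FF) : RA n (RR n x) = x := by
  refine ext_inner_left ℂ fun z => ?_
  rw [inner_RA, RR_inner]

lemma RA_RR_ne {n m : ℕ} (h : n ≠ m) (x : FF) : RA n (RR m x) = 0 := by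
  have h1 := clm_ext (T := (RA n).comp (RR m)) (T' := 0) (fun α => by
    rw [ContinuousLinearMap.comp_apply, RR_ee, zero_apply]
    ext β
    rw [RA_apply, ee_apply, if_neg]
    · rfl
    · intro h1
      exact h (List.cons.inj h1).1) x
  exact h1

lemma RR_nil (n : ℕ) (x : FF) : RR n x [] = 0 := by
  rw [← inner_ee_left, ← inner_conj_symm]
  have h1 := clm_ext (T := (innerSL ℂ (ee [])).comp (RR n)) (T' := 0) (fun α => by
    rw [ContinuousLinearMap.comp_apply, RR_ee, zero_apply, innerSL_apply_apply, inner_ee_left,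
      ee_apply, if_neg]
    simp) x
  rw [ContinuousLinearMap.comp_apply, innerSL_apply_apply, zero_apply] at h1
  rw [← inner_conj_symm, h1]
  simp

lemma RR_inner' (n m : ℕ) (x y : FF) :
    inner ℂ (RR n x) (RR m y) = if n = m then inner ℂ x y else 0 := by
  split_ifs with h
  · subst h
    exact RR_inner n x y
  · rw [← inner_RA, RA_RR_ne h, inner_zero_right]

/-- the creation operators of words -/
def Rw : List ℕ → (FF →L[ℂ] FF)
  | [] => 1
  | n :: α => (RR n).comp (Rw α)

lemma Rw_nil (x : FF) : Rw [] x = x := rfl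

lemma Rw_cons (n : ℕ) (α : List ℕ) (x : FF) : Rw (n :: α) x = RR n (Rw α x) := rfl

/-- the closed invariant subspace generated by `x` -/
def NN (x : FF) : Submodule ℂ FF :=
  (Submodule.span ℂ (Set.range fun α => Rw α x)).topologicalClosure

/-- the closed span of the images of the creation operators -/
def N1 (x : FF) : Submodule ℂ FF :=
  (Submodule.span ℂ {z | ∃ n α, z = RR n (Rw α x)}).topologicalClosure

lemma NN_closed (x : FF) : IsClosed (NN x : Set FF) := Submodule.isClosed_topologicalClosure _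

lemma N1_closed (x : FF) : IsClosed (N1 x : Set FF) := Submodule.isClosed_topologicalClosure _

lemma NN_gen (x : FF) (α : List ℕ) : Rw α x ∈ NN x :=
  Submodule.le_topologicalClosure _ (Submodule.subset_span ⟨α, rfl⟩)

lemma N1_gen (x : FF) (n : ℕ) (α : List ℕ) : RR n (Rw α x) ∈ N1 x :=
  Submodule.le_topologicalClosure _ (Submodule.subset_span ⟨n, α, rfl⟩)

lemma NN_le {x : FF} {M : Submodule ℂ FF} (hM : IsClosed (M : Set FF))
    (h : ∀ α, Rw α x ∈ M) : NN x ≤ M := by
  refine Submodule.topologicalClosure_minimal _ (Submodule.span_le.2 ?_) hM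
  rintro _ ⟨α, rfl⟩
  exact h α

lemma N1_le {x : FF} {M : Submodule ℂ FF} (hM : IsClosed (M : Set FF))
    (h : ∀ n α, RR n (Rw α x) ∈ M) : N1 x ≤ M := by
  refine Submodule.topologicalClosure_minimal _ (Submodule.span_le.2 ?_) hM
  rintro _ ⟨n, α, rfl⟩
  exact h n α

lemma comap_closed {M : Submodule ℂ FF} (hM : IsClosed (M : Set FF)) (T : FF →L[ℂ] FF) :
    IsClosed ((M.comap (T : FF →ₗ[ℂ] FF) : Submodule ℂ FF) : Set FF) :=
  hM.preimage T.continuous

lemma N1_le_NN (x : FF) : N1 x ≤ NN x :=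
  N1_le (NN_closed x) fun n α => NN_gen x (n :: α)

lemma RR_NN {x y : FF} (n : ℕ) (hy : y ∈ NN x) : RR n y ∈ N1 x := by
  have h1 : NN x ≤ (N1 x).comap (RR n : FF →ₗ[ℂ] FF) :=
    NN_le (comap_closed (N1_closed x) _) fun α => N1_gen x n α
  exact h1 hy

lemma Rw_NN {x y : FF} (hy : y ∈ NN x) (α : List ℕ) : Rw α y ∈ NN x := by
  induction α with
  | nil => exact hy
  | cons n α ih => exact N1_le_NN x (RR_NN n ih)

lemma N1_nil {x y : FF} (hy : y ∈ N1 x) : y [] = 0 := by
  have h1 : N1 x ≤ (LinearMap.ker (innerSL ℂ (ee []) : FF →ₗ[ℂ] ℂ)) := by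
    refine N1_le ?_ fun n α => ?_
    · exact (innerSL ℂ (ee [])).isClosed_ker
    · rw [LinearMap.mem_ker]
      show inner ℂ (ee []) _ = 0
      rw [inner_ee_left, RR_nil]
  have h2 := h1 hy
  rw [LinearMap.mem_ker] at h2
  rw [← inner_ee_left]
  exact h2

lemma RA_N1 {x y : FF} (n : ℕ) (hy : y ∈ N1 x) : RA n y ∈ NN x := by
  have h1 : N1 x ≤ (NN x).comap (RA n : FF →ₗ[ℂ] FF) := by
    refine N1_le (comap_closed (NN_closed x) _) fun m α => ?_
    show RA n (RR m (Rw α x)) ∈ NN x
    by_cases h : n = m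
    · subst h
      rw [RA_RR_self]
      exact NN_gen x α
    · rw [RA_RR_ne h]
      exact Submodule.zero_mem _
  exact h1 hy

/-- purity -/
lemma eq_zero_of_mem_N1 {x : FF} (hx : x ∈ N1 x) : x = 0 := by
  have h1 : NN x ≤ N1 x := by
    refine NN_le (N1_closed x) fun α => ?_
    cases α with
    | nil => exact hx
    | cons n α => exact N1_gen x n α
  have h2 : ∀ α : List ℕ, ∀ y ∈ NN x, y α = 0 := by
    intro α
    induction α with
    | nil => exact fun y hy => N1_nil (h1 hy)
    | cons n α ih =>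
      intro y hy
      rw [← RA_apply]
      exact ih _ (RA_N1 n (h1 hy))
  ext α
  exact h2 α x (NN_gen x [])

/-- the wandering vector -/
lemma exists_wandering {x : FF} (hx : x ≠ 0) : ∃ ω : FF, ‖ω‖ = 1 ∧ ω ∈ NN x ∧
    (∀ y ∈ N1 x, inner ℂ ω y = 0) ∧ ∀ y ∈ NN x, inner ℂ ω y = 0 → y ∈ N1 x := by
  have hc : CompleteSpace (N1 x) := (N1_closed x).completeSpace_coe
  set p : FF := (N1 x).starProjection x with hp
  have hpm : p ∈ N1 x := (N1 x).starProjection_apply_mem x
  set q : FF := x - p with hq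
  have hq0 : q ≠ 0 := by
    intro h
    apply hx
    apply eq_zero_of_mem_N1
    have h3 : x = p := sub_eq_zero.1 h
    have h4 := hpm
    rwa [← h3] at h4
  have hqn : ‖q‖ ≠ 0 := norm_ne_zero_iff.2 hq0
  have hqc : ((‖q‖ : ℝ) : ℂ) ≠ 0 := by exact_mod_cast hqn
  have hqo : ∀ y ∈ N1 x, inner ℂ q y = 0 := fun y hy =>
    (N1 x).starProjection_inner_eq_zero x y hy
  have hxN : x ∈ NN x := NN_gen x []
  have hqN : q ∈ NN x := (NN x).sub_mem hxN (N1_le_NN x hpm)
  set ω : FF := ((‖q‖ : ℝ) : ℂ)⁻¹ • q with hω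
  have hωi : ∀ y, inner ℂ ω y = ((‖q‖ : ℝ) : ℂ)⁻¹ * inner ℂ q y := by
    intro y
    rw [hω, inner_smul_left, map_inv₀, Complex.conj_ofReal]
  refine ⟨ω, ?_, (NN x).smul_mem _ hqN, fun y hy => by rw [hωi, hqo y hy, mul_zero], ?_⟩
  · rw [hω, norm_smul, norm_inv, Complex.norm_real, norm_norm]
    exact inv_mul_cancel₀ hqn
  · set T : FF →L[ℂ] FF := 1 - (innerSL ℂ ω).smulRight ω with hT
    have hTa : ∀ y, T y = y - inner ℂ ω y • ω := by
      intro y
      rw [hT, sub_apply, one_apply_eq_self, ContinuousLinearMap.smulRight_apply,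
        innerSL_apply_apply]
    have h1 : NN x ≤ (N1 x).comap (T : FF →ₗ[ℂ] FF) := by
      refine NN_le (comap_closed (N1_closed x) _) fun α => ?_
      show T (Rw α x) ∈ N1 x
      rw [hTa]
      cases α with
      | nil =>
        have e1 : inner ℂ ω (Rw [] x) • ω = q := by
          have e2 : inner ℂ q x = ((‖q‖ : ℝ) : ℂ) ^ 2 := by
            have e3 : q + p = x := by rw [hq]; abel
            have e4 : inner ℂ q x = inner ℂ q (q + p) := by rw [e3]
            rw [e4, inner_add_right, hqo p hpm, add_zero, inner_self_eq_norm_sq_to_K]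
            rfl
          rw [Rw_nil, hωi, e2, hω, smul_smul]
          have e3 : ((‖q‖ : ℝ) : ℂ)⁻¹ * ((‖q‖ : ℝ) : ℂ) ^ 2 * ((‖q‖ : ℝ) : ℂ)⁻¹ = 1 := by
            field_simp
          rw [e3, one_smul]
        rw [e1, Rw_nil]
        have e2 : x - q = p := by rw [hq]; abel
        rw [e2]
        exact hpm
      | cons n α =>
        have e1 : inner ℂ ω (Rw (n :: α) x) = 0 := by
          rw [hωi, Rw_cons, hqo _ (N1_gen x n α), mul_zero]
        rw [e1, zero_smul, sub_zero]
        exact N1_gen x n α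
    intro y hy hy0
    have h2 := h1 hy
    have h3 : T y ∈ N1 x := h2
    rwa [hTa, hy0, zero_smul, sub_zero] at h3

/-- the inner-outer factorisation in the Fock space -/
theorem exists_factor_NN {x : FF} (hx : x ≠ 0) : ∃ (Θ : FF →L[ℂ] FF) (y : FF),
    (∀ a b, inner ℂ (Θ a) (Θ b) = inner ℂ a b) ∧ (∀ n a, Θ (RR n a) = RR n (Θ a)) ∧ Θ y = x ∧
    (∀ a, Θ a ∈ NN x) ∧ ∀ z, (∀ α, inner ℂ (Rw α y) z = 0) → z = 0 := by
  obtain ⟨ω, hω1, hωN, hω2, hω3⟩ := exists_wandering hx
  have hωR : ∀ n α, RR n (Rw α ω) ∈ N1 x := fun n α => RR_NN n (Rw_NN hωN α)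
  have hort : Orthonormal ℂ fun α => Rw α ω := by
    rw [orthonormal_iff_ite]
    intro α
    induction α with
    | nil =>
      intro β
      cases β with
      | nil =>
        rw [if_pos rfl, Rw_nil, inner_self_eq_norm_sq_to_K, hω1]
        norm_num
      | cons m β =>
        rw [if_neg (by simp), Rw_nil, Rw_cons]
        exact hω2 _ (hωR m β)
    | cons n α ih =>
      intro β
      cases β with
      | nil =>
        rw [if_neg (by simp), Rw_nil, Rw_cons, ← inner_conj_symm, hω2 _ (hωR n α), map_zero]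
      | cons m β =>
        rw [Rw_cons, Rw_cons, RR_inner', ih β]
        by_cases h1 : n = m
        · by_cases h2 : α = β
          · rw [if_pos h1, if_pos h2, if_pos (by rw [h1, h2])]
          · rw [if_pos h1, if_neg h2, if_neg]
            intro h
            exact h2 (List.cons.inj h).2
        · rw [if_neg h1, if_neg]
          intro h
          exact h1 (List.cons.inj h).1
  obtain ⟨Θ, hΘ1, hΘ2⟩ := exists_iso hort
  have hcomm : ∀ n a, Θ (RR n a) = RR n (Θ a) := by
    intro n a
    refine clm_ext (T := Θ.comp (RR n)) (T' := (RR n).comp Θ) (fun α => ?_) a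
    rw [ContinuousLinearMap.comp_apply, ContinuousLinearMap.comp_apply, RR_ee, hΘ1, hΘ1]
    rfl
  have hcommw : ∀ (α : List ℕ) a, Θ (Rw α a) = Rw α (Θ a) := by
    intro α
    induction α with
    | nil => exact fun a => rfl
    | cons n α ih =>
      intro a
      rw [Rw_cons, hcomm, ih, Rw_cons]
  have hΘN : ∀ a, Θ a ∈ NN x := mem_of_ee (NN_closed x) Θ fun α => by
    rw [hΘ1]
    exact Rw_NN hωN α
  -- vectors in the subspace orthogonal to all images of the wandering vector vanish
  have hzero : ∀ z ∈ NN x, (∀ β, inner ℂ (Rw β ω) z = 0) → z = 0 := by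
    have h1 : ∀ α : List ℕ, ∀ z ∈ NN x, (∀ β, inner ℂ (Rw β ω) z = 0) → z α = 0 := by
      intro α
      induction α with
      | nil => exact fun z hz h => N1_nil (hω3 z hz (h []))
      | cons n α ih =>
        intro z hz h
        rw [← RA_apply]
        refine ih _ (RA_N1 n (hω3 z hz (h []))) fun β => ?_
        rw [inner_RA]
        exact h (n :: β)
    intro z hz h
    ext α
    exact h1 α z hz h
  set y : FF := ContinuousLinearMap.adjoint Θ x with hy
  have hyx : Θ y = x := by
    have h1 : x - Θ y = 0 := by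
      refine hzero _ ((NN x).sub_mem (NN_gen x []) (hΘN y)) fun β => ?_
      rw [inner_sub_right, ← hΘ1 β, hΘ2, hy, ContinuousLinearMap.adjoint_inner_right, sub_self]
    exact (sub_eq_zero.1 h1).symm
  refine ⟨Θ, y, hΘ2, hcomm, hyx, hΘN, fun z hz => ?_⟩
  have h1 : ∀ u ∈ NN x, inner ℂ u (Θ z) = 0 := by
    have h2 : NN x ≤ (LinearMap.ker (innerSL ℂ (Θ z) : FF →ₗ[ℂ] ℂ)) := by
      refine NN_le ?_ fun α => ?_
      · exact (innerSL ℂ (Θ z)).isClosed_ker
      · rw [LinearMap.mem_ker]
        show inner ℂ (Θ z) (Rw α x) = 0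
        rw [← hyx, ← hcommw, hΘ2, ← inner_conj_symm, hz, map_zero]
    intro u hu
    have h3 := h2 hu
    rw [LinearMap.mem_ker] at h3
    have h4 : inner ℂ (Θ z) u = 0 := h3
    rw [← inner_conj_symm, h4, map_zero]
  have h2 := h1 _ (hΘN z)
  rw [hΘ2, inner_self_eq_zero] at h2
  exact h2

theorem exists_factor {x : FF} (hx : x ≠ 0) : ∃ (Θ : FF →L[ℂ] FF) (y : FF),
    (∀ a b, inner ℂ (Θ a) (Θ b) = inner ℂ a b) ∧ (∀ n a, Θ (RR n a) = RR n (Θ a)) ∧ Θ y = x ∧
    ∀ z, (∀ α, inner ℂ (Rw α y) z = 0) → z = 0 := by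
  obtain ⟨Θ, y, h1, h2, h3, -, h4⟩ := exists_factor_NN hx
  exact ⟨Θ, y, h1, h2, h3, h4⟩

end Pool.Agent.CycP.Fock
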