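import Pool.Agent.CycP.SmE
import Pool.Agent.CycP.PickC

set_option autoImplicit false
set_option linter.unusedSectionVars false

/-! Complete Pick kernels: every function is a multiplier times a multiplier-cyclic function. -/

open ComplexConjugate Filter Topology

noncomputable section

namespace Pool.Agent.CycP.Pick

open Fock

variable {Y : Type} [NormedAddCommGroup Y] [InnerProductSpace ℂ Y] [CompleteSpace Y] {ι : Type}
variable {k : ι → Y} {δ : Y} {b : ℕ → ι → ℂ} {β : ι → ι → ℂ}

lemma wd_map {R S : Type} [CommMonoid R] [CommMonoid S] (f : R →* S) (c : ℕ → R) (α : List ℕ) :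
    wd (fun n => f (c n)) α = f (wd c α) := by
  induction α with
  | nil => simp [wd]
  | cons n α ih => rw [wd_cons, wd_cons, map_mul, ih]

lemma wd_mul {R : Type} [CommMonoid R] (c c' : ℕ → R) (α : List ℕ) :
    wd c α * wd c' α = wd (fun n => c n * c' n) α := by
  induction α with
  | nil => simp [wd]
  | cons n α ih =>
    rw [wd_cons, wd_cons, wd_cons, ← ih]
    exact mul_mul_mul_comm _ _ _ _

lemma norm_wd (c : ℕ → ℂ) (α : List ℕ) : ‖wd c α‖ = wd (fun n => ‖c n‖) α := by
  have := wd_map (normHom : ℂ →*₀ ℝ).toMonoidHom c α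
  exact this.symm

lemma norm_wd_sq (c : ℕ → ℂ) (α : List ℕ) : ‖wd c α‖ ^ 2 = wd (fun n => ‖c n‖ ^ 2) α := by
  rw [norm_wd, pow_two, wd_mul]
  simp only [← pow_two]

lemma conj_wd (c : ℕ → ℂ) (α : List ℕ) : conj (wd c α) = wd (fun n => conj (c n)) α := by
  have := wd_map (starRingEnd ℂ).toMonoidHom c α
  exact this.symm

lemma Data.summable_sq (D : Data k δ b β) (z : ι) :
    Summable fun α => ‖wd (fun n => b n z) α‖ ^ 2 := by
  simp only [norm_wd_sq]
  exact summable_wd (fun n => by positivity) (D.sq z) (D.re_lt z)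

/-- the coordinates of the kernel vectors in the Fock space -/
def EV (D : Data k δ b β) (z : ι) : FF :=
  ⟨fun α => conj (inner ℂ (k z) δ * wd (fun n => b n z) α), by
    refine memℓp_gen ?_
    have h1 := (D.summable_sq z).mul_left (‖inner ℂ (k z) δ‖ ^ 2)
    refine h1.congr fun α => ?_
    rw [RCLike.norm_conj, norm_mul, ENNReal.toReal_ofNat]
    have : ((2 : ℝ)) = ((2 : ℕ) : ℝ) := by norm_num
    rw [this, Real.rpow_natCast, mul_pow]⟩

lemma EV_apply (D : Data k δ b β) (z : ι) (α : List ℕ) :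
    EV D z α = conj (inner ℂ (k z) δ * wd (fun n => b n z) α) := rfl

lemma inner_EV_ee (D : Data k δ b β) (z : ι) (α : List ℕ) :
    inner ℂ (EV D z) (ee α) = inner ℂ (k z) δ * wd (fun n => b n z) α := by
  rw [← inner_conj_symm, inner_ee_left, EV_apply, Complex.conj_conj]

lemma inner_EV (D : Data k δ b β) (z w : ι) :
    inner ℂ (EV D z) (EV D w) = inner ℂ (k z) (k w) := by
  rw [lp.inner_eq_tsum]
  have h1 : ∀ α : List ℕ, inner ℂ (EV D z α) (EV D w α) =
      (inner ℂ (k z) δ * conj (inner ℂ (k w) δ)) * wd (fun n => b n z * conj (b n w)) α := by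
    intro α
    rw [EV_apply, EV_apply, RCLike.inner_apply, Complex.conj_conj, map_mul, conj_wd, ← wd_mul]
    ring
  simp only [h1]
  rw [tsum_mul_left]
  have hc : Summable fun n => ‖b n z * conj (b n w)‖ := by
    refine Summable.of_nonneg_of_le (fun n => norm_nonneg _) (fun n => ?_)
      (((D.sq z).add (D.sq w)).div_const 2).summable
    rw [norm_mul, RCLike.norm_conj]
    nlinarith [sq_nonneg (‖b n z‖ - ‖b n w‖)]
  have hw : Summable fun α => ‖wd (fun n => b n z * conj (b n w)) α‖ := by
    refine Summable.of_nonneg_of_le (fun n => norm_nonneg _) (fun α => ?_)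
      (((D.summable_sq z).add (D.summable_sq w)).div_const 2)
    have h2 : wd (fun n => b n z * conj (b n w)) α =
        wd (fun n => b n z) α * conj (wd (fun n => b n w) α) := by
      rw [conj_wd, wd_mul]
    rw [h2, norm_mul, RCLike.norm_conj]
    nlinarith [sq_nonneg (‖wd (fun n => b n z) α‖ - ‖wd (fun n => b n w) α‖)]
  have h2 := tsum_wd (D.hs z w) hc hw
  have h3 := D.one_sub_ne z w
  have h4 := D.hK z w
  rw [← h4]
  linear_combination inner ℂ (k z) (k w) * h2

lemma norm_sum_EV (D : Data k δ b β) (s : Finset ι) (c : ι → ℂ) :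
    ‖∑ z ∈ s, c z • EV D z‖ = ‖∑ z ∈ s, c z • k z‖ := by
  have h2 : ‖∑ z ∈ s, c z • EV D z‖ ^ 2 = ‖∑ z ∈ s, c z • k z‖ ^ 2 := by
    rw [← re_self, ← re_self, ← gram_sum s c, ← gram_sum s c]
    simp only [inner_EV]
  have h3 := congrArg Real.sqrt h2
  rwa [Real.sqrt_sq (norm_nonneg _), Real.sqrt_sq (norm_nonneg _)] at h3

/-- the projection of the Fock space onto the space -/
lemma exists_CC (D : Data k δ b β) : ∃ C : FF →L[ℂ] Y,
    ∀ x z, inner ℂ (k z) (C x) = inner ℂ (EV D z) x := by
  have h : ∀ x : FF, ∃ y : Y, (∀ z, inner ℂ (k z) y = inner ℂ (EV D z) x) ∧ ‖y‖ ≤ 1 * ‖x‖ := by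
    intro x
    refine exists_of_bound (k := k) (fun z => inner ℂ (EV D z) x) (1 * ‖x‖) (by positivity)
      (fun t d => ?_)
    have e1 : ∑ z ∈ t, d z * conj (inner ℂ (EV D z) x) = inner ℂ x (∑ z ∈ t, d z • EV D z) := by
      rw [inner_sum]
      refine Finset.sum_congr rfl fun z _ => ?_
      rw [inner_smul_right, inner_conj_symm]
    rw [e1, one_mul, ← norm_sum_EV D]
    exact norm_inner_le_norm _ _
  choose M hM hM' using h
  refine ⟨LinearMap.mkContinuous
    { toFun := M
      map_add' := fun x y => ext_of_tot D.tot fun z => by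
        rw [hM, inner_add_right, inner_add_right, hM, hM]
      map_smul' := fun c x => ext_of_tot D.tot fun z => by
        rw [hM, RingHom.id_apply, inner_smul_right, inner_smul_right, hM] } 1 hM', hM⟩

/-- every function is a multiplier times a function whose multiples by the products of the `b n`
are total -/
theorem Data.exists_outer (D : Data k δ b β) {F : Y} (hF : F ≠ 0) :
    ∃ (M : Y →L[ℂ] Y) (G : Y), IsMul k M ∧ F = M G ∧ multSpan k G = ⊤ := by
  obtain ⟨C, hC⟩ := exists_CC D
  set C' : Y →L[ℂ] FF := ContinuousLinearMap.adjoint C with hC'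
  have hC'i : ∀ x y, inner ℂ x (C' y) = inner ℂ (C x) y := by
    intro x y
    rw [hC', ContinuousLinearMap.adjoint_inner_right]
  have p1 : ∀ z, C (EV D z) = k z := fun z => ext_of_tot D.tot fun w => by
    rw [hC, inner_EV]
  have p2 : ∀ y, C (C' y) = y := fun y => ext_of_tot D.tot fun z => by
    rw [hC, hC'i, p1]
  have p3 : ∀ n x z, inner ℂ (k z) (C (RR n x)) = b n z * inner ℂ (k z) (C x) := by
    intro n x z
    rw [hC, hC]
    have h1 := clm_ext (T := (innerSL ℂ (EV D z)).comp (RR n))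
      (T' := b n z • innerSL ℂ (EV D z)) (fun α => by
        rw [ContinuousLinearMap.comp_apply, RR_ee, smul_apply, innerSL_apply_apply,
          innerSL_apply_apply, inner_EV_ee, inner_EV_ee, wd_cons, smul_eq_mul]
        ring) x
    rw [ContinuousLinearMap.comp_apply, smul_apply, innerSL_apply_apply, innerSL_apply_apply,
      smul_eq_mul] at h1
    exact h1
  have p3w : ∀ (α : List ℕ) x z, inner ℂ (k z) (C (Rw α x)) =
      wd (fun n => b n z) α * inner ℂ (k z) (C x) := by
    intro α
    induction α with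
    | nil => intro x z; rw [Rw_nil, wd_nil, one_mul]
    | cons n α ih => intro x z; rw [Rw_cons, p3, ih, wd_cons, mul_assoc]
  have hx : C' F ≠ 0 := by
    intro h
    apply hF
    rw [← p2 F, h, map_zero]
  obtain ⟨Θ, y, hΘ1, hΘ2, hΘ3, hΘ4⟩ := exists_factor hx
  have hΘw : ∀ (α : List ℕ) a, Θ (Rw α a) = Rw α (Θ a) := by
    intro α
    induction α with
    | nil => exact fun a => rfl
    | cons n α ih =>
      intro a
      rw [Rw_cons, hΘ2, ih, Rw_cons]
  have hRwee : ∀ α : List ℕ, Rw α (ee []) = ee α := by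
    intro α
    induction α with
    | nil => rfl
    | cons n α ih => rw [Rw_cons, ih, RR_ee]
  set θ : ι → ℂ := fun z => inner ℂ (k z) (C (Θ (ee []))) / inner ℂ (k z) δ with hθ
  have p4 : ∀ a z, inner ℂ (k z) (C (Θ a)) = θ z * inner ℂ (k z) (C a) := by
    intro a z
    have h1 := clm_ext (T := (innerSL ℂ (k z)).comp (C.comp Θ))
      (T' := θ z • (innerSL ℂ (k z)).comp C) (fun α => by
        rw [smul_apply]
        show inner ℂ (k z) (C (Θ (ee α))) = θ z • inner ℂ (k z) (C (ee α))
        rw [← hRwee α, hΘw, p3w, p3w, smul_eq_mul, hC (ee []), inner_EV_ee, wd_nil, mul_one, hθ]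
        have h2 := D.hδ z
        field_simp) a
    exact h1
  set G : Y := C y with hG
  refine ⟨C.comp (Θ.comp C'), G, ⟨θ, fun u z => ?_⟩, ?_, ?_⟩
  · show inner ℂ (k z) (C (Θ (C' u))) = _
    rw [p4, p2]
  · refine ext_of_tot D.tot fun z => ?_
    show _ = inner ℂ (k z) (C (Θ (C' G)))
    rw [p4, p2, hG, ← p4, hΘ3, p2]
  · -- cyclicity
    unfold multSpan
    rw [Submodule.topologicalClosure_eq_top_iff, Submodule.eq_bot_iff]
    intro u hu
    have h1 : ∀ α : List ℕ, ∃ M : Y →L[ℂ] Y, IsMul k M ∧ M G = C (Rw α y) := by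
      have h2 : ∀ α : List ℕ, ∃ M : Y →L[ℂ] Y,
          ∀ v z, inner ℂ (k z) (M v) = wd (fun n => b n z) α * inner ℂ (k z) v := by
        intro α
        induction α with
        | nil => exact ⟨ContinuousLinearMap.id ℂ Y, fun v z => by
            rw [ContinuousLinearMap.id_apply, wd_nil, one_mul]⟩
        | cons n α ih =>
          obtain ⟨M, hM⟩ := ih
          refine ⟨(C.comp ((RR n).comp C')).comp M, fun v z => ?_⟩
          show inner ℂ (k z) (C (RR n (C' (M v)))) = _
          rw [p3, p2, hM, wd_cons, mul_assoc]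
      intro α
      obtain ⟨M, hM⟩ := h2 α
      refine ⟨M, ⟨_, hM⟩, ext_of_tot D.tot fun z => ?_⟩
      rw [hM, p3w]
    have h2 : C' u = 0 := by
      refine hΘ4 _ fun α => ?_
      obtain ⟨M, hM, hMG⟩ := h1 α
      rw [hC'i, ← hMG]
      exact (Submodule.mem_orthogonal _ u).1 hu _ ⟨M, hM, rfl⟩
    rw [← p2 u, h2, map_zero]

end Pool.Agent.CycP.Pick
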