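import Pool.Agent.CycP.SmF
import Pool.Agent.CycP.SmD
import Pool.Agent.CycP.PickH

set_option autoImplicit false
set_option linter.unusedSectionVars false

/-! Complete Pick spaces are of Smirnov type and have the factorisation property. -/

open ComplexConjugate Filter Topology

noncomputable section

namespace Pool.Agent.CycP

namespace AnSpace

variable {d : ℕ} {Ω : Set (Fin d → ℂ)} {Y : Type} [NormedAddCommGroup Y] [InnerProductSpace ℂ Y]

/-- `Y` is a complete Pick space whose kernel has the numerator `δ(z) * conj δ(w)`: `Y` has the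
reproducing kernel `K(z, w) = δ(z) * conj δ(w) / (1 - ∑ n, b n z * conj (b n w))`, with the
function `δ ∈ Y` without zeros in `Ω`. The vector `k w ∈ Y` is the function `K(·, w)`. -/
def PickWith (B : AnSpace d Ω Y) (δ : Y) : Prop :=
  ∃ (k : (Fin d → ℂ) → Y) (b : ℕ → (Fin d → ℂ) → ℂ)
    (β : (Fin d → ℂ) → (Fin d → ℂ) → ℂ),
    (∀ w ∈ Ω, ∀ f : Y, inner ℂ (k w) f = B.fn f w) ∧ (∀ z ∈ Ω, B.fn δ z ≠ 0) ∧
    ∀ z ∈ Ω, ∀ w ∈ Ω, HasSum (fun n => b n z * conj (b n w)) (β z w) ∧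
      B.fn (k w) z * (1 - β z w) = B.fn δ z * conj (B.fn δ w)

lemma PickWith.completePick {B : AnSpace d Ω Y} {δ : Y} (h : B.PickWith δ) : B.CompletePick := by
  obtain ⟨k, b, β, h⟩ := h
  exact ⟨k, δ, b, β, h⟩

lemma CompletePick.exists_pickWith {B : AnSpace d Ω Y} (h : B.CompletePick) :
    ∃ δ, B.PickWith δ := by
  obtain ⟨k, δ, b, β, h⟩ := h
  exact ⟨δ, k, b, β, h⟩

lemma PickWith.exists_data {B : AnSpace d Ω Y} {δ : Y} (h : B.PickWith δ) :
    ∃ (k : Ω → Y) (b : ℕ → Ω → ℂ) (β : Ω → Ω → ℂ), Pick.Data k δ b β ∧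
      ∀ (w : Ω) (f : Y), inner ℂ (k w) f = B.fn f w := by
  obtain ⟨k, b, β, h1, h2, h3⟩ := h
  refine ⟨fun w => k w, fun n w => b n w, fun z w => β z w, ⟨?_, ?_, ?_, ?_⟩,
    fun w f => h1 w w.2 f⟩
  · intro f hf
    apply B.fn_inj
    intro w hw
    have := hf ⟨w, hw⟩
    rw [h1 w hw] at this
    exact this
  · exact fun z w => (h3 z z.2 w w.2).1
  · intro z
    rw [h1 z z.2]
    exact h2 z z.2
  · intro z w
    rw [h1 z z.2, h1 z z.2, h1 w w.2]
    exact (h3 z z.2 w w.2).2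

open scoped Classical in
lemma mulBy_of_isMul {B : AnSpace d Ω Y} {k : Ω → Y}
    (hk : ∀ (w : Ω) (f : Y), inner ℂ (k w) f = B.fn f w) {M : Y →L[ℂ] Y} {a : Ω → ℂ}
    (ha : ∀ y z, inner ℂ (k z) (M y) = a z * inner ℂ (k z) y) :
    B.MulBy M (fun w => if hw : w ∈ Ω then a ⟨w, hw⟩ else 0) := by
  intro y w hw
  have := ha y ⟨w, hw⟩
  rw [hk, hk] at this
  simp only [dif_pos hw]
  exact this

/-- Complete Pick spaces are of Smirnov type. -/
theorem PickWith.smirnov [CompleteSpace Y] {B : AnSpace d Ω Y} {δ : Y} (hB : B.PickWith δ) :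
    B.Smirnov (fun V => ‖V‖ ≤ 1) δ := by
  obtain ⟨k, b, β, D, hk⟩ := hB.exists_data
  intro F
  obtain ⟨U, V, u, v, hU, hV, hV1, hv1, he⟩ := Pick.factor D F
  refine ⟨U, V, _, _, mulBy_of_isMul hk hU, mulBy_of_isMul hk hV, hV1, fun w hw => ?_, he.symm⟩
  simp only [dif_pos hw]
  exact hv1 _

lemma powBdd_of_norm_le (V : Y →L[ℂ] Y) (hV : ‖V‖ ≤ 1) : PowBdd V := by
  refine ⟨1, fun n => ?_⟩
  induction n with
  | zero =>
    rw [pow_zero]
    exact ContinuousLinearMap.norm_id_le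
  | succ n ih =>
    rw [pow_succ]
    refine (norm_mul_le _ _).trans ?_
    nlinarith [norm_nonneg V, norm_nonneg (V ^ n)]

/-- The constant function one is shift-cyclic. -/
lemma cyclic_one (B : AnSpace d Ω Y) : B.Cyclic (B.poly 1) := by
  have h2 : Set.range B.poly ⊆ B.orbit (B.poly 1) := by
    rintro _ ⟨P, rfl⟩
    refine ⟨P, fun w hw => ?_⟩
    rw [B.fn_poly _ w hw, B.fn_poly _ w hw, map_one, mul_one]
  have h3 : closure (Set.range B.poly) ⊆ closure (B.orbit (B.poly 1)) := closure_mono h2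
  exact Set.univ_subset_iff.1 ((B.poly_dense.closure_range).symm.subset.trans h3)

/-- Complete Pick spaces: every function is a multiplier times a multiplier-cyclic function. -/
theorem PickWith.factors [CompleteSpace Y] {B : AnSpace d Ω Y} {δ : Y} (hB : B.PickWith δ) :
    B.Factors := by
  obtain ⟨k, b, β, D, hk⟩ := hB.exists_data
  intro F
  by_cases hF : F = 0
  · refine ⟨0, _, B.poly 1, B.mulBy_zero, ?_, by simp [hF]⟩
    rw [multCyclic_iff]
    exact B.cyclic_one.msp_eq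
  · obtain ⟨M, G, ⟨a, ha⟩, hFG, hG⟩ := D.exists_outer hF
    refine ⟨M, _, G, mulBy_of_isMul hk ha, ?_, hFG⟩
    rw [multCyclic_iff, eq_top_iff, ← hG]
    refine Pick.multSpan_le (B.msp_closed G) ?_ (B.self_mem_msp G)
    rintro M' ⟨a', ha'⟩ x hx
    exact B.msp_inv G M' _ (mulBy_of_isMul hk ha') x hx

/-- If `v` is a contractive multiplier and `(1 - v) g` is shift-cyclic then `g` is shift-cyclic. -/
def OneSub (B : AnSpace d Ω Y) : Prop :=
  ∀ (V : Y →L[ℂ] Y) (v : (Fin d → ℂ) → ℂ) (g : Y), B.MulBy V v → ‖V‖ ≤ 1 →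
    B.Cyclic (g - V g) → B.Cyclic g

/-- The numerator of a complete Pick kernel is multiplier-cyclic. -/
theorem PickWith.multCyclic [CompleteSpace Y] {B : AnSpace d Ω Y} {δ : Y}
    (hB : B.PickWith δ) : B.MultCyclic δ := by
  rw [multCyclic_iff, Submodule.eq_top_iff']
  intro F
  obtain ⟨U, V, u, v, hU, hV, hV1, hv1, he⟩ := hB.smirnov F
  refine B.mem_of_one_sub hilbert_reflexive hV (powBdd_of_norm_le V hV1) hv1 (B.msp_closed δ)
    (B.msp_inv δ V v hV) ?_
  rw [he]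
  exact hU.mem_msp δ

/-- Equivalent forms of (CP) for complete Pick spaces. -/
theorem PickWith.tfae [CompleteSpace Y] {B : AnSpace d Ω Y} {δ : Y} (hB : B.PickWith δ) :
    List.TFAE [B.CP ∧ B.Cyclic δ, B.CPd 1 ∧ B.Cyclic δ, B.OneSub ∧ B.Cyclic δ,
      ∀ g, B.MultCyclic g → B.Cyclic g, B.Lattice] := by
  tfae_have 1 → 2 := fun h => ⟨h.1 1, h.2⟩
  tfae_have 2 → 3 := fun h => ⟨fun V v g hV hV1 hg =>
    cyclic_of_one_sub B hilbert_reflexive h.1 hV (powBdd_of_norm_le V hV1) hg, h.2⟩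
  tfae_have 3 → 4 := fun h g hg =>
    B.cyclic_of_multCyclic_smirnov hilbert_reflexive powBdd_of_norm_le h.2 hB.smirnov h.1 hg
  tfae_have 4 → 1 := fun h => by
    refine ⟨hB.completePick.cp h, h δ hB.multCyclic⟩
  tfae_have 4 ↔ 5 := hB.factors.lattice_iff
  tfae_finish

end AnSpace

end Pool.Agent.CycP
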