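import Pool.Agent.CycP.SmF

set_option autoImplicit false
set_option linter.unusedSectionVars false

/-! Complete Pick kernels: finitely many functions are multiples of one multiplier-cyclic
function. -/

open ComplexConjugate Filter Topology

noncomputable section

namespace Pool.Agent.CycP

namespace Fock

lemma exists_LL (j : ℕ) : ∃ L : FF →L[ℂ] FF, (∀ α, L (ee α) = ee (α ++ [j])) ∧
    ∀ x y, inner ℂ (L x) (L y) = inner ℂ x y := by
  apply exists_iso
  rw [orthonormal_iff_ite]
  intro α β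
  rw [inner_ee_left, ee_apply]
  by_cases h : α = β
  · rw [if_pos h, if_pos (by rw [h])]
  · rw [if_neg h, if_neg]
    intro h1
    exact h (List.append_inj_left' h1 rfl)

/-- the creation operators on the other side -/
def LL (j : ℕ) : FF →L[ℂ] FF := (exists_LL j).choose

lemma LL_ee (j : ℕ) (α : List ℕ) : LL j (ee α) = ee (α ++ [j]) := (exists_LL j).choose_spec.1 α

lemma LL_inner (j : ℕ) (x y : FF) : inner ℂ (LL j x) (LL j y) = inner ℂ x y :=
  (exists_LL j).choose_spec.2 x y

/-- the annihilation operators on the other side -/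
def LA (j : ℕ) : FF →L[ℂ] FF := ContinuousLinearMap.adjoint (LL j)

lemma inner_LA (j : ℕ) (x y : FF) : inner ℂ x (LA j y) = inner ℂ (LL j x) y := by
  rw [LA, ContinuousLinearMap.adjoint_inner_right]

lemma LA_apply (j : ℕ) (y : FF) (α : List ℕ) : LA j y α = y (α ++ [j]) := by
  rw [← inner_ee_left, inner_LA, LL_ee, inner_ee_left]

lemma LA_LL_self (j : ℕ) (x : FF) : LA j (LL j x) = x := by
  refine ext_inner_left ℂ fun z => ?_
  rw [inner_LA, LL_inner]

lemma LA_LL_ne {i j : ℕ} (h : i ≠ j) (x : FF) : LA i (LL j x) = 0 := by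
  have h1 := clm_ext (T := (LA i).comp (LL j)) (T' := 0) (fun α => by
    rw [ContinuousLinearMap.comp_apply, LL_ee, zero_apply]
    ext β
    rw [LA_apply, ee_apply, if_neg]
    · rfl
    · intro h1
      have h2 := List.append_inj_right' h1 rfl
      simp only [List.cons.injEq, and_true] at h2
      exact h h2) x
  exact h1

lemma LL_RR (j n : ℕ) (x : FF) : LL j (RR n x) = RR n (LL j x) := by
  refine clm_ext (T := (LL j).comp (RR n)) (T' := (RR n).comp (LL j)) (fun α => ?_) x
  rw [ContinuousLinearMap.comp_apply, ContinuousLinearMap.comp_apply, RR_ee, LL_ee, LL_ee, RR_ee,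
    List.cons_append]

/-- the projection onto the sum of the ranges -/
def PL (m : ℕ) : FF →L[ℂ] FF := ∑ j : Fin m, (LL j).comp (LA j)

lemma PL_apply (m : ℕ) (x : FF) : PL m x = ∑ j : Fin m, LL j (LA j x) := by
  unfold PL
  rw [sum_apply]
  rfl

/-- the sum of the ranges -/
def KL (m : ℕ) : Submodule ℂ FF := LinearMap.ker ((1 - PL m : FF →L[ℂ] FF) : FF →ₗ[ℂ] FF)

lemma mem_KL {m : ℕ} {x : FF} : x ∈ KL m ↔ x = ∑ j : Fin m, LL j (LA j x) := by
  unfold KL
  rw [LinearMap.mem_ker]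
  show (1 - PL m : FF →L[ℂ] FF) x = 0 ↔ _
  rw [sub_apply, one_apply_eq_self, PL_apply, sub_eq_zero]

lemma KL_closed (m : ℕ) : IsClosed (KL m : Set FF) := (1 - PL m : FF →L[ℂ] FF).isClosed_ker

lemma LA_sum {m : ℕ} (x : Fin m → FF) (i : Fin m) : LA i (∑ j : Fin m, LL j (x j)) = x i := by
  rw [map_sum, Finset.sum_eq_single i, LA_LL_self]
  · intro j _ hj
    apply LA_LL_ne
    intro h
    exact hj (Fin.ext h.symm)
  · intro h
    exact absurd (Finset.mem_univ i) h

lemma sum_mem_KL {m : ℕ} (x : Fin m → FF) : ∑ j : Fin m, LL j (x j) ∈ KL m := by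
  rw [mem_KL]
  refine Finset.sum_congr rfl fun j _ => ?_
  rw [LA_sum]

lemma LA_RR_of_mem {m : ℕ} {x : FF} (hx : x ∈ KL m) (i : Fin m) (n : ℕ) :
    LA i (RR n x) = RR n (LA i x) := by
  have h1 : RR n x = ∑ j : Fin m, LL j (RR n (LA j x)) := by
    conv_lhs => rw [mem_KL.1 hx]
    rw [map_sum]
    exact Finset.sum_congr rfl fun j _ => (LL_RR _ _ _).symm
  rw [h1, LA_sum]

lemma RR_mem_KL {m : ℕ} {x : FF} (hx : x ∈ KL m) (n : ℕ) : RR n x ∈ KL m := by
  have h1 : RR n x = ∑ j : Fin m, LL j (RR n (LA j x)) := by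
    conv_lhs => rw [mem_KL.1 hx]
    rw [map_sum]
    exact Finset.sum_congr rfl fun j _ => (LL_RR _ _ _).symm
  rw [h1]
  exact sum_mem_KL _

lemma NN_le_KL {m : ℕ} {x : FF} (hx : x ∈ KL m) : NN x ≤ KL m := by
  refine NN_le (KL_closed m) fun α => ?_
  induction α with
  | nil => exact hx
  | cons n α ih => exact RR_mem_KL ih n

/-- finitely many vectors are multiples of one cyclic vector -/
theorem exists_factor_fin {m : ℕ} {x : Fin m → FF} (hx : x ≠ 0) :
    ∃ (Θ : Fin m → FF →L[ℂ] FF) (y : FF), (∀ j n a, Θ j (RR n a) = RR n (Θ j a)) ∧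
    (∀ j, Θ j y = x j) ∧ ∀ z, (∀ α, inner ℂ (Rw α y) z = 0) → z = 0 := by
  have hX : ∑ j : Fin m, LL j (x j) ≠ 0 := by
    intro h
    apply hx
    funext i
    rw [← LA_sum x i, h, map_zero]
    rfl
  obtain ⟨Θ, y, -, h2, h3, h4, h5⟩ := exists_factor_NN hX
  refine ⟨fun j => (LA j).comp Θ, y, fun j n a => ?_, fun j => ?_, h5⟩
  · rw [ContinuousLinearMap.comp_apply, ContinuousLinearMap.comp_apply, h2]
    exact LA_RR_of_mem (NN_le_KL (sum_mem_KL x) (h4 a)) j n
  · rw [ContinuousLinearMap.comp_apply, h3, LA_sum]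

end Fock

namespace Pick

open Fock

variable {Y : Type} [NormedAddCommGroup Y] [InnerProductSpace ℂ Y] [CompleteSpace Y] {ι : Type}
variable {k : ι → Y} {δ : Y} {b : ℕ → ι → ℂ} {β : ι → ι → ℂ}

lemma Rw_ee_nil (α : List ℕ) : Rw α (ee []) = ee α := by
  induction α with
  | nil => rfl
  | cons n α ih => rw [Rw_cons, ih, RR_ee]

lemma Rw_comm {Θ : FF →L[ℂ] FF} (hΘ : ∀ n a, Θ (RR n a) = RR n (Θ a)) (α : List ℕ) (a : FF) :
    Θ (Rw α a) = Rw α (Θ a) := by
  induction α with
  | nil => rfl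
  | cons n α ih => rw [Rw_cons, hΘ, ih, Rw_cons]

/-- finitely many functions are multiples of one multiplier-cyclic function -/
theorem Data.exists_outer_fin (D : Data k δ b β) {m : ℕ} {F : Fin m → Y} (hF : F ≠ 0) :
    ∃ (M : Fin m → Y →L[ℂ] Y) (G : Y), (∀ j, IsMul k (M j)) ∧ (∀ j, F j = M j G) ∧
      multSpan k G = ⊤ := by
  obtain ⟨C, hC⟩ := exists_CC D
  set C' : Y →L[ℂ] FF := ContinuousLinearMap.adjoint C with hC'
  have hC'i : ∀ x y, inner ℂ x (C' y) = inner ℂ (C x) y := by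
    intro x y
    rw [hC', ContinuousLinearMap.adjoint_inner_right]
  have p1 : ∀ z, C (EV D z) = k z := fun z => ext_of_tot D.tot fun w => by
    rw [hC, inner_EV]
  have p2 : ∀ y, C (C' y) = y := fun y => ext_of_tot D.tot fun z => by
    rw [hC, hC'i, p1]
  have p3 : ∀ n x z, inner ℂ (k z) (C (RR n x)) = b n z * inner ℂ (k z) (C x) := by
    intro n x z
    rw [hC, hC]
    have h1 := clm_ext (T := (innerSL ℂ (EV D z)).comp (RR n))
      (T' := b n z • innerSL ℂ (EV D z)) (fun α => by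
        rw [ContinuousLinearMap.comp_apply, RR_ee, smul_apply, innerSL_apply_apply,
          innerSL_apply_apply, inner_EV_ee, inner_EV_ee, wd_cons, smul_eq_mul]
        ring) x
    rw [ContinuousLinearMap.comp_apply, smul_apply, innerSL_apply_apply, innerSL_apply_apply,
      smul_eq_mul] at h1
    exact h1
  have p3w : ∀ (α : List ℕ) x z, inner ℂ (k z) (C (Rw α x)) =
      wd (fun n => b n z) α * inner ℂ (k z) (C x) := by
    intro α
    induction α with
    | nil => intro x z; rw [Rw_nil, wd_nil, one_mul]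
    | cons n α ih => intro x z; rw [Rw_cons, p3, ih, wd_cons, mul_assoc]
  have hx : (fun j => C' (F j)) ≠ 0 := by
    intro h
    apply hF
    funext j
    rw [← p2 (F j)]
    have h1 : C' (F j) = 0 := congrFun h j
    rw [h1, map_zero]
    rfl
  obtain ⟨Θ, y, hΘ2, hΘ3, hΘ4⟩ := exists_factor_fin hx
  set θ : Fin m → ι → ℂ := fun j z =>
    inner ℂ (k z) (C (Θ j (ee []))) / inner ℂ (k z) δ with hθ
  have p4 : ∀ j a z, inner ℂ (k z) (C (Θ j a)) = θ j z * inner ℂ (k z) (C a) := by
    intro j a z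
    have h1 := clm_ext (T := (innerSL ℂ (k z)).comp (C.comp (Θ j)))
      (T' := θ j z • (innerSL ℂ (k z)).comp C) (fun α => by
        rw [smul_apply]
        show inner ℂ (k z) (C (Θ j (ee α))) = θ j z • inner ℂ (k z) (C (ee α))
        rw [← Rw_ee_nil α, Rw_comm (hΘ2 j), p3w, p3w, smul_eq_mul, hC (ee []), inner_EV_ee,
          wd_nil, mul_one, hθ]
        have h2 := D.hδ z
        field_simp) a
    exact h1
  set G : Y := C y with hG
  refine ⟨fun j => C.comp ((Θ j).comp C'), G, fun j => ⟨θ j, fun u z => ?_⟩, fun j => ?_, ?_⟩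
  · show inner ℂ (k z) (C (Θ j (C' u))) = _
    rw [p4, p2]
  · refine ext_of_tot D.tot fun z => ?_
    show _ = inner ℂ (k z) (C (Θ j (C' G)))
    rw [p4, p2, hG, ← p4, hΘ3, p2]
  · -- cyclicity
    unfold multSpan
    rw [Submodule.topologicalClosure_eq_top_iff, Submodule.eq_bot_iff]
    intro u hu
    have h1 : ∀ α : List ℕ, ∃ M : Y →L[ℂ] Y, IsMul k M ∧ M G = C (Rw α y) := by
      have h2 : ∀ α : List ℕ, ∃ M : Y →L[ℂ] Y,
          ∀ v z, inner ℂ (k z) (M v) = wd (fun n => b n z) α * inner ℂ (k z) v := by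
        intro α
        induction α with
        | nil => exact ⟨ContinuousLinearMap.id ℂ Y, fun v z => by
            rw [ContinuousLinearMap.id_apply, wd_nil, one_mul]⟩
        | cons n α ih =>
          obtain ⟨M, hM⟩ := ih
          refine ⟨(C.comp ((RR n).comp C')).comp M, fun v z => ?_⟩
          show inner ℂ (k z) (C (RR n (C' (M v)))) = _
          rw [p3, p2, hM, wd_cons, mul_assoc]
      intro α
      obtain ⟨M, hM⟩ := h2 α
      refine ⟨M, ⟨_, hM⟩, ext_of_tot D.tot fun z => ?_⟩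
      rw [hM, p3w]
    have h2 : C' u = 0 := by
      refine hΘ4 _ fun α => ?_
      obtain ⟨M, hM, hMG⟩ := h1 α
      rw [hC'i, ← hMG]
      exact (Submodule.mem_orthogonal _ u).1 hu _ ⟨M, hM, rfl⟩
    rw [← p2 u, h2, map_zero]

end Pick

end Pool.Agent.CycP
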