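import Pool.Agent.CycP.SmG
import Pool.Agent.CycP.SmH

set_option autoImplicit false
set_option linter.unusedSectionVars false

/-! Complete Pick spaces: strong density of the polynomials in the multiplier algebra. -/

open ComplexConjugate Filter Topology

noncomputable section

namespace Pool.Agent.CycP

namespace AnSpace

variable {d : ℕ} {Ω : Set (Fin d → ℂ)} {Y : Type} [NormedAddCommGroup Y] [InnerProductSpace ℂ Y]

/-- The polynomials are dense in the multipliers in the strong operator topology: for every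
multiplier `h`, with operator `M`, all `f 1`, ..., `f m` and `ε > 0` there is a polynomial `P`,
with operator `N`, such that `h f j` and `P f j` have distance less than `ε` for all `j`. -/
def PolyDense (B : AnSpace d Ω Y) : Prop :=
  ∀ (M : Y →L[ℂ] Y) (h : (Fin d → ℂ) → ℂ), B.MulBy M h → ∀ (m : ℕ) (f : Fin m → Y) (ε : ℝ),
    0 < ε → ∃ (P : MvPolynomial (Fin d) ℂ) (N : Y →L[ℂ] Y),
      B.MulBy N (fun w => MvPolynomial.eval w P) ∧ ∀ j, ‖M (f j) - N (f j)‖ < ε

/-- Complete Pick spaces: finitely many functions are multiples of one multiplier-cyclic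
function. -/
theorem PickWith.factors_fin [CompleteSpace Y] {B : AnSpace d Ω Y} {δ : Y} (hB : B.PickWith δ)
    {m : ℕ} (F : Fin m → Y) : ∃ (Θ : Fin m → Y →L[ℂ] Y) (θ : Fin m → (Fin d → ℂ) → ℂ) (G : Y),
      (∀ j, B.MulBy (Θ j) (θ j)) ∧ B.MultCyclic G ∧ ∀ j, F j = Θ j G := by
  obtain ⟨k, b, β, D, hk⟩ := hB.exists_data
  by_cases hF : F = 0
  · refine ⟨0, fun _ _ => 0, B.poly 1, fun j => B.mulBy_zero, ?_, fun j => by simp [hF]⟩
    rw [multCyclic_iff]
    exact B.cyclic_one.msp_eq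
  · obtain ⟨M, G, hM, hFG, hG⟩ := D.exists_outer_fin hF
    choose a ha using hM
    refine ⟨M, _, G, fun j => mulBy_of_isMul hk (ha j), ?_, hFG⟩
    rw [multCyclic_iff, eq_top_iff, ← hG]
    refine Pick.multSpan_le (B.msp_closed G) ?_ (B.self_mem_msp G)
    rintro M' ⟨a', ha'⟩ x hx
    exact B.msp_inv G M' _ (mulBy_of_isMul hk ha') x hx

/-- Complete Pick spaces: every multiplier-cyclic function is shift-cyclic if and only if the
polynomials are strongly dense in the multipliers. -/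
theorem PickWith.polyDense_iff [CompleteSpace Y] {B : AnSpace d Ω Y} {δ : Y}
    (hB : B.PickWith δ) : (∀ g, B.MultCyclic g → B.Cyclic g) ↔ B.PolyDense := by
  constructor
  · intro hmc M h hM m f ε hε
    obtain ⟨Θ, θ, G, hΘ, hG, hf⟩ := hB.factors_fin f
    have hG' : closure (B.orbit G) = Set.univ := hmc G hG
    have h1 : M G ∈ closure (B.orbit G) := by rw [hG']; trivial
    rw [Metric.mem_closure_iff] at h1
    have hC : 0 < 1 + ∑ j, ‖Θ j‖ := by
      have : 0 ≤ ∑ j, ‖Θ j‖ := Finset.sum_nonneg fun j _ => norm_nonneg _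
      linarith
    obtain ⟨x, ⟨P, hP⟩, hx⟩ := h1 (ε / (1 + ∑ j, ‖Θ j‖)) (by positivity)
    obtain ⟨N, hN⟩ := B.exists_mul P
    have hNm : B.MulBy N (fun w => MvPolynomial.eval w P) := hN
    have hxN : x = N G := B.fn_ext fun w hw => by rw [hP w hw, hN G w hw]
    refine ⟨P, N, hNm, fun j => ?_⟩
    have h2 : M (f j) - N (f j) = Θ j (M G - N G) := by
      rw [hf j, hM.comm (hΘ j), hNm.comm (hΘ j), map_sub]
    rw [dist_eq_norm, hxN] at hx
    have h3 : ‖Θ j‖ < 1 + ∑ j, ‖Θ j‖ := by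
      have : ‖Θ j‖ ≤ ∑ j, ‖Θ j‖ :=
        Finset.single_le_sum (f := fun j => ‖Θ j‖) (fun j _ => norm_nonneg _)
          (Finset.mem_univ j)
      linarith
    rw [h2]
    calc ‖Θ j (M G - N G)‖ ≤ ‖Θ j‖ * ‖M G - N G‖ := (Θ j).le_opNorm _
      _ ≤ (1 + ∑ j, ‖Θ j‖) * ‖M G - N G‖ :=
          mul_le_mul_of_nonneg_right h3.le (norm_nonneg _)
      _ < (1 + ∑ j, ‖Θ j‖) * (ε / (1 + ∑ j, ‖Θ j‖)) := mul_lt_mul_of_pos_left hx hC
      _ = ε := by field_simp
  · intro hd g hg
    unfold MultCyclic at hg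
    have h1 : {x | ∃ h, B.IsMultiplier h ∧ ∀ w ∈ Ω, B.fn x w = h w * B.fn g w} ⊆
        closure (B.orbit g) := by
      rintro x ⟨h, hh, hx⟩
      obtain ⟨M, hM⟩ := hh.exists_opr
      have hxM : x = M g := B.fn_ext fun w hw => by rw [hx w hw, hM g w hw]
      rw [Metric.mem_closure_iff]
      intro ε hε
      obtain ⟨P, N, hN, hlt⟩ := hd M h hM 1 (fun _ => g) ε hε
      refine ⟨N g, ⟨P, hN g⟩, ?_⟩
      rw [dist_eq_norm, hxM]
      exact hlt 0
    have h2 := closure_minimal h1 isClosed_closure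
    rw [hg] at h2
    exact Set.univ_subset_iff.1 h2

/-- Equivalent forms of (CP) for complete Pick spaces. -/
theorem PickWith.tfae_six [CompleteSpace Y] {B : AnSpace d Ω Y} {δ : Y} (hB : B.PickWith δ) :
    List.TFAE [B.CP ∧ B.Cyclic δ, B.CPd 1 ∧ B.Cyclic δ, B.OneSub ∧ B.Cyclic δ,
      ∀ g, B.MultCyclic g → B.Cyclic g, B.Lattice, B.PolyDense] := by
  have h := hB.tfae
  tfae_have 1 ↔ 2 := h.out 0 1
  tfae_have 1 ↔ 3 := h.out 0 2
  tfae_have 1 ↔ 4 := h.out 0 3
  tfae_have 1 ↔ 5 := h.out 0 4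
  tfae_have 4 ↔ 6 := hB.polyDense_iff
  tfae_finish

end AnSpace

end Pool.Agent.CycP
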